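import Pool.Agent.Lib.Wsm.Algo

/-!
# Tables of bits

Elementary lists.  Auxiliary lemmas: namespace `Pool.Agent.Lib.Wsm.TabAux`.
-/

namespace Pool.Agent.Lib.Wsm

open Finset Equiv

namespace TabAux

theorem flatMap_getD {β : Type*} (f : β → List Bool) (c : ℕ) (L : List β)
    (hf : ∀ x ∈ L, (f x).length = c) :
    ∀ (l : ℕ) (hl : l < L.length) (j : ℕ), j < c →
      (L.flatMap f).getD (l * c + j) false = (f L[l]).getD j false := by
  induction L with
  | nil => intro l hl; simp at hl
  | cons x L ih =>
    intro l hl j hj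
    have hx : (f x).length = c := hf x (by simp)
    rw [List.flatMap_cons]
    cases l with
    | zero =>
      rw [Nat.zero_mul, Nat.zero_add, List.getD_append _ _ _ _ (by omega)]
      rfl
    | succ l =>
      have e : (l + 1) * c + j = (f x).length + (l * c + j) := by rw [hx]; ring
      rw [e, List.getD_append_right _ _ _ _ (by omega), Nat.add_sub_cancel_left]
      have hl' : l < L.length := by simpa using hl
      rw [ih (fun y hy => hf y (by simp [hy])) l hl' j hj]
      rfl

theorem map_getD {n j : ℕ} (hj : j < n) (f : ℕ → Bool) :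
    ((List.range n).map f).getD j false = f j := by
  rw [List.getD_eq_getElem _ _ (by simpa using hj)]
  simp

end TabAux

open TabAux

theorem mk2_length (r n : ℕ) (f : ℕ → ℕ → Bool) : (mk2 r n f).length = r * n := by
  unfold mk2
  rw [List.length_flatMap]
  simp

theorem mk3_length (r n : ℕ) (f : ℕ → ℕ → ℕ → Bool) : (mk3 r n f).length = r * (n * n) := by
  unfold mk3
  rw [List.length_flatMap]
  simp [mk2_length]

theorem g2_mk2 {r n i j : ℕ} (hi : i < r) (hj : j < n) (f : ℕ → ℕ → Bool) :
    g2 n (mk2 r n f) i j = f i j := by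
  unfold g2 mk2
  rw [flatMap_getD (fun i => (List.range n).map (fun j => f i j)) n (List.range r)
    (by intro x _; simp) i (by simpa using hi) j hj, map_getD hj]
  simp

theorem g3_mk3 {r n i j k : ℕ} (hi : i < r) (hj : j < n) (hk : k < n)
    (f : ℕ → ℕ → ℕ → Bool) : g3 n (mk3 r n f) i j k = f i j k := by
  have hjk : j * n + k < n * n := by
    calc j * n + k < j * n + n := by omega
      _ = (j + 1) * n := by ring
      _ ≤ n * n := Nat.mul_le_mul_right _ hj
  have h1 := g2_mk2 hj hk (f i)
  unfold g2 at h1
  unfold g3 mk3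
  have e : (i * n + j) * n + k = i * (n * n) + (j * n + k) := by ring
  rw [e, flatMap_getD (fun i => mk2 n n (f i)) (n * n) (List.range r)
    (by intro x _; exact mk2_length _ _ _) i (by simpa using hi) (j * n + k) hjk]
  simp only [List.getElem_range]
  exact h1

theorem mk2_congr {r n : ℕ} {f g : ℕ → ℕ → Bool} (h : ∀ i < r, ∀ j < n, f i j = g i j) :
    mk2 r n f = mk2 r n g := by
  unfold mk2
  apply List.flatMap_congr
  intro i hi
  apply List.map_congr_left
  intro j hj
  exact h i (List.mem_range.1 hi) j (List.mem_range.1 hj)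

theorem mk3_congr {r n : ℕ} {f g : ℕ → ℕ → ℕ → Bool}
    (h : ∀ i < r, ∀ j < n, ∀ k < n, f i j k = g i j k) : mk3 r n f = mk3 r n g := by
  unfold mk3
  apply List.flatMap_congr
  intro i hi
  exact mk2_congr (h i (List.mem_range.1 hi))

theorem lst_le (n : ℕ) (P : ℕ → Prop) : lst n P ≤ n := by
  unfold lst
  have h := Finset.card_le_card (@Finset.filter_subset ℕ (fun z => ∀ z' ∈ range (z + 1), ¬ P z')
    (fun _ => Classical.propDecidable _) (range n))
  rwa [Finset.card_range] at h

theorem lst_spec {n : ℕ} {P : ℕ → Prop} (h : ∃ z < n, P z) :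
    lst n P < n ∧ P (lst n P) ∧ ∀ z < lst n P, ¬ P z := by
  classical
  have hex : ∃ z, P z := by
    obtain ⟨z, -, hz⟩ := h
    exact ⟨z, hz⟩
  have hlt : Nat.find hex < n := by
    obtain ⟨z, hz, hz'⟩ := h
    exact lt_of_le_of_lt (Nat.find_le hz') hz
  have e : lst n P = Nat.find hex := by
    have h1 : (@Finset.filter ℕ (fun z => ∀ z' ∈ range (z + 1), ¬ P z')
        (fun _ => Classical.propDecidable _) (range n)) = range (Nat.find hex) := by
      ext z
      simp only [Finset.mem_filter, Finset.mem_range]
      constructor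
      · rintro ⟨-, h2⟩
        by_contra h3
        exact h2 (Nat.find hex) (by omega) (Nat.find_spec hex)
      · intro h2
        refine ⟨by omega, fun z' hz' => ?_⟩
        exact Nat.find_min hex (by omega)
    unfold lst
    rw [h1, Finset.card_range]
  rw [e]
  exact ⟨hlt, Nat.find_spec hex, fun z hz => Nat.find_min hex hz⟩

variable {n : ℕ}

/-- the bits of a permutation: bit `(m, w)` tells whether `M m = w` -/
def permBits (M : Perm (Fin n)) : List Bool :=
  mk2 n n (fun m w => decide (∃ h : m < n, ((M ⟨m, h⟩ : Fin n) : ℕ) = w))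

theorem permBits_length (M : Perm (Fin n)) : (permBits M).length = n * n := mk2_length _ _ _

theorem g2_permBits (M : Perm (Fin n)) (m w : Fin n) :
    g2 n (permBits M) m w = decide (M m = w) := by
  unfold permBits
  rw [g2_mk2 m.2 w.2]
  apply decide_eq_decide.2
  constructor
  · rintro ⟨_, h⟩
    exact Fin.ext h
  · intro h
    exact ⟨m.2, by rw [← h]⟩

theorem permBits_inj {M M' : Perm (Fin n)} (h : permBits M = permBits M') : M = M' := by
  ext m
  have h1 := g2_permBits M m (M m)
  rw [h, g2_permBits M' m (M m)] at h1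
  simp only [decide_true, decide_eq_true_eq] at h1
  rw [h1]

theorem mk2_eq_permBits {M : Perm (Fin n)} {f : ℕ → ℕ → Bool}
    (h : ∀ m w : Fin n, f m w = decide (M m = w)) : mk2 n n f = permBits M := by
  unfold permBits
  apply mk2_congr
  intro i hi j hj
  have h1 := h ⟨i, hi⟩ ⟨j, hj⟩
  simp only at h1
  rw [h1]
  apply decide_eq_decide.2
  constructor
  · intro h2
    exact ⟨hi, by rw [h2]⟩
  · rintro ⟨_, h2⟩
    exact Fin.ext h2

theorem g3_perms (L : List (Perm (Fin n))) (l : ℕ) (hl : l < L.length) (m w : Fin n) :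
    g3 n (L.flatMap permBits) l m w = decide (L[l] m = w) := by
  have hmw : (m : ℕ) * n + w < n * n := by
    calc (m : ℕ) * n + w < m * n + n := by omega
      _ = (m + 1) * n := by ring
      _ ≤ n * n := Nat.mul_le_mul_right _ m.2
  rw [← g2_permBits]
  unfold g3 g2
  have e : (l * n + (m : ℕ)) * n + w = l * (n * n) + (m * n + w) := by ring
  rw [e, flatMap_getD permBits (n * n) L (by intro x _; exact permBits_length x) l hl _ hmw]

end Pool.Agent.Lib.Wsm
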