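import Pool.Agent.Lib.Wsm.Tab

/-!
# Polynomial time: tables, least index, iteration, recursion on tables

Wsm.PTab.  Auxiliary lemmas: namespace `Pool.Agent.Lib.Wsm.PTabAux`.
Toolkit (read it first): `Pool/Agent/Lib/PolyTime/Comb.lean`, `Pool/Agent/Lib/Pa7c826/Comb2.lean`,
`Pool/Agent/Lib/P8e91ed/PolyBin.lean` (namespace `PT`: `Dx`, `cx`, `cU`, `nU`, `bU`, `nL`, `PolyP`, `PolyZ`,
`n_card`, `nSum`, ...).

Hints.  `poly_mk2`, `poly_mk3`: `PolyC.flatMap_range`, `PolyC.map_range` (`cMap`).  `poly_g2`, `poly_g3`: `PolyB.getD`.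
`poly_lst`: `n_card` and `PolyP.forall_range`, `PolyP.not`.  `b_ofP`: from `⟨φ, h1, h2⟩`, `PolyB.congr`.
`poly_iterN`: `PolyC.natRec` with `F a k = un ((f a)^[k] (x a))`; the step is `hf` reindexed
(`PolyC.reindex`) along `p ↦ (p.1, (f p.1)^[p.2] (x p.1))`, `Function.iterate_succ_apply'`, then
`PolyC.changeCtx`/`PolyC.subset`.  `poly_tabRec`: `PolyC.natRec` with
`F a k = (List.range (N a)).map (f a k)` (length `N a`), step `PolyC.map_range`.
-/

set_option autoImplicit false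

namespace Pool.Agent.Lib.Wsm

open Finset Equiv Pool.Agent.Lib.PolyTime Pool.Agent.Lib.Pa7c826 Pool.Agent.Lib.P8e91ed.PT

variable {α : Type*} {D : α → Prop} {ctx : List (α → List Bool)}

namespace PTabAux

theorem pull {β : Type*} {t : α → List Bool} (h : PolyC D ctx t) (π : β → α) {E : β → Prop}
    (hE : ∀ b, E b → D (π b)) {ctx' : List (β → List Bool)}
    (hctx : ∀ f ∈ ctx, ∃ g ∈ ctx', ∀ b, E b → g b = f (π b)) :
    PolyC E ctx' (fun b => t (π b)) := by
  refine (h.reindex π hE).changeCtx ?_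
  intro f hf
  obtain ⟨g, hg, rfl⟩ := List.mem_map.1 hf
  exact hctx g hg

theorem mem_cx {f : α × ℕ → List Bool} (hf : f ∈ cx ctx) :
    (∃ g ∈ ctx, f = fun p => g p.1) ∨ f = fun p => un p.2 := by
  simp only [cx, PolyTime.lift, List.mem_append, List.mem_map, List.mem_singleton] at hf
  rcases hf with ⟨g, hg, rfl⟩ | rfl
  · exact Or.inl ⟨g, hg, rfl⟩
  · exact Or.inr rfl

end PTabAux

open PTabAux

theorem poly_mk2 {r n : α → ℕ} {f : α → ℕ → ℕ → Bool} (hr : PolyN D ctx r) (hn : PolyN D ctx n)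
    (hf : PolyB (Dx (Dx D r) (fun p => n p.1)) (cx (cx ctx)) (fun q => f q.1.1 q.1.2 q.2)) :
    PolyC D ctx (fun a => mk2 (r a) (n a) (f a)) :=
  PolyC.flatMap_range
    (t := fun p : α × ℕ => (List.range (n p.1)).map (fun j => f p.1 p.2 j)) hr
    (PolyC.map_range (φ := fun q : (α × ℕ) × ℕ => f q.1.1 q.1.2 q.2) (nU hn) hf)

theorem poly_mk3 {r n : α → ℕ} {f : α → ℕ → ℕ → ℕ → Bool} (hr : PolyN D ctx r)
    (hn : PolyN D ctx n)
    (hf : PolyB (Dx (Dx (Dx D r) (fun p => n p.1)) (fun q => n q.1.1)) (cx (cx (cx ctx)))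
      (fun q => f q.1.1.1 q.1.1.2 q.1.2 q.2)) :
    PolyC D ctx (fun a => mk3 (r a) (n a) (f a)) :=
  PolyC.flatMap_range (t := fun p : α × ℕ => mk2 (n p.1) (n p.1) (f p.1 p.2)) hr
    (poly_mk2 (r := fun p : α × ℕ => n p.1) (n := fun p : α × ℕ => n p.1)
      (f := fun (p : α × ℕ) i j => f p.1 p.2 i j) (nU hn) (nU hn) hf)

theorem poly_g2 {n i j : α → ℕ} {t : α → List Bool} (hn : PolyN D ctx n) (ht : PolyC D ctx t)
    (hi : PolyN D ctx i) (hj : PolyN D ctx j) :
    PolyB D ctx (fun a => g2 (n a) (t a) (i a) (j a)) :=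
  PolyB.getD ht ((hi.mul hn).add hj)

theorem poly_g3 {n i j k : α → ℕ} {t : α → List Bool} (hn : PolyN D ctx n)
    (ht : PolyC D ctx t) (hi : PolyN D ctx i) (hj : PolyN D ctx j) (hk : PolyN D ctx k) :
    PolyB D ctx (fun a => g3 (n a) (t a) (i a) (j a) (k a)) :=
  PolyB.getD ht ((((hi.mul hn).add hj).mul hn).add hk)

theorem b_ofP {P : α → Prop} {_ : ∀ a, Decidable (P a)} (h : PolyP D ctx P) :
    PolyB D ctx (fun a => decide (P a)) := by
  obtain ⟨φ, h1, h2⟩ := h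
  refine h1.congr (fun a ha => ?_)
  rw [Bool.eq_iff_iff, h2 a ha, decide_eq_true_eq]

theorem p_eqB {b c : α → Bool} (hb : PolyB D ctx b) (hc : PolyB D ctx c) :
    PolyP D ctx (fun a => b a = c a) := by
  refine ⟨fun a => if b a then c a else !(c a), PolyB.ite hb (PolyC.mono hc fun _ h => h.1)
    (PolyC.mono (PolyB.not hc) fun _ h => h.1), fun a _ => ?_⟩
  beta_reduce
  cases b a <;> cases c a <;> simp

theorem c_ite {P : α → Prop} {_ : ∀ a, Decidable (P a)} {t u : α → List Bool}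
    (hP : PolyP D ctx P) (ht : PolyC D ctx t) (hu : PolyC D ctx u) :
    PolyC D ctx (fun a => if P a then t a else u a) := by
  obtain ⟨φ, h1, h2⟩ := hP
  refine (PolyC.ite h1 (ht.mono fun _ h => h.1) (hu.mono fun _ h => h.1)).congr
    (fun a ha => ?_)
  beta_reduce
  by_cases h : P a
  · rw [if_pos ((h2 a ha).2 h), if_pos h]
  · rw [if_neg (fun hc => h ((h2 a ha).1 hc)), if_neg h]

theorem poly_lst {n : α → ℕ} {P : α → ℕ → Prop} (hn : PolyN D ctx n)
    (hP : PolyP (Dx D n) (cx ctx) (fun p => P p.1 p.2)) :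
    PolyN D ctx (fun a => lst (n a) (P a)) := by
  unfold lst
  refine n_card (P := fun a z => ∀ z' ∈ range (z + 1), ¬ P a z') hn ?_
  refine PolyP.forall_range (n := fun p : α × ℕ => p.2 + 1)
    (P := fun (p : α × ℕ) z' => ¬ P p.1 z') nL.succ ?_
  refine PolyP.not ?_
  obtain ⟨φ, h1, h2⟩ := hP
  refine ⟨fun q => φ (q.1.1, q.2), ?_, fun q hq => h2 (q.1.1, q.2) ⟨hq.1.1, ?_⟩⟩
  · refine pull h1 (fun q : (α × ℕ) × ℕ => (q.1.1, q.2)) ?_ ?_
    · rintro q ⟨⟨hq1, hq2⟩, hq3⟩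
      exact ⟨hq1, by simp only at hq3 ⊢; omega⟩
    · intro f hf
      rcases mem_cx hf with ⟨g, hg, rfl⟩ | rfl
      · refine ⟨fun q => g q.1.1, ?_, fun _ _ => rfl⟩
        simp only [cx, PolyTime.lift, List.mem_append, List.mem_map, List.mem_singleton]
        exact Or.inl ⟨fun p => g p.1, Or.inl ⟨g, hg, rfl⟩, rfl⟩
      · refine ⟨fun q => un q.2, ?_, fun _ _ => rfl⟩
        simp [cx]
  · have h3 := hq.2
    have h4 := hq.1.2
    simp only at h3 ⊢
    omega

theorem poly_iterN {k x B : α → ℕ} {f : α → ℕ → ℕ} (hk : PolyN D ctx k) (hx : PolyN D ctx x)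
    (hB : PolyN D ctx B) (hb : ∀ a, D a → ∀ i ≤ k a, (f a)^[i] (x a) ≤ B a)
    (hf : PolyN (Dx D (fun a => B a + 1)) (cx ctx) (fun p => f p.1 p.2)) :
    PolyN D ctx (fun a => (f a)^[k a] (x a)) := by
  obtain ⟨pB, hpB⟩ := PolyC.length_le hB
  refine PolyC.natRec (fun a i => un ((f a)^[i] (x a))) hk hx ?_ ⟨pB, fun a ha i hi => ?_⟩
  · have h := pull hf (fun p : α × ℕ => (p.1, (f p.1)^[p.2] (x p.1)))
      (E := fun p : α × ℕ => D p.1 ∧ p.2 < k p.1)
      (ctx' := PolyTime.lift ctx ++ [fun p => un p.2, fun p => un ((f p.1)^[p.2] (x p.1))])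
      (fun p hp => ⟨hp.1, Nat.lt_succ_of_le (hb p.1 hp.1 p.2 hp.2.le)⟩) ?_
    · refine h.congr (fun p _ => ?_)
      rw [Function.iterate_succ_apply']
    · intro g hg
      rcases mem_cx hg with ⟨g', hg', rfl⟩ | rfl
      · refine ⟨fun p => g' p.1, ?_, fun _ _ => rfl⟩
        simp only [PolyTime.lift, List.mem_append, List.mem_map]
        exact Or.inl ⟨g', hg', rfl⟩
      · exact ⟨fun p => un ((f p.1)^[p.2] (x p.1)), by simp, fun _ _ => rfl⟩
  · have h1 := hpB a ha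
    rw [un_length] at h1 ⊢
    exact (hb a ha i hi).trans h1

theorem poly_tabRec {k N : α → ℕ} {f : α → ℕ → ℕ → Bool} (hk : PolyN D ctx k)
    (hN : PolyN D ctx N) (h0 : PolyB (Dx D N) (cx ctx) (fun p => f p.1 0 p.2))
    (hs : PolyB (Dx (fun p : α × ℕ => D p.1 ∧ p.2 < k p.1) (fun p => N p.1))
      (cx (PolyTime.lift ctx ++ [fun p => un p.2, fun p => (List.range (N p.1)).map (f p.1 p.2)]))
      (fun q => f q.1.1 (q.1.2 + 1) q.2)) :
    PolyC D ctx (fun a => (List.range (N a)).map (f a (k a))) := by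
  obtain ⟨pN, hpN⟩ := PolyC.length_le hN
  refine PolyC.natRec (fun a i => (List.range (N a)).map (f a i)) hk
    (PolyC.map_range (φ := fun p : α × ℕ => f p.1 0 p.2) hN h0) ?_
    ⟨pN, fun a ha i _ => ?_⟩
  · refine PolyC.map_range (φ := fun q : (α × ℕ) × ℕ => f q.1.1 (q.1.2 + 1) q.2)
      (n := fun p : α × ℕ => N p.1) ?_ hs
    exact (PolyC.lift hN (fun _ hp => hp.1)).weakenRight _
  · have h1 := hpN a ha
    rw [un_length] at h1
    simpa using h1

/-- substitution of a computed value for the last variable -/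
theorem poly_subst {n v : α → ℕ} {t : α × ℕ → List Bool} (hv : PolyN D ctx v)
    (hvn : ∀ a, D a → v a < n a) (ht : PolyC (Dx D n) (cx ctx) t) :
    PolyC D ctx (fun a => t (a, v a)) := by
  have h := ht.reindex (D' := D) (fun a => (a, v a)) (fun a ha => ⟨ha, hvn a ha⟩)
  refine PolyC.comp h ?_
  intro f hf
  obtain ⟨g, hg, rfl⟩ := List.mem_map.1 hf
  rcases mem_cx hg with ⟨g', hg', rfl⟩ | rfl
  · exact PolyC.var hg'
  · exact hv

/-- the data are computable in polynomial time -/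
structure PDat {α : Type*} (D : α → Prop) (ctx : List (α → List Bool)) (d : α → Dat) : Prop where
  n : PolyN D ctx (fun a => (d a).n)
  K : PolyN D ctx (fun a => (d a).K)
  tA : PolyC D ctx (fun a => (d a).tA)
  tB : PolyC D ctx (fun a => (d a).tB)
  tP : PolyC D ctx (fun a => (d a).tP)
  W : PolyN D ctx (fun a => (d a).W)
  tG : PolyC D ctx (fun a => (d a).tG)
  c : PolyN D ctx (fun a => (d a).c)

variable {d : α → Dat}

theorem cWeak {t : α → List Bool} (h : PolyC D ctx t) {E : α × ℕ → Prop}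
    (hE : ∀ p, E p → D p.1) (l : List (α × ℕ → List Bool)) :
    PolyC E (PolyTime.lift ctx ++ l) (fun p => t p.1) :=
  (PolyC.lift h hE).weakenRight l

/-- for the contexts of `PolyC.natRec` -/
theorem PDat.weak (h : PDat D ctx d) {E : α × ℕ → Prop} (hE : ∀ p, E p → D p.1)
    (l : List (α × ℕ → List Bool)) : PDat E (PolyTime.lift ctx ++ l) (fun p => d p.1) where
  n := cWeak h.n hE l
  K := cWeak h.K hE l
  tA := cWeak h.tA hE l
  tB := cWeak h.tB hE l
  tP := cWeak h.tP hE l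
  W := cWeak h.W hE l
  tG := cWeak h.tG hE l
  c := cWeak h.c hE l

theorem PDat.up (h : PDat D ctx d) {m : α → ℕ} : PDat (Dx D m) (cx ctx) (fun p => d p.1) :=
  h.weak (fun _ hp => hp.1) _

theorem PDat.mono (h : PDat D ctx d) {D' : α → Prop} (hD : ∀ a, D' a → D a) :
    PDat D' ctx d where
  n := PolyC.mono h.n hD
  K := PolyC.mono h.K hD
  tA := PolyC.mono h.tA hD
  tB := PolyC.mono h.tB hD
  tP := PolyC.mono h.tP hD
  W := PolyC.mono h.W hD
  tG := PolyC.mono h.tG hD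
  c := PolyC.mono h.c hD

end Pool.Agent.Lib.Wsm
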