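import Pool.Agent.Lib.Wsm.Algo

/-!
# A machine that repeats a polynomial-time step

Registers: 0 = `x`, 1 = the list `y`, 2 = the last step.  Let `P` be a program for `hstep`. The
program is `P ; loop 2 (move 1 2 3 ; move 2 1 3 ; P) ; clear 0`.
-/

namespace Pool.Agent.Lib.Wsm

open Pool.Agent.Lib.PolyTime

namespace LoopAux

theorem inputRegs_eq (x : List Bool) : inputRegs x = R [x, []] := by
  have h : R [x, []] = R [x] := R_append_nil [x]
  rw [h]
  funext i
  rcases i with _ | i
  · rfl
  · simp [inputRegs, R]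

theorem outputRegs_eq (x y : List Bool) : Function.update (R [x, y]) 0 [] = outputRegs y := by
  funext i
  rcases i with _ | _ | i
  · rfl
  · rfl
  · simp [outputRegs, R]

theorem run_mv1 (x y s : List Bool) :
    Run (move 1 2 3) (R [x, y, s]) (R [x, [], y ++ s]) (8 * y.length + 2) := by
  have h := run_move (r := 1) (s := 2) (tmp := 3) (by omega) (by omega) (by omega) (R [x, y, s]) rfl
  refine h.cast ?_ rfl
  funext i
  rcases i with _ | _ | _ | i
  · rfl
  · rfl
  · rfl
  · simp [R]

theorem run_mv2 (x s : List Bool) :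
    Run (move 2 1 3) (R [x, [], s]) (R [x, s]) (8 * s.length + 2) := by
  have h := run_move (r := 2) (s := 1) (tmp := 3) (by omega) (by omega) (by omega) (R [x, [], s]) rfl
  refine h.cast ?_ rfl
  funext i
  rcases i with _ | _ | _ | i
  · rfl
  · change s ++ [] = s
    simp
  · rfl
  · simp [R]

end LoopAux

theorem loop_machine (step : List Bool → List Bool → List Bool)
    (D : List Bool × List Bool → Prop)
    (hstep : PolyC D [fun p => p.1, fun p => p.2]
      (fun p : List Bool × List Bool => step p.1 p.2)) :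
    ∃ (P : Prog) (q : Polynomial ℕ), ∀ (x : List Bool) (k : ℕ) (y : ℕ → List Bool),
      y 0 = [] → (∀ i ≤ k, D (x, y i)) →
      (∀ i < k, step x (y i) ≠ [] ∧ y (i + 1) = y i ++ step x (y i)) →
      step x (y k) = [] →
      ∃ t ≤ q.eval (x.length + (y k).length + k), Run P (inputRegs x) (outputRegs (y k)) t := by
  obtain ⟨P₀, p, hP⟩ := hstep
  have hP' : ∀ x y : List Bool, D (x, y) → ∃ n, n ≤ p.eval (x.length + y.length) ∧
      Run P₀ (R [x, y]) (R [x, y, step x y]) n := by
    intro x y hD
    obtain ⟨n, h1, h2⟩ := hP (x, y) hD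
    refine ⟨n, ?_, h2⟩
    simpa using h1
  refine ⟨.seq P₀ (.seq (.loop 2 (.seq (move 1 2 3) (.seq (move 2 1 3) P₀))) (clear 0)),
    p + Polynomial.X * (16 * Polynomial.X + 5 + p) + 2 * Polynomial.X + 2, ?_⟩
  intro x k y hy0 hD hst hend
  have hmono : ∀ j ≤ k, (y (k - j)).length ≤ (y k).length := by
    intro j
    induction j with
    | zero => intro _; exact le_rfl
    | succ j ih =>
      intro hj
      have h1 := ih (by omega)
      have h2 := (hst (k - (j + 1)) (by omega)).2
      rw [show k - (j + 1) + 1 = k - j by omega] at h2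
      rw [h2, List.length_append] at h1
      omega
  set L := (y k).length with hL
  set C := 16 * L + 5 + p.eval (x.length + L) with hC
  have hloop : ∀ j ≤ k, ∃ t ≤ j * C + 1,
      Run (.loop 2 (.seq (move 1 2 3) (.seq (move 2 1 3) P₀)))
        (R [x, y (k - j), step x (y (k - j))]) (R [x, y k]) t := by
    intro j
    induction j with
    | zero =>
      intro _
      refine ⟨1, by omega, ?_⟩
      rw [Nat.sub_zero, hend]
      have h1 : Run (.loop 2 (.seq (move 1 2 3) (.seq (move 2 1 3) P₀))) (R [x, y k, []])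
          (R [x, y k, []]) 1 := Run.loopNil rfl
      exact h1.cast (R_append_nil [x, y k]) rfl
    | succ j ih =>
      intro hj
      obtain ⟨t, ht, hr⟩ := ih (by omega)
      obtain ⟨h1, h2⟩ := hst (k - (j + 1)) (by omega)
      rw [show k - (j + 1) + 1 = k - j by omega] at h2
      obtain ⟨n, hn, hrun⟩ := hP' x (y (k - j)) (hD _ (by omega))
      have hb := hmono j (by omega)
      have hb' := hmono (j + 1) hj
      have h3 := LoopAux.run_mv1 x (y (k - (j + 1))) (step x (y (k - (j + 1))))
      rw [← h2] at h3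
      have h4 := LoopAux.run_mv2 x (y (k - j))
      have h5 := Run.loopCons (r := 2)
        (S := R [x, y (k - (j + 1)), step x (y (k - (j + 1)))]) h1
        (Run.seq h3 (Run.seq h4 hrun)) hr
      refine ⟨_, ?_, h5⟩
      have h6 : p.eval (x.length + (y (k - j)).length) ≤ p.eval (x.length + L) :=
        eval_mono p (by omega)
      have h7 : (j + 1) * C = j * C + C := by ring
      omega
  obtain ⟨n, hn, hrun⟩ := hP' x (y 0) (hD 0 (Nat.zero_le _))
  obtain ⟨t, ht, hr⟩ := hloop k le_rfl
  rw [Nat.sub_self] at hr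
  have hcl := (run_clear 0 (R [x, y k])).cast (LoopAux.outputRegs_eq x (y k)) rfl
  have hin : R [x, y 0] = inputRegs x := by rw [hy0, LoopAux.inputRegs_eq]
  rw [hin] at hrun
  refine ⟨_, ?_, Run.seq hrun (Run.seq hr hcl)⟩
  have e1 : (R [x, y k] 0).length = x.length := rfl
  rw [e1]
  simp only [Polynomial.eval_add, Polynomial.eval_mul, Polynomial.eval_X, Polynomial.eval_ofNat]
  rw [hy0, List.length_nil, Nat.add_zero] at hn
  set M := x.length + L + k with hM
  have h1 : p.eval x.length ≤ p.eval M := eval_mono p (by omega)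
  have h2 : p.eval (x.length + L) ≤ p.eval M := eval_mono p (by omega)
  have h3 : k * C ≤ M * (16 * M + 5 + p.eval M) := Nat.mul_le_mul (by omega) (by omega)
  omega

end Pool.Agent.Lib.Wsm
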