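import Pool.Agent.Lib.Wsm.StepSpec
import Pool.Agent.Lib.Wsm.Loop

/-!
# The listing machine
-/

set_option autoImplicit false

namespace Pool.Agent.Lib.Wsm

open Finset Equiv Pool.Agent.Lib.PolyTime

namespace FinalAux

open StepSpecAux Classical

/-- one more matching, if the step finds one -/
noncomputable def grow (I : SMT) (L : List (Perm (Fin I.n))) : List (Perm (Fin I.n)) :=
  if h : ∃ M, M ∉ L ∧ WeaklyStable I M ∧ step (encI I) (encL L) = true :: encM M then
    L ++ [h.choose] else L

/-- the lists -/
noncomputable def Ls (I : SMT) (i : ℕ) : List (Perm (Fin I.n)) := (grow I)^[i] []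

theorem grow_cases (I : SMT) (hI : ShortSide I) (L : List (Perm (Fin I.n))) (hnd : L.Nodup)
    (hst : ∀ M ∈ L, WeaklyStable I M) :
    (step (encI I) (encL L) = [] ∧ (∀ M, WeaklyStable I M → M ∈ L)) ∨
      ((grow I L).Nodup ∧ (∀ M ∈ grow I L, WeaklyStable I M) ∧
        (grow I L).length = L.length + 1 ∧ step (encI I) (encL L) ≠ [] ∧
        encL (grow I L) = encL L ++ step (encI I) (encL L)) := by
  rcases step_spec I hI L hnd hst with h | h
  · exact Or.inl h
  · right
    have hg : grow I L = L ++ [h.choose] := by unfold grow; rw [dif_pos h]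
    obtain ⟨h1, h2, h3⟩ := h.choose_spec
    rw [hg]
    refine ⟨?_, ?_, by simp, by rw [h3]; simp, ?_⟩
    · rw [List.nodup_append]
      refine ⟨hnd, by simp, ?_⟩
      intro a ha b hb
      rw [List.mem_singleton] at hb
      intro e
      rw [hb] at e
      rw [e] at ha
      exact h1 ha
    · intro M hM
      rw [List.mem_append, List.mem_singleton] at hM
      rcases hM with hM | hM
      · exact hst M hM
      · rw [hM]; exact h2
    · have h4 : encL (L ++ [h.choose]) = encL L ++ (true :: encM h.choose) := by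
        unfold encL
        rw [List.flatMap_append]
        simp
      exact h4.trans (congrArg (encL L ++ ·) h3.symm)

theorem exists_stop (I : SMT) (hI : ShortSide I) :
    ∃ k : ℕ, (∀ i ≤ k, (Ls I i).Nodup ∧ (∀ M ∈ Ls I i, WeaklyStable I M) ∧
        (Ls I i).length = i) ∧
      (∀ i < k, step (encI I) (encL (Ls I i)) ≠ [] ∧
        encL (Ls I (i + 1)) = encL (Ls I i) ++ step (encI I) (encL (Ls I i))) ∧
      step (encI I) (encL (Ls I k)) = [] ∧ ∀ M, WeaklyStable I M → M ∈ Ls I k := by
  -- as long as no stop occurs the invariants hold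
  have key : ∀ k : ℕ, (∀ i < k, ¬ (step (encI I) (encL (Ls I i)) = [] ∧
      (∀ M, WeaklyStable I M → M ∈ Ls I i))) →
      (∀ i ≤ k, (Ls I i).Nodup ∧ (∀ M ∈ Ls I i, WeaklyStable I M) ∧ (Ls I i).length = i) ∧
      (∀ i < k, step (encI I) (encL (Ls I i)) ≠ [] ∧
        encL (Ls I (i + 1)) = encL (Ls I i) ++ step (encI I) (encL (Ls I i))) := by
    intro k
    induction k with
    | zero =>
      intro _
      refine ⟨fun i hi => ?_, fun i hi => absurd hi (by omega)⟩
      have : i = 0 := by omega
      subst this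
      simp [Ls]
    | succ k ih =>
      intro h
      obtain ⟨h1, h2⟩ := ih (fun i hi => h i (by omega))
      obtain ⟨a1, a2, a3⟩ := h1 k le_rfl
      have e : Ls I (k + 1) = grow I (Ls I k) := by
        unfold Ls; rw [Function.iterate_succ_apply']
      rcases grow_cases I hI (Ls I k) a1 a2 with hc | ⟨b1, b2, b3, b4, b5⟩
      · exact absurd hc (h k (by omega))
      · refine ⟨fun i hi => ?_, fun i hi => ?_⟩
        · rcases Nat.lt_or_ge i (k + 1) with h' | h'
          · exact h1 i (by omega)
          · have : i = k + 1 := by omega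
            subst this
            rw [e]
            exact ⟨b1, b2, by rw [b3, a3]⟩
        · rcases Nat.lt_or_ge i k with h' | h'
          · exact h2 i h'
          · have : i = k := by omega
            subst this
            rw [e]
            exact ⟨b4, b5⟩
  have hex : ∃ k, step (encI I) (encL (Ls I k)) = [] ∧
      (∀ M, WeaklyStable I M → M ∈ Ls I k) := by
    by_contra hne
    push Not at hne
    have h := (key (Fintype.card (Perm (Fin I.n)) + 1) (fun i _ hc => by
      obtain ⟨M, h1, h2⟩ := hne i hc.1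
      exact h2 (hc.2 M h1))).1 (Fintype.card (Perm (Fin I.n)) + 1) le_rfl
    have h3 := h.1.length_le_card
    rw [h.2.2] at h3
    omega
  have hk := Nat.find_spec hex
  obtain ⟨h1, h2⟩ := key (Nat.find hex) (fun i hi => Nat.find_min hex hi)
  exact ⟨Nat.find hex, h1, h2, hk.1, hk.2⟩

end FinalAux

open FinalAux StepSpecAux

/-- a time bound may be increased -/
theorem outputs_mono {tm : Turing.FinTM2} {m m' : ℕ} (h : m ≤ m')
    {x : List (tm.Γ tm.k₀)} {y : Option (List (tm.Γ tm.k₁))}
    (ho : Nonempty (Turing.TM2OutputsInTime tm x y m)) :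
    Nonempty (Turing.TM2OutputsInTime tm x y m') := by
  obtain ⟨⟨⟨k, hk⟩, hle⟩⟩ := ho
  exact ⟨⟨⟨k, hk⟩, hle.trans h⟩⟩

/-- **Listing machine.** -/
theorem listing :
    ∃ (tm : Turing.FinTM2) (ein : tm.Γ tm.k₀ ≃ Bool) (eout : tm.Γ tm.k₁ ≃ Bool)
      (Q : Polynomial ℕ), ∀ I : SMT, ShortSide I →
      ∃ L : List (Perm (Fin I.n)), L.Nodup ∧ (∀ M, M ∈ L ↔ WeaklyStable I M) ∧
        Nonempty (Turing.TM2OutputsInTime tm ((encI I).map ein.symm)
          (some ((encL L).map eout.symm)) (Q.eval (I.n + L.length))) := by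
  have hstep : PolyC (fun _ => True) [fun p => p.1, fun p => p.2]
      (fun p : List Bool × List Bool => step p.1 p.2) :=
    poly_step (PolyC.var (by simp)) (PolyC.var (by simp))
  obtain ⟨P, q, hP⟩ := loop_machine step (fun _ => True) hstep
  refine ⟨machine P, Equiv.refl Bool, Equiv.refl Bool,
    q.comp (3 * Polynomial.X ^ 3 + 3 * Polynomial.X + 1 + Polynomial.X ^ 3 + Polynomial.X) + 1,
    fun I hI => ?_⟩
  obtain ⟨k, h1, h2, h3, h4⟩ := exists_stop I hI
  obtain ⟨a1, a2, a3⟩ := h1 k le_rfl
  refine ⟨Ls I k, a1, fun M => ⟨a2 M, h4 M⟩, ?_⟩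
  obtain ⟨t, ht, hrun⟩ := hP (encI I) k (fun i => encL (Ls I i)) (by simp [Ls, encL])
    (fun _ _ => trivial) h2 h3
  have hm := machine_outputs P _ _ t hrun
  have hmono := outputs_mono
    (m' := (q.comp (3 * Polynomial.X ^ 3 + 3 * Polynomial.X + 1 + Polynomial.X ^ 3 +
      Polynomial.X) + 1).eval (I.n + (Ls I k).length)) ?_ hm
  · have hmap : ∀ l : List Bool, List.map (Equiv.refl Bool).symm l = l := fun l => List.map_id l
    exact cast (congrArg₂ (fun x y => Nonempty (Turing.TM2OutputsInTime (machine P) x (some y)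
      ((q.comp (3 * Polynomial.X ^ 3 + 3 * Polynomial.X + 1 + Polynomial.X ^ 3 +
        Polynomial.X) + 1).eval (I.n + (Ls I k).length)))) (hmap (encI I)).symm
        (hmap (encL (Ls I k))).symm) hmono
  · have hx : (encI I).length = I.n + 1 + 2 * (I.n * (I.n * I.n)) := by
      unfold encI
      rw [List.length_append, List.length_cons, List.length_append, encR_length, encR_length,
        List.length_replicate]
      ring
    have hy : (encL (Ls I k)).length = (Ls I k).length * (I.n * I.n + 1) := encL_length _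
    rw [Polynomial.eval_add, Polynomial.eval_comp, Polynomial.eval_one]
    refine Nat.add_le_add_right (ht.trans (eval_mono q ?_)) 1
    simp only [Polynomial.eval_add, Polynomial.eval_mul, Polynomial.eval_pow,
      Polynomial.eval_X, Polynomial.eval_one, Polynomial.eval_ofNat]
    rw [hx, hy, a3]
    generalize I.n = a
    have e1 : a * (a * a) ≤ (a + k) ^ 3 := by
      have : a ≤ a + k := by omega
      calc a * (a * a) ≤ (a + k) * ((a + k) * (a + k)) :=
            Nat.mul_le_mul this (Nat.mul_le_mul this this)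
        _ = (a + k) ^ 3 := by ring
    have e2 : k * (a * a) ≤ (a + k) ^ 3 := by
      have h1 : a ≤ a + k := by omega
      have h2 : k ≤ a + k := by omega
      calc k * (a * a) ≤ (a + k) * ((a + k) * (a + k)) :=
            Nat.mul_le_mul h2 (Nat.mul_le_mul h1 h1)
        _ = (a + k) ^ 3 := by ring
    have e3 : k * (a * a + 1) = k * (a * a) + k := by ring
    rw [e3]
    omega

end Pool.Agent.Lib.Wsm
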