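import Pool.Agent.Lib.Wsm.Algo

/-!
# The search for a new cycle: completeness

MODULE Wsm.CycCompl (1.5 h): prove `cyc_complete`.  Auxiliary lemmas: namespace
`Pool.Agent.Lib.Wsm.CycComplAux`.

Here `F l'` restricted to `{0, ..., n - 1}` is the permutation `φ l'`, so `vv F l' v₀ i = (φ l' ^ i) v₀`, and
`H` restricted to `{0, ..., n - 1}` is `h`.  `Cy.rch .. t y`: `y` reaches `v₀` in at most `t` steps of `H` inside
`{0, ..., n - 1}`, all vertices except the last one being different from `v₁, ..., v_j`.  It is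
monotone in `t`.

`cyc_complete`.  Let `σ v₀ ≠ v₀` and let `p ≥ 2` be the length of the orbit of `v₀` (`σ^p v₀ = v₀`, the
`σ^i v₀`, `i < p`, are distinct; `p ≤ n`).  Let `P(i)` be: some `l' < K` with `vv F l' v₀ k = σ^k v₀` for all
`k ≤ i` and (`i = 0` or `Orb l'`).  `P(0)` holds with `l' = l`.  `P(p)` fails: then `φ l'` and `σ` agree on
the orbit of `v₀` and, by `Orb l'` (the `F l'`-orbit of `v₀` is the `σ`-orbit), both are the identity
elsewhere (`σ` is a cycle), so `σ = φ l'`.  Let `j < p` be the last `i` with `P(0), ..., P(i)`, `l'` a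
witness of `P(j)`, and `x = σ^(j+1) v₀`.  All clauses of `Cond` hold: the arcs `v_i → v_{i+1}` and
`v_j → x` are arcs of `σ`; distinctness is clear; `x ≠ v_1, ..., v_j`; following `σ` from `x` to
`v₀` (`p - (j + 1) ≤ n` steps) avoids `v₁, ..., v_j`; the last clause: such an `l''` would be a witness of
`P(j + 1)`.
-/

namespace Pool.Agent.Lib.Wsm

open Finset Equiv

namespace CycComplAux

variable {n K : ℕ} {H : ℕ → ℕ → Prop} {F : ℕ → ℕ → ℕ} {φ : ℕ → Perm (Fin n)}

theorem vv_eq (hF : ∀ l < K, ∀ w : Fin n, F l w = (φ l w : ℕ)) {l : ℕ} (hl : l < K) (v : Fin n)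
    (i : ℕ) : Cy.vv F l v i = (((φ l ^ i) v : Fin n) : ℕ) := by
  induction i with
  | zero => rfl
  | succ i ih =>
    unfold Cy.vv at ih ⊢
    rw [Function.iterate_succ_apply', ih, hF l hl, pow_succ', Perm.mul_apply]

theorem dec_true (q : Prop) (inst : Decidable q) (hq : q) : @decide q inst = true :=
  @decide_eq_true q inst hq

theorem rch_succ (l' v₀ j t y : ℕ) (h : Cy.rch n H F l' v₀ j t y = true) :
    Cy.rch n H F l' v₀ j (t + 1) y = true := by
  rw [Cy.rch, h, Bool.true_or]

theorem rch_mono (l' v₀ j y : ℕ) {t t' : ℕ} (h : Cy.rch n H F l' v₀ j t y = true) (ht : t ≤ t') :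
    Cy.rch n H F l' v₀ j t' y = true := by
  induction t', ht using Nat.le_induction with
  | base => exact h
  | succ m _ ih => exact rch_succ _ _ _ _ _ ih

section

variable {σ : Perm (Fin n)} (hσ : σ.IsCycle) {v : Fin n} (hv : σ v ≠ v)

include hv in
theorem moved (i : ℕ) : σ ((σ ^ i) v) ≠ (σ ^ i) v := by
  intro h
  apply hv
  have h1 : (σ ^ i) (σ v) = (σ ^ i) v := by
    rw [← Perm.mul_apply, ← pow_succ, pow_succ', Perm.mul_apply]
    exact h
  exact (σ ^ i).injective h1

include hσ hv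

theorem dvd_of_fix {i : ℕ} (h : (σ ^ i) v = v) : orderOf σ ∣ i :=
  orderOf_dvd_of_pow_eq_one ((hσ.pow_eq_one_iff' hv).2 h)

theorem inj_le {i i' : ℕ} (hi : i ≤ i') (h : (σ ^ i) v = (σ ^ i') v) : orderOf σ ∣ i' - i := by
  apply dvd_of_fix hσ hv
  have h1 : (σ ^ i) ((σ ^ (i' - i)) v) = (σ ^ i) v := by
    rw [← Perm.mul_apply, ← pow_add, Nat.add_sub_cancel' hi]
    exact h.symm
  exact (σ ^ i).injective h1

theorem inj_lt {i i' : ℕ} (hi : i < i') (hp : i' - i < orderOf σ) : (σ ^ i) v ≠ (σ ^ i') v := by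
  intro h
  have h1 := inj_le hσ hv hi.le h
  have h2 := Nat.le_of_dvd (by omega) h1
  omega

theorem exists_lt {w : Fin n} (hw : σ w ≠ w) : ∃ k < orderOf σ, (σ ^ k) v = w := by
  obtain ⟨i, hi⟩ := hσ.exists_pow_eq hv hw
  refine ⟨i % orderOf σ, Nat.mod_lt _ (orderOf_pos σ), ?_⟩
  rw [pow_mod_orderOf]
  exact hi

end

end CycComplAux

open CycComplAux in
theorem cyc_complete {n K : ℕ} {H : ℕ → ℕ → Prop} {F : ℕ → ℕ → ℕ} {h : Fin n → Fin n → Prop}
    (hH : ∀ a b : Fin n, H a b ↔ h a b) {φ : ℕ → Perm (Fin n)}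
    (hF : ∀ l < K, ∀ w : Fin n, F l w = (φ l w : ℕ)) {l : ℕ} (hl : l < K) (h1 : φ l = 1)
    {σ : Perm (Fin n)} (hσ : σ.IsCycle) (hσh : ∀ w, σ w ≠ w → h w (σ w))
    (hσK : ∀ l < K, σ ≠ φ l) :
    ∃ l' < K, ∃ v₀ < n, ∃ j < n, ∃ x < n, Cy.Cond n K H F l' v₀ j x := by
  classical
  obtain ⟨v, hv, -⟩ := id hσ
  set p := orderOf σ with hp
  have hp2 : 2 ≤ p := by
    rw [hp, hσ.orderOf]
    exact hσ.two_le_card_support
  have hpn : p ≤ n := by
    rw [hp, hσ.orderOf]
    exact (Finset.card_le_univ _).trans (by rw [Fintype.card_fin])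
  have hpp : (σ ^ p) v = v := by
    rw [hp, pow_orderOf_eq_one]
    rfl
  -- the induction predicate
  let P : ℕ → Prop := fun i => ∃ l' < K, (∀ k ≤ i, (φ l' ^ k) v = (σ ^ k) v) ∧
    (i = 0 ∨ Cy.Orb n F v l')
  have hP0 : P 0 := by
    refine ⟨l, hl, ?_, Or.inl rfl⟩
    intro k hk
    have : k = 0 := by omega
    subst this
    rfl
  have hPp : ¬ P p := by
    rintro ⟨l', hl', hk, horb⟩
    have horb' : Cy.Orb n F v l' := by
      rcases horb with h0 | h0
      · omega
      · exact h0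
    have hmv : ∀ w, σ w ≠ w → φ l' w = σ w := by
      intro w hw
      obtain ⟨k, hkp, rfl⟩ := exists_lt hσ hv hw
      rw [← hk k (by omega), ← Perm.mul_apply, ← pow_succ', hk (k + 1) (by omega), pow_succ',
        Perm.mul_apply, hk k (by omega)]
    have hall : ∀ i, (φ l' ^ i) v = (σ ^ i) v := by
      intro i
      induction i with
      | zero => rfl
      | succ i ih =>
        rw [pow_succ', Perm.mul_apply, ih, hmv _ (moved hv i), pow_succ', Perm.mul_apply]
    apply hσK l' hl'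
    ext w
    by_cases hw : σ w = w
    · have h2 := horb' w (by rw [mem_range]; exact w.2)
      rcases h2 with h2 | ⟨i, _, h2⟩
      · rw [hF l' hl'] at h2
        have h3 : φ l' w = w := Fin.ext h2
        rw [hw, h3]
      · exfalso
        rw [vv_eq hF hl', hall i] at h2
        have h3 : (σ ^ i) v = w := Fin.ext h2
        rw [← h3] at hw
        exact moved hv i hw
    · rw [hmv w hw]
  -- the last index
  have hex : ∃ i, ¬ P i := ⟨p, hPp⟩
  set m := Nat.find hex with hm
  have hmP : ¬ P m := Nat.find_spec hex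
  have hmp : m ≤ p := Nat.find_min' hex hPp
  have hm0 : m ≠ 0 := by
    intro h0
    rw [h0] at hmP
    exact hmP hP0
  obtain ⟨j, hj⟩ : ∃ j, m = j + 1 := ⟨m - 1, by omega⟩
  have hPj : P j := by
    by_contra hc
    exact Nat.find_min hex (m := j) (by omega) hc
  rw [hj] at hmP hmp
  obtain ⟨l', hl', hk, -⟩ := hPj
  have hvv : ∀ i ≤ j, Cy.vv F l' v i = (((σ ^ i) v : Fin n) : ℕ) := by
    intro i hi
    rw [vv_eq hF hl', hk i hi]
  have harc : ∀ i, H (((σ ^ i) v : Fin n) : ℕ) (((σ ^ (i + 1)) v : Fin n) : ℕ) := by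
    intro i
    rw [hH, pow_succ', Perm.mul_apply]
    exact hσh _ (moved hv i)
  refine ⟨l', hl', v, v.2, j, by omega, ((σ ^ (j + 1)) v : Fin n), ((σ ^ (j + 1)) v).2,
    ?_, ?_, ?_, ?_, ?_, ?_⟩
  · intro i hi
    rw [mem_range] at hi
    rw [hvv i hi.le, hvv (i + 1) (by omega)]
    exact harc i
  · intro i hi i' hi' he
    rw [mem_range] at hi hi'
    rw [hvv i (by omega), hvv i' (by omega)] at he
    have he' := Fin.ext he
    rcases lt_trichotomy i i' with hlt | heq | hgt
    · exact absurd he' (inj_lt hσ hv hlt (by omega))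
    · exact heq
    · exact absurd he'.symm (inj_lt hσ hv hgt (by omega))
  · intro i hi hi1 he
    rw [mem_range] at hi
    rw [hvv i (by omega)] at he
    exact inj_lt hσ hv (i := i) (i' := j + 1) (by omega) (by omega) (Fin.ext he)
  · rw [hvv j le_rfl]
    exact harc j
  · have hr : ∀ t, t + (j + 1) ≤ p →
        Cy.rch n H F l' v j t (((σ ^ (p - t)) v : Fin n) : ℕ) = true := by
      intro t
      induction t with
      | zero =>
        intro _
        rw [Cy.rch, Nat.sub_zero, hpp]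
        simp
      | succ t ih =>
        intro ht
        rw [Cy.rch, Bool.or_eq_true]
        right
        refine dec_true _ _ ⟨?_, (((σ ^ (p - t)) v : Fin n) : ℕ), ?_, ?_, ih (by omega)⟩
        · intro i hi hi1 he
          rw [mem_range] at hi
          rw [hvv i (by omega)] at he
          exact inj_lt hσ hv (i := i) (i' := p - (t + 1)) (by omega) (by omega) (Fin.ext he)
        · rw [mem_range]
          exact ((σ ^ (p - t)) v).2
        · have h3 := harc (p - (t + 1))
          rwa [show p - (t + 1) + 1 = p - t by omega] at h3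
    have h4 := hr (p - (j + 1)) (by omega)
    rw [show p - (p - (j + 1)) = j + 1 by omega] at h4
    exact rch_mono _ _ _ _ h4 (by omega)
  · rintro l'' hl'' ⟨ho, ha, hb⟩
    rw [mem_range] at hl''
    apply hmP
    refine ⟨l'', hl'', ?_, Or.inr ho⟩
    intro k hk'
    rcases Nat.lt_or_ge k (j + 1) with h5 | h5
    · have h6 := ha k (by rw [mem_range]; exact h5)
      rw [vv_eq hF hl'', hvv k (by omega)] at h6
      exact Fin.ext h6
    · have h6 : k = j + 1 := by omega
      rw [h6]
      rw [vv_eq hF hl''] at hb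
      exact Fin.ext hb

end Pool.Agent.Lib.Wsm
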