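import Pool.Agent.Lib.Wsm.Algo

/-!
# The search for a new cycle: soundness

MODULE Wsm.CycSound (1.8 h): prove `cyc_sound`.  Auxiliary lemmas: namespace
`Pool.Agent.Lib.Wsm.CycSoundAux`.

Here `F l'` restricted to `{0, ..., n - 1}` is the permutation `φ l'`, so `vv F l' v₀ i = (φ l' ^ i) v₀`, and
`H` restricted to `{0, ..., n - 1}` is `h`.  `Cy.rch .. t y`: `y` reaches `v₀` in at most `t` steps of `H` inside
`{0, ..., n - 1}`, all vertices except the last one being different from `v₁, ..., v_j`.  It is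
monotone in `t`.

`cyc_sound`.  Let `v_i = vv F l' v₀ i` and `x_t = xs .. x t`.  `d = dst x` is the least `t` with
`rch t x` (`lst (n + 1)` finds it because `rch n x`); for `y ≠ v₀` with `1 ≤ dst y = t + 1 ≤ n`: some `z < n` has
`H y z`, `rch t z`, so `nxt y` (`lst n`) is such a `z` and `dst (nxt y) ≤ t`, in fact `= t` (otherwise
`rch t y`).  Hence `dst x_t = d - t` for `t ≤ d`, the vertices `x_0, ..., x_{d-1}` are distinct, different from
`v₀` (`dst v₀ = 0`) and from `v₁, ..., v_j`, and `x_d = v₀`.  So the list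
`[v₀, ..., v_j, x_0, ..., x_{d-1}]` is nodup, of length `j + 1 + d ≥ 2` (if `d = 0` then `x = v₀` and
`h v_j v₀` with `h` irreflexive gives `j ≥ 1`), all elements `< n`.  Let `c` be its `List.formPerm` (as a
list in `Fin n`); `List.isCycle_formPerm`, `List.formPerm_apply_getElem`, `List.formPerm_apply_of_notMem`.  `Cy.Cyc` describes the
graph of `c`.  If `c = φ l''` then `F l''` moves only the points of the orbit of `v₀` (all of them are
`vv F l'' v₀ i` with `i < n`), so `Orb l''`, and `vv F l'' v₀ i = v_i` for `i ≤ j` and `vv F l'' v₀ (j + 1) = x`: against the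
last clause of `Cond`.
-/

namespace Pool.Agent.Lib.Wsm

open Finset Equiv

namespace CycSoundAux

theorem lst_spec {n : ℕ} {P : ℕ → Prop} (h : ∃ z, z < n ∧ P z) :
    lst n P < n ∧ P (lst n P) ∧ ∀ z < lst n P, ¬ P z := by
  classical
  have hk := Nat.find_spec h
  have hmin : ∀ z < Nat.find h, ¬ P z := fun z hz hP =>
    Nat.find_min h hz ⟨hz.trans hk.1, hP⟩
  have e : lst n P = Nat.find h := by
    unfold lst
    conv_rhs => rw [← card_range (Nat.find h)]
    congr 1
    ext z
    constructor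
    · intro hz
      have h2 := ((@Finset.mem_filter _ _ (Classical.decPred _) _ _).1 hz).2
      rw [mem_range]
      by_contra hcon
      exact h2 (Nat.find h) (mem_range.2 (by omega)) hk.2
    · intro hz
      rw [mem_range] at hz
      refine (@Finset.mem_filter _ _ (Classical.decPred _) _ _).2 ⟨mem_range.2 (hz.trans hk.1), fun z' hz' => hmin z' ?_⟩
      rw [mem_range] at hz'
      omega
  rw [e]
  exact ⟨hk.1, hk.2, hmin⟩

variable {n : ℕ} {H : ℕ → ℕ → Prop} {F : ℕ → ℕ → ℕ} {l' v₀ j : ℕ}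

theorem dec_iff {p : Prop} (i : Decidable p) : @decide p i = true ↔ p :=
  @decide_eq_true_iff p i

theorem rch_zero {y : ℕ} : Cy.rch n H F l' v₀ j 0 y = true ↔ y = v₀ := by
  simp [Cy.rch]

theorem rch_succ {t y : ℕ} : Cy.rch n H F l' v₀ j (t + 1) y = true ↔
    (Cy.rch n H F l' v₀ j t y = true ∨ ((∀ i ∈ range (j + 1), 1 ≤ i → Cy.vv F l' v₀ i ≠ y) ∧
      ∃ z ∈ range n, H y z ∧ Cy.rch n H F l' v₀ j t z = true)) := by
  rw [Cy.rch, Bool.or_eq_true]
  exact or_congr Iff.rfl (dec_iff _)

theorem rch_mono {t t' y : ℕ} (h : t ≤ t') (hr : Cy.rch n H F l' v₀ j t y = true) :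
    Cy.rch n H F l' v₀ j t' y = true := by
  induction h with
  | refl => exact hr
  | step _ ih => exact rch_succ.2 (Or.inl ih)

theorem dst_spec {y : ℕ} (h : Cy.rch n H F l' v₀ j n y = true) :
    Cy.dst n H F l' v₀ j y ≤ n ∧
      Cy.rch n H F l' v₀ j (Cy.dst n H F l' v₀ j y) y = true ∧
      ∀ t < Cy.dst n H F l' v₀ j y, ¬ Cy.rch n H F l' v₀ j t y = true := by
  have := lst_spec (n := n + 1) (P := fun t => Cy.rch n H F l' v₀ j t y = true)
    ⟨n, Nat.lt_succ_self n, h⟩
  exact ⟨Nat.lt_succ_iff.1 this.1, this.2.1, this.2.2⟩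

theorem dst_v : Cy.dst n H F l' v₀ j v₀ = 0 := by
  have h0 : Cy.rch n H F l' v₀ j 0 v₀ = true := rch_zero.2 rfl
  have h := (dst_spec (rch_mono (Nat.zero_le n) h0)).2.2
  by_contra hcon
  exact h 0 (Nat.pos_of_ne_zero hcon) h0

theorem step {y : ℕ} (h : Cy.rch n H F l' v₀ j n y = true) (hy : y ≠ v₀) :
    ∃ t, Cy.dst n H F l' v₀ j y = t + 1 ∧
      (∀ i ∈ range (j + 1), 1 ≤ i → Cy.vv F l' v₀ i ≠ y) ∧
      Cy.nxt n H F l' v₀ j y < n ∧ H y (Cy.nxt n H F l' v₀ j y) ∧
      Cy.rch n H F l' v₀ j n (Cy.nxt n H F l' v₀ j y) = true ∧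
      Cy.dst n H F l' v₀ j (Cy.nxt n H F l' v₀ j y) = t := by
  obtain ⟨d1, d2, d3⟩ := dst_spec h
  rcases hd : Cy.dst n H F l' v₀ j y with _ | t
  · exfalso
    rw [hd] at d2
    exact hy (rch_zero.1 d2)
  · rw [hd] at d1 d2 d3
    refine ⟨t, rfl, ?_⟩
    rcases rch_succ.1 d2 with h1 | ⟨hav, z, hz, hHz, hrz⟩
    · exact absurd h1 (d3 t (Nat.lt_succ_self t))
    · have hn := lst_spec (n := n)
        (P := fun z => H y z ∧ Cy.rch n H F l' v₀ j (Cy.dst n H F l' v₀ j y - 1) z = true)
        ⟨z, mem_range.1 hz, hHz, by rw [hd]; exact hrz⟩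
      have e : Cy.nxt n H F l' v₀ j y = lst n (fun z => H y z ∧
        Cy.rch n H F l' v₀ j (Cy.dst n H F l' v₀ j y - 1) z = true) := rfl
      rw [← e] at hn
      obtain ⟨n1, ⟨n2, n3⟩, -⟩ := hn
      rw [hd] at n3
      have n3' : Cy.rch n H F l' v₀ j t (Cy.nxt n H F l' v₀ j y) = true := n3
      have n4 : Cy.rch n H F l' v₀ j n (Cy.nxt n H F l' v₀ j y) = true :=
        rch_mono (by omega) n3'
      refine ⟨hav, n1, n2, n4, ?_⟩
      obtain ⟨e1, e2, e3⟩ := dst_spec n4
      rcases lt_trichotomy (Cy.dst n H F l' v₀ j (Cy.nxt n H F l' v₀ j y)) t with hlt | heq | hgt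
      · exfalso
        refine d3 (Cy.dst n H F l' v₀ j (Cy.nxt n H F l' v₀ j y) + 1) (by omega) ?_
        exact rch_succ.2 (Or.inr ⟨hav, _, mem_range.2 n1, n2, e2⟩)
      · exact heq
      · exact absurd n3' (e3 t hgt)

theorem xs_succ {x t : ℕ} :
    Cy.xs n H F l' v₀ j x (t + 1) = Cy.nxt n H F l' v₀ j (Cy.xs n H F l' v₀ j x t) := by
  unfold Cy.xs
  rw [Function.iterate_succ_apply']

theorem path {x : ℕ} (h : Cy.rch n H F l' v₀ j n x = true) (hx : x < n) :
    ∀ t ≤ Cy.dst n H F l' v₀ j x, Cy.rch n H F l' v₀ j n (Cy.xs n H F l' v₀ j x t) = true ∧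
      Cy.dst n H F l' v₀ j (Cy.xs n H F l' v₀ j x t) + t = Cy.dst n H F l' v₀ j x ∧
      Cy.xs n H F l' v₀ j x t < n := by
  intro t
  induction t with
  | zero => exact fun _ => ⟨h, rfl, hx⟩
  | succ t ih =>
    intro ht
    obtain ⟨h1, h2, h3⟩ := ih (by omega)
    have hne : Cy.xs n H F l' v₀ j x t ≠ v₀ := by
      intro hcon
      rw [hcon, dst_v] at h2
      omega
    obtain ⟨s, s1, s2, s3, s4, s5, s6⟩ := step h1 hne
    rw [xs_succ]
    exact ⟨s5, by omega, s3⟩

theorem path_ne {x : ℕ} (h : Cy.rch n H F l' v₀ j n x = true) (hx : x < n) {t : ℕ}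
    (ht : t < Cy.dst n H F l' v₀ j x) : Cy.xs n H F l' v₀ j x t ≠ v₀ ∧
      (∀ i ∈ range (j + 1), 1 ≤ i → Cy.vv F l' v₀ i ≠ Cy.xs n H F l' v₀ j x t) ∧
      H (Cy.xs n H F l' v₀ j x t) (Cy.xs n H F l' v₀ j x (t + 1)) := by
  obtain ⟨h1, h2, h3⟩ := path h hx t ht.le
  have hne : Cy.xs n H F l' v₀ j x t ≠ v₀ := by
    intro hcon
    rw [hcon, dst_v] at h2
    omega
  obtain ⟨s, s1, s2, s3, s4, s5, s6⟩ := step h1 hne
  rw [xs_succ]
  exact ⟨hne, s2, s4⟩

theorem path_end {x : ℕ} (h : Cy.rch n H F l' v₀ j n x = true) (hx : x < n) :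
    Cy.xs n H F l' v₀ j x (Cy.dst n H F l' v₀ j x) = v₀ := by
  obtain ⟨h1, h2, h3⟩ := path h hx _ le_rfl
  have h4 : Cy.dst n H F l' v₀ j (Cy.xs n H F l' v₀ j x (Cy.dst n H F l' v₀ j x)) = 0 := by
    omega
  have h5 := (dst_spec h1).2.1
  rw [h4] at h5
  exact rch_zero.1 h5

/-- a closed sequence of different vertices and the cycle through them -/
theorem mk_cycle {n N : ℕ} (hN : 2 ≤ N) (u : ℕ → ℕ) (hlt : ∀ i ≤ N, u i < n)
    (hinj : ∀ i < N, ∀ i' < N, u i = u i' → i = i') (hu : u N = u 0) :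
    ∃ c : Perm (Fin n), c.IsCycle ∧ (∀ i < N, ∀ w : Fin n, (w : ℕ) = u i → (c w : ℕ) = u (i + 1)) ∧
      ∀ w : Fin n, (∀ i < N, (w : ℕ) ≠ u i) → c w = w := by
  classical
  let f : Fin N → Fin n := fun i => ⟨u i, hlt i i.2.le⟩
  have hf : Function.Injective f := by
    intro a b hab
    have := congrArg Fin.val hab
    exact Fin.ext (hinj a a.2 b b.2 this)
  let L : List (Fin n) := List.ofFn f
  have hL : L.Nodup := List.nodup_ofFn.2 hf
  have hlen : L.length = N := List.length_ofFn
  refine ⟨L.formPerm, List.isCycle_formPerm hL (by rw [hlen]; exact hN), ?_, ?_⟩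
  · intro i hi w hw
    have hi' : i < L.length := by rw [hlen]; exact hi
    have hw' : w = L[i] := by
      apply Fin.ext
      rw [hw, List.getElem_ofFn]
    have hstep := List.formPerm_apply_getElem L hL i hi'
    rw [hw', hstep, List.getElem_ofFn]
    show u ((i + 1) % L.length) = u (i + 1)
    rw [hlen]
    rcases Nat.lt_or_ge (i + 1) N with h | h
    · rw [Nat.mod_eq_of_lt h]
    · have e : i + 1 = N := by omega
      rw [e, Nat.mod_self, hu]
  · intro w hw
    refine List.formPerm_apply_of_notMem ?_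
    intro hmem
    rw [List.mem_ofFn] at hmem
    obtain ⟨i, hi⟩ := hmem
    exact hw i i.2 (congrArg Fin.val hi).symm

end CycSoundAux

open CycSoundAux

theorem cyc_sound {n K : ℕ} {H : ℕ → ℕ → Prop} {F : ℕ → ℕ → ℕ} {h : Fin n → Fin n → Prop}
    (hH : ∀ a b : Fin n, H a b ↔ h a b) (hirr : ∀ a, ¬ h a a) {φ : ℕ → Perm (Fin n)}
    (hF : ∀ l < K, ∀ w : Fin n, F l w = (φ l w : ℕ)) {l' v₀ j x : ℕ} (hl' : l' < K)
    (hv : v₀ < n) (hj : j < n) (hx : x < n) (hc : Cy.Cond n K H F l' v₀ j x) :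
    ∃ c : Perm (Fin n), c.IsCycle ∧ (∀ w, c w ≠ w → h w (c w)) ∧
      (∀ w z : Fin n, Cy.Cyc n H F l' v₀ j x w z ↔ c w = z) ∧ ∀ l < K, c ≠ φ l := by
  classical
  obtain ⟨c1, c2, c3, c4, c5, c6⟩ := hc
  have hvlt : ∀ i, Cy.vv F l' v₀ i < n := by
    intro i
    induction i with
    | zero => exact hv
    | succ i ih =>
      have e : Cy.vv F l' v₀ (i + 1) = F l' (Cy.vv F l' v₀ i) := by
        unfold Cy.vv
        rw [Function.iterate_succ_apply']
      rw [e]
      have := hF l' hl' ⟨_, ih⟩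
      simp only at this
      rw [this]
      exact (φ l' _).2
  have hd := path c5 hx
  have hdn := (dst_spec c5).1
  have hdne := fun t ht => path_ne c5 hx (t := t) ht
  have hdend := path_end c5 hx
  set d := Cy.dst n H F l' v₀ j x with hddef
  let u : ℕ → ℕ := fun i => if i ≤ j then Cy.vv F l' v₀ i else Cy.xs n H F l' v₀ j x (i - (j + 1))
  have uv : ∀ i ≤ j, u i = Cy.vv F l' v₀ i := fun i hi => if_pos hi
  have ux : ∀ t, u (j + 1 + t) = Cy.xs n H F l' v₀ j x t := by
    intro t
    have h1 : ¬ (j + 1 + t ≤ j) := by omega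
    have h2 : j + 1 + t - (j + 1) = t := by omega
    simp only [u]
    rw [if_neg h1, h2]
  have hx0 : Cy.xs n H F l' v₀ j x 0 = x := rfl
  have hv0 : Cy.vv F l' v₀ 0 = v₀ := rfl
  have u0 : u 0 = v₀ := by rw [uv 0 (Nat.zero_le j), hv0]
  have uN : u (j + 1 + d) = u 0 := by rw [ux, hdend, u0]
  -- cases for an index
  have hcase : ∀ i < j + 1 + d, i ≤ j ∨ ∃ t < d, i = j + 1 + t := by
    intro i hi
    rcases Nat.lt_or_ge j i with h1 | h1
    · exact Or.inr ⟨i - (j + 1), by omega, by omega⟩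
    · exact Or.inl h1
  have hult : ∀ i ≤ j + 1 + d, u i < n := by
    intro i hi
    rcases Nat.lt_or_ge i (j + 1 + d) with h1 | h1
    · rcases hcase i h1 with h2 | ⟨t, ht, rfl⟩
      · rw [uv i h2]
        exact hvlt i
      · rw [ux]
        exact (hd t ht.le).2.2
    · have e : i = j + 1 + d := by omega
      rw [e, uN, u0]
      exact hv
  have huinj : ∀ i < j + 1 + d, ∀ i' < j + 1 + d, u i = u i' → i = i' := by
    have hmix : ∀ i ≤ j, ∀ t < d, u i ≠ u (j + 1 + t) := by
      intro i hi t ht heq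
      rw [uv i hi, ux] at heq
      obtain ⟨n1, n2, -⟩ := hdne t ht
      rcases Nat.eq_zero_or_pos i with h0 | h0
      · subst h0
        rw [hv0] at heq
        exact n1 heq.symm
      · exact n2 i (mem_range.2 (by omega)) h0 heq
    intro i hi i' hi' heq
    rcases hcase i hi with h1 | ⟨t, ht, rfl⟩ <;> rcases hcase i' hi' with h2 | ⟨t', ht', rfl⟩
    · rw [uv i h1, uv i' h2] at heq
      exact c2 i (mem_range.2 (by omega)) i' (mem_range.2 (by omega)) heq
    · exact absurd heq (hmix i h1 t' ht')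
    · exact absurd heq.symm (hmix i' h2 t ht)
    · rw [ux, ux] at heq
      have e1 := (hd t ht.le).2.1
      have e2 := (hd t' ht'.le).2.1
      rw [heq] at e1
      omega
  have huH : ∀ i < j + 1 + d, H (u i) (u (i + 1)) := by
    intro i hi
    rcases hcase i hi with h1 | ⟨t, ht, rfl⟩
    · rcases Nat.lt_or_ge i j with h2 | h2
      · rw [uv i h1, uv (i + 1) (by omega)]
        exact c1 i (mem_range.2 h2)
      · have e : i = j := by omega
        subst e
        have e2 := ux 0
        rw [add_zero] at e2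
        rw [uv i le_rfl, e2, hx0]
        exact c4
    · rw [ux, show j + 1 + t + 1 = j + 1 + (t + 1) by ring, ux]
      exact (hdne t ht).2.2
  have hN : 2 ≤ j + 1 + d := by
    by_contra hcon
    have hj0 : j = 0 := by omega
    have hd0 : d = 0 := by omega
    have h1 := huH 0 (by omega)
    have h2 : u (0 + 1) = u 0 := by
      rw [← uN, hj0, hd0]
    rw [h2, u0] at h1
    exact hirr ⟨v₀, hv⟩ ((hH ⟨v₀, hv⟩ ⟨v₀, hv⟩).1 h1)
  obtain ⟨c, hcyc, hcu, hcw⟩ := mk_cycle hN u hult huinj uN
  have hNn : j + 1 + d ≤ n := by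
    have hinj' : Function.Injective (fun i : Fin (j + 1 + d) => (⟨u i, hult i i.2.le⟩ : Fin n)) := by
      intro a b hab
      exact Fin.ext (huinj a a.2 b b.2 (congrArg Fin.val hab))
    have := Fintype.card_le_of_injective _ hinj'
    rwa [Fintype.card_fin, Fintype.card_fin] at this
  have htd : ∀ t, (∀ t' ∈ range (t + 1), Cy.xs n H F l' v₀ j x t' ≠ v₀) ↔ t < d := by
    intro t
    constructor
    · intro h1
      by_contra hcon
      exact h1 d (mem_range.2 (by omega)) hdend
    · intro h1 t' ht'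
      rw [mem_range] at ht'
      exact (hdne t' (by omega)).1
  refine ⟨c, hcyc, ?_, ?_, ?_⟩
  · intro w hw
    have : ∃ i < j + 1 + d, (w : ℕ) = u i := by
      by_contra hcon
      push Not at hcon
      exact hw (hcw w hcon)
    obtain ⟨i, hi, hwi⟩ := this
    have h1 := huH i hi
    rw [← hwi, ← hcu i hi w hwi] at h1
    exact (hH w (c w)).1 h1
  · intro w z
    constructor
    · rintro (⟨i, hi, h1, h2⟩ | ⟨h1, h2⟩ | ⟨t, ht, h1, h2, h3⟩ | ⟨h1, h2, h3⟩)
      · rw [mem_range] at hi
        apply Fin.ext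
        rw [hcu i (by omega) w (by rw [uv i hi.le, h1]), uv (i + 1) (by omega), h2]
      · apply Fin.ext
        have e2 := ux 0
        rw [add_zero, hx0] at e2
        rw [hcu j (by omega) w (by rw [uv j le_rfl, h1]), e2, h2]
      · have ht' := (htd t).1 h1
        apply Fin.ext
        rw [hcu (j + 1 + t) (by omega) w (by rw [ux, h2]),
          show j + 1 + t + 1 = j + 1 + (t + 1) by ring, ux, h3]
      · have hz : z = w := Fin.ext h3
        rw [hz]
        refine hcw w ?_
        intro i hi heq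
        rcases hcase i hi with h4 | ⟨t, ht, rfl⟩
        · exact h1 i (mem_range.2 (by omega)) (by rw [← uv i h4, heq])
        · exact h2 t (mem_range.2 (by omega)) ((htd t).2 ht) (by rw [← ux, heq])
    · intro hcz
      by_cases hex : ∃ i < j + 1 + d, (w : ℕ) = u i
      · obtain ⟨i, hi, hwi⟩ := hex
        have hz : (z : ℕ) = u (i + 1) := by rw [← hcz, hcu i hi w hwi]
        rcases hcase i hi with h4 | ⟨t, ht, rfl⟩
        · rcases Nat.lt_or_ge i j with h5 | h5
          · left
            exact ⟨i, mem_range.2 h5, by rw [← uv i h4, hwi], by rw [← uv (i + 1) (by omega), hz]⟩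
          · right; left
            have e : i = j := by omega
            subst e
            have e2 := ux 0
            rw [add_zero, hx0] at e2
            exact ⟨by rw [← uv i le_rfl, hwi], by rw [hz, e2]⟩
        · right; right; left
          refine ⟨t, mem_range.2 (by omega), (htd t).2 ht, by rw [← ux, hwi], ?_⟩
          rw [hz, show j + 1 + t + 1 = j + 1 + (t + 1) by ring, ux]
      · push Not at hex
        right; right; right
        refine ⟨?_, ?_, ?_⟩
        · intro i hi heq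
          rw [mem_range] at hi
          exact hex i (by omega) (by rw [uv i (by omega), heq])
        · intro t ht h1 heq
          have ht' := (htd t).1 h1
          exact hex (j + 1 + t) (by omega) (by rw [ux, heq])
        · rw [← hcz, hcw w hex]
  · intro l hl hcl
    have hcyc' : ∀ i ≤ j + 1 + d, Cy.vv F l v₀ i = u i := by
      intro i
      induction i with
      | zero => exact fun _ => u0.symm
      | succ i ih =>
        intro hi
        have e : Cy.vv F l v₀ (i + 1) = F l (Cy.vv F l v₀ i) := by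
          unfold Cy.vv
          rw [Function.iterate_succ_apply']
        rw [e, ih (by omega)]
        have h1 := hF l hl ⟨u i, hult i (by omega)⟩
        simp only at h1
        rw [h1, ← hcl]
        exact hcu i (by omega) _ rfl
    refine c6 l (mem_range.2 hl) ⟨?_, ?_, ?_⟩
    · intro w hw
      rw [mem_range] at hw
      by_cases hex : ∃ i < j + 1 + d, w = u i
      · obtain ⟨i, hi, hwi⟩ := hex
        right
        exact ⟨i, mem_range.2 (by omega), by rw [hcyc' i hi.le, hwi]⟩
      · push Not at hex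
        left
        have h1 := hF l hl ⟨w, hw⟩
        simp only at h1
        rw [h1, ← hcl, hcw ⟨w, hw⟩ hex]
    · intro i hi
      rw [mem_range] at hi
      rw [hcyc' i (by omega), uv i (by omega)]
    · rw [hcyc' (j + 1) (by omega)]
      have e2 := ux 0
      rw [add_zero, hx0] at e2
      exact e2

end Pool.Agent.Lib.Wsm
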