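import Pool.Agent.Lib.Wsm.BrA
import Pool.Agent.Lib.Wsm.CycSound
import Pool.Agent.Lib.Wsm.CycCompl

/-!
# Step I finds a new matching, or the list is closed

MODULE Wsm.BrCyc (1 h): prove `cyc_found` and `cyc_none`.  Auxiliary lemmas: namespace
`Pool.Agent.Lib.Wsm.BrCycAux`.  Imports are black boxes.

For `l < K` apply `cyc_sound`, `cyc_complete` with `H = d.H l`, `F = d.sg l`, `h = Hx A B L[l]`,
`φ l' = L[l'].symm.trans L[l]` for `l' < K` (and `1` otherwise), see `H_iff`, `sg_eq`; `Hx` is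
irreflexive by its first condition; `φ l = 1`.  For a permutation `c`:
`act L[l] c = L[l'] ↔ c = φ l'`.

`cyc_none`: if `act M σ ∉ L` with `M = L[l]`, `cyc_complete` gives `l', v₀, j, x` with `Cond`, so `C5`.
`cyc_found`: `C5` unfolds to `l < K, l' < K, v₀ < n, j < n, x < n` with `Cond`; by `lst_spec` (five times)
the numbers `d.cl, d.cl', d.cv, d.cj, d.cx` are such numbers.  `cyc_sound` gives `c`, and
`cycBits = permBits (act L[cl] c)` by `mk2_eq_permBits`: `Cyc .. w (pm cl m)` iff `c w = L[cl] m` iff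
`act L[cl] c m = w`.
-/

namespace Pool.Agent.Lib.Wsm

open Finset Equiv

variable {d : Dat} {A B : Pref d.n} {g : Fin d.n → Fin d.n → ℤ} {L : List (Perm (Fin d.n))}

namespace BrCycAux

/-- the permutations of the list, relative to the member number `l` -/
def phi {n : ℕ} (L : List (Perm (Fin n))) (l l' : ℕ) : Perm (Fin n) :=
  if h : l < L.length ∧ l' < L.length then (L[l'].symm).trans L[l] else 1

theorem phi_apply {n : ℕ} (L : List (Perm (Fin n))) {l l' : ℕ} (hl : l < L.length)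
    (hl' : l' < L.length) : phi L l l' = (L[l'].symm).trans L[l] := dif_pos ⟨hl, hl'⟩

theorem act_eq_iff {n : ℕ} (L : List (Perm (Fin n))) {l l' : ℕ} (hl : l < L.length)
    (hl' : l' < L.length) (c : Perm (Fin n)) : act L[l] c = L[l'] ↔ c = phi L l l' := by
  rw [phi_apply L hl hl']
  unfold act
  constructor
  · intro h
    rw [← h]
    ext w
    simp
  · intro h
    rw [h]
    ext w
    simp

theorem act_notMem {n : ℕ} (L : List (Perm (Fin n))) {l : ℕ} (hl : l < L.length)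
    (c : Perm (Fin n)) : act L[l] c ∉ L ↔ ∀ l' < L.length, c ≠ phi L l l' := by
  constructor
  · intro h l' hl' hc
    apply h
    rw [(act_eq_iff L hl hl' c).2 hc]
    exact List.getElem_mem hl'
  · intro h hmem
    obtain ⟨l', hl', e⟩ := List.getElem_of_mem hmem
    exact h l' hl' ((act_eq_iff L hl hl' c).1 e.symm)

variable {d : Dat} {A B : Pref d.n} {g : Fin d.n → Fin d.n → ℤ} {L : List (Perm (Fin d.n))}

theorem hF (R : Rep d A B g L) {l : ℕ} (hl : l < L.length) :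
    ∀ l' < d.K, ∀ w : Fin d.n, d.sg l l' w = (phi L l l' w : ℕ) := by
  intro l' hl' w
  rw [R.hK] at hl'
  rw [sg_eq R hl hl', phi_apply L hl hl']
  rfl

end BrCycAux

open BrCycAux

theorem cyc_found (R : Rep d A B g L) (h : d.C5) :
    ∃ M ∈ L, ∃ σ : Perm (Fin d.n), σ.IsCycle ∧ (∀ w, σ w ≠ w → Hx A B M w (σ w)) ∧
      act M σ ∉ L ∧ d.cycBits = permBits (act M σ) := by
  classical
  have s1 : d.cl < d.K ∧ d.C4 d.cl := by
    have h' : ∃ l < d.K, d.C4 l := by
      obtain ⟨l, hl, h4⟩ := h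
      exact ⟨l, mem_range.1 hl, h4⟩
    have := lst_spec h'
    exact ⟨this.1, this.2.1⟩
  have s2 : d.cl' < d.K ∧ d.C3 d.cl d.cl' := by
    have h' : ∃ l < d.K, d.C3 d.cl l := by
      obtain ⟨l, hl, h4⟩ := s1.2
      exact ⟨l, mem_range.1 hl, h4⟩
    have := lst_spec h'
    exact ⟨this.1, this.2.1⟩
  have s3 : d.cv < d.n ∧ d.C2 d.cl d.cl' d.cv := by
    have h' : ∃ v < d.n, d.C2 d.cl d.cl' v := by
      obtain ⟨l, hl, h4⟩ := s2.2
      exact ⟨l, mem_range.1 hl, h4⟩
    have := lst_spec h'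
    exact ⟨this.1, this.2.1⟩
  have s4 : d.cj < d.n ∧ d.C1 d.cl d.cl' d.cv d.cj := by
    have h' : ∃ j < d.n, d.C1 d.cl d.cl' d.cv j := by
      obtain ⟨l, hl, h4⟩ := s3.2
      exact ⟨l, mem_range.1 hl, h4⟩
    have := lst_spec h'
    exact ⟨this.1, this.2.1⟩
  have s5 : d.cx < d.n ∧ d.C0 d.cl d.cl' d.cv d.cj d.cx := by
    have h' : ∃ x < d.n, d.C0 d.cl d.cl' d.cv d.cj x := by
      obtain ⟨l, hl, h4⟩ := s4.2
      exact ⟨l, mem_range.1 hl, h4⟩
    have := lst_spec h'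
    exact ⟨this.1, this.2.1⟩
  have hl : d.cl < L.length := by rw [← R.hK]; exact s1.1
  obtain ⟨c, hc, hch, hcyc, hcL⟩ := cyc_sound (h := Hx A B L[d.cl]) (φ := phi L d.cl)
    (fun a b => H_iff R hl a b) (fun a ha => ha.1 rfl) (hF R hl) s2.1 s3.1 s4.1 s5.1 s5.2
  refine ⟨L[d.cl], List.getElem_mem hl, c, hc, hch, ?_, ?_⟩
  · rw [act_notMem L hl]
    intro l' hl'
    exact hcL l' (by rw [R.hK]; exact hl')
  · unfold Dat.cycBits
    apply mk2_eq_permBits
    intro m w
    rw [decide_eq_decide, pm_eq R hl, hcyc]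
    unfold act
    rw [Equiv.trans_apply, Equiv.symm_apply_eq]
    exact eq_comm

theorem cyc_none (R : Rep d A B g L) (h : ¬ d.C5) {M : Perm (Fin d.n)} (hM : M ∈ L)
    {σ : Perm (Fin d.n)} (hσ : σ.IsCycle) (hσh : ∀ w, σ w ≠ w → Hx A B M w (σ w)) :
    act M σ ∈ L := by
  by_contra hcon
  obtain ⟨l, hl, rfl⟩ := List.getElem_of_mem hM
  rw [act_notMem L hl] at hcon
  have h1 : phi L l l = 1 := by
    rw [phi_apply L hl hl]
    ext w
    simp
  have hlK : l < d.K := by rw [R.hK]; exact hl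
  obtain ⟨l', hl', v₀, hv, j, hj, x, hx, hc⟩ := cyc_complete (h := Hx A B L[l]) (φ := phi L l)
    (fun a b => H_iff R hl a b) (hF R hl) hlK h1 hσ hσh (fun l' hl' => hcon l' (by
      rw [← R.hK]
      exact hl'))
  exact h ⟨l, mem_range.2 hlK, l', mem_range.2 hl', v₀, mem_range.2 hv, j, mem_range.2 hj, x,
    mem_range.2 hx, hc⟩

end Pool.Agent.Lib.Wsm
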