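import Mathlib

/-!
# A cycle of a self-map without fixed points

MODULE Wsm.Perm (0.5 h).  Replace the `sorry` below.  Auxiliary lemmas: namespace
`Pool.Agent.Lib.Wsm.PermAux`.

Proof.  Pick `x₀ ∈ S`.  Since `α` is finite the iterates of `x₀` repeat, so some iterate
`y = f^[i] x₀` is a periodic point of `f` (`Function.mem_periodicPts`, or
`Function.Injective`/pigeonhole on `ℕ → α`), and `f^[k] y ∈ S` for all `k`.  Let
`p = Function.minimalPeriod f y`; `p > 0`, and `p ≠ 1` because `f y ≠ y`.  Take
`l = List.map (fun k => f^[k] y) (List.range p)`, nodup by minimality of the period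
(`Function.iterate_injOn_Iio_minimalPeriod`), of length `p ≥ 2`, and `σ = l.formPerm`:
`List.isCycle_formPerm` (nodup, `2 ≤ length`) gives `IsCycle`; for `x ∉ l`
`List.formPerm_apply_of_notMem` gives `σ x = x`; for `x = l[k]`, `List.formPerm_apply_getElem` gives
`σ x = l[(k + 1) % p] = f x`.
-/

namespace Pool.Agent.Lib.Wsm

open Equiv

theorem exists_cycle {α : Type*} [Fintype α] [DecidableEq α] (S : Set α) (hS : S.Nonempty)
    (f : α → α) (hf : ∀ x ∈ S, f x ∈ S) (hne : ∀ x ∈ S, f x ≠ x) :
    ∃ σ : Perm α, σ.IsCycle ∧ ∀ x, σ x = x ∨ (x ∈ S ∧ σ x = f x) := by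
  obtain ⟨x₀, hx₀⟩ := hS
  have hit : ∀ z ∈ S, ∀ k : ℕ, f^[k] z ∈ S := by
    intro z hz k
    induction k with
    | zero => simpa using hz
    | succ k ih => rw [Function.iterate_succ_apply']; exact hf _ ih
  obtain ⟨y, hyS, hyp⟩ : ∃ y ∈ S, y ∈ Function.periodicPts f := by
    have key : ∀ i j : ℕ, i < j → f^[i] x₀ = f^[j] x₀ → ∃ y ∈ S, y ∈ Function.periodicPts f := by
      intro i j hij h
      refine ⟨f^[i] x₀, hit _ hx₀ i, j - i, by omega, ?_⟩
      show f^[j - i] (f^[i] x₀) = f^[i] x₀
      rw [← Function.iterate_add_apply, show j - i + i = j by omega, h]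
    obtain ⟨i, j, hij, h⟩ := Finite.exists_ne_map_eq_of_infinite (fun k : ℕ => f^[k] x₀)
    rcases lt_or_gt_of_ne hij with h1 | h1
    · exact key i j h1 h
    · exact key j i h1 h.symm
  set p := Function.minimalPeriod f y with hp
  have hp0 : 0 < p := Function.minimalPeriod_pos_of_mem_periodicPts hyp
  have hp1 : p ≠ 1 := by
    intro h
    exact hne y hyS (Function.minimalPeriod_eq_one_iff_isFixedPt.mp h)
  set l := List.map (fun k => f^[k] y) (List.range p) with hl
  have hlen : l.length = p := by simp [hl]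
  have hnd : l.Nodup := by
    rw [hl]
    refine List.Nodup.map_on ?_ List.nodup_range
    intro a ha b hb hab
    exact Function.iterate_injOn_Iio_minimalPeriod (by simpa using ha) (by simpa using hb) hab
  refine ⟨l.formPerm, List.isCycle_formPerm hnd (by omega), fun x => ?_⟩
  by_cases hx : x ∈ l
  · right
    obtain ⟨k, hk, rfl⟩ := List.getElem_of_mem hx
    have hgk : l[k] = f^[k] y := by simp [hl]
    refine ⟨by rw [hgk]; exact hit _ hyS k, ?_⟩
    rw [List.formPerm_apply_getElem _ hnd]
    have : ∀ (m : ℕ) (hm : m < l.length), l[m] = f^[m] y := by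
      intro m hm; simp [hl]
    rw [this, hgk, hlen, ← Function.iterate_succ_apply' f k y, hp,
      Function.iterate_mod_minimalPeriod_eq]
  · left
    exact List.formPerm_apply_of_notMem hx

end Pool.Agent.Lib.Wsm
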