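import Pool.Agent.Lib.Wsm.Opt
import Pool.Agent.Lib.Wsm.Perm

/-!
# Moves along cycles, and completeness

MODULE Wsm.Down (1.8 h): prove `act_stab` and `complete`.  Auxiliary lemmas: namespace
`Pool.Agent.Lib.Wsm.DownAux`.  Imports (`Ref`, `Opt`, `Perm`) are black boxes.

Note `(act M σ).symm w = M.symm (σ w)` and `act M σ m = σ.symm (M m)`.

`act_stab`.  Let `(m, w)` block `M₁ = act M σ`: `A m w (M₁ m)`, `B w m (M₁.symm w)`.  First: `M₁ m` is weakly
better than `M m` for `m`: with `v = M₁ m = σ.symm (M m)`, either `v = M m` or `Hx v (M m)`, whose second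
condition is `A m (M m) v = false` (here `M.symm (M m) = m`).  So `A m w (M m)` (`Wk.trans_le`).
If `σ w = w`: `M₁.symm w = M.symm w`, so `(m, w)` blocks `M`.  If `σ w ≠ w`, put `m₁ = M.symm (σ w)`;
`B w m m₁`.  If `m = M.symm w`: then `A m w (M m)` is `A m w w`, impossible.  Otherwise, if
`B w m (M.symm w)`, `(m, w)` blocks `M`; if not, the third condition of `Hx w (σ w)` gives
`A m w (M m) = false`, contradiction.

`complete`.  Let `M'` be (weakly) stable.  Put `U m w = false` iff `w = M' m`, and `π w` = a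
permutation with `π w (M'.symm w) = 0` (`Equiv.swap (M'.symm w) ⟨0, _⟩`).  Let `A₁ = refM A U`, `B₁ = refW B π`
(strict by `refM_lin`, `refW1_lin`).  Then `A₁ m w (M' m) = true ↔ A m w (M' m) = true` and
`B₁ w m (M'.symm w) = true ↔ B w m (M'.symm w) = true`; so `M'` is stable for `A₁, B₁`.
Claim: every `M ∈ L` which is stable for `(A₁, B₁)` and such that every woman has in `M` the same
man as in `M'` or a man she prefers (in `B₁`) satisfies: `M' ∈ L`.  Induction on the number
`∑ w, #{m | B₁ w (M.symm w) m = true}`.  If `M = M'` done.  Otherwise let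
`S = {w | M.symm w ≠ M'.symm w}` (nonempty).
 (i) A man `m` with `M m ≠ M' m` prefers (`A₁`) `M' m`: otherwise `A₁ m (M m) (M' m)`, and `w = M m` has
     `B₁ w m (M'.symm w)` (she has different partners), so `(m, w)` blocks `M'`.
 (ii) For `w ∈ S` the man `M'.symm w` comes after `M.symm w` in the list of `w` and prefers `w` to his
     partner in `M` by (i).  Let `p w` be the first man after `M.symm w` in the list `B₁ w` with
     `A₁ (p w) w (M (p w))`; he is `M'.symm w` or before him.  Put `f w = M (p w)`.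
 (iii) `f w ≠ w` (irreflexivity), `f w ∈ S`: otherwise `M' (p w) = M (p w) ≠ w`, so `p w ≠ M'.symm w`, so
     `B₁ w (p w) (M'.symm w)` and `A₁ (p w) w (M' (p w))`: blocks `M'`.
 (iv) `exists_cycle`: a cycle `σ` with `σ w = w` or (`w ∈ S` and `σ w = f w`).  The arcs are in
     `Hx A B M`: for `σ w = f w`, `M.symm (f w) = p w`; `B w (p w) (M.symm w) = false` by `refW1_true`,
     `A (p w) (f w) w = false` by `refM_true`; let `m ≠ M.symm w` with `B w m (M.symm w) = false` and
     `B w m (p w) = true`; then `B₁ w m (p w)`.  If `B₁ w (M.symm w) m` then, `p w` being the first,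
     `A₁ m w (M m) = false`, so `A m w (M m) = false` (`refM_of_true`).  Otherwise `B₁ w m (M.symm w)`, and as
     `M` is stable for `(A₁, B₁)` again `A₁ m w (M m) = false`.
 (v) `M₁ = act M σ` is in `L`, every woman has in `M₁` her partner of `M'` or a better man (`(ii)`), the
     number above is smaller (the moved women have worse partners), and `M₁` is stable for
     `(A₁, B₁)`: let `(m, w)` block; every man is in `M₁` at least as well off as in `M`, so
     `A₁ m w (M m)`; if `w` is not moved, `(m, w)` blocks `M`; if she is moved, `B₁ w m (p w)`, `m ≠ M.symm w`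
     (irreflexivity), and either `m` is after `M.symm w`, against the choice of `p w`, or before, and
     `(m, w)` blocks `M`.
Start with `M = opt A₁ B₁` (`opt_spec`).
-/

namespace Pool.Agent.Lib.Wsm

open Finset Equiv

variable {n : ℕ}

theorem act_stab {A B : Pref n} (hA : ∀ m, Wk (A m)) (hB : ∀ w, Wk (B w)) {M σ : Perm (Fin n)}
    (hM : Stab A B M) (hσ : ∀ w, σ w ≠ w → Hx A B M w (σ w)) : Stab A B (act M σ) := by
  rintro m w ⟨h1, h2⟩
  have h1' : A m w (σ.symm (M m)) = true := h1
  have h2' : B w m (M.symm (σ w)) = true := h2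
  have h3 : A m w (M m) = true := by
    by_cases hv : σ (σ.symm (M m)) = σ.symm (M m)
    · rw [Equiv.apply_symm_apply] at hv
      rw [hv]
      exact h1'
    · have hx := hσ _ hv
      have h4 := hx.2.2.1
      rw [Equiv.apply_symm_apply, Equiv.symm_apply_apply] at h4
      exact (hA m).trans_le h1' h4
  by_cases hw : σ w = w
  · rw [hw] at h2'
    exact hM m w ⟨h3, h2'⟩
  · by_cases hm : m = M.symm w
    · rw [hm, Equiv.apply_symm_apply, (hA _).irrefl] at h3
      exact Bool.false_ne_true h3
    · cases hb : B w m (M.symm w) with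
      | true => exact hM m w ⟨h3, hb⟩
      | false =>
        have := (hσ w hw).2.2.2 m hm hb h2'
        rw [this] at h3
        exact Bool.false_ne_true h3

namespace DownAux

lemma exists_first {R : Fin n → Fin n → Bool} (hR : Lin R) (C : Set (Fin n)) (hC : C.Nonempty) :
    ∃ p ∈ C, ∀ m ∈ C, m ≠ p → R p m = true := by
  classical
  obtain ⟨r, hr, hR⟩ := hR
  have hne : (univ.filter (fun m => m ∈ C)).Nonempty := by
    obtain ⟨c, hc⟩ := hC
    exact ⟨c, by simpa using hc⟩
  obtain ⟨p, hp, hmin⟩ := Finset.exists_min_image _ r hne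
  refine ⟨p, by simpa using hp, fun m hm hmp => ?_⟩
  have h1 := hmin m (by simpa using hm)
  have h2 : r m ≠ r p := fun h => hmp (hr h)
  rw [hR, decide_eq_true_iff]
  omega

lemma step {A B A₁ B₁ : Pref n} (hA₁ : ∀ m, Lin (A₁ m)) (hB₁ : ∀ w, Lin (B₁ w))
    (hAA : ∀ m a b, A m a b = true → A₁ m a b = true)
    (hAA' : ∀ m a b, A₁ m a b = true → A m b a = false)
    (hBB : ∀ w a b, B w a b = true → B₁ w a b = true)
    (hBB' : ∀ w a b, B₁ w a b = true → B w b a = false)
    {M M' : Perm (Fin n)} (hM : Stab A₁ B₁ M) (hM' : Stab A₁ B₁ M') (hne : M ≠ M')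
    (hle : ∀ w, M.symm w = M'.symm w ∨ B₁ w (M.symm w) (M'.symm w) = true) :
    ∃ σ : Perm (Fin n), σ.IsCycle ∧ (∀ w, σ w ≠ w → Hx A B M w (σ w)) ∧
      Stab A₁ B₁ (act M σ) ∧
      (∀ w, (act M σ).symm w = M'.symm w ∨ B₁ w ((act M σ).symm w) (M'.symm w) = true) ∧
      ∀ w, (σ w = w → (act M σ).symm w = M.symm w) ∧
        (σ w ≠ w → B₁ w (M.symm w) ((act M σ).symm w) = true) := by
  classical
  -- (i)
  have hmen : ∀ m, M m ≠ M' m → A₁ m (M' m) (M m) = true := by
    intro m hm
    rcases (hA₁ m).total hm.symm with h | h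
    · exact h
    · exfalso
      rcases hle (M m) with h2 | h2
      · rw [Equiv.symm_apply_apply] at h2
        apply hm
        rw [Equiv.eq_symm_apply] at h2
        exact h2.symm
      · rw [Equiv.symm_apply_apply] at h2
        exact hM' m (M m) ⟨h, h2⟩
  set S : Set (Fin n) := {w | M.symm w ≠ M'.symm w} with hS
  have hSle : ∀ w ∈ S, B₁ w (M.symm w) (M'.symm w) = true := by
    intro w hw
    rcases hle w with h | h
    · exact absurd h hw
    · exact h
  have hmem : ∀ w ∈ S, A₁ (M'.symm w) w (M (M'.symm w)) = true := by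
    intro w hw
    have h1 : M (M'.symm w) ≠ M' (M'.symm w) := by
      rw [Equiv.apply_symm_apply]
      intro h
      apply hw
      rw [Equiv.symm_apply_eq]
      exact h.symm
    have h2 := hmen _ h1
    rw [Equiv.apply_symm_apply] at h2
    exact h2
  -- (ii)
  have hex : ∀ w, ∃ p, w ∈ S → (B₁ w (M.symm w) p = true ∧ A₁ p w (M p) = true ∧
      ∀ m, B₁ w (M.symm w) m = true → A₁ m w (M m) = true → m ≠ p → B₁ w p m = true) := by
    intro w
    by_cases hw : w ∈ S
    · obtain ⟨p, hp, hp2⟩ := exists_first (hB₁ w)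
        {m | B₁ w (M.symm w) m = true ∧ A₁ m w (M m) = true} ⟨M'.symm w, hSle w hw, hmem w hw⟩
      exact ⟨p, fun _ => ⟨hp.1, hp.2, fun m h1 h2 h3 => hp2 m ⟨h1, h2⟩ h3⟩⟩
    · exact ⟨w, fun h => absurd h hw⟩
  choose p hp using hex
  have hf1 : ∀ w ∈ S, M (p w) ≠ w := by
    intro w hw h
    have := (hp w hw).2.1
    rw [h, (hA₁ _).wk.irrefl] at this
    exact Bool.false_ne_true this
  have hpM' : ∀ w ∈ S, p w = M'.symm w ∨ B₁ w (p w) (M'.symm w) = true := by
    intro w hw
    by_cases h : p w = M'.symm w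
    · exact Or.inl h
    · exact Or.inr ((hp w hw).2.2 _ (hSle w hw) (hmem w hw) (fun h' => h h'.symm))
  have hf2 : ∀ w ∈ S, M (p w) ∈ S := by
    intro w hw h
    rw [Equiv.symm_apply_apply, Equiv.eq_symm_apply] at h
    rcases hpM' w hw with h2 | h2
    · apply hf1 w hw
      rw [← h, h2, Equiv.apply_symm_apply]
    · apply hM' (p w) w
      refine ⟨?_, h2⟩
      rw [h]
      exact (hp w hw).2.1
  have hSne : S.Nonempty := by
    by_contra hcon
    apply hne
    ext1 m
    by_contra h
    apply hcon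
    refine ⟨M m, ?_⟩
    show M.symm (M m) ≠ M'.symm (M m)
    rw [Equiv.symm_apply_apply]
    intro h2
    rw [Equiv.eq_symm_apply] at h2
    exact h h2.symm
  obtain ⟨σ, hc, hσ⟩ := exists_cycle S hSne (fun w => M (p w)) hf2 hf1
  have hmv : ∀ w, σ w ≠ w → w ∈ S ∧ M.symm (σ w) = p w := by
    intro w hw
    rcases hσ w with h | h
    · exact absurd h hw
    · refine ⟨h.1, ?_⟩
      rw [h.2, Equiv.symm_apply_apply]
  refine ⟨σ, hc, ?_, ?_, ?_, ?_⟩
  · intro w hw
    obtain ⟨hwS, hsw⟩ := hmv w hw
    refine ⟨fun h => hw h.symm, ?_, ?_, ?_⟩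
    · rw [hsw]
      exact hBB' _ _ _ (hp w hwS).1
    · have h1 : M (p w) = σ w := by
        rw [← hsw, Equiv.apply_symm_apply]
      rw [hsw, ← h1]
      exact hAA' _ _ _ (hp w hwS).2.1
    · intro m hm1 hm2 hm3
      rw [hsw] at hm3
      by_contra hcon
      have hA : A₁ m w (M m) = true := hAA _ _ _ (by simpa using hcon)
      rcases (hB₁ w).total hm1 with h | h
      · exact hM m w ⟨hA, h⟩
      · have h3 := hBB _ _ _ hm3
        have hmp : m ≠ p w := by
          intro h4
          rw [h4, (hB₁ w).wk.irrefl] at h3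
          exact Bool.false_ne_true h3
        have h5 := (hp w hwS).2.2 m h hA hmp
        rw [(hB₁ w).wk.asymm h3] at h5
        exact Bool.false_ne_true h5
  · rintro m w ⟨h1, h2⟩
    have h1' : A₁ m w (σ.symm (M m)) = true := h1
    have h2' : B₁ w m (M.symm (σ w)) = true := h2
    have h3 : A₁ m w (M m) = true := by
      by_cases hv : σ (σ.symm (M m)) = σ.symm (M m)
      · rw [Equiv.apply_symm_apply] at hv
        rw [hv]
        exact h1'
      · obtain ⟨hvS, hpv⟩ := hmv _ hv
        rw [Equiv.apply_symm_apply, Equiv.symm_apply_apply] at hpv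
        have h4 := (hp _ hvS).2.1
        rw [← hpv] at h4
        exact (hA₁ m).wk.trans h1' h4
    by_cases hw : σ w = w
    · rw [hw] at h2'
      exact hM m w ⟨h3, h2'⟩
    · obtain ⟨hwS, hsw⟩ := hmv w hw
      rw [hsw] at h2'
      have hm1 : m ≠ M.symm w := by
        intro h
        rw [h, Equiv.apply_symm_apply, (hA₁ _).wk.irrefl] at h3
        exact Bool.false_ne_true h3
      rcases (hB₁ w).total hm1 with h | h
      · exact hM m w ⟨h3, h⟩
      · have hmp : m ≠ p w := by
          intro h4
          rw [h4, (hB₁ w).wk.irrefl] at h2'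
          exact Bool.false_ne_true h2'
        have h5 := (hp w hwS).2.2 m h h3 hmp
        rw [(hB₁ w).wk.asymm h2'] at h5
        exact Bool.false_ne_true h5
  · intro w
    show M.symm (σ w) = M'.symm w ∨ B₁ w (M.symm (σ w)) (M'.symm w) = true
    by_cases hw : σ w = w
    · rw [hw]
      exact hle w
    · obtain ⟨hwS, hsw⟩ := hmv w hw
      rw [hsw]
      exact hpM' w hwS
  · intro w
    refine ⟨fun hw => ?_, fun hw => ?_⟩
    · show M.symm (σ w) = M.symm w
      rw [hw]
    · obtain ⟨hwS, hsw⟩ := hmv w hw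
      show B₁ w (M.symm w) (M.symm (σ w)) = true
      rw [hsw]
      exact (hp w hwS).1

end DownAux

theorem complete {A B : Pref n} (hA : ∀ m, Wk (A m)) (hB : ∀ w, Wk (B w))
    (L : Set (Perm (Fin n)))
    (hcl : ∀ M ∈ L, ∀ σ : Perm (Fin n), σ.IsCycle → (∀ w, σ w ≠ w → Hx A B M w (σ w)) →
      act M σ ∈ L)
    (hopt : ∀ (U : Fin n → Fin n → Bool) (π : Fin n → Perm (Fin n)),
      opt (refM A U) (refW B π) ∈ L)
    (M' : Perm (Fin n)) (hM' : Stab A B M') : M' ∈ L := by
  classical
  rcases Nat.eq_zero_or_pos n with hn | hn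
  · subst hn
    have h := hopt (fun _ _ => false) (fun _ => 1)
    have h2 : M' = opt (refM A (fun _ _ => false)) (refW B (fun _ => 1)) := Subsingleton.elim _ _
    rw [h2]
    exact h
  haveI : NeZero n := ⟨hn.ne'⟩
  set U : Fin n → Fin n → Bool := fun m w => decide (w ≠ M' m) with hU
  set π : Fin n → Perm (Fin n) := fun w => Equiv.swap (M'.symm w) 0 with hπ
  set A₁ := refM A U with hA₁d
  set B₁ := refW B π with hB₁d
  have hA₁ : ∀ m, Lin (A₁ m) := refM_lin hA U
  have hB₁ : ∀ w, Lin (B₁ w) := fun w => refW1_lin (hB w) _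
  have ha : ∀ m w, A₁ m w (M' m) = true → A m w (M' m) = true := by
    intro m w h
    have h1 : A₁ m w (M' m) = bef A m w (U m w) (M' m) (U m (M' m)) := rfl
    have h2 : U m (M' m) = false := by simp [hU]
    rw [h1, h2] at h
    unfold bef at h
    by_cases hw : w = M' m
    · subst hw
      simpa [h2] using h
    · have h3 : U m w = true := by simp [hU, hw]
      have h4 : ¬ (true < false) := by decide
      rw [h3] at h
      simpa [h4] using h
  have hb : ∀ w m, B₁ w m (M'.symm w) = true → B w m (M'.symm w) = true := by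
    intro w m h
    have h1 : B₁ w m (M'.symm w) = (B w m (M'.symm w) ||
      (!B w (M'.symm w) m && decide (π w m < π w (M'.symm w)))) := rfl
    have h2 : π w (M'.symm w) = 0 := by simp [hπ]
    rw [h1, h2] at h
    have h3 : ¬ (π w m < 0) := by
      rw [Fin.lt_def]
      simp
    simpa [h3] using h
  have hM'₁ : Stab A₁ B₁ M' := by
    rintro m w ⟨h1, h2⟩
    exact hM' m w ⟨ha m w h1, hb w m h2⟩
  have key : ∀ k : ℕ, ∀ M : Perm (Fin n), M ∈ L → Stab A₁ B₁ M →
      (∀ w, M.symm w = M'.symm w ∨ B₁ w (M.symm w) (M'.symm w) = true) →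
      (∑ w, (univ.filter (fun m => B₁ w (M.symm w) m = true)).card) = k → M' ∈ L := by
    intro k
    induction k using Nat.strong_induction_on with
    | _ k ih =>
      intro M hML hM hle hk
      by_cases hne : M = M'
      · rw [← hne]
        exact hML
      obtain ⟨σ, hc, hx, hst, hle', hmv⟩ := DownAux.step (A := A) (B := B) hA₁ hB₁
        (fun m a b h => refM_of_true h) (fun m a b h => refM_true hA h)
        (fun w a b h => refW1_of_true h) (fun w a b h => refW1_true (hB w) h) hM hM'₁ hne hle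
      refine ih _ ?_ (act M σ) (hcl M hML σ hc hx) hst hle' rfl
      rw [← hk]
      obtain ⟨w₀, hw₀, _⟩ := hc
      have hsub : ∀ w, σ w ≠ w → univ.filter (fun m => B₁ w ((act M σ).symm w) m = true) ⊂
          univ.filter (fun m => B₁ w (M.symm w) m = true) := by
        intro w hw
        have h1 := (hmv w).2 hw
        rw [Finset.ssubset_iff_of_subset]
        · refine ⟨(act M σ).symm w, ?_, ?_⟩
          · simpa using h1
          · simp [(hB₁ w).wk.irrefl]
        · intro m hm
          rw [Finset.mem_filter] at hm ⊢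
          exact ⟨mem_univ _, (hB₁ w).wk.trans h1 hm.2⟩
      apply Finset.sum_lt_sum
      · intro w _
        by_cases hw : σ w = w
        · rw [(hmv w).1 hw]
        · exact Finset.card_le_card (hsub w hw).1
      · exact ⟨w₀, mem_univ _, Finset.card_lt_card (hsub w₀ hw₀)⟩
  obtain ⟨h1, h2, _⟩ := opt_spec hA₁ hB₁
  refine key _ (opt A₁ B₁) (hopt U π) h1 (fun w => ?_) rfl
  rcases h2 M' hM'₁ w with h | h
  · exact Or.inl h.symm
  · exact Or.inr h

/-- a matching which is stable for a refinement is weakly stable -/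
theorem stab_of_ref {A B : Pref n} {U : Fin n → Fin n → Bool} {π : Fin n → Perm (Fin n)}
    {M : Perm (Fin n)} (h : Stab (refM A U) (refW B π) M) : Stab A B M := by
  intro m w hb
  exact h m w ⟨refM_of_true hb.1, refW1_of_true hb.2⟩

end Pool.Agent.Lib.Wsm
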