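import Pool.Agent.Lib.Wsm.Cert

/-!
# Ties of length at most two: the uniform measure

MODULE Wsm.Unif (1 h): prove `unif_indep` and `ok_short`.  Auxiliary lemmas: namespace
`Pool.Agent.Lib.Wsm.UnifAux`.  Imports are black boxes.

`unif_indep`: fix `i` and `f`.  For `j ≠ i` not tied with `i`, `refW1 R π j i = R j i` for all `π`, and
`x j i` is `1` or `0`.  If no man is tied with `i`, the product does not depend on `π`.  Otherwise
there is exactly one `j₀ ≠ i` tied with `i`, `refW1 R π j₀ i = decide (π j₀ < π i)`, and the involution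
`π ↦ (swap j₀ i).trans π` exchanges `π j₀ < π i` and `π i < π j₀`; so each of the two values is taken by
half of the permutations (`Fintype.card (Perm (Fin n)) = n!`), and `x j₀ i = 1 / 2`.

`ok_short`: `sep`, and `xg (g w) (B' w) j i` is `1 / 2` for tied `j ≠ i` (in `B'`, hence in `B`): the
smaller index has `g = -1`, since no third man is tied with it, and the larger one has `g = 1`:
`1 / (1 - (-1)) = 1 / 2`, `(-1) / (-1 - 1) = 1 / 2`.  `good`: by `Rm_eq` with the uniform measures,
`Rm` is a sum of nonnegative terms and the term of the missing `(U, π)` is positive (`uL` of a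
consistent label is `1` or `1 / 2`).
-/

namespace Pool.Agent.Lib.Wsm

open Finset Equiv

variable {n : ℕ}

/-- no three men are tied -/
def Short (R : Fin n → Fin n → Bool) : Prop :=
  ∀ a b c, a ≠ b → a ≠ c → b ≠ c → R a b = false → R b a = false →
    R a c = false → R c a = false → False

namespace UnifAux

/-- the tie with `i` is broken by a fair coin -/
theorem sum_swap (j₀ i : Fin n) (hne : j₀ ≠ i) (F : Bool → ℚ) :
    ∑ π : Perm (Fin n), F (decide (π j₀ < π i)) = (n.factorial : ℚ) * ((F true + F false) / 2) := by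
  have h1 : ∑ π : Perm (Fin n), F (decide (π j₀ < π i)) = ∑ π : Perm (Fin n), F (decide (π i < π j₀)) := by
    refine Fintype.sum_equiv (Equiv.mulRight (swap j₀ i)) _ _ fun π => ?_
    simp only [Equiv.coe_mulRight, Perm.mul_apply, swap_apply_left, swap_apply_right]
  have h2 : ∀ π : Perm (Fin n), F (decide (π j₀ < π i)) + F (decide (π i < π j₀)) = F true + F false := by
    intro π
    have hπ : π j₀ ≠ π i := fun h => hne (π.injective h)
    rcases lt_or_gt_of_ne hπ with h | h
    · have h' : ¬ π i < π j₀ := not_lt.2 h.le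
      simp [h, h']
    · have h' : ¬ π j₀ < π i := not_lt.2 h.le
      simp only [h, h', decide_true, decide_false]
      ring
  have h3 : ∑ π : Perm (Fin n), (F (decide (π j₀ < π i)) + F (decide (π i < π j₀))) =
      (n.factorial : ℚ) * (F true + F false) := by
    rw [Finset.sum_congr rfl fun π _ => h2 π, Finset.sum_const, Finset.card_univ, Fintype.card_perm,
      Fintype.card_fin, nsmul_eq_mul]
  rw [Finset.sum_add_distrib, ← h1] at h3
  linarith

theorem refW1_of_not_tied {R : Fin n → Fin n → Bool} (hR : Wk R) {j i : Fin n} (hne : j ≠ i)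
    (h : R j i = true ∨ R i j = true) (π : Perm (Fin n)) : refW1 R π j i = R j i := by
  unfold refW1
  cases hji : R j i with
  | true => simp
  | false =>
    have : R i j = true := by
      rcases h with h | h
      · rw [hji] at h
        exact absurd h (by decide)
      · exact h
    simp [this]

theorem sum_unif (P : ℚ) : ∑ _π : Perm (Fin n), 1 / (n.factorial : ℚ) * P = P := by
  rw [Finset.sum_const, Finset.card_univ, Fintype.card_perm, Fintype.card_fin, nsmul_eq_mul]
  have : (n.factorial : ℚ) ≠ 0 := by exact_mod_cast n.factorial_ne_zero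
  field_simp

theorem factor_eq {R : Fin n → Fin n → Bool} (hR : Wk R) {j i : Fin n} 
    (h : R j i = true ∨ R i j = true) {y : ℚ}
    (hy : y = if R j i = true then 1 else if R i j = true then 0 else 1 / 2) (f : Bool → ℚ) :
    f (R j i) = y * f true + (1 - y) * f false := by
  subst hy
  cases hji : R j i with
  | true => simp
  | false =>
    have : R i j = true := by
      rcases h with h | h
      · rw [hji] at h
        exact absurd h (by decide)
      · exact h
    simp [this]

theorem short_refn {R R' : Fin n → Fin n → Bool} (h : Short R)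
    (hr : ∀ a b, R a b = true → R' a b = true) : Short R' := by
  have hf : ∀ a b, R' a b = false → R a b = false := by
    intro a b hab
    cases hab' : R a b with
    | true => rw [hr a b hab'] at hab; exact hab
    | false => rfl
  intro a b c hab hac hbc h1 h2 h3 h4
  exact h a b c hab hac hbc (hf _ _ h1) (hf _ _ h2) (hf _ _ h3) (hf _ _ h4)

open Classical in
/-- the smaller one of two tied men -/
theorem g_small {R : Fin n → Fin n → Bool} (h : Short R) (g : Fin n → ℤ)
    (hg : ∀ j, g j = if ∃ i, i < j ∧ R i j = false ∧ R j i = false then 1 else -1)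
    {j i : Fin n} (hji : j < i) (h1 : R j i = false) (h2 : R i j = false) :
    g j = -1 ∧ g i = 1 := by
  constructor
  · rw [hg, if_neg]
    rintro ⟨k, hk, h3, h4⟩
    exact h j k i hk.ne' hji.ne (hk.trans hji).ne h4 h3 h1 h2
  · rw [hg, if_pos ⟨j, hji, h1, h2⟩]

theorem xg_half {R R' : Fin n → Fin n → Bool} (h : Short R)
    (hr : ∀ a b, R a b = true → R' a b = true) (g : Fin n → ℤ)
    (hs : ∀ j i, j < i → R j i = false → R i j = false → g j = -1 ∧ g i = 1)
    {j i : Fin n} (hne : j ≠ i) :
    xg g R' j i = if R' j i = true then 1 else if R' i j = true then 0 else 1 / 2 := by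
  have hf : ∀ a b, R' a b = false → R a b = false := by
    intro a b hab
    cases hab' : R a b with
    | true => rw [hr a b hab'] at hab; exact hab
    | false => rfl
  unfold xg
  cases h1 : R' j i with
  | true => rfl
  | false =>
    cases h2 : R' i j with
    | true => rfl
    | false =>
      simp only [Bool.false_eq_true, if_false]
      rcases lt_or_gt_of_ne hne with h3 | h3
      · obtain ⟨e1, e2⟩ := hs j i h3 (hf _ _ h1) (hf _ _ h2)
        rw [e1, e2]
        norm_num
      · obtain ⟨e1, e2⟩ := hs i j h3 (hf _ _ h2) (hf _ _ h1)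
        rw [e1, e2]
        norm_num

theorem uL_nonneg (lab : List Bool) (m w : Fin n) (b : Bool) : 0 ≤ uL n lab m w b := by
  unfold uL
  split_ifs <;> norm_num

theorem uL_pos {lab : List Bool} {U : Fin n → Fin n → Bool} (h : Cons lab U) (m w : Fin n) :
    0 < uL n lab m w (U m w) := by
  unfold uL
  split_ifs with h1 h2
  · norm_num
  · exact absurd (h m w h1).symm h2
  · norm_num

end UnifAux

open UnifAux

theorem unif_indep {R : Fin n → Fin n → Bool} (hR : Wk R) (h : Short R)
    (x : Fin n → Fin n → ℚ)
    (hx : ∀ j i, j ≠ i → x j i = if R j i = true then 1 else if R i j = true then 0 else 1 / 2) :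
    IndepX R (fun _ => 1 / (n.factorial : ℚ)) x := by
  intro i f
  by_cases hc : ∃ j₀, j₀ ≠ i ∧ R j₀ i = false ∧ R i j₀ = false
  · obtain ⟨j₀, hne, h1, h2⟩ := hc
    have hnt : ∀ j ∈ (univ.erase i).erase j₀, R j i = true ∨ R i j = true := by
      intro j hj
      rw [Finset.mem_erase, Finset.mem_erase] at hj
      by_contra hcon
      push Not at hcon
      obtain ⟨h3, h4⟩ := hcon
      exact h i j₀ j hne.symm hj.2.1.symm hj.1.symm h2 h1 (by simpa using h4) (by simpa using h3)
    have hmem : j₀ ∈ univ.erase i := Finset.mem_erase.2 ⟨hne, Finset.mem_univ _⟩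
    have e1 : ∀ π : Perm (Fin n), ∏ j ∈ univ.erase i, f j (refW1 R π j i) =
        f j₀ (decide (π j₀ < π i)) * ∏ j ∈ (univ.erase i).erase j₀, f j (R j i) := by
      intro π
      rw [← Finset.mul_prod_erase _ _ hmem]
      congr 1
      · congr 1
        unfold refW1
        rw [h1, h2]
        simp
      · refine Finset.prod_congr rfl fun j hj => ?_
        rw [refW1_of_not_tied hR ?_ (hnt j hj)]
        rw [Finset.mem_erase, Finset.mem_erase] at hj
        exact hj.2.1
    have e2 : ∏ j ∈ univ.erase i, (x j i * f j true + (1 - x j i) * f j false) =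
        (f j₀ true + f j₀ false) / 2 * ∏ j ∈ (univ.erase i).erase j₀, f j (R j i) := by
      rw [← Finset.mul_prod_erase _ _ hmem]
      congr 1
      · rw [hx j₀ i hne, h1, h2]
        simp only [Bool.false_eq_true, if_false]
        ring
      · refine Finset.prod_congr rfl fun j hj => ?_
        have hj' := hj
        rw [Finset.mem_erase, Finset.mem_erase] at hj'
        exact (factor_eq hR (hnt j hj) (hx j i hj'.2.1) (f j)).symm
    rw [e2]
    simp only [e1]
    have e3 : ∀ π : Perm (Fin n), 1 / (n.factorial : ℚ) * (f j₀ (decide (π j₀ < π i)) *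
        ∏ j ∈ (univ.erase i).erase j₀, f j (R j i)) =
        f j₀ (decide (π j₀ < π i)) * (1 / (n.factorial : ℚ) * ∏ j ∈ (univ.erase i).erase j₀, f j (R j i)) := by
      intro π
      ring
    simp only [e3]
    rw [← Finset.sum_mul, sum_swap j₀ i hne (f j₀)]
    have : (n.factorial : ℚ) ≠ 0 := by exact_mod_cast n.factorial_ne_zero
    field_simp
  · have hnt : ∀ j ∈ univ.erase i, R j i = true ∨ R i j = true := by
      intro j hj
      by_contra hcon
      push Not at hcon
      obtain ⟨h3, h4⟩ := hcon
      exact hc ⟨j, (Finset.mem_erase.1 hj).1, by simpa using h3, by simpa using h4⟩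
    have e1 : ∀ π : Perm (Fin n), ∏ j ∈ univ.erase i, f j (refW1 R π j i) =
        ∏ j ∈ univ.erase i, f j (R j i) := by
      intro π
      refine Finset.prod_congr rfl fun j hj => ?_
      rw [refW1_of_not_tied hR (Finset.mem_erase.1 hj).1 (hnt j hj)]
    simp only [e1]
    rw [sum_unif]
    refine Finset.prod_congr rfl fun j hj => ?_
    exact factor_eq hR (hnt j hj) (hx j i (Finset.mem_erase.1 hj).1) (f j)

open Classical in
theorem ok_short {A B : Pref n} (hA : ∀ m, Wk (A m)) (hB : ∀ w, Wk (B w))
    (h : ∀ w, Short (B w)) (g : Fin n → Fin n → ℤ)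
    (hg : ∀ w j, g w j = if ∃ i, i < j ∧ B w i j = false ∧ B w j i = false then 1 else -1)
    (L : Finset (Perm (Fin n))) : OK A B g L := by
  have hs : ∀ w j i, j < i → B w j i = false → B w i j = false → g w j = -1 ∧ g w i = 1 :=
    fun w j i h1 h2 h3 => g_small (h w) (g w) (hg w) h1 h2 h3
  have hI : ∀ B', Refn B' B → ∀ w, IndepX (B' w) (fun _ => 1 / (n.factorial : ℚ)) (xg (g w) (B' w)) := by
    intro B' hB' w
    refine unif_indep (hB' w).1 (short_refn (h w) (hB' w).2) _ fun j i hji => ?_
    exact xg_half (h w) (hB' w).2 (g w) (hs w) hji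
  refine ⟨?_, ?_, ?_⟩
  · intro w j i hji h1 h2
    rcases lt_or_gt_of_ne hji with h3 | h3
    · obtain ⟨e1, e2⟩ := hs w j i h3 h1 h2
      rw [e1, e2]
      decide
    · obtain ⟨e1, e2⟩ := hs w i j h3 h2 h1
      rw [e1, e2]
      decide
  · exact fun B' hB' w => ⟨_, hI B' hB' w⟩
  · intro B' hB' lab hm
    obtain ⟨U, π, hU, hopt⟩ := hm
    rw [Rm_eq hA (fun w => (hB' w).1) (uL_sum lab) (hI B' hB') L]
    apply ne_of_gt
    have hnn : ∀ (U : Fin n → Fin n → Bool) (π : Fin n → Perm (Fin n)),
        0 ≤ (∏ m, ∏ w, uL n lab m w (U m w)) * (∏ _w : Fin n, 1 / (n.factorial : ℚ)) *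
          (if opt (refM A U) (refW B' π) ∈ L then (0 : ℚ) else 1) := by
      intro U π
      refine mul_nonneg (mul_nonneg ?_ ?_) ?_
      · exact Finset.prod_nonneg fun m _ => Finset.prod_nonneg fun w _ => uL_nonneg lab m w _
      · exact Finset.prod_nonneg fun m _ => by positivity
      · split_ifs <;> norm_num
    refine Finset.sum_pos' (fun U _ => Finset.sum_nonneg fun π _ => hnn U π) ⟨U, Finset.mem_univ _, ?_⟩
    refine Finset.sum_pos' (fun π _ => hnn U π) ⟨π, Finset.mem_univ _, ?_⟩
    rw [if_neg hopt, mul_one]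
    refine mul_pos ?_ ?_
    · exact Finset.prod_pos fun m _ => Finset.prod_pos fun w _ => uL_pos hU m w
    · exact Finset.prod_pos fun m _ => by
        have : (0 : ℚ) < n.factorial := by exact_mod_cast n.factorial_pos
        positivity

end Pool.Agent.Lib.Wsm
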