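import Pool.Agent.Lib.Wsm.BrDesc
import Pool.Agent.Lib.Wsm.BrCyc
import Pool.Agent.Lib.Wsm.Down
import Pool.Agent.Lib.Wsm.Unif

/-!
# Correctness of one step
-/

namespace Pool.Agent.Lib.Wsm

open Finset Equiv

variable {d : Dat} {A B : Pref d.n} {g : Fin d.n → Fin d.n → ℤ} {L : List (Perm (Fin d.n))}

theorem next_spec (R : Rep d A B g L) (hA : ∀ m, Wk (A m)) (hB : ∀ w, Wk (B w))
    (hok : OK A B g L.toFinset) (hst : ∀ M ∈ L, Stab A B M) :
    (d.next = [] ∧ ∀ M, Stab A B M → M ∈ L) ∨
      ∃ M, M ∉ L ∧ Stab A B M ∧ d.next = true :: permBits M := by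
  classical
  by_cases h5 : d.C5
  · right
    obtain ⟨M, hM, σ, _, hσh, hnot, hbits⟩ := cyc_found R h5
    refine ⟨act M σ, hnot, act_stab hA hB (hst M hM) hσh, ?_⟩
    unfold Dat.next
    rw [if_pos h5, hbits]
  · by_cases hR : d.Rne [] d.tB
    · right
      obtain ⟨hlen, hmiss⟩ := lab_spec R hA hB hok hR
      obtain ⟨B', href, hlin, htb, hmiss'⟩ := tbf_spec R hA hB hok hmiss
      have hfin := miss_final hlin hmiss' (le_of_eq hlen.symm)
      have hbits := da_bits R hA htb hlin d.lab
      refine ⟨opt (refM A (labU d.n d.lab)) B', ?_, ?_, ?_⟩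
      · intro hc
        exact hfin (List.mem_toFinset.2 hc)
      · have hs := (opt_spec (A := refM A (labU d.n d.lab)) (B := B')
          (fun m => refM_lin hA _ m) hlin).1
        intro m w hb
        exact hs m w ⟨refM_of_true hb.1, (href w).2 _ _ hb.2⟩
      · unfold Dat.next
        rw [if_neg h5, if_pos hR]
        congr 1
    · left
      refine ⟨by unfold Dat.next; rw [if_neg h5, if_neg hR], ?_⟩
      have hno : ¬ Miss A B [] L.toFinset := fun hc => hR ((rne_miss R hA hB hok).2 hc)
      intro M hM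
      refine complete hA hB {M | M ∈ L} ?_ ?_ M hM
      · intro M hM σ hσ hσh
        exact cyc_none R h5 hM hσ hσh
      · intro U π
        by_contra hc
        exact hno ⟨U, π, fun m w hlt => absurd hlt (by simp), fun hc' =>
          hc (List.mem_toFinset.1 hc')⟩

end Pool.Agent.Lib.Wsm
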