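import Pool.Agent.Lib.Wsm.Step
import Pool.Agent.Lib.Wsm.NextSpec

/-!
# Correctness of the step on codes
-/

set_option autoImplicit false

namespace Pool.Agent.Lib.Wsm

open Finset Equiv Pool.Agent.Lib.PolyTime Pool.Agent.Lib.Pa7c826

namespace StepSpecAux

theorem block {γ β : Type*} (c : ℕ) (f : γ → List β) (L : List γ) (hf : ∀ x ∈ L, (f x).length = c)
    (i : ℕ) (hi : i < L.length) : ((L.flatMap f).drop (i * c)).take c = f L[i] := by
  induction L generalizing i with
  | nil => simp at hi
  | cons a L ih =>
    have ha : (f a).length = c := hf a (by simp)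
    rw [List.flatMap_cons]
    cases i with
    | zero =>
      rw [zero_mul, List.drop_zero, ← ha, List.take_left]
      rfl
    | succ i =>
      have h1 : (i + 1) * c = (f a).length + i * c := by rw [ha]; ring
      rw [h1, List.drop_append, List.getElem_cons_succ]
      have h2 : (f a).drop ((f a).length + i * c) = [] := by
        apply List.drop_eq_nil_of_le
        omega
      rw [h2, List.nil_append, show (f a).length + i * c - (f a).length = i * c by omega]
      exact ih (fun x hx => hf x (List.mem_cons_of_mem _ hx)) i (by simpa using hi)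

theorem nested {β : Type*} (t : List β) (a b c e : ℕ) (h : c + e ≤ b) :
    (((t.drop a).take b).drop c).take e = (t.drop (a + c)).take e := by
  rw [List.drop_take, List.take_take, List.drop_drop, min_eq_left (by omega)]

theorem getD_take_drop {β : Type*} (t : List β) (a b i : ℕ) (h : i < b) (x : β) :
    ((t.drop a).take b).getD i x = t.getD (a + i) x := by
  rw [List.getD_eq_getElem?_getD, List.getD_eq_getElem?_getD, List.getElem?_take,
    if_pos h, List.getElem?_drop]

theorem length_flatMap_const {γ β : Type*} (c : ℕ) (f : γ → List β) (L : List γ)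
    (hf : ∀ x ∈ L, (f x).length = c) : (L.flatMap f).length = L.length * c := by
  induction L with
  | nil => simp
  | cons a L ih =>
    rw [List.flatMap_cons, List.length_append, hf a (by simp),
      ih (fun x hx => hf x (List.mem_cons_of_mem _ hx)), List.length_cons]
    ring

variable {n : ℕ}

theorem encR_length (r : Fin n → Fin n → Fin n) : (encR r).length = n * (n * n) := by
  unfold encR
  rw [length_flatMap_const (n * n)]
  · simp
  · intro p _
    rw [length_flatMap_const n]
    · simp
    · intro a _
      simp

theorem encR_g3 (r : Fin n → Fin n → Fin n) (p a b : Fin n) :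
    g3 n (encR r) p a b = decide (r p a < r p b) := by
  have h1 := block (n * n) (fun p : Fin n => (List.finRange n).flatMap fun a =>
    (List.finRange n).map fun b => decide (r p a < r p b)) (List.finRange n)
    (by
      intro p _
      rw [length_flatMap_const n]
      · simp
      · intro a _
        simp) p (by simp)
  have h2 := block n (fun a : Fin n => (List.finRange n).map fun b => decide (r p a < r p b))
    (List.finRange n) (by intro a _; simp) a (by simp)
  simp only [List.getElem_finRange, Fin.cast_mk, Fin.eta] at h1 h2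
  unfold g3
  have e1 : (((p : ℕ) * n + a) * n + b) = (p : ℕ) * (n * n) + ((a : ℕ) * n + b) := by ring
  have hlt : (a : ℕ) * n + b < n * n := by
    have := a.2; have := b.2
    nlinarith
  rw [e1, ← getD_take_drop (encR r) _ (n * n) _ hlt]
  have h3 : ((encR r).drop ((p : ℕ) * (n * n))).take (n * n) =
      (List.finRange n).flatMap fun a => (List.finRange n).map fun b => decide (r p a < r p b) := h1
  rw [h3, ← getD_take_drop _ _ n _ b.2, h2]
  simp [List.getD_eq_getElem?_getD]

theorem encM_eq (M : Perm (Fin n)) : encM M = permBits M := by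
  unfold encM permBits mk2
  apply List.ext_getElem
  · rw [length_flatMap_const n, length_flatMap_const n]
    · simp
    · intro x _; simp
    · intro x _; simp
  · intro i h1 h2
    have hlen : ((List.finRange n).flatMap fun m => (List.finRange n).map fun w =>
        decide (M m = w)).length = n * n := by
      rw [length_flatMap_const n]
      · simp
      · intro x _; simp
    have hi : i < n * n := by rw [← hlen]; exact h1
    have hn : 0 < n := by
      rcases Nat.eq_zero_or_pos n with h | h
      · subst h; simp at hi
      · exact h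
    have hq : i / n < n := Nat.div_lt_of_lt_mul hi
    have hr : i % n < n := Nat.mod_lt _ hn
    have e : i = (i / n) * n + i % n := by
      rw [mul_comm]; exact (Nat.div_add_mod i n).symm
    have b1 := block n (fun m : Fin n => (List.finRange n).map fun w => decide (M m = w))
      (List.finRange n) (by intro x _; simp) (i / n) (by simpa using hq)
    have b2 := block n (fun m : ℕ => (List.range n).map fun w =>
      decide (∃ h : m < n, ((M ⟨m, h⟩ : Fin n) : ℕ) = w))
      (List.range n) (by intro x _; simp) (i / n) (by simpa using hq)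
    have g1 := getD_take_drop ((List.finRange n).flatMap fun m => (List.finRange n).map fun w =>
      decide (M m = w)) (i / n * n) n (i % n) hr false
    have g2 := getD_take_drop ((List.range n).flatMap fun m => (List.range n).map fun w =>
      decide (∃ h : m < n, ((M ⟨m, h⟩ : Fin n) : ℕ) = w)) (i / n * n) n (i % n) hr false
    rw [← e] at g1 g2
    rw [b1] at g1
    rw [b2] at g2
    rw [List.getD_eq_getElem?_getD, List.getD_eq_getElem?_getD, List.getElem?_eq_getElem h1,
      Option.getD_some] at g1
    rw [List.getD_eq_getElem?_getD, List.getD_eq_getElem?_getD, List.getElem?_eq_getElem h2,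
      Option.getD_some] at g2
    rw [← g1, ← g2]
    simp only [List.getElem?_map, List.getElem_finRange, List.getElem_range, Fin.cast_mk]
    rw [List.getElem?_range hr, List.getElem?_eq_getElem (by simpa using hr)]
    simp only [Option.map_some, Option.getD_some, List.getElem_finRange, Fin.cast_mk]
    rw [decide_eq_decide]
    constructor
    · intro h
      exact ⟨hq, by rw [h]⟩
    · rintro ⟨h3, h4⟩
      exact Fin.ext h4

theorem encL_length (L : List (Perm (Fin n))) : (encL L).length = L.length * (n * n + 1) := by
  unfold encL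
  rw [length_flatMap_const (n * n + 1)]
  intro M _
  rw [encM_eq, List.length_cons, permBits_length]

theorem kOf_encL (L : List (Perm (Fin n))) : kOf n (encL L) = L.length := by
  unfold kOf
  have h : ((range (encL L).length).filter fun l => l * (n * n + 1) < (encL L).length) =
      range L.length := by
    ext l
    simp only [mem_filter, mem_range]
    rw [encL_length]
    constructor
    · rintro ⟨_, h⟩
      exact lt_of_mul_lt_mul_right h (Nat.zero_le _)
    · intro h
      refine ⟨?_, Nat.mul_lt_mul_of_pos_right h (by omega)⟩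
      nlinarith
  rw [h, card_range]

theorem tpOf_encL (L : List (Perm (Fin n))) :
    tpOf n L.length (encL L) = L.flatMap permBits := by
  unfold tpOf
  have h : ∀ l < L.length, ((encL L).drop (l * (n * n + 1) + 1)).take (n * n) =
      permBits (L.getD l 1) := by
    intro l hl
    have h1 := block (n * n + 1) (fun M : Perm (Fin n) => true :: encM M) L (by
      intro M _
      rw [encM_eq, List.length_cons, permBits_length]) l hl
    have h2 := nested (encL L) (l * (n * n + 1)) (n * n + 1) 1 (n * n) (by omega)
    rw [← h2]
    have h3 : ((encL L).drop (l * (n * n + 1))).take (n * n + 1) = true :: encM L[l] := h1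
    rw [h3, List.drop_one, List.tail_cons, encM_eq, List.getD_eq_getElem?_getD,
      List.getElem?_eq_getElem hl, Option.getD_some, List.take_of_length_le
        (by rw [permBits_length])]
  have h4 : (List.range L.length).flatMap
      (fun l => ((encL L).drop (l * (n * n + 1) + 1)).take (n * n)) =
      (List.range L.length).flatMap (fun l => permBits (L.getD l 1)) := by
    apply List.flatMap_congr
    intro l hl
    exact h l (List.mem_range.1 hl)
  rw [h4]
  have h5 : L = (List.range L.length).map (fun l => L.getD l 1) := by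
    apply List.ext_getElem
    · simp
    · intro i h1 h2
      simp [List.getD_eq_getElem?_getD, List.getElem?_eq_getElem h1]
  conv_rhs => rw [h5]
  rw [List.flatMap_map]

theorem nOf_encI (I : SMT) : nOf (encI I) = I.n := by
  unfold nOf encI
  have := takeWhile_un I.n (encR I.man ++ encR I.woman)
  unfold un at this
  rw [this]
  simp

theorem after_encI (I : SMT) : PolyTime.afterTrue (encI I) = encR I.man ++ encR I.woman := by
  have := afterTrue_un I.n (encR I.man ++ encR I.woman)
  unfold un at this
  exact this

theorem t1_encI (I : SMT) : t1Of (encI I) = encR I.man := by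
  unfold t1Of
  rw [nOf_encI, after_encI, ← encR_length I.man, List.take_left]

theorem t2_encI (I : SMT) : t2Of (encI I) = encR I.woman := by
  unfold t2Of
  rw [nOf_encI, after_encI]
  have h1 := encR_length I.man
  have h2 := encR_length I.woman
  rw [← h1, List.drop_left, h1, ← h2, List.take_length]

/-- preferences of one side -/
def pr (r : Fin n → Fin n → Fin n) : Pref n := fun p a b => decide (r p a < r p b)

theorem pr_wk (r : Fin n → Fin n → Fin n) (p : Fin n) : Wk (pr r p) :=
  ⟨fun a => (r p a : ℕ), fun a b => by unfold pr; rw [decide_eq_decide]; rfl⟩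

theorem tied_iff (r : Fin n → Fin n → Fin n) (p a b : Fin n) :
    (pr r p a b = false ∧ pr r p b a = false) ↔ r p a = r p b := by
  unfold pr
  rw [decide_eq_false_iff_not, decide_eq_false_iff_not, not_lt, not_lt]
  constructor
  · rintro ⟨h1, h2⟩
    exact le_antisymm h2 h1
  · intro h
    exact ⟨h.symm.le, h.le⟩

theorem shortT_iff (r : Fin n → Fin n → Fin n) :
    ShortT n (encR r) ↔ ∀ p, ShortTies (r p) := by
  unfold ShortT ShortTies
  constructor
  · intro h p a b c hab hbc hac hh
    have h1 := (tied_iff r p a b).2 hh.1
    have h2 := (tied_iff r p b c).2 hh.2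
    refine h p (mem_range.2 p.2) a (mem_range.2 a.2) b (mem_range.2 b.2) c (mem_range.2 c.2)
      (fun e => hab (Fin.ext e)) (fun e => hbc (Fin.ext e)) (fun e => hac (Fin.ext e)) ?_
    rw [encR_g3, encR_g3, encR_g3, encR_g3]
    exact ⟨h1.1, h1.2, h2.1, h2.2⟩
  · intro h p hp a ha b hb c hc hab hbc hac hh
    rw [mem_range] at hp ha hb hc
    have e1 := encR_g3 r ⟨p, hp⟩ ⟨a, ha⟩ ⟨b, hb⟩
    have e2 := encR_g3 r ⟨p, hp⟩ ⟨b, hb⟩ ⟨a, ha⟩
    have e3 := encR_g3 r ⟨p, hp⟩ ⟨b, hb⟩ ⟨c, hc⟩
    have e4 := encR_g3 r ⟨p, hp⟩ ⟨c, hc⟩ ⟨b, hb⟩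
    simp only at e1 e2 e3 e4
    rw [e1, e2, e3, e4] at hh
    refine h ⟨p, hp⟩ ⟨a, ha⟩ ⟨b, hb⟩ ⟨c, hc⟩ (fun e => hab (congrArg Fin.val e))
      (fun e => hbc (congrArg Fin.val e)) (fun e => hac (congrArg Fin.val e)) ?_
    exact ⟨(tied_iff r _ _ _).1 ⟨hh.1, hh.2.1⟩, (tied_iff r _ _ _).1 ⟨hh.2.2.1, hh.2.2.2⟩⟩

theorem short_pr {r : Fin n → Fin n → Fin n} (h : ∀ p, ShortTies (r p)) (p : Fin n) :
    Short (pr r p) := by
  intro a b c hab hac hbc h1 h2 h3 h4
  refine h p b a c hab.symm hac hbc ⟨?_, ?_⟩
  · exact ((tied_iff r p a b).1 ⟨h1, h2⟩).symm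
  · exact (tied_iff r p a c).1 ⟨h3, h4⟩

open Classical in
theorem tg_block (tb : List Bool) (w j : Fin n) :
    ((tgOf n tb).drop (((w : ℕ) * n + j) * 2)).take 2 = [false, decide (Tsm n tb w j)] := by
  have h1 := block (n * 2) (fun w : ℕ => (List.range n).flatMap fun j =>
    [false, decide (Tsm n tb w j)]) (List.range n) (by
      intro p _
      rw [length_flatMap_const 2]
      · simp
      · intro a _
        simp) w (by simp)
  have h2 := block 2 (fun j : ℕ => [false, decide (Tsm n tb w j)]) (List.range n)
    (by intro a _; simp) j (by simp)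
  rw [List.getElem_range] at h1 h2
  have h3 := nested (tgOf n tb) ((w : ℕ) * (n * 2)) (n * 2) ((j : ℕ) * 2) 2 (by
    have := j.2; omega)
  have e : ((w : ℕ) * n + j) * 2 = (w : ℕ) * (n * 2) + (j : ℕ) * 2 := by ring
  rw [e, ← h3]
  have h4 : ((tgOf n tb).drop ((w : ℕ) * (n * 2))).take (n * 2) =
    (List.range n).flatMap fun j => [false, decide (Tsm n tb w j)] := h1
  rw [h4, h2]

open Classical in
/-- the parameters -/
noncomputable def gs (r : Fin n → Fin n → Fin n) (w j : Fin n) : ℤ :=
  if ∃ i, i < j ∧ pr r w i j = false ∧ pr r w j i = false then 1 else -1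

theorem tsm_iff (r : Fin n → Fin n → Fin n) (w j : Fin n) :
    Tsm n (encR r) w j ↔ ∃ i, i < j ∧ pr r w i j = false ∧ pr r w j i = false := by
  unfold Tsm
  constructor
  · rintro ⟨i, hi, h1, h2⟩
    rw [mem_range] at hi
    have hin : i < n := hi.trans j.2
    have e1 := encR_g3 r w ⟨i, hin⟩ j
    have e2 := encR_g3 r w j ⟨i, hin⟩
    simp only at e1 e2
    rw [e1] at h1
    rw [e2] at h2
    exact ⟨⟨i, hin⟩, hi, h1, h2⟩
  · rintro ⟨i, hi, h1, h2⟩
    refine ⟨i, mem_range.2 hi, ?_, ?_⟩
    · rw [encR_g3]; exact h1
    · rw [encR_g3]; exact h2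

/-- data of an instance `(r, s)` with a list of matchings -/
noncomputable def mkDat (r s : Fin n → Fin n → Fin n) (k : ℕ) (tP : List Bool) : Dat :=
  { n := n, K := k, tA := encR r, tB := encR s, tP := tP, W := 2, tG := tgOf n (encR s), c := 1 }

theorem rep_mkDat (r s : Fin n → Fin n → Fin n) (L : List (Perm (Fin n))) (hL : L.Nodup)
    (tP : List Bool)
    (hP : ∀ (l : ℕ) (h : l < L.length) (m w : Fin n), g3 n tP l m w = decide (L[l] m = w)) :
    Rep (mkDat r s L.length tP) (pr r) (pr s) (gs s) L where
  hK := rfl
  nodup := hL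
  hA := fun m w w' => encR_g3 r m w w'
  hB := fun m w w' => encR_g3 s m w w'
  hP := hP
  hg := by
    classical
    change ∀ w m : Fin n, ((bval (((tgOf n (encR s)).drop (((w : ℕ) * n + m) * 2)).take 2) : ℤ) -
      ((1 : ℕ) : ℤ)) = gs s w m
    intro w m
    rw [tg_block]
    unfold gs
    by_cases h : Tsm n (encR s) w m
    · rw [if_pos ((tsm_iff s w m).1 h)]
      simp [bval, h]
    · rw [if_neg (fun hc => h ((tsm_iff s w m).2 hc))]
      simp [bval, h]

theorem core (r s : Fin n → Fin n → Fin n) (hs : ∀ w, ShortTies (s w))
    (L : List (Perm (Fin n))) (hL : L.Nodup) (hst : ∀ M ∈ L, Stab (pr r) (pr s) M)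
    (tP : List Bool)
    (hP : ∀ (l : ℕ) (h : l < L.length) (m w : Fin n), g3 n tP l m w = decide (L[l] m = w)) :
    ((mkDat r s L.length tP).next = [] ∧ ∀ M, Stab (pr r) (pr s) M → M ∈ L) ∨
      ∃ M, M ∉ L ∧ Stab (pr r) (pr s) M ∧
        (mkDat r s L.length tP).next = true :: permBits M := by
  classical
  exact next_spec (rep_mkDat r s L hL tP hP) (pr_wk r) (pr_wk s)
    (ok_short (pr_wk r) (pr_wk s) (short_pr hs) (gs s) (fun _ _ => rfl) _) hst

theorem stab_iff (I : SMT) (M : Perm (Fin I.n)) :
    Stab (pr I.man) (pr I.woman) M ↔ WeaklyStable I M := by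
  unfold Stab WeaklyStable pr
  simp only [decide_eq_true_eq]

theorem stab_swap (I : SMT) (M : Perm (Fin I.n)) :
    Stab (pr I.woman) (pr I.man) M ↔ WeaklyStable I M.symm := by
  unfold Stab WeaklyStable pr
  simp only [decide_eq_true_eq]
  constructor
  · intro h m w hb
    exact h w m ⟨by simpa using hb.2, hb.1⟩
  · intro h m w hb
    exact h w m ⟨hb.2, by simpa using hb.1⟩

theorem trn_permBits (M : Perm (Fin n)) : trn n (permBits M) = permBits M.symm := by
  unfold trn
  apply mk2_eq_permBits
  intro m w
  rw [g2_permBits, decide_eq_decide]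
  constructor
  · intro h; rw [← h]; simp
  · intro h; rw [← h]; simp

end StepSpecAux

open StepSpecAux

theorem step_spec (I : SMT) (hI : ShortSide I) (L : List (Perm (Fin I.n))) (hnd : L.Nodup)
    (hst : ∀ M ∈ L, WeaklyStable I M) :
    (step (encI I) (encL L) = [] ∧ ∀ M, WeaklyStable I M → M ∈ L) ∨
      ∃ M, M ∉ L ∧ WeaklyStable I M ∧ step (encI I) (encL L) = true :: encM M := by
  classical
  have d1 : dat1 (encI I) (encL L) =
      mkDat I.man I.woman L.length (L.flatMap permBits) := by
    unfold dat1 mkDat
    rw [nOf_encI, t1_encI, t2_encI, kOf_encL, tpOf_encL]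
  have d2 : dat2 (encI I) (encL L) =
      mkDat I.woman I.man (L.map Equiv.symm).length (mk3 L.length I.n
        (fun l w m => g3 I.n (L.flatMap permBits) l m w)) := by
    unfold dat2 mkDat
    rw [nOf_encI, t1_encI, t2_encI, kOf_encL, tpOf_encL, List.length_map]
  by_cases hs : ShortT (nOf (encI I)) (t2Of (encI I))
  · have hstep : step (encI I) (encL L) =
        (mkDat I.man I.woman L.length (L.flatMap permBits)).next := by
      unfold step
      rw [if_pos hs, d1]
    rw [hstep]
    rw [nOf_encI, t2_encI, shortT_iff] at hs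
    rcases core I.man I.woman hs L hnd (fun M hM => (stab_iff I M).2 (hst M hM))
      (L.flatMap permBits) (fun l hl m w => g3_perms L l hl m w) with ⟨h1, h2⟩ | ⟨M, h1, h2, h3⟩
    · left
      exact ⟨h1, fun M hM => h2 M ((stab_iff I M).2 hM)⟩
    · right
      exact ⟨M, h1, (stab_iff I M).1 h2, by rw [h3, encM_eq]⟩
  · have hs' : ∀ m, ShortTies (I.man m) := by
      rcases hI with h | h
      · exact h
      · exfalso
        apply hs
        rw [nOf_encI, t2_encI, shortT_iff]
        exact h
    have hstep : step (encI I) (encL L) =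
        if (mkDat I.woman I.man (L.map Equiv.symm).length (mk3 L.length I.n
          (fun l w m => g3 I.n (L.flatMap permBits) l m w))).next = [] then [] else
          true :: trn I.n (mkDat I.woman I.man (L.map Equiv.symm).length (mk3 L.length I.n
            (fun l w m => g3 I.n (L.flatMap permBits) l m w))).next.tail := by
      unfold step
      rw [if_neg hs, d2, nOf_encI]
    rw [hstep]
    have hnd' : (L.map Equiv.symm).Nodup := hnd.map (fun a b h => by
      have := congrArg Equiv.symm h
      simpa using this)
    have hmem : ∀ M : Perm (Fin I.n), M ∈ L.map Equiv.symm ↔ M.symm ∈ L := by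
      intro M
      rw [List.mem_map]
      constructor
      · rintro ⟨a, ha, rfl⟩
        simpa using ha
      · intro h
        exact ⟨M.symm, h, by simp⟩
    rcases core I.woman I.man hs' (L.map Equiv.symm) hnd'
      (fun M hM => (stab_swap I M).2 (hst _ ((hmem M).1 hM)))
      (mk3 L.length I.n (fun l w m => g3 I.n (L.flatMap permBits) l m w))
      (fun l hl m w => by
        rw [List.length_map] at hl
        rw [g3_mk3 hl m.2 w.2, g3_perms L l hl w m, List.getElem_map, decide_eq_decide]
        constructor
        · intro h; rw [← h]; simp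
        · intro h; rw [← h]; simp) with ⟨h1, h2⟩ | ⟨M, h1, h2, h3⟩
    · left
      rw [if_pos h1]
      refine ⟨rfl, fun M hM => ?_⟩
      have := h2 M.symm ((stab_swap I M.symm).2 (by simpa using hM))
      simpa using (hmem M.symm).1 this
    · right
      refine ⟨M.symm, fun hc => h1 ((hmem M).2 hc), (stab_swap I M).1 h2, ?_⟩
      rw [if_neg (by rw [h3]; simp), h3, List.tail_cons, trn_permBits, encM_eq]

end Pool.Agent.Lib.Wsm
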