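import Pool.Agent.Lib.P8e91ed.PolyBin

/-!
# The algorithm, as functions on bit lists and natural numbers

`Dat`: the data of one call: `n` persons on each side, tables `tA` (men's lists), `tB` (women's lists),
a list of `K` matchings (table `tP`), a table `tG` of integer parameters.
-/

set_option autoImplicit false

namespace Pool.Agent.Lib.Wsm

open Finset Pool.Agent.Lib.Pa7c826

/-- table of bits, `r` rows, `n` columns -/
def mk2 (r n : ℕ) (f : ℕ → ℕ → Bool) : List Bool :=
  (List.range r).flatMap (fun i => (List.range n).map (fun j => f i j))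

/-- table of bits, `r × n × n` -/
def mk3 (r n : ℕ) (f : ℕ → ℕ → ℕ → Bool) : List Bool :=
  (List.range r).flatMap (fun i => mk2 n n (f i))

/-- entry of a table with rows of length `n` -/
def g2 (n : ℕ) (t : List Bool) (i j : ℕ) : Bool := t.getD (i * n + j) false

/-- entry of a table of `n × n` blocks -/
def g3 (n : ℕ) (t : List Bool) (i j k : ℕ) : Bool := t.getD ((i * n + j) * n + k) false

open Classical in
/-- the least `z < n` with `P z`, or `n` -/
noncomputable def lst (n : ℕ) (P : ℕ → Prop) : ℕ :=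
  ((range n).filter fun z => ∀ z' ∈ range (z + 1), ¬ P z').card

/-- the data -/
structure Dat where
  n : ℕ
  K : ℕ
  tA : List Bool
  tB : List Bool
  tP : List Bool
  W : ℕ
  tG : List Bool
  c : ℕ

namespace Dat

variable (d : Dat)

/-- woman matched to the man `m` in the matching number `l` -/
def pm (l m : ℕ) : ℕ := ∑ w ∈ range d.n, if g3 d.n d.tP l m w = true then w else 0

/-- man matched to the woman `w` in the matching number `l` -/
def pw (l w : ℕ) : ℕ := ∑ m ∈ range d.n, if g3 d.n d.tP l m w = true then m else 0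

/-- integer parameters -/
def g (w m : ℕ) : ℤ := (bval ((d.tG.drop ((w * d.n + m) * d.W)).take d.W) : ℤ) - d.c

/-! ### Step I: cycles -/

/-- arcs of the extended rotation digraph -/
def H (l w w' : ℕ) : Prop :=
  w ≠ w' ∧ g3 d.n d.tB w (d.pw l w') (d.pw l w) = false ∧ g3 d.n d.tA (d.pw l w') w' w = false ∧
    ∀ m ∈ range d.n, m ≠ d.pw l w → g3 d.n d.tB w m (d.pw l w) = false →
      g3 d.n d.tB w m (d.pw l w') = true → g3 d.n d.tA m w (d.pm l m) = false

/-- `w ↦ M_l (M_{l'}⁻¹ w)` -/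
def sg (l l' w : ℕ) : ℕ := d.pm l (d.pw l' w)

end Dat

/-! Search for a cycle of the digraph `H` on `{0, ..., n-1}` which is none of the permutations
`F 0, ..., F (K-1)` -/

namespace Cy

variable (n K : ℕ) (H : ℕ → ℕ → Prop) (F : ℕ → ℕ → ℕ) (l' v₀ j : ℕ)

/-- iterates -/
def vv (i : ℕ) : ℕ := (F l')^[i] v₀

open Classical in
/-- `y` reaches `v₀` in at most `t` steps avoiding `v₁, ..., v_j` -/
noncomputable def rch : ℕ → ℕ → Bool
  | 0, y => decide (y = v₀)
  | t + 1, y => rch t y ||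
      decide ((∀ i ∈ range (j + 1), 1 ≤ i → vv F l' v₀ i ≠ y) ∧ ∃ z ∈ range n, H y z ∧ rch t z = true)

/-- `F l''` moves only the points of the orbit of `v₀` -/
def Orb (l'' : ℕ) : Prop := ∀ w ∈ range n, F l'' w = w ∨ ∃ i ∈ range n, vv F l'' v₀ i = w

/-- the path `v₀, ..., v_j, x` can be completed to a cycle, and no cycle of the list starts like
this -/
def Cond (x : ℕ) : Prop :=
  (∀ i ∈ range j, H (vv F l' v₀ i) (vv F l' v₀ (i + 1))) ∧
  (∀ i ∈ range (j + 1), ∀ i' ∈ range (j + 1), vv F l' v₀ i = vv F l' v₀ i' → i = i') ∧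
  (∀ i ∈ range (j + 1), 1 ≤ i → vv F l' v₀ i ≠ x) ∧
  H (vv F l' v₀ j) x ∧ rch n H F l' v₀ j n x = true ∧
  ∀ l'' ∈ range K, ¬ (Orb n F v₀ l'' ∧ (∀ i ∈ range (j + 1), vv F l'' v₀ i = vv F l' v₀ i) ∧
    vv F l'' v₀ (j + 1) = x)

/-- distance to `v₀` -/
noncomputable def dst (y : ℕ) : ℕ := lst (n + 1) (fun t => rch n H F l' v₀ j t y = true)

/-- next vertex on a shortest path to `v₀` -/
noncomputable def nxt (y : ℕ) : ℕ :=
  lst n (fun z => H y z ∧ rch n H F l' v₀ j (dst n H F l' v₀ j y - 1) z = true)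

/-- the path from `x` to `v₀` -/
noncomputable def xs (x t : ℕ) : ℕ := (nxt n H F l' v₀ j)^[t] x

/-- the completed cycle: `c w = z` -/
def Cyc (x w z : ℕ) : Prop :=
  (∃ i ∈ range j, vv F l' v₀ i = w ∧ vv F l' v₀ (i + 1) = z) ∨
  (vv F l' v₀ j = w ∧ z = x) ∨
  (∃ t ∈ range n, (∀ t' ∈ range (t + 1), xs n H F l' v₀ j x t' ≠ v₀) ∧
    xs n H F l' v₀ j x t = w ∧ xs n H F l' v₀ j x (t + 1) = z) ∨
  ((∀ i ∈ range (j + 1), vv F l' v₀ i ≠ w) ∧
    (∀ t ∈ range n, (∀ t' ∈ range (t + 1), xs n H F l' v₀ j x t' ≠ v₀) →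
      xs n H F l' v₀ j x t ≠ w) ∧ z = w)

end Cy

namespace Dat

variable (d : Dat)

/-- some continuation exists -/
def C0 (l l' v₀ j x : ℕ) : Prop := Cy.Cond d.n d.K (d.H l) (d.sg l) l' v₀ j x
def C1 (l l' v₀ j : ℕ) : Prop := ∃ x ∈ range d.n, d.C0 l l' v₀ j x
def C2 (l l' v₀ : ℕ) : Prop := ∃ j ∈ range d.n, d.C1 l l' v₀ j
def C3 (l l' : ℕ) : Prop := ∃ v₀ ∈ range d.n, d.C2 l l' v₀
def C4 (l : ℕ) : Prop := ∃ l' ∈ range d.K, d.C3 l l'
def C5 : Prop := ∃ l ∈ range d.K, d.C4 l

noncomputable def cl : ℕ := lst d.K (fun l => d.C4 l)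
noncomputable def cl' : ℕ := lst d.K (fun l' => d.C3 d.cl l')
noncomputable def cv : ℕ := lst d.n (fun v₀ => d.C2 d.cl d.cl' v₀)
noncomputable def cj : ℕ := lst d.n (fun j => d.C1 d.cl d.cl' d.cv j)
noncomputable def cx : ℕ := lst d.n (fun x => d.C0 d.cl d.cl' d.cv d.cj x)

open Classical in
/-- the new matching found in Step I -/
noncomputable def cycBits : List Bool :=
  mk2 d.n d.n (fun m w => decide (Cy.Cyc d.n (d.H d.cl) (d.sg d.cl) d.cl' d.cv d.cj d.cx w
    (d.pm d.cl m)))

/-! ### Step II: the determinant certificate -/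

/-- weights of the labels: those below `lab.length` are fixed -/
def u2 (lab : List Bool) (m w : ℕ) (b : Bool) : ℕ :=
  if m * d.n + w < lab.length then (if g2 d.n lab m w = b then 2 else 0) else 1

def befN (m w : ℕ) (b : Bool) (w' : ℕ) (b' : Bool) : Bool :=
  g3 d.n d.tA m w w' || (!g3 d.n d.tA m w' w && (decide (b < b') || (decide (b = b') && decide (w < w'))))

def y2 (lab : List Bool) (m w w' : ℕ) (b' : Bool) : ℕ :=
  (if d.befN m w false w' b' = true then d.u2 lab m w false else 0) +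
    (if d.befN m w true w' b' = true then d.u2 lab m w true else 0)

/-- `s · P(j before i)` -/
def p1 (tb : List Bool) (w j i : ℕ) : ℤ :=
  if g3 d.n tb w j i = true then 1 else if g3 d.n tb w i j = true then 0 else d.g w j

/-- the scaling factor `s` -/
def s1 (tb : List Bool) (w j i : ℕ) : ℤ :=
  if g3 d.n tb w j i = true ∨ g3 d.n tb w i j = true then 1 else d.g w j - d.g w i

def Fw (lab tb : List Bool) (l m w w' : ℕ) (a : Bool) : ℤ :=
  2 * d.s1 tb w m (d.pw l w) - d.p1 tb w m (d.pw l w) * d.y2 lab m w w' a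

def Da (lab tb : List Bool) (l m : ℕ) (a : Bool) : ℤ :=
  d.u2 lab m (d.pm l m) a *
    ∏ w ∈ range d.n, if w = d.pm l m then 1 else d.Fw lab tb l m w (d.pm l m) a

def Dn (lab tb : List Bool) (l m : ℕ) : ℤ := d.Da lab tb l m false + d.Da lab tb l m true

def Qab (lab tb : List Bool) (l m w' : ℕ) (a b : Bool) : ℤ :=
  if d.befN m (d.pm l m) a w' b = true then
    d.u2 lab m (d.pm l m) a * d.u2 lab m w' b * d.p1 tb w' m (d.pw l w') *
      ∏ w ∈ range d.n, (if w = d.pm l m ∨ w = w' then 1 else d.Fw lab tb l m w w' b) else 0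

def Qn (lab tb : List Bool) (l m w' : ℕ) : ℤ :=
  d.Qab lab tb l m w' false false + d.Qab lab tb l m w' false true +
    d.Qab lab tb l m w' true false + d.Qab lab tb l m w' true true

/-- the integer matrix -/
def Nn (lab tb : List Bool) (l m m' : ℕ) : ℤ :=
  if m = m' then d.Dn lab tb l m else - d.Qn lab tb l m (d.pm l m')

end Dat

/-- matrix powers -/
def mpow (n : ℕ) (N : ℕ → ℕ → ℤ) : ℕ → ℕ → ℕ → ℤ
  | 0, i, j => if i = j then 1 else 0
  | k + 1, i, j => ∑ t ∈ range n, mpow n N k i t * N t j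

def trp (n : ℕ) (N : ℕ → ℕ → ℤ) (k : ℕ) : ℤ := ∑ i ∈ range n, mpow n N k i i

/-- Newton's recursion: entry `j ≤ k` is `j! e_j` -/
def nwT (p : ℕ → ℤ) : ℕ → ℕ → ℤ
  | 0, j => if j = 0 then 1 else 0
  | k + 1, j => if j = k + 1 then
      ∑ i ∈ range (k + 1), (-1) ^ i * (k.descFactorial i : ℤ) * nwT p k (k - i) * p (i + 1)
    else nwT p k j

/-- `n! det N` -/
def newtE (n : ℕ) (N : ℕ → ℕ → ℤ) : ℤ := nwT (trp n N) n n

namespace Dat

variable (d : Dat)

def Cl (tb : List Bool) (l : ℕ) : ℤ :=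
  ∏ w ∈ range d.n, ∏ i ∈ range d.n, if i = d.pw l w then 1 else
    ∏ m ∈ range d.n, if m = i then 1 else d.s1 tb w m i

def Val (lab tb : List Bool) : ℤ :=
  ∑ l ∈ range d.K, d.Cl tb l * newtE d.n (d.Nn lab tb l)

def Tot (tb : List Bool) : ℤ :=
  (d.n.factorial : ℤ) * 2 ^ (d.n * d.n) *
    ∏ w ∈ range d.n, ∏ i ∈ range d.n, ∏ m ∈ range d.n, if m = i then 1 else d.s1 tb w m i

/-- the missing mass is not zero -/
def Rne (lab tb : List Bool) : Prop := d.Val lab tb ≠ d.Tot tb

open Classical in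
/-- the labels, chosen one after the other -/
noncomputable def labs : ℕ → List Bool
  | 0 => []
  | s + 1 => labs s ++ [if d.Rne (labs s ++ [false]) d.tB then false else true]

noncomputable def lab : List Bool := d.labs (d.n * d.n)

/-- the man `j` is tied with another man in the list of `w` -/
def Tied (tb : List Bool) (w j : ℕ) : Prop :=
  ∃ i ∈ range d.n, i ≠ j ∧ g3 d.n tb w i j = false ∧ g3 d.n tb w j i = false

/-- move `j` to the front of his tie in the list of `w₀` -/
def frontT (tb : List Bool) (w₀ j : ℕ) : List Bool :=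
  mk3 d.n d.n (fun w a b => g3 d.n tb w a b ||
    (decide (w = w₀ ∧ a = j ∧ b ≠ j) && !g3 d.n tb w b a))

def SelP (lab tb : List Bool) (w j : ℕ) : Prop := d.Tied tb w j ∧ d.Rne lab (d.frontT tb w j)

def SelW (lab tb : List Bool) (w : ℕ) : Prop := ∃ j ∈ range d.n, d.SelP lab tb w j

open Classical in
/-- one refinement of the women's lists -/
noncomputable def stepB (lab tb : List Bool) : List Bool :=
  if ∃ w ∈ range d.n, d.SelW lab tb w then
    d.frontT tb (lst d.n (fun w => d.SelW lab tb w))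
      (lst d.n (fun j => d.SelP lab tb (lst d.n (fun w => d.SelW lab tb w)) j))
  else tb

noncomputable def tbs (lab : List Bool) : ℕ → List Bool
  | 0 => d.tB
  | r + 1 => d.stepB lab (tbs lab r)

noncomputable def tbf : List Bool := d.tbs d.lab (d.n * d.n)

/-! ### Deferred acceptance -/

def CurN (tb : List Bool) (R : List Bool) (w m : ℕ) : Prop :=
  g2 d.n R w m = false ∧ ∀ m' ∈ range d.n, g3 d.n tb w m' m = true → g2 d.n R w m' = true

/-- men's lists with ties broken by the labels -/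
def refN (lab : List Bool) (m w w' : ℕ) : Bool :=
  d.befN m w (g2 d.n lab m w) w' (g2 d.n lab m w')

open Classical in
noncomputable def rejT (lab tb : List Bool) : ℕ → List Bool
  | 0 => mk2 d.n d.n (fun _ _ => false)
  | t + 1 => mk2 d.n d.n (fun w m => g2 d.n (rejT lab tb t) w m ||
      decide (d.CurN tb (rejT lab tb t) w m ∧
        ∃ w' ∈ range d.n, d.CurN tb (rejT lab tb t) w' m ∧ d.refN lab m w' w = true))

open Classical in
/-- the new matching found in Step II -/
noncomputable def daBits : List Bool :=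
  mk2 d.n d.n (fun m w => decide (d.CurN d.tbf (d.rejT d.lab d.tbf (d.n * d.n)) w m))

open Classical in
/-- a new matching, preceded by `true`; or the empty list -/
noncomputable def next : List Bool :=
  if d.C5 then true :: d.cycBits else if d.Rne [] d.tB then true :: d.daBits else []

end Dat

end Pool.Agent.Lib.Wsm
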