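import Pool.Agent.Lib.Wsm.Algo

/-!
# Random bits

MODULE Wsm.Bits (1.2 h): prove `count_bits`.  Auxiliary lemmas: namespace
`Pool.Agent.Lib.Wsm.BitsAux`.

Split `r : Fin N → Bool` into its first `o` bits, the next `n * n * W` bits and the rest.  For fixed first and
last parts the map from the middle part to `Fin n → Fin n → Fin (2 ^ W)` is a bijection (blocks of `W`
bits; `bval` is a bijection from the bit lists of length `W` to `{0, ..., 2 ^ W - 1}`: see `bval_lt`,
`bval_take_lt` in `P8e91ed.PolyBin`, injectivity by induction), and `Bad` is evaluated at a fixed list of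
length `o`.  So the number of `r` is at most `2 ^ o * (max over p of #Bad p) * 2 ^ (N - o - n * n * W)`, and
`(2 ^ W) ^ (n * n) = 2 ^ (n * n * W)`.
-/

namespace Pool.Agent.Lib.Wsm

open Finset Pool.Agent.Lib.Pa7c826

/-- block of `W` bits number `w * n + m` after the first `o` bits, as a number -/
def blk (n W o : ℕ) (r : List Bool) (w m : Fin n) : Fin (2 ^ W) :=
  ⟨bval (((r.drop o).drop (((w : ℕ) * n + m) * W)).take W),
    Pool.Agent.Lib.P8e91ed.PT.bval_take_lt _ _⟩

namespace BitsAux

theorem bval_inj : ∀ {l l' : List Bool}, l.length = l'.length → bval l = bval l' → l = l' := by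
  intro l
  induction l with
  | nil =>
    intro l' h _
    rw [List.length_nil] at h
    exact (List.eq_nil_of_length_eq_zero h.symm).symm
  | cons b l ih =>
    intro l' h hv
    cases l' with
    | nil => simp at h
    | cons b' l' =>
      simp only [List.length_cons, Nat.add_right_cancel_iff] at h
      simp only [bval] at hv
      have hb : b.toNat ≤ 1 := Bool.toNat_le b
      have hb' : b'.toNat ≤ 1 := Bool.toNat_le b'
      have e1 : bval l = bval l' := by omega
      have e2 : b.toNat = b'.toNat := by omega
      rw [ih h e1]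
      congr 1
      cases b <;> cases b' <;> simp_all

/-- the splitting of the bits -/
def split (n W o M N : ℕ) (hN : N = o + n * n * W + M) (r : Fin N → Bool) :
    (Fin o → Bool) × (Fin M → Bool) × (Fin n → Fin n → Fin (2 ^ W)) :=
  (fun i => r ⟨i, by have := i.2; omega⟩, fun i => r ⟨o + n * n * W + i, by have := i.2; omega⟩,
    blk n W o (List.ofFn r))

theorem split_inj (n W o M N : ℕ) (hN : N = o + n * n * W + M) :
    Function.Injective (split n W o M N hN) := by
  intro r r' h
  unfold split at h
  simp only [Prod.mk.injEq] at h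
  obtain ⟨h1, h2, h3⟩ := h
  funext i
  obtain ⟨i, hi⟩ := i
  rcases lt_or_ge i o with ho | ho
  · exact congrFun h1 ⟨i, ho⟩
  rcases lt_or_ge i (o + n * n * W) with hm | hm
  · have hW : 0 < W := by
      rcases Nat.eq_zero_or_pos W with h | h
      · subst h
        omega
      · exact h
    have hk : (i - o) / W < n * n := by
      rw [Nat.div_lt_iff_lt_mul hW]
      omega
    have hn : 0 < n := by
      rcases Nat.eq_zero_or_pos n with h | h
      · subst h
        omega
      · exact h
    set k := (i - o) / W with hkdef
    have hkw : k / n < n := by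
      rw [Nat.div_lt_iff_lt_mul hn]
      exact hk
    have hkm : k % n < n := Nat.mod_lt _ hn
    have h4 := congrFun (congrFun h3 ⟨k / n, hkw⟩) ⟨k % n, hkm⟩
    unfold blk at h4
    simp only [Fin.mk.injEq] at h4
    have e : k / n * n + k % n = k := Nat.div_add_mod' k n
    rw [e] at h4
    have hle : k * W + W ≤ n * n * W := by
      calc k * W + W = (k + 1) * W := by ring
        _ ≤ n * n * W := Nat.mul_le_mul_right _ hk
    have h5 := bval_inj (by simp) h4
    have hj : (i - o) % W < W := Nat.mod_lt _ hW
    have hi2 : i = o + k * W + (i - o) % W := by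
      have h7 := Nat.div_add_mod' (i - o) W
      rw [← hkdef] at h7
      rw [add_assoc, h7]
      omega
    have h6 := congrArg (fun l : List Bool => l[(i - o) % W]?) h5
    simp only [List.getElem?_take, hj, if_true, List.getElem?_drop] at h6
    rw [List.getElem?_ofFn, List.getElem?_ofFn] at h6
    have e3 : o + (k * W + (i - o) % W) = i := by omega
    simp only [e3, hi, dif_pos] at h6
    simpa using h6
  · have h4 := congrFun h2 ⟨i - (o + n * n * W), by omega⟩
    simp only at h4
    have e : o + n * n * W + (i - (o + n * n * W)) = i := by omega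
    simpa only [e] using h4

theorem take_ofFn (N o : ℕ) (ho : o ≤ N) (r : Fin N → Bool) :
    (List.ofFn r).take o = List.ofFn fun i : Fin o => r ⟨i, by have := i.2; omega⟩ := by
  apply List.ext_getElem
  · simp [ho]
  · intro i h1 h2
    simp

end BitsAux

open BitsAux

open Classical in
theorem count_bits (n W o N s : ℕ) (hN : o + n * n * W ≤ N)
    (Bad : List Bool → (Fin n → Fin n → Fin (2 ^ W)) → Prop)
    (h : ∀ p : List Bool, (univ.filter (Bad p)).card * 2 ^ s ≤ (2 ^ W) ^ (n * n)) :
    (univ.filter fun r : Fin N → Bool =>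
      Bad ((List.ofFn r).take o) (blk n W o (List.ofFn r))).card * 2 ^ s ≤ 2 ^ N := by
  obtain ⟨M, hM⟩ : ∃ M, N = o + n * n * W + M := ⟨N - (o + n * n * W), by omega⟩
  have h1 : (univ.filter fun r : Fin N → Bool =>
      Bad ((List.ofFn r).take o) (blk n W o (List.ofFn r))).card ≤
      (univ.filter fun x : (Fin o → Bool) × (Fin M → Bool) × (Fin n → Fin n → Fin (2 ^ W)) =>
        Bad (List.ofFn x.1) x.2.2).card := by
    refine Finset.card_le_card_of_injOn (split n W o M N hM) ?_ (split_inj n W o M N hM).injOn
    intro r hr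
    rw [Finset.mem_coe, Finset.mem_filter] at hr ⊢
    refine ⟨Finset.mem_univ _, ?_⟩
    have := hr.2
    rw [take_ofFn N o (by omega)] at this
    exact this
  have h2 : (univ.filter fun x : (Fin o → Bool) × (Fin M → Bool) × (Fin n → Fin n → Fin (2 ^ W)) =>
        Bad (List.ofFn x.1) x.2.2).card =
      ∑ p : Fin o → Bool, ∑ _q : Fin M → Bool, (univ.filter (Bad (List.ofFn p))).card := by
    simp only [Finset.card_filter]
    rw [Fintype.sum_prod_type]
    refine Finset.sum_congr rfl fun p _ => ?_
    rw [Fintype.sum_prod_type]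
  calc (univ.filter fun r : Fin N → Bool =>
      Bad ((List.ofFn r).take o) (blk n W o (List.ofFn r))).card * 2 ^ s
      ≤ (∑ p : Fin o → Bool, ∑ _q : Fin M → Bool, (univ.filter (Bad (List.ofFn p))).card) * 2 ^ s := by
        rw [← h2]
        exact Nat.mul_le_mul_right _ h1
    _ = ∑ p : Fin o → Bool, ∑ _q : Fin M → Bool, (univ.filter (Bad (List.ofFn p))).card * 2 ^ s := by
        rw [Finset.sum_mul]
        refine Finset.sum_congr rfl fun p _ => ?_
        rw [Finset.sum_mul]
    _ ≤ ∑ _p : Fin o → Bool, ∑ _q : Fin M → Bool, (2 ^ W) ^ (n * n) :=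
        Finset.sum_le_sum fun p _ => Finset.sum_le_sum fun _ _ => h _
    _ = 2 ^ o * (2 ^ M * (2 ^ W) ^ (n * n)) := by
        simp only [Finset.sum_const, Finset.card_univ, Fintype.card_pi, Fintype.card_bool, Finset.prod_const,
          Fintype.card_fin, smul_eq_mul]
    _ = 2 ^ N := by
        rw [hM, ← pow_mul, ← pow_add, ← pow_add]
        congr 1
        ring

end Pool.Agent.Lib.Wsm
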