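import Pool.Agent.Lib.Wsm.Defs

/-!
# Orders, and the refinements of weak orders

MODULE Wsm.Ref (0.8 h).  Elementary.  Auxiliary lemmas: namespace `Pool.Agent.Lib.Wsm.RefAux`.

Hints.  `refM A U m` is `Lin` with the rank `(r w * 2 + (U m w).toNat) * n + w` where `r` is a rank
of `A m`; `refW1 R π` is `Lin` with the rank `r a * n + π a`; `front B w₀ j w` has the rank
`2 * r a + (if w = w₀ ∧ a = j then 0 else 1)`.  Everything else: unfold, substitute the rank
functions, split cases, `omega` / `decide_eq_decide`.
-/

namespace Pool.Agent.Lib.Wsm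

open Equiv

variable {n : ℕ}

namespace RefAux

theorem lex {n X Y a b : ℕ} (ha : a < n) (hb : b < n) :
    X * n + a < Y * n + b ↔ X < Y ∨ (X = Y ∧ a < b) := by
  rcases lt_trichotomy X Y with h | h | h
  · have : (X + 1) * n ≤ Y * n := Nat.mul_le_mul_right n h
    constructor
    · intro _; left; exact h
    · intro _; nlinarith
  · subst h
    constructor
    · intro h; right; exact ⟨rfl, by omega⟩
    · rintro (h | ⟨_, h⟩) <;> omega
  · have : (Y + 1) * n ≤ X * n := Nat.mul_le_mul_right n h
    constructor
    · intro h; exfalso; nlinarith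
    · rintro (h | ⟨h, _⟩) <;> omega

theorem b1 : ((false : Bool) < false) = False := by simp
theorem b2 : ((false : Bool) < true) = True := by simp
theorem b3 : ((true : Bool) < false) = False := by simp
theorem b4 : ((true : Bool) < true) = False := by simp
theorem b5 : ((false : Bool) = true) = False := by simp
theorem b6 : ((true : Bool) = false) = False := by simp

end RefAux

theorem Lin.wk {R : Fin n → Fin n → Bool} (h : Lin R) : Wk R := by
  obtain ⟨r, _, h2⟩ := h
  exact ⟨r, h2⟩

theorem Wk.irrefl {R : Fin n → Fin n → Bool} (h : Wk R) (a : Fin n) : R a a = false := by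
  obtain ⟨r, hr⟩ := h
  simp [hr]

theorem Wk.asymm {R : Fin n → Fin n → Bool} (h : Wk R) {a b : Fin n} (hab : R a b = true) :
    R b a = false := by
  obtain ⟨r, hr⟩ := h
  simp only [hr, decide_eq_true_eq, decide_eq_false_iff_not] at *
  omega

theorem Wk.trans {R : Fin n → Fin n → Bool} (h : Wk R) {a b c : Fin n} (hab : R a b = true)
    (hbc : R b c = true) : R a c = true := by
  obtain ⟨r, hr⟩ := h
  simp only [hr, decide_eq_true_eq, decide_eq_false_iff_not] at *
  omega

/-- `a < b ≤ c` -/
theorem Wk.trans_le {R : Fin n → Fin n → Bool} (h : Wk R) {a b c : Fin n} (hab : R a b = true)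
    (hbc : R c b = false) : R a c = true := by
  obtain ⟨r, hr⟩ := h
  simp only [hr, decide_eq_true_eq, decide_eq_false_iff_not] at *
  omega

/-- `a ≤ b < c` -/
theorem Wk.le_trans {R : Fin n → Fin n → Bool} (h : Wk R) {a b c : Fin n} (hab : R b a = false)
    (hbc : R b c = true) : R a c = true := by
  obtain ⟨r, hr⟩ := h
  simp only [hr, decide_eq_true_eq, decide_eq_false_iff_not] at *
  omega

/-- `a ≤ b ≤ c` -/
theorem Wk.le_le {R : Fin n → Fin n → Bool} (h : Wk R) {a b c : Fin n} (hab : R b a = false)
    (hbc : R c b = false) : R c a = false := by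
  obtain ⟨r, hr⟩ := h
  simp only [hr, decide_eq_true_eq, decide_eq_false_iff_not] at *
  omega

theorem Lin.total {R : Fin n → Fin n → Bool} (h : Lin R) {a b : Fin n} (hab : a ≠ b) :
    R a b = true ∨ R b a = true := by
  obtain ⟨r, hi, hr⟩ := h
  simp only [hr, decide_eq_true_eq, decide_eq_false_iff_not] at *
  have : r a ≠ r b := fun h => hab (hi h)
  omega

theorem Lin.not {R : Fin n → Fin n → Bool} (h : Lin R) {a b : Fin n} (hab : a ≠ b) :
    R b a = !R a b := by
  rcases h.total hab with h1 | h1
  · rw [h1, h.wk.asymm h1]; rfl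
  · rw [h1, h.wk.asymm h1]; rfl

/-- a weak order without ties is a linear order -/
theorem Wk.lin {R : Fin n → Fin n → Bool} (h : Wk R)
    (ht : ∀ a b, a ≠ b → R a b = true ∨ R b a = true) : Lin R := by
  obtain ⟨r, hr⟩ := h
  refine ⟨r, fun a b hab => ?_, hr⟩
  by_contra hne
  rcases ht a b hne with h1 | h1
  · simp only [hr, decide_eq_true_eq] at h1; omega
  · simp only [hr, decide_eq_true_eq] at h1; omega

theorem refM_lin {A : Pref n} (hA : ∀ m, Wk (A m)) (U : Fin n → Fin n → Bool) (m : Fin n) :
    Lin (refM A U m) := by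
  obtain ⟨r, hr⟩ := hA m
  refine ⟨fun w => (r w * 2 + (U m w).toNat) * n + w.val, fun a b hab => ?_, fun a b => ?_⟩
  · simp only at hab
    have h1 := (RefAux.lex (X := r a * 2 + (U m a).toNat) (Y := r b * 2 + (U m b).toNat)
      a.isLt b.isLt).not
    have h2 := (RefAux.lex (X := r b * 2 + (U m b).toNat) (Y := r a * 2 + (U m a).toNat)
      b.isLt a.isLt).not
    have h3 := h1.mp (by omega)
    have h4 := h2.mp (by omega)
    apply Fin.ext
    omega
  · simp only [refM, bef, hr]
    rw [Bool.eq_iff_iff]
    simp only [Bool.or_eq_true, decide_eq_true_eq, Bool.and_eq_true, Bool.not_eq_true',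
      decide_eq_false_iff_not, RefAux.lex a.isLt b.isLt, Fin.lt_def]
    cases U m a <;> cases U m b <;>
      simp only [RefAux.b1, RefAux.b2, RefAux.b3, RefAux.b4, RefAux.b5, RefAux.b6, true_and,
        false_and, false_or, or_false, true_or, or_true, and_true, and_false, Bool.toNat_true,
        Bool.toNat_false, eq_self_iff_true] <;> omega

theorem refW1_lin {R : Fin n → Fin n → Bool} (hR : Wk R) (π : Perm (Fin n)) :
    Lin (refW1 R π) := by
  obtain ⟨r, hr⟩ := hR
  refine ⟨fun w => r w * n + (π w).val, fun a b hab => ?_, fun a b => ?_⟩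
  · simp only at hab
    have h1 := (RefAux.lex (X := r a) (Y := r b) (π a).isLt (π b).isLt).not
    have h2 := (RefAux.lex (X := r b) (Y := r a) (π b).isLt (π a).isLt).not
    have h3 := h1.mp (by omega)
    have h4 := h2.mp (by omega)
    apply π.injective
    apply Fin.ext
    omega
  · simp only [refW1, hr]
    rw [Bool.eq_iff_iff]
    simp only [Bool.or_eq_true, decide_eq_true_eq, Bool.and_eq_true, Bool.not_eq_true',
      decide_eq_false_iff_not, RefAux.lex (π a).isLt (π b).isLt, Fin.lt_def]
    omega

theorem bef_not {A : Pref n} {m : Fin n} (hA : Wk (A m)) {w w' : Fin n} (h : w ≠ w')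
    (b b' : Bool) : bef A m w' b' w b = !bef A m w b w' b' := by
  obtain ⟨r, hr⟩ := hA
  have h' : (w : ℕ) ≠ w' := fun h1 => h (Fin.ext h1)
  rw [Bool.eq_iff_iff]
  simp only [bef, hr, Bool.or_eq_true, decide_eq_true_eq, Bool.and_eq_true, Bool.not_eq_true',
      decide_eq_false_iff_not, Bool.or_eq_false_iff, Bool.and_eq_false_iff, Bool.not_eq_false',
      Fin.lt_def]
  cases b <;> cases b' <;>
      simp only [RefAux.b1, RefAux.b2, RefAux.b3, RefAux.b4, RefAux.b5, RefAux.b6, true_and,
        false_and, false_or, or_false, true_or, or_true, and_true, and_false,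
        not_true_eq_false, not_false_eq_true, eq_self_iff_true] <;> omega

theorem bef_self {A : Pref n} {m : Fin n} (hA : Wk (A m)) (w : Fin n) (b : Bool) :
    bef A m w b w b = false := by
  obtain ⟨r, hr⟩ := hA
  simp [bef, hr]

theorem refM_of_true {A : Pref n} {U : Fin n → Fin n → Bool} {m a b : Fin n}
    (h : A m a b = true) : refM A U m a b = true := by
  simp [refM, bef, h]

theorem refM_true {A : Pref n} (hA : ∀ m, Wk (A m)) {U : Fin n → Fin n → Bool} {m a b : Fin n}
    (h : refM A U m a b = true) : A m b a = false := by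
  simp only [refM, bef, Bool.or_eq_true, Bool.and_eq_true, Bool.not_eq_true'] at h
  rcases h with h | h
  · exact (hA m).asymm h
  · exact h.1

theorem refW1_of_true {R : Fin n → Fin n → Bool} {π : Perm (Fin n)} {a b : Fin n}
    (h : R a b = true) : refW1 R π a b = true := by
  simp [refW1, h]

theorem refW1_true {R : Fin n → Fin n → Bool} (hR : Wk R) {π : Perm (Fin n)} {a b : Fin n}
    (h : refW1 R π a b = true) : R b a = false := by
  simp only [refW1, Bool.or_eq_true, Bool.and_eq_true, Bool.not_eq_true'] at h
  rcases h with h | h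
  · exact hR.asymm h
  · exact h.1

theorem refW1_of_lin {R : Fin n → Fin n → Bool} (hR : Lin R) (π : Perm (Fin n)) :
    refW1 R π = R := by
  funext a b
  by_cases hab : a = b
  · subst hab
    simp [refW1]
  · rcases hR.total hab with h | h
    · simp [refW1, h]
    · simp [refW1, h]

theorem front_wk {B : Pref n} (hB : ∀ w, Wk (B w)) (w₀ j w : Fin n) : Wk (front B w₀ j w) := by
  obtain ⟨r, hr⟩ := hB w
  refine ⟨fun a => 2 * r a + (if w = w₀ ∧ a = j then 0 else 1), fun a b => ?_⟩
  simp only [front, hr]
  rw [Bool.eq_iff_iff]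
  simp only [Bool.or_eq_true, decide_eq_true_eq, Bool.and_eq_true, Bool.not_eq_true',
      decide_eq_false_iff_not]
  by_cases h1 : w = w₀
  · by_cases h2 : a = j
    · by_cases h3 : b = j
      · simp [h1, h2, h3]
      · simp [h1, h2, h3]; omega
    · by_cases h3 : b = j
      · simp [h1, h2, h3]; omega
      · simp [h1, h2, h3]
  · simp [h1]

theorem front_of_true {B : Pref n} {w₀ j w a b : Fin n} (h : B w a b = true) :
    front B w₀ j w a b = true := by
  simp [front, h]

/-- if `j` is the first of his tie for `π w₀` then moving him to the front changes nothing -/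
theorem refW_front {B : Pref n} (hB : ∀ w, Wk (B w)) (w₀ j : Fin n) (π : Fin n → Perm (Fin n))
    (hj : ∀ b, b ≠ j → B w₀ j b = false → B w₀ b j = false → π w₀ j < π w₀ b) :
    refW (front B w₀ j) π = refW B π := by
  funext w a b
  obtain ⟨r, hr⟩ := hB w
  simp only [refW, refW1, front]
  by_cases h1 : w = w₀
  · subst h1
    simp only [hr, decide_eq_false_iff_not] at hj
    by_cases h2 : a = j
    · by_cases h3 : b = j
      · simp [hr, h2, h3]
      · subst h2
        have h4 := hj b h3
        rw [Bool.eq_iff_iff]
        simp only [hr, Bool.or_eq_true, decide_eq_true_eq, Bool.and_eq_true, Bool.not_eq_true',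
          decide_eq_false_iff_not, Bool.or_eq_false_iff, Bool.and_eq_false_iff,
          Bool.not_eq_false']
        by_cases h5 : r a < r b
        · simp [h5]
        · by_cases h6 : r b < r a
          · simp [h5, h6]
          · simp [h5, h6, h3, h4 h5 h6]
    · by_cases h3 : b = j
      · subst h3
        have h4 := hj a h2
        rw [Bool.eq_iff_iff]
        simp only [hr, Bool.or_eq_true, decide_eq_true_eq, Bool.and_eq_true, Bool.not_eq_true',
          decide_eq_false_iff_not, Bool.or_eq_false_iff, Bool.and_eq_false_iff,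
          Bool.not_eq_false']
        by_cases h5 : r a < r b
        · simp [h5]
        · by_cases h6 : r b < r a
          · simp [h5, h6]
          · have h7 := h4 h6 h5
            simp [h5, h6, h2, h7.le]
      · simp [h2, h3]
  · simp [h1]

end Pool.Agent.Lib.Wsm
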