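import Pool.Agent.Lib.Wsm.Tab
import Pool.Agent.Lib.Wsm.Ref

/-!
# The data represent an instance and a list of matchings

MODULE Wsm.BrA (0.7 h).  Auxiliary lemmas: namespace `Pool.Agent.Lib.Wsm.BrAAux`.

`pm_eq`: only `w = L[l] m` contributes to the sum (`Finset.sum_eq_single`; indices `w < d.n` are
`Fin d.n`).  `pw_eq` similarly.  `H_iff`: unfold `Dat.H`, `Hx`; quantification over `range d.n` is
quantification over `Fin d.n`.
-/

namespace Pool.Agent.Lib.Wsm

open Finset Equiv

/-- the data `d` represent the lists `A, B`, the parameters `g` and the list `L` of matchings -/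
structure Rep (d : Dat) (A B : Pref d.n) (g : Fin d.n → Fin d.n → ℤ)
    (L : List (Perm (Fin d.n))) : Prop where
  hK : d.K = L.length
  nodup : L.Nodup
  hA : ∀ m w w' : Fin d.n, g3 d.n d.tA m w w' = A m w w'
  hB : ∀ w m m' : Fin d.n, g3 d.n d.tB w m m' = B w m m'
  hP : ∀ (l : ℕ) (h : l < L.length) (m w : Fin d.n), g3 d.n d.tP l m w = decide (L[l] m = w)
  hg : ∀ w m : Fin d.n, d.g w m = g w m

variable {d : Dat} {A B : Pref d.n} {g : Fin d.n → Fin d.n → ℤ} {L : List (Perm (Fin d.n))}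

theorem pm_eq (R : Rep d A B g L) {l : ℕ} (hl : l < L.length) (m : Fin d.n) :
    d.pm l m = (L[l] m : ℕ) := by
  unfold Dat.pm
  rw [Finset.sum_eq_single ((L[l] m : Fin d.n) : ℕ)]
  · rw [R.hP l hl m (L[l] m)]
    simp
  · intro w hw hne
    rw [Finset.mem_range] at hw
    have h := R.hP l hl m ⟨w, hw⟩
    simp only at h
    rw [h, if_neg]
    intro h2
    rw [decide_eq_true_eq] at h2
    exact hne (by rw [h2])
  · intro h
    exact absurd (Finset.mem_range.2 (L[l] m).2) h

theorem pw_eq (R : Rep d A B g L) {l : ℕ} (hl : l < L.length) (w : Fin d.n) :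
    d.pw l w = (L[l].symm w : ℕ) := by
  unfold Dat.pw
  rw [Finset.sum_eq_single ((L[l].symm w : Fin d.n) : ℕ)]
  · rw [R.hP l hl (L[l].symm w) w]
    simp
  · intro m hm hne
    rw [Finset.mem_range] at hm
    have h := R.hP l hl ⟨m, hm⟩ w
    simp only at h
    rw [h, if_neg]
    intro h2
    rw [decide_eq_true_eq] at h2
    apply hne
    rw [← h2, Equiv.symm_apply_apply]
  · intro h
    exact absurd (Finset.mem_range.2 (L[l].symm w).2) h

theorem sg_eq (R : Rep d A B g L) {l l' : ℕ} (hl : l < L.length) (hl' : l' < L.length)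
    (w : Fin d.n) : d.sg l l' w = (L[l] (L[l'].symm w) : ℕ) := by
  unfold Dat.sg
  rw [pw_eq R hl' w, pm_eq R hl]

theorem H_iff (R : Rep d A B g L) {l : ℕ} (hl : l < L.length) (w w' : Fin d.n) :
    d.H l w w' ↔ Hx A B L[l] w w' := by
  unfold Dat.H Hx
  rw [pw_eq R hl w, pw_eq R hl w', R.hB, R.hA]
  have h1 : ((w : ℕ) ≠ (w' : ℕ)) ↔ w ≠ w' := by
    rw [ne_eq, ne_eq, Fin.ext_iff]
  rw [h1]
  refine and_congr_right fun _ => and_congr_right fun _ => and_congr_right fun _ => ?_
  constructor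
  · intro h m hm hB1 hB2
    have h2 := h m (Finset.mem_range.2 m.2) (by
      intro h3
      exact hm (Fin.ext h3)) (by rw [R.hB]; exact hB1) (by rw [R.hB]; exact hB2)
    rw [pm_eq R hl, R.hA] at h2
    exact h2
  · intro h m hm hne hB1 hB2
    rw [Finset.mem_range] at hm
    have e : m = ((⟨m, hm⟩ : Fin d.n) : ℕ) := rfl
    rw [e] at hne hB1 hB2 ⊢
    rw [R.hB] at hB1 hB2
    rw [pm_eq R hl, R.hA]
    exact h ⟨m, hm⟩ (by
      intro h3
      apply hne
      rw [h3]) hB1 hB2

end Pool.Agent.Lib.Wsm
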