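import Pool.Agent.Lib.Wsm.Ref

/-!
# Deferred acceptance gives the woman-optimal matching

MODULE Wsm.Opt (2 h): prove `exists_opt`.  Auxiliary lemmas: namespace
`Pool.Agent.Lib.Wsm.OptAux`.  (Only `Defs` and `Ref` are needed; use the lemmas of `Ref` as black
boxes.)

Standard Gale-Shapley (all lists strict, women propose).  `R = rej A B t`: `R w m = true` means
that the man `m` has rejected the woman `w`; `Cur B R w m`: `m` is her first man who has not
rejected her.  For each `w` there is at most one `m` with `Cur B R w m`, and there is one as soon as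
some man has not rejected her.

Invariants by induction on `t`:
(1) (initial segments) `R w m = true → B w m' m = true → R w m' = true`;
(2) if `R w m = true` there is `w'` with `Cur B R w' m` and `A m w' w = true` (the best suitor of
    `m` is never rejected: in one round `m` rejects `w` only because of a better current suitor
    `w'`; the best current suitor of `m` stays current, since a woman's current man changes only
    when he rejects her);
(3) no stable matching `M` has `M.symm w = m` with `R w m = true` (else at the first such round:
    `m` rejects `w` for a current suitor `w'` with `A m w' w`; `m ≠ M.symm w'` , `M.symm w'` has not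
    rejected `w'` (by minimality), so `w'` prefers `m = Cur` to `M.symm w'`, and `(m, w')` blocks `M`).
The number of rejected pairs grows by at least `1` in every round until `stepR A B R = R`, and it is
at most `n * n`; so `R = rej A B (n * n)` is a fixed point (if all `n * n` pairs are rejected it is a
fixed point as well).  At the fixed point no man has two current suitors.  No woman `w` is rejected
by all men: otherwise by (2) every man has a current suitor, these suitors are distinct women
(a woman has at most one current man) and different from `w` (who has no current man, all men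
having rejected her), i.e. an injection `Fin n → {w' // w' ≠ w}`.  So every woman has exactly one
current man, the map `w ↦ Cur` is injective, hence a permutation `M₀.symm`.  Stability: if
`A m w (M₀ m)` and `B w m (M₀.symm w)` then `m` has rejected `w` by the definition of `Cur`, so by
(2) the suitor `M₀ m` of `m` satisfies `A m (M₀ m) w`, contradiction (`asymm`).
Optimality: by (3) `M.symm w` has not rejected `w`, so it is `M₀.symm w` or worse for `w`.
-/

namespace Pool.Agent.Lib.Wsm

open Equiv

variable {n : ℕ}

namespace OptAux

open Finset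

theorem cur_unique {B : Pref n} (hB : ∀ w, Lin (B w)) {R : Fin n → Fin n → Bool} {w m m' : Fin n}
    (h : Cur B R w m) (h' : Cur B R w m') : m = m' := by
  by_contra hne
  rcases (hB w).total hne with h1 | h1
  · have h2 := h'.2 m h1
    rw [h.1] at h2
    exact absurd h2 (by simp)
  · have h2 := h.2 m' h1
    rw [h'.1] at h2
    exact absurd h2 (by simp)

theorem cur_exists {B : Pref n} (hB : ∀ w, Lin (B w)) {R : Fin n → Fin n → Bool} {w : Fin n}
    (h : ∃ m, R w m = false) : ∃ m, Cur B R w m := by
  obtain ⟨r, _, hr⟩ := hB w
  obtain ⟨m0, hm0⟩ := h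
  obtain ⟨m, hm, hmin⟩ := exists_min_image (univ.filter (fun m => R w m = false)) r
    ⟨m0, by simpa using hm0⟩
  have hm' : R w m = false := by simpa using hm
  refine ⟨m, hm', fun m' h1 => ?_⟩
  by_contra h2
  have h3 := hmin m' (by simpa using h2)
  rw [hr, decide_eq_true_eq] at h1
  omega

theorem step_mono {A B : Pref n} {R : Fin n → Fin n → Bool} {w m : Fin n} (h : R w m = true) :
    stepR A B R w m = true := by
  unfold stepR
  rw [h, Bool.true_or]

theorem step_iff {A B : Pref n} {R : Fin n → Fin n → Bool} {w m : Fin n} :
    stepR A B R w m = true ↔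
      R w m = true ∨ (Cur B R w m ∧ ∃ w', Cur B R w' m ∧ A m w' w = true) := by
  simp only [stepR, Bool.or_eq_true, decide_eq_true_eq]

theorem best {A B : Pref n} (hA : ∀ m, Lin (A m)) {R : Fin n → Fin n → Bool} {w m : Fin n}
    (h : ∃ w', Cur B R w' m ∧ A m w' w = true) :
    ∃ w', Cur B (stepR A B R) w' m ∧ A m w' w = true := by
  classical
  obtain ⟨w1, h1, h2⟩ := h
  obtain ⟨r, _, hr⟩ := hA m
  obtain ⟨w2, hw2, hmin⟩ := exists_min_image (univ.filter (fun w' => Cur B R w' m)) r
    ⟨w1, by simpa using h1⟩
  have hw2' : Cur B R w2 m := by simpa using hw2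
  have h3 := hmin w1 (by simpa using h1)
  refine ⟨w2, ⟨?_, fun m' hm' => step_mono (hw2'.2 m' hm')⟩, ?_⟩
  · by_contra hcon
    rw [Bool.not_eq_false, step_iff] at hcon
    rcases hcon with h4 | ⟨_, w3, h5, h6⟩
    · rw [hw2'.1] at h4
      exact absurd h4 (by simp)
    · have h7 := hmin w3 (by simpa using h5)
      rw [hr, decide_eq_true_eq] at h6
      omega
  · rw [hr, decide_eq_true_eq] at h2 ⊢
    omega

theorem inv2 {A B : Pref n} (hA : ∀ m, Lin (A m)) (t : ℕ) {w m : Fin n}
    (h : rej A B t w m = true) : ∃ w', Cur B (rej A B t) w' m ∧ A m w' w = true := by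
  induction t with
  | zero => exact absurd h (by simp [rej])
  | succ t ih =>
    have h1 : stepR A B (rej A B t) w m = true := h
    rw [step_iff] at h1
    rcases h1 with h1 | ⟨_, h1⟩
    · exact best hA (ih h1)
    · exact best hA h1

theorem inv3 {A B : Pref n} (hA : ∀ m, Lin (A m)) (hB : ∀ w, Lin (B w)) {M : Perm (Fin n)}
    (hM : Stab A B M) (t : ℕ) : ∀ w, rej A B t w (M.symm w) = false := by
  induction t with
  | zero => exact fun w => rfl
  | succ t ih =>
    intro w
    by_contra hcon
    have h1 : stepR A B (rej A B t) w (M.symm w) = true := by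
      rw [Bool.not_eq_false] at hcon
      exact hcon
    rw [step_iff] at h1
    rcases h1 with h1 | ⟨_, w', h2, h3⟩
    · rw [ih w] at h1
      exact absurd h1 (by simp)
    · have hne : w' ≠ w := by
        rintro rfl
        rw [(hA _).wk.irrefl] at h3
        exact absurd h3 (by simp)
      have hne' : M.symm w ≠ M.symm w' := fun h => hne (M.symm.injective h).symm
      apply hM (M.symm w) w'
      refine ⟨?_, ?_⟩
      · rw [M.apply_symm_apply]
        exact h3
      · rcases (hB w').total hne' with h4 | h4
        · exact h4
        · have h5 := h2.2 _ h4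
          rw [ih w'] at h5
          exact absurd h5 (by simp)

/-- number of rejections -/
def num (R : Fin n → Fin n → Bool) : ℕ :=
  (univ.filter (fun p : Fin n × Fin n => R p.1 p.2 = true)).card

theorem num_le (R : Fin n → Fin n → Bool) : num R ≤ n * n := by
  unfold num
  refine (card_le_univ _).trans ?_
  rw [Fintype.card_prod, Fintype.card_fin]

theorem num_lt {A B : Pref n} {R : Fin n → Fin n → Bool} (h : stepR A B R ≠ R) :
    num R < num (stepR A B R) := by
  unfold num
  apply card_lt_card
  rw [ssubset_iff_subset_ne]
  refine ⟨?_, ?_⟩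
  · intro p hp
    rw [mem_filter] at hp ⊢
    exact ⟨hp.1, step_mono hp.2⟩
  · intro he
    apply h
    funext w m
    have h1 := Finset.ext_iff.1 he (w, m)
    simp only [mem_filter, mem_univ, true_and] at h1
    cases h2 : R w m with
    | true => exact h1.1 h2
    | false =>
      by_contra h3
      rw [Bool.not_eq_false] at h3
      have h4 := h1.2 h3
      rw [h2] at h4
      exact absurd h4 (by simp)

theorem stab_or (A B : Pref n) (t : ℕ) :
    rej A B (t + 1) = rej A B t ∨ t + 1 ≤ num (rej A B (t + 1)) := by
  induction t with
  | zero =>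
    by_cases h : stepR A B (rej A B 0) = rej A B 0
    · exact Or.inl h
    · right
      have := num_lt h
      change 0 + 1 ≤ num (stepR A B (rej A B 0))
      omega
  | succ t ih =>
    by_cases h : stepR A B (rej A B (t + 1)) = rej A B (t + 1)
    · exact Or.inl h
    · right
      have h1 := num_lt h
      rcases ih with h2 | h2
      · exfalso
        apply h
        rw [h2]
        exact h2
      · change t + 1 + 1 ≤ num (stepR A B (rej A B (t + 1)))
        omega

theorem fixed (A B : Pref n) : stepR A B (rej A B (n * n)) = rej A B (n * n) := by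
  rcases stab_or A B (n * n) with h | h
  · exact h
  · have := num_le (rej A B (n * n + 1))
    omega

end OptAux

open OptAux in
theorem exists_opt (A B : Pref n) (hA : ∀ m, Lin (A m)) (hB : ∀ w, Lin (B w)) :
    ∃ M₀ : Perm (Fin n), Stab A B M₀ ∧
      (∀ M, Stab A B M → ∀ w, M.symm w = M₀.symm w ∨ B w (M₀.symm w) (M.symm w) = true) ∧
      ∀ w m, Cur B (rej A B (n * n)) w m ↔ M₀.symm w = m := by
  have hinv2 := fun w m => inv2 (B := B) hA (n * n) (w := w) (m := m)
  have hinv3 := fun (M : Perm (Fin n)) (hM : Stab A B M) => inv3 hA hB hM (n * n)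
  have hfix := fixed A B
  generalize rej A B (n * n) = R at hinv2 hinv3 hfix
  -- no man has two current suitors
  have hF : ∀ w w' m, Cur B R w m → Cur B R w' m → w = w' := by
    have key : ∀ w w' m, Cur B R w m → Cur B R w' m → A m w' w = true → False := by
      intro w w' m h1 h2 h3
      have h4 : stepR A B R w m = true := step_iff.2 (Or.inr ⟨h1, w', h2, h3⟩)
      rw [hfix, h1.1] at h4
      exact absurd h4 (by simp)
    intro w w' m h1 h2
    by_contra hne
    rcases (hA m).total hne with h3 | h3
    · exact key w' w m h2 h1 h3
    · exact key w w' m h1 h2 h3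
  -- no woman is rejected by all men
  have hex : ∀ w, ∃ m, Cur B R w m := by
    intro w0
    apply cur_exists hB
    by_contra hcon
    have hall : ∀ m, R w0 m = true := by
      intro m
      by_contra h
      exact hcon ⟨m, by simpa using h⟩
    have h1 : ∀ m, ∃ w', Cur B R w' m := fun m => by
      obtain ⟨w', h2, _⟩ := hinv2 w0 m (hall m)
      exact ⟨w', h2⟩
    choose f hf using h1
    have hinj : Function.Injective f := by
      intro m m' he
      have h2 := hf m
      rw [he] at h2
      exact cur_unique hB h2 (hf m')
    obtain ⟨m, hm⟩ := (Finite.injective_iff_surjective.1 hinj) w0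
    have h3 := (hf m).1
    rw [hm, hall m] at h3
    exact absurd h3 (by simp)
  choose g hg using hex
  have hginj : Function.Injective g := by
    intro w w' he
    have h2 := hg w
    rw [he] at h2
    exact hF w w' _ h2 (hg w')
  obtain ⟨e, he⟩ : ∃ e : Perm (Fin n), ∀ w, e w = g w :=
    ⟨Equiv.ofBijective g (Finite.injective_iff_bijective.1 hginj), fun w => rfl⟩
  have hcur : ∀ w m, Cur B R w m ↔ e.symm.symm w = m := by
    intro w m
    rw [Equiv.symm_symm, he]
    constructor
    · intro h
      exact cur_unique hB (hg w) h
    · rintro rfl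
      exact hg w
  refine ⟨e.symm, ?_, ?_, hcur⟩
  · rintro m w ⟨h1, h2⟩
    have h3 : R w m = true := by
      have h4 := (hcur w (e.symm.symm w)).2 rfl
      exact h4.2 m h2
    obtain ⟨w', h5, h6⟩ := hinv2 w m h3
    have h7 : e w' = m := (hcur w' m).1 h5
    have h8 : e.symm m = w' := by
      rw [← h7, Equiv.symm_apply_apply]
    rw [h8] at h1
    have h9 := (hA m).wk.asymm h1
    rw [h6] at h9
    exact absurd h9 (by simp)
  · intro M hM w
    by_cases hne : M.symm w = e.symm.symm w
    · exact Or.inl hne
    · right
      rcases (hB w).total hne with h1 | h1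
      · have h4 := (hcur w (e.symm.symm w)).2 rfl
        have h5 := h4.2 _ h1
        rw [hinv3 M hM w] at h5
        exact absurd h5 (by simp)
      · exact h1

open Classical in
/-- the woman-optimal stable matching -/
noncomputable def opt (A B : Pref n) : Perm (Fin n) :=
  if h : (∀ m, Lin (A m)) ∧ ∀ w, Lin (B w) then (exists_opt A B h.1 h.2).choose else 1

theorem opt_spec {A B : Pref n} (hA : ∀ m, Lin (A m)) (hB : ∀ w, Lin (B w)) :
    Stab A B (opt A B) ∧
      (∀ M, Stab A B M → ∀ w, M.symm w = (opt A B).symm w ∨
        B w ((opt A B).symm w) (M.symm w) = true) ∧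
      ∀ w m, Cur B (rej A B (n * n)) w m ↔ (opt A B).symm w = m := by
  have h : (∀ m, Lin (A m)) ∧ ∀ w, Lin (B w) := ⟨hA, hB⟩
  unfold opt
  rw [dif_pos h]
  exact (exists_opt A B h.1 h.2).choose_spec

end Pool.Agent.Lib.Wsm
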