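import Pool.Agent.Lib.Wsm.BrA
import Pool.Agent.Lib.Wsm.Opt

/-!
# Deferred acceptance on tables

MODULE Wsm.BrDA (0.7 h): prove `rejT_eq`, `da_bits`.  Auxiliary lemmas: namespace
`Pool.Agent.Lib.Wsm.BrDAAux`.  Imports are black boxes.

`rejT_eq` by induction on `t`: `CurN tb (rejT t) w m ↔ Cur B' (rej t) w m` (indices `< n`),
`d.refN lab m w' w = refM A U m w' w` (unfold `befN`, `refM`, `bef`; `g2 n lab m w = lab.getD (m * n + w) false`).
`da_bits`: `CurN` at time `n * n` is `Cur`, which is `(opt ..).symm w = m` by `opt_spec`; `mk2_eq_permBits`.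
-/

namespace Pool.Agent.Lib.Wsm

open Finset Equiv

variable {d : Dat} {A B : Pref d.n} {g : Fin d.n → Fin d.n → ℤ} {L : List (Perm (Fin d.n))}

/-- the labels of a list -/
def labU (n : ℕ) (lab : List Bool) (m w : Fin n) : Bool := lab.getD (m * n + w) false

namespace BrDAAux

theorem cur_iff {tb R : List Bool} {B' : Pref d.n}
    (htb : ∀ w m m' : Fin d.n, g3 d.n tb w m m' = B' w m m')
    {R' : Fin d.n → Fin d.n → Bool} (hR : ∀ w m : Fin d.n, g2 d.n R w m = R' w m)
    (w m : Fin d.n) : d.CurN tb R w m ↔ Cur B' R' w m := by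
  unfold Dat.CurN Cur
  rw [hR]
  apply and_congr Iff.rfl
  constructor
  · intro h m' hm'
    rw [← hR]
    exact h m' (Finset.mem_range.2 m'.2) (by rw [htb]; exact hm')
  · intro h m' hm' h1
    have h2 := h ⟨m', Finset.mem_range.1 hm'⟩ (by rw [← htb]; exact h1)
    rw [← hR] at h2
    exact h2

theorem ref_eq (R : Rep d A B g L) (lab : List Bool) (m w w' : Fin d.n) :
    d.refN lab m w w' = refM A (labU d.n lab) m w w' := by
  unfold Dat.refN Dat.befN refM bef
  rw [R.hA, R.hA]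
  simp only [Fin.lt_def]
  rfl

end BrDAAux

theorem rejT_eq (R : Rep d A B g L) {tb : List Bool} {B' : Pref d.n}
    (htb : ∀ w m m' : Fin d.n, g3 d.n tb w m m' = B' w m m') (lab : List Bool) (t : ℕ)
    (w m : Fin d.n) :
    g2 d.n (d.rejT lab tb t) w m = rej (refM A (labU d.n lab)) B' t w m := by
  classical
  induction t generalizing w m with
  | zero =>
    rw [Dat.rejT, g2_mk2 w.2 m.2]
    rfl
  | succ t ih =>
    rw [Dat.rejT, g2_mk2 w.2 m.2, ih w m, rej, stepR]
    congr 1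
    apply decide_eq_decide.2
    apply and_congr (BrDAAux.cur_iff htb ih w m)
    constructor
    · rintro ⟨w', hw', h1, h2⟩
      refine ⟨⟨w', Finset.mem_range.1 hw'⟩, ?_, ?_⟩
      · exact (BrDAAux.cur_iff htb ih ⟨w', Finset.mem_range.1 hw'⟩ m).1 h1
      · rw [← BrDAAux.ref_eq R]
        exact h2
    · rintro ⟨w', h1, h2⟩
      refine ⟨w', Finset.mem_range.2 w'.2, (BrDAAux.cur_iff htb ih w' m).2 h1, ?_⟩
      rw [BrDAAux.ref_eq R]
      exact h2

open Classical in
theorem da_bits (R : Rep d A B g L) (hA : ∀ m, Wk (A m)) {tb : List Bool} {B' : Pref d.n}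
    (htb : ∀ w m m' : Fin d.n, g3 d.n tb w m m' = B' w m m') (hB' : ∀ w, Lin (B' w))
    (lab : List Bool) :
    mk2 d.n d.n (fun m w => decide (d.CurN tb (d.rejT lab tb (d.n * d.n)) w m)) =
      permBits (opt (refM A (labU d.n lab)) B') := by
  apply mk2_eq_permBits
  intro m w
  apply decide_eq_decide.2
  rw [BrDAAux.cur_iff htb (rejT_eq R htb lab (d.n * d.n)) w m,
    (opt_spec (refM_lin hA (labU d.n lab)) hB').2.2 w m, Equiv.symm_apply_eq]
  exact eq_comm

end Pool.Agent.Lib.Wsm
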