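import Pool.Agent.Lib.Wsm.BrDet
import Pool.Agent.Lib.Wsm.BrDA

/-!
# The descent on tables

MODULE Wsm.BrDesc (1.5 h): prove `lab_spec` and `tbf_spec`.  Auxiliary lemmas: namespace
`Pool.Agent.Lib.Wsm.BrDescAux`.  Imports are black boxes.

For a table `tb` of `B'` with `Refn B' B`: `d.Rne lab tb ↔ Miss A B' lab L.toFinset` (`Rne_iff`, `OK.good`,
`miss_of_Rm` with `OK.meas`).
`lab_spec`: induction on `s`: `(d.labs s).length = s` and `Miss A B (d.labs s) L.toFinset`
(`miss_label`; if `Rne (labs s ++ [false])` fails then the miss is on the side `true`).  Here `tb = d.tB`,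
`B' = B` (`Refn B B` from `hB`).
`tbf_spec`: induction on `r`: there is `B'` with `Refn B' B`, table `d.tbs lab r`, `Miss A B' lab L.toFinset` and
at most `n * n - r` pairs `(w, j)` such that `j` is tied with another man in `B' w`.  Step: if there is a
tied pair, `miss_front` gives `(w, j)` with `SelP` (`frontT` is the table of `front B' w j`, by `g3_mk3`;
`Refn (front B' w j) B` by `front_wk`, `front_of_true`), so the two `lst` are such `(w, j)` (`lst_spec`; `SelW` of
the first one gives the second), and `SelP` gives `Tied` and the miss (`Rne` iff `Miss`).  In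
`front B' w j` the man `j` is not tied any more and nobody else becomes tied, so the number of pairs
decreases.  If there is no tied pair then no `SelW`, and `tbs` is constant.  At `r = n * n` there is
no tied pair, so all `B' w` are linear (`Wk.lin`).
-/

namespace Pool.Agent.Lib.Wsm

open Finset Equiv

variable {d : Dat} {A B : Pref d.n} {g : Fin d.n → Fin d.n → ℤ} {L : List (Perm (Fin d.n))}

namespace BrDescAux

theorem refn_self (hB : ∀ w, Wk (B w)) : Refn B B := fun w => ⟨hB w, fun _ _ h => h⟩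

theorem rne_iff_miss (R : Rep d A B g L) (hA : ∀ m, Wk (A m)) (hok : OK A B g L.toFinset)
    {tb : List Bool} {B' : Pref d.n} (htb : ∀ w m m' : Fin d.n, g3 d.n tb w m m' = B' w m m')
    (hB' : Refn B' B) (lab : List Bool) : d.Rne lab tb ↔ Miss A B' lab L.toFinset := by
  rw [Rne_iff R hok.sep htb hB' lab]
  constructor
  · intro h
    exact miss_of_Rm hA (fun w => (hB' w).1) (hok.meas B' hB') h
  · intro h
    exact hok.good B' hB' lab h

/-- `j` is tied with another man in the list of `w` -/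
def Td {n : ℕ} (B : Pref n) (w j : Fin n) : Prop :=
  ∃ i, i ≠ j ∧ B w i j = false ∧ B w j i = false

theorem tied_iff {tb : List Bool} {B' : Pref d.n}
    (htb : ∀ w m m' : Fin d.n, g3 d.n tb w m m' = B' w m m') (w j : Fin d.n) :
    d.Tied tb w j ↔ Td B' w j := by
  constructor
  · rintro ⟨i, hi, h1, h2, h3⟩
    have hi' : i < d.n := Finset.mem_range.1 hi
    refine ⟨⟨i, hi'⟩, fun h => h1 (congrArg Fin.val h), ?_, ?_⟩
    · rw [← htb]
      exact h2
    · rw [← htb]
      exact h3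
  · rintro ⟨i, h1, h2, h3⟩
    refine ⟨i, Finset.mem_range.2 i.2, fun h => h1 (Fin.ext h), ?_, ?_⟩
    · rw [htb]
      exact h2
    · rw [htb]
      exact h3

theorem frontT_eq {tb : List Bool} {B' : Pref d.n}
    (htb : ∀ w m m' : Fin d.n, g3 d.n tb w m m' = B' w m m') (w₀ j : Fin d.n)
    (w m m' : Fin d.n) : g3 d.n (d.frontT tb w₀ j) w m m' = front B' w₀ j w m m' := by
  unfold Dat.frontT
  rw [g3_mk3 w.2 m.2 m'.2, htb, htb]
  unfold front
  have h : decide ((w : ℕ) = w₀ ∧ (m : ℕ) = j ∧ (m' : ℕ) ≠ j) =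
      decide (w = w₀ ∧ m = j ∧ m' ≠ j) := by
    rw [decide_eq_decide]
    simp only [Fin.ext_iff, ne_eq]
  rw [h]

theorem refn_front {B' : Pref d.n} (hB' : Refn B' B) (w₀ j : Fin d.n) :
    Refn (front B' w₀ j) B := fun w =>
  ⟨front_wk (fun w => (hB' w).1) w₀ j w, fun a b h => front_of_true ((hB' w).2 a b h)⟩

theorem selP_iff (R : Rep d A B g L) (hA : ∀ m, Wk (A m)) (hok : OK A B g L.toFinset)
    {tb : List Bool} {B' : Pref d.n} (htb : ∀ w m m' : Fin d.n, g3 d.n tb w m m' = B' w m m')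
    (hB' : Refn B' B) (lab : List Bool) (w j : Fin d.n) :
    d.SelP lab tb w j ↔ Td B' w j ∧ Miss A (front B' w j) lab L.toFinset := by
  unfold Dat.SelP
  rw [tied_iff htb, rne_iff_miss R hA hok (frontT_eq htb w j) (refn_front hB' w j)]

open Classical in
/-- the number of pairs `(w, j)` with `j` tied with another man in the list of `w` -/
noncomputable def cnt {n : ℕ} (B : Pref n) : ℕ :=
  ((univ : Finset (Fin n × Fin n)).filter (fun p => Td B p.1 p.2)).card

theorem cnt_le {n : ℕ} (B : Pref n) : cnt B ≤ n * n := by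
  classical
  unfold cnt
  refine (Finset.card_le_univ _).trans ?_
  simp

theorem td_front {n : ℕ} {B : Pref n} {w₀ j₀ w j : Fin n} (h : Td (front B w₀ j₀) w j) :
    Td B w j := by
  obtain ⟨i, h1, h2, h3⟩ := h
  refine ⟨i, h1, ?_, ?_⟩
  · by_contra hc
    rw [Bool.not_eq_false] at hc
    rw [front_of_true hc] at h2
    exact Bool.false_ne_true h2.symm
  · by_contra hc
    rw [Bool.not_eq_false] at hc
    rw [front_of_true hc] at h3
    exact Bool.false_ne_true h3.symm

theorem not_td_front {n : ℕ} {B : Pref n} {w₀ j₀ : Fin n} : ¬ Td (front B w₀ j₀) w₀ j₀ := by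
  rintro ⟨i, h1, h2, h3⟩
  unfold front at h2 h3
  rw [Bool.or_eq_false_iff] at h2 h3
  have h4 := h3.2
  rw [h2.1] at h4
  simp [h1] at h4

theorem cnt_front {n : ℕ} {B : Pref n} {w₀ j₀ : Fin n} (h : Td B w₀ j₀) :
    cnt (front B w₀ j₀) < cnt B := by
  classical
  unfold cnt
  apply Finset.card_lt_card
  rw [Finset.ssubset_iff_of_subset]
  · refine ⟨(w₀, j₀), ?_, ?_⟩
    · rw [Finset.mem_filter]
      exact ⟨Finset.mem_univ _, h⟩
    · rw [Finset.mem_filter]
      exact fun h => not_td_front h.2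
  · intro p hp
    rw [Finset.mem_filter] at hp ⊢
    exact ⟨Finset.mem_univ _, td_front hp.2⟩

/-- one step of the refinement -/
theorem step (R : Rep d A B g L) (hA : ∀ m, Wk (A m)) (hok : OK A B g L.toFinset)
    {tb : List Bool} {B' : Pref d.n} (htb : ∀ w m m' : Fin d.n, g3 d.n tb w m m' = B' w m m')
    (hB' : Refn B' B) {lab : List Bool} (hm : Miss A B' lab L.toFinset) :
    ∃ B'' : Pref d.n, Refn B'' B ∧
      (∀ w m m' : Fin d.n, g3 d.n (d.stepB lab tb) w m m' = B'' w m m') ∧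
      Miss A B'' lab L.toFinset ∧ (cnt B'' < cnt B' ∨ cnt B'' = 0) := by
  classical
  by_cases hsel : ∃ w ∈ range d.n, d.SelW lab tb w
  · have hsel1 : ∃ w < d.n, d.SelW lab tb w := by
      obtain ⟨w, hw, h⟩ := hsel
      exact ⟨w, Finset.mem_range.1 hw, h⟩
    obtain ⟨hw1, hw2, -⟩ := lst_spec hsel1
    have hsel2 : ∃ j < d.n, d.SelP lab tb (lst d.n (fun w => d.SelW lab tb w)) j := by
      obtain ⟨j, hj, h⟩ := hw2
      exact ⟨j, Finset.mem_range.1 hj, h⟩
    obtain ⟨hj1, hj2, -⟩ := lst_spec hsel2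
    have hstep : d.stepB lab tb = d.frontT tb (lst d.n (fun w => d.SelW lab tb w))
      (lst d.n (fun j => d.SelP lab tb (lst d.n (fun w => d.SelW lab tb w)) j)) := by
      unfold Dat.stepB
      rw [if_pos hsel]
    rw [hstep]
    set w₀ : Fin d.n := ⟨lst d.n (fun w => d.SelW lab tb w), hw1⟩ with hw₀
    set j₀ : Fin d.n :=
      ⟨lst d.n (fun j => d.SelP lab tb (lst d.n (fun w => d.SelW lab tb w)) j), hj1⟩ with hj₀
    have h3 : d.SelP lab tb w₀ j₀ := hj2
    rw [selP_iff R hA hok htb hB'] at h3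
    exact ⟨front B' w₀ j₀, refn_front hB' w₀ j₀, fun w m m' => frontT_eq htb w₀ j₀ w m m', h3.2,
      Or.inl (cnt_front h3.1)⟩
  · have hstep : d.stepB lab tb = tb := by
      unfold Dat.stepB
      rw [if_neg hsel]
    rw [hstep]
    refine ⟨B', hB', htb, hm, Or.inr ?_⟩
    unfold cnt
    rw [Finset.card_eq_zero, Finset.filter_eq_empty_iff]
    rintro ⟨w, j⟩ - ⟨i, h1, h2, h3⟩
    obtain ⟨j', h4, h5⟩ := miss_front (fun w => (hB' w).1) hm h1 h2 h3
    apply hsel
    refine ⟨w, Finset.mem_range.2 w.2, j', Finset.mem_range.2 j'.2, ?_⟩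
    rw [selP_iff R hA hok htb hB']
    exact ⟨h4, h5⟩

theorem tbs_spec (R : Rep d A B g L) (hA : ∀ m, Wk (A m)) (hB : ∀ w, Wk (B w))
    (hok : OK A B g L.toFinset) {lab : List Bool} (h : Miss A B lab L.toFinset) (r : ℕ) :
    ∃ B' : Pref d.n, Refn B' B ∧
      (∀ w m m' : Fin d.n, g3 d.n (d.tbs lab r) w m m' = B' w m m') ∧
      Miss A B' lab L.toFinset ∧ cnt B' ≤ d.n * d.n - r := by
  induction r with
  | zero => exact ⟨B, refn_self hB, R.hB, h, cnt_le B⟩
  | succ r ih =>
    obtain ⟨B', h1, h2, h3, h4⟩ := ih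
    obtain ⟨B'', h5, h6, h7, h8⟩ := step R hA hok h2 h1 h3
    refine ⟨B'', h5, h6, h7, ?_⟩
    omega

theorem labs_spec (R : Rep d A B g L) (hA : ∀ m, Wk (A m)) (hB : ∀ w, Wk (B w))
    (hok : OK A B g L.toFinset) (h : Miss A B [] L.toFinset) (s : ℕ) :
    (d.labs s).length = s ∧ Miss A B (d.labs s) L.toFinset := by
  classical
  induction s with
  | zero => exact ⟨rfl, h⟩
  | succ s ih =>
    have hr := rne_iff_miss R hA hok R.hB (refn_self hB) (d.labs s ++ [false])
    have hl : d.labs (s + 1) =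
        d.labs s ++ [if d.Rne (d.labs s ++ [false]) d.tB then false else true] := rfl
    rw [hl]
    refine ⟨by rw [List.length_append, ih.1, List.length_singleton], ?_⟩
    by_cases hc : d.Rne (d.labs s ++ [false]) d.tB
    · rw [if_pos hc]
      exact hr.1 hc
    · rw [if_neg hc]
      rcases miss_label ih.2 with h1 | h1
      · exact absurd (hr.2 h1) hc
      · exact h1

end BrDescAux

/-- the initial test is correct -/
theorem rne_miss (R : Rep d A B g L) (hA : ∀ m, Wk (A m)) (hB : ∀ w, Wk (B w))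
    (hok : OK A B g L.toFinset) : d.Rne [] d.tB ↔ Miss A B [] L.toFinset :=
  BrDescAux.rne_iff_miss R hA hok R.hB (BrDescAux.refn_self hB) []

theorem lab_spec (R : Rep d A B g L) (hA : ∀ m, Wk (A m)) (hB : ∀ w, Wk (B w))
    (hok : OK A B g L.toFinset) (h : d.Rne [] d.tB) :
    d.lab.length = d.n * d.n ∧ Miss A B d.lab L.toFinset :=
  BrDescAux.labs_spec R hA hB hok ((rne_miss R hA hB hok).1 h) (d.n * d.n)

theorem tbf_spec (R : Rep d A B g L) (hA : ∀ m, Wk (A m)) (hB : ∀ w, Wk (B w))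
    (hok : OK A B g L.toFinset) (h : Miss A B d.lab L.toFinset) :
    ∃ B' : Pref d.n, Refn B' B ∧ (∀ w, Lin (B' w)) ∧
      (∀ w m m' : Fin d.n, g3 d.n d.tbf w m m' = B' w m m') ∧ Miss A B' d.lab L.toFinset := by
  classical
  obtain ⟨B', h1, h2, h3, h4⟩ := BrDescAux.tbs_spec R hA hB hok h (d.n * d.n)
  refine ⟨B', h1, fun w => (h1 w).1.lin ?_, h2, h3⟩
  intro a b hab
  by_contra hc
  push Not at hc
  obtain ⟨hc1, hc2⟩ := hc
  rw [ne_eq, Bool.not_eq_true] at hc1 hc2
  have h5 : BrDescAux.cnt B' = 0 := by omega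
  unfold BrDescAux.cnt at h5
  rw [Finset.card_eq_zero, Finset.filter_eq_empty_iff] at h5
  exact h5 (Finset.mem_univ (w, a)) ⟨b, hab.symm, hc2, hc1⟩

end Pool.Agent.Lib.Wsm
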