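import Pool.Agent.Lib.Wsm.ExpDet

/-!
# The missing mass, and the descent

MODULE Wsm.Cert (1.2 h): prove the theorems below.  Auxiliary lemmas: namespace
`Pool.Agent.Lib.Wsm.CertAux`.  Imports are black boxes.

`Rm_eq`: by `exp_det` and `det_NM` (`refM_lin`, `refW1_lin`), `∑ M ∈ L, (Nhat A u x M).det` is the sum
over `(U, π)` of the weight times `[opt ∈ L]`; and the total weight is `1`
(`Finset.prod_univ_sum`, `hu`, `IndepX.total`).

`miss_of_Rm`: choose the `μ w`; by `Rm_eq` some term is not zero: its `U` is consistent with `lab`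
(`uL` vanishes otherwise) and its optimal matching is not in `L`.

`miss_label`: the pair `(U, π)` is consistent with `lab ++ [U m w]` where `m * n + w = lab.length`
(if `lab.length < n * n`; for `lab.length ≥ n * n` there is nothing to check).
`Cons (lab ++ [b]) U`: an index `m * n + w < lab.length + 1` is `< lab.length` or `= lab.length`; the map
`(m, w) ↦ m * n + w` is injective on `Fin n × Fin n`.

`miss_front`: given `(U, π)` and a tie in the list of `w`, take in the tie class of some tied man the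
man `j` with the smallest `π w j` (he is tied with another man too); by `refW_front` the same
`(U, π)` works for `front B w j`.

`miss_final`: `U m w = lab.getD (m * n + w) false` for all `m, w`, and `refW B π = B` (`refW1_of_lin`).
-/

namespace Pool.Agent.Lib.Wsm

open Finset Equiv

variable {n : ℕ}

namespace CertAux

theorem sum_pi {μ : Fin n → Perm (Fin n) → ℚ} (h : ∀ w, ∑ π, μ w π = 1) :
    ∑ π : Fin n → Perm (Fin n), ∏ w, μ w (π w) = 1 := by
  classical
  have h1 := Finset.prod_univ_sum (fun _ : Fin n => (univ : Finset (Perm (Fin n)))) μ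
  rw [Fintype.piFinset_univ] at h1
  rw [← h1]
  exact Finset.prod_eq_one fun w _ => h w

theorem sum_bool {v : Fin n → Bool → ℚ} (h : ∀ w, v w false + v w true = 1) :
    ∑ V : Fin n → Bool, ∏ w, v w (V w) = 1 := by
  classical
  have h1 := Finset.prod_univ_sum (fun _ : Fin n => (univ : Finset Bool)) v
  rw [Fintype.piFinset_univ] at h1
  rw [← h1]
  refine Finset.prod_eq_one fun w _ => ?_
  rw [Fintype.sum_bool, add_comm]
  exact h w

theorem sum_labels {u : Fin n → Fin n → Bool → ℚ} (h : ∀ m w, u m w false + u m w true = 1) :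
    ∑ U : Fin n → Fin n → Bool, ∏ m, ∏ w, u m w (U m w) = 1 := by
  classical
  have h1 := Finset.prod_univ_sum (fun _ : Fin n => (univ : Finset (Fin n → Bool)))
    (fun m V => ∏ w, u m w (V w))
  rw [Fintype.piFinset_univ] at h1
  rw [← h1]
  exact Finset.prod_eq_one fun m _ => sum_bool (h m)

theorem index_inj {m w m' w' : Fin n} (h : (m : ℕ) * n + w = (m' : ℕ) * n + w') :
    m = m' ∧ w = w' := by
  have hw := w.2
  have hw' := w'.2
  have h1 : (m : ℕ) = m' := by
    rcases lt_trichotomy (m : ℕ) (m' : ℕ) with h2 | h2 | h2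
    · exfalso
      have h3 : ((m : ℕ) + 1) * n ≤ (m' : ℕ) * n := Nat.mul_le_mul_right n h2
      rw [Nat.add_mul, Nat.one_mul] at h3
      omega
    · exact h2
    · exfalso
      have h3 : ((m' : ℕ) + 1) * n ≤ (m : ℕ) * n := Nat.mul_le_mul_right n h2
      rw [Nat.add_mul, Nat.one_mul] at h3
      omega
  refine ⟨Fin.ext h1, Fin.ext ?_⟩
  rw [h1] at h
  omega

theorem index_lt (m w : Fin n) : (m : ℕ) * n + w < n * n := by
  have hw := w.2
  have h3 : ((m : ℕ) + 1) * n ≤ n * n := Nat.mul_le_mul_right n m.2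
  rw [Nat.add_mul, Nat.one_mul] at h3
  omega

end CertAux

/-- the mass of the woman-optimal matchings outside `L` -/
noncomputable def Rm (A : Pref n) (u : Fin n → Fin n → Bool → ℚ)
    (x : Fin n → Fin n → Fin n → ℚ) (L : Finset (Perm (Fin n))) : ℚ :=
  1 - ∑ M ∈ L, (Nhat A u x M).det

open Classical in
theorem Rm_eq {A B : Pref n} (hA : ∀ m, Wk (A m)) (hB : ∀ w, Wk (B w))
    {u : Fin n → Fin n → Bool → ℚ} (hu : ∀ m w, u m w false + u m w true = 1)
    {x : Fin n → Fin n → Fin n → ℚ} {μ : Fin n → Perm (Fin n) → ℚ}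
    (hI : ∀ w, IndepX (B w) (μ w) (x w)) (L : Finset (Perm (Fin n))) :
    Rm A u x L = ∑ U : Fin n → Fin n → Bool, ∑ π : Fin n → Perm (Fin n),
        (∏ m, ∏ w, u m w (U m w)) * (∏ w, μ w (π w)) *
          (if opt (refM A U) (refW B π) ∈ L then 0 else 1) := by
  have hμ : ∀ w, ∑ π, μ w π = 1 := fun w => (hI w).total w
  have hdet : ∀ M : Perm (Fin n), (Nhat A u x M).det =
      ∑ U : Fin n → Fin n → Bool, ∑ π : Fin n → Perm (Fin n),
        (∏ m, ∏ w, u m w (U m w)) * (∏ w, μ w (π w)) *
          (if M = opt (refM A U) (refW B π) then 1 else 0) := by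
    intro M
    rw [← exp_det hA hB hu hI M]
    refine Finset.sum_congr rfl fun U _ => Finset.sum_congr rfl fun π _ => ?_
    have hd := det_NM (A := refM A U) (B := refW B π) (refM_lin hA U)
      (fun w => refW1_lin (hB w) (π w)) M
    rw [hd]
  have htot : ∑ U : Fin n → Fin n → Bool, ∑ π : Fin n → Perm (Fin n),
      (∏ m, ∏ w, u m w (U m w)) * (∏ w, μ w (π w)) = 1 := by
    rw [← Finset.sum_mul_sum, CertAux.sum_labels hu, CertAux.sum_pi hμ, one_mul]
  unfold Rm
  rw [Finset.sum_congr rfl fun M _ => hdet M, Finset.sum_comm]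
  have h1 : ∀ U : Fin n → Fin n → Bool, ∑ M ∈ L, ∑ π : Fin n → Perm (Fin n),
        (∏ m, ∏ w, u m w (U m w)) * (∏ w, μ w (π w)) *
          (if M = opt (refM A U) (refW B π) then 1 else 0) =
      ∑ π : Fin n → Perm (Fin n), (∏ m, ∏ w, u m w (U m w)) * (∏ w, μ w (π w)) *
        (if opt (refM A U) (refW B π) ∈ L then 1 else 0) := by
    intro U
    rw [Finset.sum_comm]
    refine Finset.sum_congr rfl fun π _ => ?_
    rw [← Finset.mul_sum, Finset.sum_ite_eq']
  rw [Finset.sum_congr rfl fun U _ => h1 U]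
  refine (congrArg (fun y : ℚ => y - ∑ U : Fin n → Fin n → Bool, ∑ π : Fin n → Perm (Fin n),
    (∏ m, ∏ w, u m w (U m w)) * (∏ w, μ w (π w)) *
      (if opt (refM A U) (refW B π) ∈ L then 1 else 0)) htot.symm).trans ?_
  rw [← Finset.sum_sub_distrib]
  refine Finset.sum_congr rfl fun U _ => ?_
  rw [← Finset.sum_sub_distrib]
  refine Finset.sum_congr rfl fun π _ => ?_
  split_ifs
  · ring
  · ring

/-- labels: the first ones are fixed by `lab`, the others are fair coins -/
def uL (n : ℕ) (lab : List Bool) (m w : Fin n) (b : Bool) : ℚ :=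
  if (m : ℕ) * n + w < lab.length then (if lab.getD (m * n + w) false = b then 1 else 0) else 1 / 2

theorem uL_sum (lab : List Bool) (m w : Fin n) : uL n lab m w false + uL n lab m w true = 1 := by
  unfold uL
  by_cases h : (m : ℕ) * n + w < lab.length
  · simp only [if_pos h]
    cases lab.getD ((m : ℕ) * n + w) false <;> simp
  · simp only [if_neg h]
    norm_num

/-- `U` is consistent with the fixed labels -/
def Cons (lab : List Bool) (U : Fin n → Fin n → Bool) : Prop :=
  ∀ m w : Fin n, (m : ℕ) * n + w < lab.length → U m w = lab.getD (m * n + w) false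

/-- some woman-optimal matching is missing in `L` -/
def Miss (A B : Pref n) (lab : List Bool) (L : Finset (Perm (Fin n))) : Prop :=
  ∃ (U : Fin n → Fin n → Bool) (π : Fin n → Perm (Fin n)),
    Cons lab U ∧ opt (refM A U) (refW B π) ∉ L

theorem miss_of_Rm {A B : Pref n} (hA : ∀ m, Wk (A m)) (hB : ∀ w, Wk (B w)) {lab : List Bool}
    {x : Fin n → Fin n → Fin n → ℚ} (hx : ∀ w, ∃ μ, IndepX (B w) μ (x w))
    {L : Finset (Perm (Fin n))} (h : Rm A (uL n lab) x L ≠ 0) : Miss A B lab L := by
  classical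
  choose μ hμ using hx
  by_contra hcon
  apply h
  rw [Rm_eq hA hB (uL_sum lab) hμ L]
  refine Finset.sum_eq_zero fun U _ => Finset.sum_eq_zero fun π _ => ?_
  by_cases hc : Cons lab U
  · have h1 : opt (refM A U) (refW B π) ∈ L := by
      by_contra h2
      exact hcon ⟨U, π, hc, h2⟩
    rw [if_pos h1, mul_zero]
  · unfold Cons at hc
    push Not at hc
    obtain ⟨m, w, h1, h2⟩ := hc
    have h3 : uL n lab m w (U m w) = 0 := by
      unfold uL
      rw [if_pos h1, if_neg (fun h => h2 h.symm)]
    have h4 : (∏ m, ∏ w, uL n lab m w (U m w)) = 0 :=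
      Finset.prod_eq_zero (Finset.mem_univ m) (Finset.prod_eq_zero (Finset.mem_univ w) h3)
    rw [h4, zero_mul, zero_mul]

theorem miss_label {A B : Pref n} {lab : List Bool} {L : Finset (Perm (Fin n))}
    (h : Miss A B lab L) : Miss A B (lab ++ [false]) L ∨ Miss A B (lab ++ [true]) L := by
  obtain ⟨U, π, hc, ho⟩ := h
  have key : ∀ b : Bool, (∀ m w : Fin n, (m : ℕ) * n + w = lab.length → U m w = b) →
      Miss A B (lab ++ [b]) L := by
    intro b hb
    refine ⟨U, π, ?_, ho⟩
    intro m w hmw
    rw [List.length_append, List.length_singleton] at hmw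
    rcases Nat.lt_succ_iff_lt_or_eq.1 hmw with h1 | h1
    · rw [hc m w h1]
      rw [List.getD_append _ _ _ _ h1]
    · rw [hb m w h1, h1, List.getD_append_right _ _ _ _ le_rfl]
      simp
  by_cases hex : ∃ m w : Fin n, (m : ℕ) * n + w = lab.length
  · obtain ⟨m, w, hmw⟩ := hex
    have h1 : ∀ m' w' : Fin n, (m' : ℕ) * n + w' = lab.length → U m' w' = U m w := by
      intro m' w' h2
      obtain ⟨h3, h4⟩ := CertAux.index_inj (h2.trans hmw.symm)
      rw [h3, h4]
    cases hU : U m w with
    | false => exact Or.inl (key false fun m' w' h2 => (h1 m' w' h2).trans hU)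
    | true => exact Or.inr (key true fun m' w' h2 => (h1 m' w' h2).trans hU)
  · exact Or.inl (key false fun m w h1 => absurd ⟨m, w, h1⟩ hex)

theorem miss_front {A B : Pref n} (hB : ∀ w, Wk (B w)) {lab : List Bool}
    {L : Finset (Perm (Fin n))} (h : Miss A B lab L) {w i i' : Fin n} (hi : i ≠ i')
    (h1 : B w i i' = false) (h2 : B w i' i = false) :
    ∃ j, (∃ k, k ≠ j ∧ B w k j = false ∧ B w j k = false) ∧ Miss A (front B w j) lab L := by
  classical
  obtain ⟨U, π, hc, ho⟩ := h
  have hw := hB w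
  obtain ⟨j, hj, hmin⟩ := Finset.exists_min_image
    (univ.filter (fun j => B w j i = false ∧ B w i j = false)) (fun j => π w j)
    ⟨i, Finset.mem_filter.2 ⟨Finset.mem_univ _, hw.irrefl i, hw.irrefl i⟩⟩
  rw [Finset.mem_filter] at hj
  obtain ⟨-, hj1, hj2⟩ := hj
  refine ⟨j, ?_, U, π, hc, ?_⟩
  · by_cases hji : j = i
    · subst hji
      exact ⟨i', hi.symm, h2, h1⟩
    · exact ⟨i, fun h => hji h.symm, hj2, hj1⟩
  · rw [refW_front hB w j π]
    · exact ho
    · intro b hb h3 h4
      have h5 : π w j ≤ π w b := by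
        refine hmin b (Finset.mem_filter.2 ⟨Finset.mem_univ _, ?_, ?_⟩)
        · exact hw.le_le hj1 h4
        · exact hw.le_le h3 hj2
      refine lt_of_le_of_ne h5 fun h6 => hb ?_
      exact ((π w).injective h6).symm

theorem miss_final {A B : Pref n} (hB : ∀ w, Lin (B w)) {lab : List Bool}
    {L : Finset (Perm (Fin n))} (h : Miss A B lab L) (hl : n * n ≤ lab.length) :
    opt (refM A (fun m w => lab.getD (m * n + w) false)) B ∉ L := by
  obtain ⟨U, π, hc, ho⟩ := h
  have h1 : U = fun (m w : Fin n) => lab.getD ((m : ℕ) * n + w) false := by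
    funext m w
    exact hc m w ((CertAux.index_lt m w).trans_le hl)
  have h2 : refW B π = B := by
    funext w
    exact refW1_of_lin (hB w) (π w)
  rw [h1, h2] at ho
  exact ho

/-- parameters of the woman `w` -/
def xg (g : Fin n → ℤ) (R : Fin n → Fin n → Bool) (j i : Fin n) : ℚ :=
  if R j i = true then 1 else if R i j = true then 0 else (g j : ℚ) / ((g j : ℚ) - g i)

/-- `B'` refines `B` -/
def Refn (B' B : Pref n) : Prop := ∀ w, Wk (B' w) ∧ ∀ a b, B w a b = true → B' w a b = true

/-- the parameters `g` are good for the instance and the list `L` -/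
structure OK (A B : Pref n) (g : Fin n → Fin n → ℤ) (L : Finset (Perm (Fin n))) : Prop where
  sep : ∀ w j i, j ≠ i → B w j i = false → B w i j = false → g w j ≠ g w i
  meas : ∀ B', Refn B' B → ∀ w, ∃ μ, IndepX (B' w) μ (xg (g w) (B' w))
  good : ∀ B', Refn B' B → ∀ lab, Miss A B' lab L →
    Rm A (uL n lab) (fun w => xg (g w) (B' w)) L ≠ 0

end Pool.Agent.Lib.Wsm
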