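import Pool.Agent.Lib.Wsm.Algo

/-!
# Newton's identities compute the determinant

MODULE Wsm.Newton (1.5 h): prove `newtE_eq`.  Auxiliary lemmas: namespace
`Pool.Agent.Lib.Wsm.NewtonAux`.

`mpow n N k` is the `k`-th power of the matrix `(N i j)`, `trp n N k` its trace `p_k`, and
`nwT p k j = j! e_j` for `j ≤ k`, where `e_j` are the coefficients of `D(X) = det (1 + X • N)`.
Newton's identity: `(k + 1) e_{k+1} = ∑_{i ≤ k} (-1)^i e_{k-i} p_{i+1}` for every `k` (also for `k ≥ n`).
Multiplying by `k!`: `(k+1)! e_{k+1} = ∑_i (-1)^i (k! / (k-i)!) ((k-i)! e_{k-i}) p_{i+1}` and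
`k! / (k-i)! = k.descFactorial i`.

Proof of Newton's identity (several routes):
(a) work over `ℂ` (`Int.castRingHom`): the multiset `Λ` of roots of the characteristic polynomial has
`trace (N^k) = ∑ λ^k` (triangularise: search Mathlib for `Matrix.schur`/`trace_pow`), then
`MvPolynomial.mul_esymm_eq_sum` evaluated at `Λ`; or
(b) formal: over `S = PowerSeries ℤ` (variable `X`) the matrix `Y = 1 + X • N` is invertible with inverse
`∑ (-X)^k N^k`; `det (Y + h • N) = det Y * det (1 + h • Y⁻¹ N)` over `S[h]`; the coefficient of `h` on the left is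
`D'(X)` (as `D(X + h) = det (1 + (X + h) N)`), on the right it is `D(X) * trace (Y⁻¹ N)` by
`Matrix.derivative_det_one_add_X_smul` (coefficient of `h` in `det (1 + h M)` is `trace M`).  So
`D' = D * ∑ (-X)^k p_{k+1}`; compare coefficients of `X^k`.
(c) derivative of the determinant polynomial row by row: `D' = ∑_i det(row i replaced by row i of N)`
`= trace (adjugate (1 + X N) * N)`, and `(1 + X N) adj = D`, so the coefficients `C_k` of `adjugate (1 + X • N)`
satisfy `C_{k+1} = e_{k+1} - N C_k`; hence `C_k = ∑_i (-1)^i e_{k-i} N^i`, and the coefficient of `X^k` of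
`D'` is `(k+1) e_{k+1} = trace (C_k N)`.
At the end `e_n = det N`: the coefficient of `X^n` in `det (1 + X • N)` (e.g. `Matrix.charpolyRev`,
`Matrix.reverse_charpoly`, `Matrix.det_eq_sign_charpoly_coeff`; for `det(1 - X N)` the coefficient is
`(-1)^n det N`).
-/

namespace Pool.Agent.Lib.Wsm

open Finset

namespace NewtonAux

open Polynomial Matrix

variable {n : ℕ}

/-- Jacobi's formula, column form -/
theorem jacobi_col (P : Matrix (Fin n) (Fin n) ℤ[X]) :
    derivative P.det = ∑ i, (P.updateCol i (fun j => derivative (P j i))).det := by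
  simp only [Matrix.det_apply]
  rw [map_sum, Finset.sum_comm]
  refine Finset.sum_congr rfl fun σ _ => ?_
  rw [← Finset.smul_sum, Units.smul_def, Units.smul_def, map_zsmul,
    Polynomial.derivative_prod_finset]
  congr 1
  refine Finset.sum_congr rfl fun i _ => ?_
  rw [← Finset.mul_prod_erase Finset.univ _ (Finset.mem_univ i), Matrix.updateCol_self, mul_comm]
  congr 1
  refine Finset.prod_congr rfl fun j hj => ?_
  rw [Matrix.updateCol_ne (Finset.ne_of_mem_erase hj)]

/-- Jacobi's formula -/
theorem jacobi (P : Matrix (Fin n) (Fin n) ℤ[X]) :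
    derivative P.det = ∑ i, ∑ j, P.adjugate i j * derivative (P j i) := by
  rw [jacobi_col]
  refine Finset.sum_congr rfl fun i _ => ?_
  rw [← Matrix.cramer_apply, Matrix.cramer_eq_adjugate_mulVec]
  rfl

/-- `1 + X N` -/
noncomputable def PP (M : Matrix (Fin n) (Fin n) ℤ) : Matrix (Fin n) (Fin n) ℤ[X] :=
  1 + (X : ℤ[X]) • M.map C

/-- coefficients of the determinant -/
noncomputable def ee (M : Matrix (Fin n) (Fin n) ℤ) (k : ℕ) : ℤ := (PP M).det.coeff k

/-- coefficients of the adjugate -/
noncomputable def CC (M : Matrix (Fin n) (Fin n) ℤ) (k : ℕ) : Matrix (Fin n) (Fin n) ℤ :=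
  Matrix.of fun i j => ((PP M).adjugate i j).coeff k

theorem PP_apply (M : Matrix (Fin n) (Fin n) ℤ) (i j : Fin n) :
    PP M i j = (1 : Matrix (Fin n) (Fin n) ℤ[X]) i j + X * C (M i j) := by
  simp [PP]

theorem ee_zero (M : Matrix (Fin n) (Fin n) ℤ) : ee M 0 = 1 := by
  unfold ee PP
  rw [coeff_zero_eq_eval_zero, ← Polynomial.coe_evalRingHom, RingHom.map_det]
  have : (evalRingHom 0).mapMatrix (1 + (X : ℤ[X]) • M.map C) = 1 := by
    ext i j
    rw [RingHom.mapMatrix_apply, Matrix.map_apply, Matrix.add_apply, Matrix.smul_apply,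
      Matrix.map_apply, Matrix.one_apply, Matrix.one_apply]
    split <;> simp
  rw [this, Matrix.det_one]

theorem adj_eq (M : Matrix (Fin n) (Fin n) ℤ) (i j : Fin n) :
    (PP M).adjugate i j + X * ∑ t, C (M i t) * (PP M).adjugate t j =
      if i = j then (PP M).det else 0 := by
  have h := congrFun (congrFun (Matrix.mul_adjugate (PP M)) i) j
  rw [Matrix.mul_apply] at h
  simp only [PP_apply, add_mul, Finset.sum_add_distrib, Matrix.one_apply, ite_mul, one_mul,
    zero_mul, Finset.sum_ite_eq, Finset.mem_univ, if_true, Matrix.smul_apply, smul_eq_mul,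
    mul_ite, mul_one, mul_zero] at h
  rw [← h, Finset.mul_sum]
  congr 1
  refine Finset.sum_congr rfl fun t _ => ?_
  ring

theorem CC_zero (M : Matrix (Fin n) (Fin n) ℤ) : CC M 0 = 1 := by
  ext i j
  have h := congrArg (fun p => Polynomial.coeff p 0) (adj_eq M i j)
  simp only [coeff_add, mul_coeff_zero, coeff_X_zero, zero_mul, add_zero] at h
  rw [CC, Matrix.of_apply, h, Matrix.one_apply]
  split
  · exact ee_zero M
  · simp

theorem CC_succ (M : Matrix (Fin n) (Fin n) ℤ) (k : ℕ) :
    CC M (k + 1) = ee M (k + 1) • (1 : Matrix (Fin n) (Fin n) ℤ) - M * CC M k := by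
  ext i j
  have h := congrArg (fun p => Polynomial.coeff p (k + 1)) (adj_eq M i j)
  simp only [coeff_add, coeff_X_mul, finsetSum_coeff, coeff_C_mul] at h
  rw [CC, Matrix.of_apply, Matrix.sub_apply, Matrix.smul_apply, Matrix.mul_apply]
  simp only [CC, Matrix.of_apply, Matrix.one_apply, smul_eq_mul, mul_ite, mul_one, mul_zero]
  have h2 : (if i = j then (PP M).det else 0).coeff (k + 1) = if i = j then ee M (k + 1) else 0 := by
    split
    · rfl
    · simp
  rw [h2] at h
  linarith

theorem CC_eq (M : Matrix (Fin n) (Fin n) ℤ) (k : ℕ) :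
    CC M k = ∑ i ∈ range (k + 1), ((-1) ^ i * ee M (k - i)) • M ^ i := by
  induction k with
  | zero => simp [CC_zero, ee_zero]
  | succ k ih =>
    rw [CC_succ, ih, Finset.sum_range_succ' _ (k + 1), Finset.mul_sum]
    simp only [pow_zero, one_mul, Nat.sub_zero]
    rw [sub_eq_add_neg, ← Finset.sum_neg_distrib,
      add_comm (ee M (k + 1) • (1 : Matrix (Fin n) (Fin n) ℤ))]
    congr 1
    refine Finset.sum_congr rfl fun i _ => ?_
    rw [Matrix.mul_smul, ← pow_succ', Nat.add_sub_add_right, ← neg_smul]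
    congr 1
    ring

theorem newton (M : Matrix (Fin n) (Fin n) ℤ) (k : ℕ) :
    ((k : ℤ) + 1) * ee M (k + 1) =
      ∑ i ∈ range (k + 1), (-1) ^ i * ee M (k - i) * (M ^ (i + 1)).trace := by
  have h1 := congrArg (fun p => Polynomial.coeff p k) (jacobi (PP M))
  simp only [coeff_derivative, finsetSum_coeff] at h1
  have h2 : ∀ i j : Fin n, derivative (PP M j i) = C (M j i) := by
    intro i j
    rw [PP_apply, Matrix.one_apply]
    split <;> simp
  simp only [h2, coeff_mul_C] at h1
  have h3 : ∑ i, ∑ j, ((PP M).adjugate i j).coeff k * M j i = (CC M k * M).trace := by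
    rw [Matrix.trace]
    refine Finset.sum_congr rfl fun i _ => ?_
    rw [Matrix.diag_apply, Matrix.mul_apply]
    rfl
  rw [h3, CC_eq, Finset.sum_mul, Matrix.trace_sum] at h1
  rw [mul_comm]
  unfold ee
  rw [h1]
  refine Finset.sum_congr rfl fun i _ => ?_
  rw [Matrix.smul_mul, Matrix.trace_smul, ← pow_succ]
  rfl

theorem ee_n (M : Matrix (Fin n) (Fin n) ℤ) : ee M n = M.det := by
  have h1 : (PP M).det = (-M).charpolyRev := by
    unfold PP Matrix.charpolyRev
    congr 1
    ext i j
    simp
  unfold ee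
  rw [h1, ← Matrix.reverse_charpoly, Polynomial.coeff_reverse]
  have h2 : (-M).charpoly.natDegree = n := by
    rw [Matrix.charpoly_natDegree_eq_dim, Fintype.card_fin]
  rw [h2, Polynomial.revAt_le le_rfl, Nat.sub_self]
  have h3 := Matrix.det_eq_sign_charpoly_coeff (-M)
  rw [Fintype.card_fin, Matrix.det_neg, Fintype.card_fin] at h3
  have h4 : ((-1 : ℤ) ^ n) * ((-1) ^ n) = 1 := by
    rw [← mul_pow]
    simp
  calc (-M).charpoly.coeff 0 = ((-1 : ℤ) ^ n * (-1) ^ n) * (-M).charpoly.coeff 0 := by
        rw [h4, one_mul]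
    _ = (-1 : ℤ) ^ n * ((-1) ^ n * (-M).charpoly.coeff 0) := by ring
    _ = ((-1 : ℤ) ^ n * (-1) ^ n) * M.det := by rw [← h3]; ring
    _ = M.det := by rw [h4, one_mul]

theorem mpow_eq (N : ℕ → ℕ → ℤ) (k : ℕ) (i j : Fin n) :
    mpow n N k i j = ((Matrix.of fun i j : Fin n => N i j) ^ k) i j := by
  induction k generalizing i j with
  | zero =>
    simp only [mpow, pow_zero, Matrix.one_apply, Fin.ext_iff]
  | succ k ih =>
    rw [mpow, pow_succ, Matrix.mul_apply, Finset.sum_range]
    refine Finset.sum_congr rfl fun t _ => ?_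
    rw [ih i t]
    rfl

theorem trp_eq (N : ℕ → ℕ → ℤ) (k : ℕ) :
    trp n N k = ((Matrix.of fun i j : Fin n => N i j) ^ k).trace := by
  rw [trp, Finset.sum_range, Matrix.trace]
  refine Finset.sum_congr rfl fun i _ => ?_
  rw [Matrix.diag_apply, mpow_eq]

theorem nwT_eq (N : ℕ → ℕ → ℤ) (k : ℕ) : ∀ j ≤ k,
    nwT (trp n N) k j = (j.factorial : ℤ) * ee (Matrix.of fun i j : Fin n => N i j) j := by
  induction k with
  | zero =>
    intro j hj
    obtain rfl : j = 0 := by omega
    simp [nwT, ee_zero]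
  | succ k ih =>
    intro j hj
    by_cases h : j = k + 1
    · subst h
      rw [nwT, if_pos rfl]
      have h1 : ∀ i ∈ range (k + 1), (-1) ^ i * (k.descFactorial i : ℤ) *
          nwT (trp n N) k (k - i) * trp n N (i + 1) =
          (k.factorial : ℤ) * ((-1) ^ i * ee (Matrix.of fun i j : Fin n => N i j) (k - i) *
            ((Matrix.of fun i j : Fin n => N i j) ^ (i + 1)).trace) := by
        intro i hi
        rw [Finset.mem_range] at hi
        rw [ih (k - i) (Nat.sub_le _ _), trp_eq]
        have h2 : (((k - i).factorial : ℕ) : ℤ) * (k.descFactorial i : ℕ) = (k.factorial : ℕ) := by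
          exact_mod_cast Nat.factorial_mul_descFactorial (by omega : i ≤ k)
        rw [← h2]
        ring
      rw [Finset.sum_congr rfl h1, ← Finset.mul_sum, ← newton, Nat.factorial_succ]
      push_cast
      ring
    · rw [nwT, if_neg h]
      exact ih j (by omega)

end NewtonAux

theorem newtE_eq (n : ℕ) (N : ℕ → ℕ → ℤ) :
    newtE n N = (n.factorial : ℤ) * (Matrix.of fun i j : Fin n => N i j).det := by
  rw [newtE, NewtonAux.nwT_eq N n n le_rfl, NewtonAux.ee_n]

end Pool.Agent.Lib.Wsm
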