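import Pool.Agent.Lib.Wsm.BrA
import Pool.Agent.Lib.Wsm.Cert
import Pool.Agent.Lib.Wsm.Newton

/-!
# The integer computation tests whether the missing mass vanishes

MODULE Wsm.BrDet.  Auxiliary lemmas: namespace `Pool.Agent.Lib.Wsm.BrDetAux`.

Let `M = L[l]`, `x w = xg (g w) (B' w)`, `u = uL d.n lab`.  With `s w m i = d.s1 tb w m i` (nonzero for
`m ≠ i` by `hsep`; ties of `B'` are ties of `B`) one has `d.p1 tb w m i = s * x w m i` for `m ≠ i`,
`d.u2 lab m w b = 2 * u m w b`, `d.y2 lab m w w' b = 2 * yy A u m w w' b`.  So for `w ≠ M m` (i.e. `m ≠ M.symm w`)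
`Fw = 2 * s w m (M.symm w) * (1 - x w m (M.symm w) * yy ..)`, and
`Dn = c m * DD`, `Qn = c m * QQ` (for `w' ≠ M m`) with
`c m = ∏ w, 2 * (if w = M m then 1 else s w m (M.symm w))`.  Hence (`Matrix.det_mul_column`)
`det Nn = 2 ^ (n * n) * (∏ m, ∏ w, ..) * det (Nhat A u x M)`.
-/

namespace Pool.Agent.Lib.Wsm

open Finset Equiv

variable {d : Dat} {A B : Pref d.n} {g : Fin d.n → Fin d.n → ℤ} {L : List (Perm (Fin d.n))}

namespace BrDetAux

theorem s1_eq {tb : List Bool} {B' : Pref d.n} (R : Rep d A B g L)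
    (htb : ∀ w m m' : Fin d.n, g3 d.n tb w m m' = B' w m m') (w j i : Fin d.n) :
    d.s1 tb w j i = if B' w j i = true ∨ B' w i j = true then 1 else g w j - g w i := by
  unfold Dat.s1
  rw [htb, htb, R.hg, R.hg]

theorem p1_eq {tb : List Bool} {B' : Pref d.n} (R : Rep d A B g L)
    (htb : ∀ w m m' : Fin d.n, g3 d.n tb w m m' = B' w m m') (w j i : Fin d.n) :
    d.p1 tb w j i = if B' w j i = true then 1 else if B' w i j = true then 0 else g w j := by
  unfold Dat.p1
  rw [htb, htb, R.hg]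

theorem s1_ne (R : Rep d A B g L)
    (hsep : ∀ w j i, j ≠ i → B w j i = false → B w i j = false → g w j ≠ g w i)
    {tb : List Bool} {B' : Pref d.n} (htb : ∀ w m m' : Fin d.n, g3 d.n tb w m m' = B' w m m')
    (hB' : Refn B' B) {w j i : Fin d.n} (hji : j ≠ i) : d.s1 tb w j i ≠ 0 := by
  rw [s1_eq R htb]
  split_ifs with h
  · exact one_ne_zero
  · push Not at h
    have h1 : B w j i = false := by
      by_contra hc
      rw [Bool.not_eq_false] at hc
      exact h.1 ((hB' w).2 _ _ hc)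
    have h2 : B w i j = false := by
      by_contra hc
      rw [Bool.not_eq_false] at hc
      exact h.2 ((hB' w).2 _ _ hc)
    exact sub_ne_zero.2 (hsep w j i hji h1 h2)

theorem p1_s1 (R : Rep d A B g L)
    (hsep : ∀ w j i, j ≠ i → B w j i = false → B w i j = false → g w j ≠ g w i)
    {tb : List Bool} {B' : Pref d.n} (htb : ∀ w m m' : Fin d.n, g3 d.n tb w m m' = B' w m m')
    (hB' : Refn B' B) {w j i : Fin d.n} (hji : j ≠ i) :
    ((d.p1 tb w j i : ℤ) : ℚ) = (d.s1 tb w j i : ℚ) * xg (g w) (B' w) j i := by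
  have hne := s1_ne R hsep htb hB' (w := w) hji
  rw [s1_eq R htb] at hne
  rw [s1_eq R htb, p1_eq R htb]
  unfold xg
  by_cases h1 : B' w j i = true
  · simp [h1]
  · by_cases h2 : B' w i j = true
    · simp [h1, h2]
    · rw [if_neg (by tauto)] at hne
      rw [if_neg h1, if_neg h2, if_neg (by tauto), if_neg h1, if_neg h2]
      have h3 : ((g w j : ℚ) - g w i) ≠ 0 := by
        have : ((g w j - g w i : ℤ) : ℚ) ≠ 0 := by exact_mod_cast hne
        push_cast at this
        exact this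
      push_cast
      field_simp

theorem u2_eq (lab : List Bool) (m w : Fin d.n) (b : Bool) :
    ((d.u2 lab m w b : ℕ) : ℚ) = 2 * uL d.n lab m w b := by
  unfold Dat.u2 uL g2
  split_ifs <;> norm_num

theorem befN_eq (R : Rep d A B g L) (m w w' : Fin d.n) (b b' : Bool) :
    d.befN m w b w' b' = bef A m w b w' b' := by
  unfold Dat.befN bef
  rw [R.hA, R.hA]
  rfl

theorem y2_eq (R : Rep d A B g L) (lab : List Bool) (m w w' : Fin d.n) (b' : Bool) :
    ((d.y2 lab m w w' b' : ℕ) : ℚ) = 2 * yy A (uL d.n lab) m w w' b' := by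
  unfold Dat.y2 yy
  rw [befN_eq R, befN_eq R, Fintype.sum_bool]
  push_cast
  rw [mul_add, add_comm]
  congr 1
  · split_ifs
    · exact u2_eq lab m w true
    · simp
  · split_ifs
    · exact u2_eq lab m w false
    · simp

section one

variable (R : Rep d A B g L)
  (hsep : ∀ w j i, j ≠ i → B w j i = false → B w i j = false → g w j ≠ g w i)
  {tb : List Bool} {B' : Pref d.n} (htb : ∀ w m m' : Fin d.n, g3 d.n tb w m m' = B' w m m')
  (hB' : Refn B' B) (lab : List Bool) {l : ℕ} (hl : l < L.length)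

/-- the scaling factors -/
def sc (d : Dat) (tb : List Bool) (M : Perm (Fin d.n)) (m w : Fin d.n) : ℚ :=
  if w = M m then 1 else (d.s1 tb w m (M.symm w) : ℚ)

include R hsep htb hB' hl

theorem Fw_eq {m w : Fin d.n} (hw : w ≠ L[l] m) (w' : Fin d.n) (a : Bool) :
    ((d.Fw lab tb l m w w' a : ℤ) : ℚ) = (2 * sc d tb L[l] m w) *
      (1 - xg (g w) (B' w) m (L[l].symm w) * yy A (uL d.n lab) m w w' a) := by
  have hne : m ≠ L[l].symm w := by
    intro h
    apply hw
    rw [h, Equiv.apply_symm_apply]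
  unfold Dat.Fw sc
  rw [if_neg hw, pw_eq R hl]
  push_cast
  rw [y2_eq R, p1_s1 R hsep htb hB' hne]
  ring

theorem Da_eq (m : Fin d.n) (a : Bool) :
    ((d.Da lab tb l m a : ℤ) : ℚ) = (∏ w, 2 * sc d tb L[l] m w) *
      (uL d.n lab m (L[l] m) a * ∏ w ∈ univ.erase (L[l] m),
        (1 - xg (g w) (B' w) m (L[l].symm w) * yy A (uL d.n lab) m w (L[l] m) a)) := by
  unfold Dat.Da
  rw [pm_eq R hl, Finset.prod_range]
  push_cast
  rw [u2_eq, ← mul_prod_erase univ (fun w => 2 * sc d tb L[l] m w) (mem_univ (L[l] m)),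
    ← mul_prod_erase univ _ (mem_univ (L[l] m))]
  have h1 : sc d tb L[l] m (L[l] m) = 1 := by
    unfold sc
    rw [if_pos rfl]
  rw [h1, if_pos rfl]
  have h2 : ∏ w ∈ univ.erase (L[l] m), (if (w : ℕ) = (L[l] m : ℕ) then (1 : ℚ) else
      ((d.Fw lab tb l m w (L[l] m) a : ℤ) : ℚ)) = (∏ w ∈ univ.erase (L[l] m),
        2 * sc d tb L[l] m w) * ∏ w ∈ univ.erase (L[l] m),
        (1 - xg (g w) (B' w) m (L[l].symm w) * yy A (uL d.n lab) m w (L[l] m) a) := by
    rw [← prod_mul_distrib]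
    refine prod_congr rfl fun w hw => ?_
    have hw' := ne_of_mem_erase hw
    rw [if_neg (fun h => hw' (Fin.ext h)), Fw_eq R hsep htb hB' lab hl hw']
  rw [h2]
  ring

theorem Dn_eq (m : Fin d.n) :
    ((d.Dn lab tb l m : ℤ) : ℚ) = (∏ w, 2 * sc d tb L[l] m w) *
      DD A (uL d.n lab) (fun w => xg (g w) (B' w)) L[l] m := by
  unfold Dat.Dn DD
  push_cast
  rw [Da_eq R hsep htb hB' lab hl, Da_eq R hsep htb hB' lab hl, Fintype.sum_bool]
  ring

theorem Qab_eq (m w' : Fin d.n) (hw' : w' ≠ L[l] m) (a b : Bool) :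
    ((d.Qab lab tb l m w' a b : ℤ) : ℚ) = (∏ w, 2 * sc d tb L[l] m w) *
      (if bef A m (L[l] m) a w' b = true then
        uL d.n lab m (L[l] m) a * uL d.n lab m w' b * xg (g w') (B' w') m (L[l].symm w') *
          ∏ w ∈ (univ.erase (L[l] m)).erase w',
            (1 - xg (g w) (B' w) m (L[l].symm w) * yy A (uL d.n lab) m w w' b) else 0) := by
  unfold Dat.Qab
  rw [pm_eq R hl, befN_eq R]
  split_ifs with hb
  · have hne : m ≠ L[l].symm w' := by
      intro h
      apply hw'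
      rw [h, Equiv.apply_symm_apply]
    have hmem : w' ∈ univ.erase (L[l] m) := mem_erase.2 ⟨hw', mem_univ _⟩
    rw [Finset.prod_range]
    push_cast
    rw [u2_eq, u2_eq, pw_eq R hl, p1_s1 R hsep htb hB' hne,
      ← mul_prod_erase univ (fun w => 2 * sc d tb L[l] m w) (mem_univ (L[l] m)),
      ← mul_prod_erase univ (fun w : Fin d.n => if (w : ℕ) = (L[l] m : ℕ) ∨ (w : ℕ) = (w' : ℕ) then
        (1 : ℚ) else ((d.Fw lab tb l m w w' b : ℤ) : ℚ)) (mem_univ (L[l] m)),
      ← mul_prod_erase (univ.erase (L[l] m)) (fun w => 2 * sc d tb L[l] m w) hmem,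
      ← mul_prod_erase (univ.erase (L[l] m)) (fun w : Fin d.n =>
        if (w : ℕ) = (L[l] m : ℕ) ∨ (w : ℕ) = (w' : ℕ) then
        (1 : ℚ) else ((d.Fw lab tb l m w w' b : ℤ) : ℚ)) hmem]
    have h1 : sc d tb L[l] m (L[l] m) = 1 := by
      unfold sc
      rw [if_pos rfl]
    have h3 : sc d tb L[l] m w' = (d.s1 tb w' m (L[l].symm w') : ℚ) := by
      unfold sc
      rw [if_neg hw']
    have h2 : ∏ w ∈ (univ.erase (L[l] m)).erase w',
        (if (w : ℕ) = (L[l] m : ℕ) ∨ (w : ℕ) = (w' : ℕ) then (1 : ℚ) else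
        ((d.Fw lab tb l m w w' b : ℤ) : ℚ)) = (∏ w ∈ (univ.erase (L[l] m)).erase w',
          2 * sc d tb L[l] m w) * ∏ w ∈ (univ.erase (L[l] m)).erase w',
          (1 - xg (g w) (B' w) m (L[l].symm w) * yy A (uL d.n lab) m w w' b) := by
      rw [← prod_mul_distrib]
      refine prod_congr rfl fun w hw => ?_
      have hw1 := ne_of_mem_erase hw
      have hw2 := ne_of_mem_erase (mem_of_mem_erase hw)
      rw [if_neg, Fw_eq R hsep htb hB' lab hl hw2]
      rintro (h | h)
      · exact hw2 (Fin.ext h)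
      · exact hw1 (Fin.ext h)
    rw [h2, h1, h3, if_pos (Or.inl rfl), if_pos (Or.inr rfl)]
    ring
  · simp

theorem Qn_eq (m w' : Fin d.n) (hw' : w' ≠ L[l] m) :
    ((d.Qn lab tb l m w' : ℤ) : ℚ) = (∏ w, 2 * sc d tb L[l] m w) *
      QQ A (uL d.n lab) (fun w => xg (g w) (B' w)) L[l] m w' := by
  unfold Dat.Qn QQ
  push_cast
  rw [Qab_eq R hsep htb hB' lab hl m w' hw', Qab_eq R hsep htb hB' lab hl m w' hw',
    Qab_eq R hsep htb hB' lab hl m w' hw', Qab_eq R hsep htb hB' lab hl m w' hw',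
    Fintype.sum_bool, Fintype.sum_bool, Fintype.sum_bool]
  ring

theorem det_eq :
    (((Matrix.of fun i j : Fin d.n => d.Nn lab tb l i j).det : ℤ) : ℚ) =
      (∏ m, ∏ w, 2 * sc d tb L[l] m w) *
        (Nhat A (uL d.n lab) (fun w => xg (g w) (B' w)) L[l]).det := by
  rw [← Matrix.det_mul_column, Int.cast_det]
  congr 1
  ext m m'
  rw [Matrix.map_apply, Matrix.of_apply, Matrix.of_apply]
  unfold Dat.Nn Nhat
  by_cases hmm : m = m'
  · subst hmm
    rw [if_pos rfl, if_pos rfl, Dn_eq R hsep htb hB' lab hl]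
  · rw [if_neg (fun h => hmm (Fin.ext h)), if_neg hmm]
    push_cast
    rw [pm_eq R hl, Qn_eq R hsep htb hB' lab hl]
    · ring
    · intro h
      exact hmm (L[l].injective h).symm

omit hsep htb hB' in
theorem Cl_mul :
    ((d.Cl tb l : ℤ) : ℚ) * (∏ m, ∏ w, 2 * sc d tb L[l] m w) =
      2 ^ (d.n * d.n) * ∏ w : Fin d.n, ∏ i : Fin d.n, ∏ m : Fin d.n,
        (if m = i then 1 else ((d.s1 tb w m i : ℤ) : ℚ)) := by
  have h1 : (∏ m, ∏ w, 2 * sc d tb L[l] m w) =
      2 ^ (d.n * d.n) * ∏ w, ∏ m, sc d tb L[l] m w := by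
    rw [prod_comm]
    simp only [prod_mul_distrib, prod_const, card_univ, Fintype.card_fin]
    rw [← pow_mul]
  rw [h1, mul_left_comm]
  congr 1
  unfold Dat.Cl
  rw [Finset.prod_range]
  push_cast
  rw [← prod_mul_distrib]
  refine prod_congr rfl fun w _ => ?_
  rw [Finset.prod_range, ← mul_prod_erase univ (fun i : Fin d.n => ∏ m : Fin d.n,
        (if m = i then 1 else ((d.s1 tb w m i : ℤ) : ℚ))) (mem_univ (L[l].symm w)),
    ← mul_prod_erase univ _ (mem_univ (L[l].symm w)), pw_eq R hl, if_pos rfl, one_mul, mul_comm]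
  congr 1
  · refine prod_congr rfl fun m _ => ?_
    unfold sc
    by_cases h : m = L[l].symm w
    · rw [if_pos h, if_pos (by rw [h, Equiv.apply_symm_apply])]
    · rw [if_neg h, if_neg]
      intro h2
      apply h
      rw [h2, Equiv.symm_apply_apply]
  · refine prod_congr rfl fun i hi => ?_
    rw [if_neg (fun h => ne_of_mem_erase hi (Fin.ext h)), Finset.prod_range]
    refine prod_congr rfl fun m _ => ?_
    by_cases h : m = i
    · rw [if_pos h, if_pos (by rw [h])]
    · rw [if_neg h, if_neg (fun h2 => h (Fin.ext h2))]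

end one

end BrDetAux

open BrDetAux

theorem Rne_iff (R : Rep d A B g L)
    (hsep : ∀ w j i, j ≠ i → B w j i = false → B w i j = false → g w j ≠ g w i)
    {tb : List Bool} {B' : Pref d.n} (htb : ∀ w m m' : Fin d.n, g3 d.n tb w m m' = B' w m m')
    (hB' : Refn B' B) (lab : List Bool) :
    d.Rne lab tb ↔ Rm A (uL d.n lab) (fun w => xg (g w) (B' w)) L.toFinset ≠ 0 := by
  have hTot : ((d.Tot tb : ℤ) : ℚ) = (d.n.factorial : ℚ) * (2 ^ (d.n * d.n) *
      ∏ w : Fin d.n, ∏ i : Fin d.n, ∏ m : Fin d.n,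
        (if m = i then 1 else ((d.s1 tb w m i : ℤ) : ℚ))) := by
    unfold Dat.Tot
    push_cast
    rw [Finset.prod_range, mul_assoc]
    congr 2
    refine prod_congr rfl fun w _ => ?_
    rw [Finset.prod_range]
    refine prod_congr rfl fun i _ => ?_
    rw [Finset.prod_range]
    refine prod_congr rfl fun m _ => ?_
    by_cases h : m = i
    · rw [if_pos h, if_pos (by rw [h])]
    · rw [if_neg h, if_neg (fun h2 => h (Fin.ext h2))]
  have hTot0 : ((d.Tot tb : ℤ) : ℚ) ≠ 0 := by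
    rw [hTot]
    refine mul_ne_zero (by exact_mod_cast d.n.factorial_ne_zero) (mul_ne_zero (by positivity) ?_)
    refine prod_ne_zero_iff.2 fun w _ => prod_ne_zero_iff.2 fun i _ =>
      prod_ne_zero_iff.2 fun m _ => ?_
    split_ifs with h
    · exact one_ne_zero
    · exact_mod_cast s1_ne R hsep htb hB' h
  have hVal : ((d.Val lab tb : ℤ) : ℚ) = (d.Tot tb : ℚ) *
      ∑ M ∈ L.toFinset, (Nhat A (uL d.n lab) (fun w => xg (g w) (B' w)) M).det := by
    rw [List.sum_toFinset _ R.nodup, ← Fin.sum_univ_fun_getElem, mul_sum]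
    unfold Dat.Val
    rw [R.hK, Finset.sum_range]
    push_cast
    refine sum_congr rfl fun l _ => ?_
    rw [newtE_eq, Int.cast_mul, Int.cast_natCast, det_eq R hsep htb hB' lab l.2, hTot, ← Cl_mul R l.2]
    ring
  unfold Dat.Rne Rm
  rw [not_iff_not, sub_eq_zero]
  constructor
  · intro h
    rw [h] at hVal
    exact (mul_left_cancel₀ hTot0 (by rw [mul_one]; exact hVal)).trans rfl
  · intro h
    rw [← h, mul_one] at hVal
    exact_mod_cast hVal

end Pool.Agent.Lib.Wsm
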