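import Pool.Agent.Lib.Wsm.PTab
import Pool.Agent.Lib.Wsm.BrA

/-!
# Verification of a matching

MODULE Wsm.Chk: `chk_spec` and `poly_chk`.

`chk_spec`: the first two conditions give a function `M : Fin d.n → Fin d.n` with
`g2 d.n t m w = true ↔ M m = w`, the third one its injectivity (a permutation:
`Equiv.ofBijective`, `Finite.injective_iff_bijective`).  The fourth is `Stab` (take `w' = M m`,
`m' = M.symm w`), the fifth is `M ∉ L` (`R.hP`, `R.hK`).
`poly_chk`: closure properties of polynomial time, each conjunct separately.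
-/

set_option autoImplicit false

namespace Pool.Agent.Lib.Wsm

open Finset Equiv Pool.Agent.Lib.PolyTime Pool.Agent.Lib.Pa7c826 Pool.Agent.Lib.P8e91ed.PT

/-- the table `t` is a stable matching outside the list -/
def Chk (d : Dat) (t : List Bool) : Prop :=
  (∀ m ∈ range d.n, ∃ w ∈ range d.n, g2 d.n t m w = true) ∧
  (∀ m ∈ range d.n, ∀ w ∈ range d.n, ∀ w' ∈ range d.n,
    g2 d.n t m w = true → g2 d.n t m w' = true → w = w') ∧
  (∀ w ∈ range d.n, ∀ m ∈ range d.n, ∀ m' ∈ range d.n,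
    g2 d.n t m w = true → g2 d.n t m' w = true → m = m') ∧
  (∀ m ∈ range d.n, ∀ w ∈ range d.n, ∀ m' ∈ range d.n, ∀ w' ∈ range d.n,
    g2 d.n t m w' = true → g2 d.n t m' w = true →
      ¬ (g3 d.n d.tA m w w' = true ∧ g3 d.n d.tB w m m' = true)) ∧
  ∀ l ∈ range d.K, ∃ m ∈ range d.n, ∃ w ∈ range d.n, g2 d.n t m w ≠ g3 d.n d.tP l m w

theorem chk_spec {d : Dat} {A B : Pref d.n} {g : Fin d.n → Fin d.n → ℤ}
    {L : List (Perm (Fin d.n))} (R : Rep d A B g L) (t : List Bool) :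
    Chk d t ↔ ∃ M : Perm (Fin d.n), (∀ m w : Fin d.n, g2 d.n t m w = decide (M m = w)) ∧
      Stab A B M ∧ M ∉ L := by
  constructor
  · rintro ⟨c1, c2, c3, c4, c5⟩
    have h1 : ∀ m : Fin d.n, ∃ w : Fin d.n, g2 d.n t m w = true := by
      intro m
      obtain ⟨w, hw, h⟩ := c1 m (Finset.mem_range.2 m.2)
      exact ⟨⟨w, Finset.mem_range.1 hw⟩, h⟩
    choose M0 hM0 using h1
    have hinj : Function.Injective M0 := by
      intro m m' h
      have h2 := hM0 m'
      rw [← h] at h2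
      exact Fin.ext (c3 (M0 m) (Finset.mem_range.2 (M0 m).2) m (Finset.mem_range.2 m.2) m'
        (Finset.mem_range.2 m'.2) (hM0 m) h2)
    set M : Perm (Fin d.n) := Equiv.ofBijective M0 (Finite.injective_iff_bijective.1 hinj) with hM
    have hMt : ∀ m w : Fin d.n, g2 d.n t m w = decide (M m = w) := by
      intro m w
      rw [Bool.eq_iff_iff, decide_eq_true_eq]
      constructor
      · intro h
        exact Fin.ext (c2 m (Finset.mem_range.2 m.2) (M m) (Finset.mem_range.2 (M m).2) w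
          (Finset.mem_range.2 w.2) (hM0 m) h)
      · intro h
        rw [← h]
        exact hM0 m
    refine ⟨M, hMt, ?_, ?_⟩
    · rintro m w ⟨ha, hb⟩
      refine c4 m (Finset.mem_range.2 m.2) w (Finset.mem_range.2 w.2) (M.symm w)
        (Finset.mem_range.2 (M.symm w).2) (M m) (Finset.mem_range.2 (M m).2) ?_ ?_ ⟨?_, ?_⟩
      · rw [hMt]
        simp
      · rw [hMt]
        simp
      · rw [R.hA]
        exact ha
      · rw [R.hB]
        exact hb
    · intro hML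
      obtain ⟨l, hl, hlM⟩ := List.getElem_of_mem hML
      obtain ⟨m, hm, w, hw, hne⟩ := c5 l (Finset.mem_range.2 (by rw [R.hK]; exact hl))
      apply hne
      rw [Finset.mem_range] at hm hw
      have e1 := hMt ⟨m, hm⟩ ⟨w, hw⟩
      have e2 := R.hP l hl ⟨m, hm⟩ ⟨w, hw⟩
      simp only at e1 e2
      rw [e1, e2, hlM]
  · rintro ⟨M, hMt, hst, hML⟩
    have key : ∀ m w : ℕ, m < d.n → w < d.n → g2 d.n t m w = true →
        ∃ (m' w' : Fin d.n), (m' : ℕ) = m ∧ (w' : ℕ) = w ∧ M m' = w' := by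
      intro m w hm hw h
      refine ⟨⟨m, hm⟩, ⟨w, hw⟩, rfl, rfl, ?_⟩
      have e1 := hMt ⟨m, hm⟩ ⟨w, hw⟩
      simp only at e1
      rw [e1, decide_eq_true_eq] at h
      exact h
    refine ⟨?_, ?_, ?_, ?_, ?_⟩
    · intro m hm
      rw [Finset.mem_range] at hm
      refine ⟨M ⟨m, hm⟩, Finset.mem_range.2 (M ⟨m, hm⟩).2, ?_⟩
      have e1 := hMt ⟨m, hm⟩ (M ⟨m, hm⟩)
      simp only at e1
      rw [e1]
      simp
    · intro m hm w hw w' hw' h h'
      rw [Finset.mem_range] at hm hw hw'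
      obtain ⟨a, b, ha, hb, hab⟩ := key m w hm hw h
      obtain ⟨a', b', ha', hb', hab'⟩ := key m w' hm hw' h'
      have : a = a' := Fin.ext (ha.trans ha'.symm)
      subst this
      rw [← hb, ← hb', ← hab, ← hab']
    · intro w hw m hm m' hm' h h'
      rw [Finset.mem_range] at hm hw hm'
      obtain ⟨a, b, ha, hb, hab⟩ := key m w hm hw h
      obtain ⟨a', b', ha', hb', hab'⟩ := key m' w hm' hw h'
      have : b = b' := Fin.ext (hb.trans hb'.symm)
      subst this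
      have : a = a' := M.injective (hab.trans hab'.symm)
      rw [← ha, ← ha', this]
    · intro m hm w hw m' hm' w' hw' h h' hc
      rw [Finset.mem_range] at hm hw hm' hw'
      obtain ⟨a, b, ha, hb, hab⟩ := key m w' hm hw' h
      obtain ⟨a', b', ha', hb', hab'⟩ := key m' w hm' hw h'
      rw [← ha, ← hb, ← ha', ← hb', R.hA, R.hB] at hc
      refine hst a b' ?_
      rw [hab, show M.symm b' = a' by rw [← hab', Equiv.symm_apply_apply]]
      exact hc
    · intro l hl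
      rw [Finset.mem_range, R.hK] at hl
      by_contra hcon
      push Not at hcon
      apply hML
      have : M = L[l] := by
        apply Equiv.ext
        intro m
        have e1 := hcon m (Finset.mem_range.2 m.2) (M m) (Finset.mem_range.2 (M m).2)
        rw [hMt, R.hP l hl] at e1
        simp only [decide_true] at e1
        exact (of_decide_eq_true e1.symm).symm
      rw [this]
      exact List.getElem_mem hl

variable {α : Type*} {D : α → Prop} {ctx : List (α → List Bool)} {d : α → Dat}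

namespace ChkAux

theorem p1 {n : α → ℕ} {t : α → List Bool} (hn : PolyN D ctx n) (ht : PolyC D ctx t) :
    PolyP D ctx (fun a => ∀ m ∈ range (n a), ∃ w ∈ range (n a), g2 (n a) (t a) m w = true) := by
  refine PolyP.forall_range (P := fun a m => ∃ w ∈ range (n a), g2 (n a) (t a) m w = true) hn ?_
  refine PolyP.exists_range (n := fun p : α × ℕ => n p.1)
    (P := fun (p : α × ℕ) w => g2 (n p.1) (t p.1) p.2 w = true) (nU hn) ?_
  exact PolyP.ofB (poly_g2 (nU (nU hn)) (cU (cU ht)) (nU nL) nL)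

theorem p2 {n : α → ℕ} {t : α → List Bool} (hn : PolyN D ctx n) (ht : PolyC D ctx t) :
    PolyP D ctx (fun a => ∀ m ∈ range (n a), ∀ w ∈ range (n a), ∀ w' ∈ range (n a),
      g2 (n a) (t a) m w = true → g2 (n a) (t a) m w' = true → w = w') := by
  refine PolyP.forall_range (P := fun a m => ∀ w ∈ range (n a), ∀ w' ∈ range (n a),
      g2 (n a) (t a) m w = true → g2 (n a) (t a) m w' = true → w = w') hn ?_
  refine PolyP.forall_range (n := fun p : α × ℕ => n p.1)
    (P := fun (p : α × ℕ) w => ∀ w' ∈ range (n p.1),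
      g2 (n p.1) (t p.1) p.2 w = true → g2 (n p.1) (t p.1) p.2 w' = true → w = w') (nU hn) ?_
  refine PolyP.forall_range (n := fun p : (α × ℕ) × ℕ => n p.1.1)
    (P := fun (p : (α × ℕ) × ℕ) w' =>
      g2 (n p.1.1) (t p.1.1) p.1.2 p.2 = true → g2 (n p.1.1) (t p.1.1) p.1.2 w' = true →
        p.2 = w') (nU (nU hn)) ?_
  exact (PolyP.ofB (poly_g2 (nU (nU (nU hn))) (cU (cU (cU ht))) (nU (nU nL)) (nU nL))).imp
    ((PolyP.ofB (poly_g2 (nU (nU (nU hn))) (cU (cU (cU ht))) (nU (nU nL)) nL)).imp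
      (PolyP.eq (nU nL) nL))

theorem p3 {n : α → ℕ} {t : α → List Bool} (hn : PolyN D ctx n) (ht : PolyC D ctx t) :
    PolyP D ctx (fun a => ∀ w ∈ range (n a), ∀ m ∈ range (n a), ∀ m' ∈ range (n a),
      g2 (n a) (t a) m w = true → g2 (n a) (t a) m' w = true → m = m') := by
  refine PolyP.forall_range (P := fun a w => ∀ m ∈ range (n a), ∀ m' ∈ range (n a),
      g2 (n a) (t a) m w = true → g2 (n a) (t a) m' w = true → m = m') hn ?_
  refine PolyP.forall_range (n := fun p : α × ℕ => n p.1)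
    (P := fun (p : α × ℕ) m => ∀ m' ∈ range (n p.1),
      g2 (n p.1) (t p.1) m p.2 = true → g2 (n p.1) (t p.1) m' p.2 = true → m = m') (nU hn) ?_
  refine PolyP.forall_range (n := fun p : (α × ℕ) × ℕ => n p.1.1)
    (P := fun (p : (α × ℕ) × ℕ) m' =>
      g2 (n p.1.1) (t p.1.1) p.2 p.1.2 = true → g2 (n p.1.1) (t p.1.1) m' p.1.2 = true →
        p.2 = m') (nU (nU hn)) ?_
  exact (PolyP.ofB (poly_g2 (nU (nU (nU hn))) (cU (cU (cU ht))) (nU nL) (nU (nU nL)))).imp
    ((PolyP.ofB (poly_g2 (nU (nU (nU hn))) (cU (cU (cU ht))) nL (nU (nU nL)))).imp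
      (PolyP.eq (nU nL) nL))

theorem p4 {n : α → ℕ} {t tA tB : α → List Bool} (hn : PolyN D ctx n) (ht : PolyC D ctx t)
    (hA : PolyC D ctx tA) (hB : PolyC D ctx tB) :
    PolyP D ctx (fun a => ∀ m ∈ range (n a), ∀ w ∈ range (n a), ∀ m' ∈ range (n a),
      ∀ w' ∈ range (n a), g2 (n a) (t a) m w' = true → g2 (n a) (t a) m' w = true →
      ¬ (g3 (n a) (tA a) m w w' = true ∧ g3 (n a) (tB a) w m m' = true)) := by
  refine PolyP.forall_range (P := fun a m => ∀ w ∈ range (n a), ∀ m' ∈ range (n a),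
      ∀ w' ∈ range (n a), g2 (n a) (t a) m w' = true → g2 (n a) (t a) m' w = true →
      ¬ (g3 (n a) (tA a) m w w' = true ∧ g3 (n a) (tB a) w m m' = true)) hn ?_
  refine PolyP.forall_range (n := fun p : α × ℕ => n p.1)
    (P := fun (p : α × ℕ) w => ∀ m' ∈ range (n p.1),
      ∀ w' ∈ range (n p.1), g2 (n p.1) (t p.1) p.2 w' = true → g2 (n p.1) (t p.1) m' w = true →
      ¬ (g3 (n p.1) (tA p.1) p.2 w w' = true ∧ g3 (n p.1) (tB p.1) w p.2 m' = true))
    (nU hn) ?_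
  refine PolyP.forall_range (n := fun p : (α × ℕ) × ℕ => n p.1.1)
    (P := fun (p : (α × ℕ) × ℕ) m' =>
      ∀ w' ∈ range (n p.1.1), g2 (n p.1.1) (t p.1.1) p.1.2 w' = true →
      g2 (n p.1.1) (t p.1.1) m' p.2 = true →
      ¬ (g3 (n p.1.1) (tA p.1.1) p.1.2 p.2 w' = true ∧
        g3 (n p.1.1) (tB p.1.1) p.2 p.1.2 m' = true)) (nU (nU hn)) ?_
  refine PolyP.forall_range (n := fun p : ((α × ℕ) × ℕ) × ℕ => n p.1.1.1)
    (P := fun (p : ((α × ℕ) × ℕ) × ℕ) w' => g2 (n p.1.1.1) (t p.1.1.1) p.1.1.2 w' = true →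
      g2 (n p.1.1.1) (t p.1.1.1) p.2 p.1.2 = true →
      ¬ (g3 (n p.1.1.1) (tA p.1.1.1) p.1.1.2 p.1.2 w' = true ∧
        g3 (n p.1.1.1) (tB p.1.1.1) p.1.2 p.1.1.2 p.2 = true)) (nU (nU (nU hn))) ?_
  have N := nU (n := fun p : ((α × ℕ) × ℕ) × ℕ => n p.1.1.1)
    (nU (n := fun p : (α × ℕ) × ℕ => n p.1.1) (nU (n := fun p : α × ℕ => n p.1)
      (nU (n := n) hn)))
  have T := cU (n := fun p : ((α × ℕ) × ℕ) × ℕ => n p.1.1.1)
    (cU (n := fun p : (α × ℕ) × ℕ => n p.1.1) (cU (n := fun p : α × ℕ => n p.1)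
      (cU (n := n) ht)))
  have TA := cU (n := fun p : ((α × ℕ) × ℕ) × ℕ => n p.1.1.1)
    (cU (n := fun p : (α × ℕ) × ℕ => n p.1.1) (cU (n := fun p : α × ℕ => n p.1)
      (cU (n := n) hA)))
  have TB := cU (n := fun p : ((α × ℕ) × ℕ) × ℕ => n p.1.1.1)
    (cU (n := fun p : (α × ℕ) × ℕ => n p.1.1) (cU (n := fun p : α × ℕ => n p.1)
      (cU (n := n) hB)))
  have va := nU (n := fun p : ((α × ℕ) × ℕ) × ℕ => n p.1.1.1)
    (nU (n := fun p : (α × ℕ) × ℕ => n p.1.1) (nU (n := fun p : α × ℕ => n p.1)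
      (nL (D := D) (ctx := ctx) (n := n))))
  have vb := nU (n := fun p : ((α × ℕ) × ℕ) × ℕ => n p.1.1.1)
    (nU (n := fun p : (α × ℕ) × ℕ => n p.1.1) (nL (D := Dx D n) (ctx := cx ctx)
      (n := fun p : α × ℕ => n p.1)))
  have vc := nU (n := fun p : ((α × ℕ) × ℕ) × ℕ => n p.1.1.1)
    (nL (D := Dx (Dx D n) (fun p : α × ℕ => n p.1)) (ctx := cx (cx ctx))
      (n := fun p : (α × ℕ) × ℕ => n p.1.1))
  have vd := nL (D := Dx (Dx (Dx D n) (fun p : α × ℕ => n p.1))
      (fun p : (α × ℕ) × ℕ => n p.1.1)) (ctx := cx (cx (cx ctx)))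
      (n := fun p : ((α × ℕ) × ℕ) × ℕ => n p.1.1.1)
  exact (PolyP.ofB (poly_g2 N T va vd)).imp ((PolyP.ofB (poly_g2 N T vc vb)).imp
    ((PolyP.ofB (poly_g3 N TA va vb vd)).and (PolyP.ofB (poly_g3 N TB vb va vc))).not)

theorem p5 {n K : α → ℕ} {t tP : α → List Bool} (hn : PolyN D ctx n) (hK : PolyN D ctx K)
    (ht : PolyC D ctx t) (hP : PolyC D ctx tP) :
    PolyP D ctx (fun a => ∀ l ∈ range (K a), ∃ m ∈ range (n a), ∃ w ∈ range (n a),
      g2 (n a) (t a) m w ≠ g3 (n a) (tP a) l m w) := by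
  refine PolyP.forall_range (P := fun a l => ∃ m ∈ range (n a), ∃ w ∈ range (n a),
      g2 (n a) (t a) m w ≠ g3 (n a) (tP a) l m w) hK ?_
  refine PolyP.exists_range (n := fun p : α × ℕ => n p.1)
    (P := fun (p : α × ℕ) m => ∃ w ∈ range (n p.1),
      g2 (n p.1) (t p.1) m w ≠ g3 (n p.1) (tP p.1) p.2 m w) (nU hn) ?_
  refine PolyP.exists_range (n := fun p : (α × ℕ) × ℕ => n p.1.1)
    (P := fun (p : (α × ℕ) × ℕ) w =>
      g2 (n p.1.1) (t p.1.1) p.2 w ≠ g3 (n p.1.1) (tP p.1.1) p.1.2 p.2 w) (nU (nU hn)) ?_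
  exact (p_eqB (poly_g2 (nU (nU (nU hn))) (cU (cU (cU ht))) (nU nL) nL)
    (poly_g3 (nU (nU (nU hn))) (cU (cU (cU hP))) (nU (nU nL)) (nU nL) nL)).not

end ChkAux

theorem poly_chk (hd : PDat D ctx d) {t : α → List Bool} (ht : PolyC D ctx t) :
    PolyP D ctx (fun a => Chk (d a) (t a)) := by
  unfold Chk
  exact (ChkAux.p1 hd.n ht).and ((ChkAux.p2 hd.n ht).and ((ChkAux.p3 hd.n ht).and
    ((ChkAux.p4 hd.n ht hd.tA hd.tB).and (ChkAux.p5 hd.n hd.K ht hd.tP))))

end Pool.Agent.Lib.Wsm
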