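import Pool.Agent.Lib.Wsm.Ref

/-!
# The law of the bits the woman `w` prefers `m` to her partner

MODULE Wsm.Coin (1 h): prove `IndepX.total` and `coin_law`.  Auxiliary lemmas: namespace
`Pool.Agent.Lib.Wsm.CoinAux`.

`IndepX.total`: take `f = 1` in the definition of `IndepX` (for one `i : Fin n`).

`coin_law`: both sides are linear in `G` and `G = ∑ z₀, G z₀ * [· = z₀]`, so it is enough to treat
`G z = if z = z₀ then 1 else 0 = ∏ w, ∏ m, (if z w m = z₀ w m then 1 else 0)`.  The right side is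
`∏ w, ∏ m, xi x M w m (z₀ w m)`.  The left side is (exchange product and sum:
`Fintype.prod_sum`/`Finset.prod_univ_sum`, `∑ π : Fin n → Perm, ∏ w, F w (π w) = ∏ w, ∑ ρ, F w ρ`)
`∏ w, ∑ ρ, μ w ρ * ∏ m, [refW1 (B w) ρ m (M.symm w) = z₀ w m]`.  For a fixed `w` put
`i = M.symm w`; the factor `m = i` is `[false = z₀ w i]` (irreflexivity of `refW1_lin`), and the
factors `m ∈ univ.erase i` are treated by `IndepX` with `f m b = [b = z₀ w m]`.  Note that
`M m = w ↔ m = M.symm w`.
-/

namespace Pool.Agent.Lib.Wsm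

open Finset Equiv

variable {n : ℕ}

theorem IndepX.total {R : Fin n → Fin n → Bool} {μ : Perm (Fin n) → ℚ}
    {x : Fin n → Fin n → ℚ} (h : IndepX R μ x) (i : Fin n) : ∑ π, μ π = 1 := by
  have h1 := h i (fun _ _ => 1)
  simp only [prod_const_one, mul_one] at h1
  rw [h1]
  refine prod_eq_one fun j _ => ?_
  ring

/-- law of the bit `z w m` = `w` prefers `m` to her partner `M.symm w` -/
def xi (x : Fin n → Fin n → Fin n → ℚ) (M : Perm (Fin n)) (w m : Fin n) (b : Bool) : ℚ :=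
  if M m = w then (if b = true then 0 else 1) else
    (if b = true then x w m (M.symm w) else 1 - x w m (M.symm w))

namespace CoinAux

theorem ind_eq (z z₀ : Fin n → Fin n → Bool) :
    (if z = z₀ then (1 : ℚ) else 0) = ∏ w, ∏ m, (if z w m = z₀ w m then (1 : ℚ) else 0) := by
  by_cases h : z = z₀
  · subst h
    simp
  · rw [if_neg h]
    have h1 : ∃ w m, z w m ≠ z₀ w m := by
      by_contra hc
      push Not at hc
      exact h (funext fun w => funext fun m => hc w m)
    obtain ⟨w, m, hwm⟩ := h1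
    symm
    refine prod_eq_zero (mem_univ w) (prod_eq_zero (mem_univ m) ?_)
    rw [if_neg hwm]

theorem one_woman {B : Pref n} (hB : ∀ w, Wk (B w)) {μ : Fin n → Perm (Fin n) → ℚ}
    {x : Fin n → Fin n → Fin n → ℚ} (hI : ∀ w, IndepX (B w) (μ w) (x w)) (M : Perm (Fin n))
    (z₀ : Fin n → Fin n → Bool) (w : Fin n) :
    ∑ ρ : Perm (Fin n), μ w ρ *
        ∏ m, (if refW1 (B w) ρ m (M.symm w) = z₀ w m then (1 : ℚ) else 0) =
      ∏ m, xi x M w m (z₀ w m) := by
  set i := M.symm w with hi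
  have hMi : M i = w := by rw [hi]; simp
  have hlaw := hI w i (fun m b => if b = z₀ w m then (1 : ℚ) else 0)
  have hl : ∀ ρ : Perm (Fin n), μ w ρ *
        ∏ m, (if refW1 (B w) ρ m i = z₀ w m then (1 : ℚ) else 0) =
      (if z₀ w i = true then 0 else 1) * (μ w ρ *
        ∏ m ∈ univ.erase i, (if refW1 (B w) ρ m i = z₀ w m then (1 : ℚ) else 0)) := by
    intro ρ
    rw [← mul_prod_erase univ _ (mem_univ i)]
    have hirr : refW1 (B w) ρ i i = false := (refW1_lin (hB w) ρ).wk.irrefl i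
    rw [hirr]
    cases z₀ w i <;> simp
  rw [sum_congr rfl fun ρ _ => hl ρ, ← mul_sum, hlaw, ← mul_prod_erase univ _ (mem_univ i)]
  congr 1
  · unfold xi
    rw [if_pos hMi]
  · refine prod_congr rfl fun m hm => ?_
    have hm' : m ≠ i := (mem_erase.1 hm).1
    have hMm : M m ≠ w := by
      intro h
      apply hm'
      rw [hi, ← h]
      simp
    unfold xi
    rw [if_neg hMm]
    cases z₀ w m <;> simp [hi]

theorem one_bit {B : Pref n} (hB : ∀ w, Wk (B w)) {μ : Fin n → Perm (Fin n) → ℚ}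
    {x : Fin n → Fin n → Fin n → ℚ} (hI : ∀ w, IndepX (B w) (μ w) (x w)) (M : Perm (Fin n))
    (z₀ : Fin n → Fin n → Bool) :
    ∑ π : Fin n → Perm (Fin n), (∏ w, μ w (π w)) *
        (if (fun w m => refW1 (B w) (π w) m (M.symm w)) = z₀ then (1 : ℚ) else 0) =
      ∏ w, ∏ m, xi x M w m (z₀ w m) := by
  have h1 : ∀ π : Fin n → Perm (Fin n), (∏ w, μ w (π w)) *
        (if (fun w m => refW1 (B w) (π w) m (M.symm w)) = z₀ then (1 : ℚ) else 0) =
      ∏ w, (μ w (π w) * ∏ m, (if refW1 (B w) (π w) m (M.symm w) = z₀ w m then (1 : ℚ) else 0)) := by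
    intro π
    rw [ind_eq, ← prod_mul_distrib]
  rw [sum_congr rfl fun π _ => h1 π]
  rw [← prod_congr rfl fun w _ => one_woman hB hI M z₀ w]
  rw [Finset.prod_univ_sum, Fintype.piFinset_univ]

end CoinAux

open CoinAux

theorem coin_law {B : Pref n} (hB : ∀ w, Wk (B w)) {μ : Fin n → Perm (Fin n) → ℚ}
    {x : Fin n → Fin n → Fin n → ℚ} (hI : ∀ w, IndepX (B w) (μ w) (x w)) (M : Perm (Fin n))
    (G : (Fin n → Fin n → Bool) → ℚ) :
    ∑ π : Fin n → Perm (Fin n), (∏ w, μ w (π w)) *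
        G (fun w m => refW1 (B w) (π w) m (M.symm w)) =
      ∑ z : Fin n → Fin n → Bool, (∏ w, ∏ m, xi x M w m (z w m)) * G z := by
  have hG : ∀ z : Fin n → Fin n → Bool, G z = ∑ z₀, (if z = z₀ then (1 : ℚ) else 0) * G z₀ := by
    intro z
    simp
  have h1 : ∀ π : Fin n → Perm (Fin n), (∏ w, μ w (π w)) *
        G (fun w m => refW1 (B w) (π w) m (M.symm w)) =
      ∑ z₀, ((∏ w, μ w (π w)) *
        (if (fun w m => refW1 (B w) (π w) m (M.symm w)) = z₀ then (1 : ℚ) else 0)) * G z₀ := by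
    intro π
    rw [hG, mul_sum]
    refine sum_congr rfl fun z₀ _ => ?_
    ring
  rw [sum_congr rfl fun π _ => h1 π, sum_comm]
  refine sum_congr rfl fun z₀ _ => ?_
  rw [← sum_mul, one_bit hB hI M z₀]

end Pool.Agent.Lib.Wsm
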