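import Mathlib

/-!
# Weakly stable matchings: basic definitions

Men and women are both `Fin n`.  `A m w w'` : the man `m` strictly prefers the woman `w` to `w'`;
`B w m m'` : the woman `w` strictly prefers the man `m` to `m'`.  `Wk` : weak order (ties allowed),
`Lin` : linear order (no ties).  A matching is a permutation `M`, `M m` is the partner of the man `m`,
`M.symm w` the partner of the woman `w`.
-/

namespace Pool.Agent.Lib.Wsm

open Finset Equiv

variable {n : ℕ}

/-- preference lists of all persons of one side -/
abbrev Pref (n : ℕ) := Fin n → Fin n → Fin n → Bool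

/-- weak order: given by a rank (smaller is better) -/
def Wk (R : Fin n → Fin n → Bool) : Prop := ∃ r : Fin n → ℕ, ∀ a b, R a b = decide (r a < r b)

/-- linear order: given by an injective rank -/
def Lin (R : Fin n → Fin n → Bool) : Prop :=
  ∃ r : Fin n → ℕ, Function.Injective r ∧ ∀ a b, R a b = decide (r a < r b)

/-- `M` is (weakly) stable: no pair blocks it. -/
def Stab (A B : Pref n) (M : Perm (Fin n)) : Prop :=
  ∀ m w, ¬ (A m w (M m) = true ∧ B w m (M.symm w) = true)

/-! ### Deferred acceptance, women propose -/

/-- the current man of the woman `w`, if the men in `R w` have rejected her -/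
def Cur (B : Pref n) (R : Fin n → Fin n → Bool) (w m : Fin n) : Prop :=
  R w m = false ∧ ∀ m', B w m' m = true → R w m' = true

open Classical in
/-- one round of deferred acceptance; `R w m = true` : `m` has rejected `w` -/
noncomputable def stepR (A B : Pref n) (R : Fin n → Fin n → Bool) : Fin n → Fin n → Bool :=
  fun w m => R w m || decide (Cur B R w m ∧ ∃ w', Cur B R w' m ∧ A m w' w = true)

/-- the rejections after `t` rounds -/
noncomputable def rej (A B : Pref n) : ℕ → Fin n → Fin n → Bool
  | 0 => fun _ _ => false
  | t + 1 => stepR A B (rej A B t)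

/-! ### Random tie breaking -/

/-- men's side: labels in `{false, true}` (`false` first), then the index -/
def bef (A : Pref n) (m : Fin n) (w : Fin n) (b : Bool) (w' : Fin n) (b' : Bool) : Bool :=
  A m w w' || (!A m w' w && (decide (b < b') || (decide (b = b') && decide (w < w'))))

/-- the men's lists with ties broken by the labels `U` -/
def refM (A : Pref n) (U : Fin n → Fin n → Bool) : Pref n :=
  fun m w w' => bef A m w (U m w) w' (U m w')

/-- one woman's list, ties broken by the permutation `π` -/
def refW1 (R : Fin n → Fin n → Bool) (π : Perm (Fin n)) : Fin n → Fin n → Bool :=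
  fun a b => R a b || (!R b a && decide (π a < π b))

/-- the women's lists, ties broken by the permutations `π w` -/
def refW (B : Pref n) (π : Fin n → Perm (Fin n)) : Pref n := fun w => refW1 (B w) (π w)

/-- `j` moved to the front of its tie in the list of the woman `w₀` -/
def front (B : Pref n) (w₀ j : Fin n) : Pref n :=
  fun w a b => B w a b || (decide (w = w₀ ∧ a = j ∧ b ≠ j) && !B w b a)

/-- the measure `μ` on permutations makes the events `j` before `i` (`j ≠ i`) independent, with
probability `x j i`, for every fixed `i` -/
def IndepX (R : Fin n → Fin n → Bool) (μ : Perm (Fin n) → ℚ) (x : Fin n → Fin n → ℚ) : Prop :=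
  ∀ (i : Fin n) (f : Fin n → Bool → ℚ),
    ∑ π : Perm (Fin n), μ π * ∏ j ∈ univ.erase i, f j (refW1 R π j i) =
      ∏ j ∈ univ.erase i, (x j i * f j true + (1 - x j i) * f j false)

/-- probability that `w` comes before `w'` (whose label is `b'`) in the list of `m` -/
def yy (A : Pref n) (u : Fin n → Fin n → Bool → ℚ) (m w w' : Fin n) (b' : Bool) : ℚ :=
  ∑ b : Bool, if bef A m w b w' b' = true then u m w b else 0

/-- probability that no woman before his partner wants `m` -/
def DD (A : Pref n) (u : Fin n → Fin n → Bool → ℚ) (x : Fin n → Fin n → Fin n → ℚ)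
    (M : Perm (Fin n)) (m : Fin n) : ℚ :=
  ∑ a : Bool, u m (M m) a * ∏ w ∈ univ.erase (M m), (1 - x w m (M.symm w) * yy A u m w (M m) a)

/-- probability that, in addition, `w'` is the first woman after the partner of `m` who wants him -/
def QQ (A : Pref n) (u : Fin n → Fin n → Bool → ℚ) (x : Fin n → Fin n → Fin n → ℚ)
    (M : Perm (Fin n)) (m w' : Fin n) : ℚ :=
  ∑ a : Bool, ∑ b : Bool, if bef A m (M m) a w' b = true then
    u m (M m) a * u m w' b * x w' m (M.symm w') *
      ∏ w ∈ (univ.erase (M m)).erase w', (1 - x w m (M.symm w) * yy A u m w w' b) else 0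

/-- the matrix whose determinant is the probability that `M` is woman-optimal -/
def Nhat (A : Pref n) (u : Fin n → Fin n → Bool → ℚ) (x : Fin n → Fin n → Fin n → ℚ)
    (M : Perm (Fin n)) : Matrix (Fin n) (Fin n) ℚ :=
  fun m m' => if m = m' then DD A u x M m else - QQ A u x M m (M m')

/-! ### Moves -/

/-- arcs of the extended rotation digraph of `M` on the women -/
def Hx (A B : Pref n) (M : Perm (Fin n)) (w w' : Fin n) : Prop :=
  w ≠ w' ∧ B w (M.symm w') (M.symm w) = false ∧ A (M.symm w') w' w = false ∧
    ∀ m, m ≠ M.symm w → B w m (M.symm w) = false → B w m (M.symm w') = true → A m w (M m) = false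

/-- every woman `w` gets the partner of `σ w` -/
def act (M σ : Perm (Fin n)) : Perm (Fin n) := M.trans σ.symm

end Pool.Agent.Lib.Wsm
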