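import Pool.Agent.Lib.Wsm.Opt
import Pool.Agent.Lib.Wsm.Perm

/-!
# The determinant indicator of the woman-optimal matching

MODULE Wsm.Det (1.5 h): prove `det_NM`.  Auxiliary lemmas: namespace `Pool.Agent.Lib.Wsm.DetAux`.
Imports are black boxes.  All lists are strict here.  Write `w` wants `m` for
`B w m (M.symm w) = true`.

(a) Some man `m` is not `okm`: a woman `w` before `M m` wants `m`.  Then row `m` of `NM` is zero:
the diagonal entry is `0`, and `Nx m w'` would give `A m w' w` (as `w ≠ M m`, `w ≠ w'`), against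
`A m w (M m)`, `A m (M m) w'`.  So `det = 0`; and `M` is not stable, so `M ≠ opt A B`.
(b) All men are `okm`: `M` is stable.  For `m` there is at most one `w'` with `Nx m w'`; so the
off-diagonal part of row `m` is `- 1` at one place `f m = M.symm w'` at most.
 * If `M ≠ opt A B =: M₀`: put `S = {m | M m ≠ M₀ m}`.  For `m ∈ S` the woman `w = M₀ m` wants `m`
   (`opt_spec`, `M.symm w ≠ m = M₀.symm w`), by stability she is after `M m`; let `w'` be the first
   woman (in the list of `m`) after `M m` who wants `m`; then `Nx m w'` (using `okm`), and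
   `f m := M.symm w' ≠ m`, `f m ∈ S`: otherwise `M₀.symm w' = M.symm w'`, `w' ≠ w`, so
   `A m w' (M₀ m)` and `B w' m (M₀.symm w')`, i.e. `(m, w')` blocks `M₀`.  By `exists_cycle` there is
   a cycle `σ` on the men with `σ m = m` or `Nx m (M (σ m))`.  For `C = {m | σ m ≠ m}` (not empty)
   the sum of the rows `m ∈ C` of `NM` is `∑ (e_m - e_{σ m}) = 0`
   (row `m` is `e_m - e_{σ m}` for `m ∈ C`): so `vecMul` of the indicator of `C` is zero and
   `det = 0` (`Matrix.exists_vecMul_eq_zero_iff`).
 * If `M = opt A B`: every term of the Leibniz formula (`Matrix.det_apply'`: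
   `∑ σ, sign σ * ∏ i, NM (σ i) i`) with `σ ≠ 1` vanishes, and the term `σ = 1` is `1`.  Otherwise
   `Nx (σ i) (M i)` for all `i` with `σ i ≠ i`.  Define `M'` by `M' (σ i) = M i`, i.e.
   `M' = σ.symm.trans M`.  Then `M'` is stable: let `(m, w)` block `M'`; every woman gets in `M'` a
   man at least as good as in `M`, so `w` wants `m` (in `M`).  If `M' m = M m` this contradicts the
   stability of `M`.  Otherwise `Nx m (M' m)`, and `A m w (M' m)`; `w ≠ M m` (she wants `m`),
   `w ≠ M' m`, so `A m (M' m) w`, contradiction.  And for `i` with `σ i ≠ i` the woman `M i` strictly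
   prefers `M'.symm (M i) = σ i` to `M.symm (M i) = i`, against the optimality of `M`.
-/

namespace Pool.Agent.Lib.Wsm

open Equiv

variable {n : ℕ}

/-- no woman before his partner wants `m` -/
def okm (A B : Pref n) (M : Perm (Fin n)) (m : Fin n) : Prop :=
  ∀ w, A m w (M m) = true → B w m (M.symm w) = false

/-- `w'` is the first woman after his partner who wants `m` -/
def Nx (A B : Pref n) (M : Perm (Fin n)) (m w' : Fin n) : Prop :=
  A m (M m) w' = true ∧ B w' m (M.symm w') = true ∧
    ∀ w, w ≠ M m → w ≠ w' → B w m (M.symm w) = true → A m w' w = true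

open Classical in
/-- the matrix -/
noncomputable def NM (A B : Pref n) (M : Perm (Fin n)) : Matrix (Fin n) (Fin n) ℚ :=
  fun m m' => if m = m' then (if okm A B M m then 1 else 0) else
    - (if Nx A B M m (M m') then 1 else 0)

namespace DetAux

theorem irrefl {R : Fin n → Fin n → Bool} (h : Lin R) {a : Fin n} (ha : R a a = true) : False := by
  obtain ⟨r, -, hr⟩ := h
  rw [hr] at ha
  simp at ha

theorem asymm {R : Fin n → Fin n → Bool} (h : Lin R) {a b : Fin n} (h1 : R a b = true)
    (h2 : R b a = true) : False := by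
  obtain ⟨r, -, hr⟩ := h
  rw [hr] at h1 h2
  simp only [decide_eq_true_eq] at h1 h2
  omega

theorem trans {R : Fin n → Fin n → Bool} (h : Lin R) {a b c : Fin n} (h1 : R a b = true)
    (h2 : R b c = true) : R a c = true := by
  obtain ⟨r, -, hr⟩ := h
  rw [hr] at h1 h2 ⊢
  simp only [decide_eq_true_eq] at h1 h2 ⊢
  omega

theorem total {R : Fin n → Fin n → Bool} (h : Lin R) {a b : Fin n} (hne : a ≠ b)
    (h1 : ¬ R a b = true) : R b a = true := by
  obtain ⟨r, hinj, hr⟩ := h
  rw [hr] at h1 ⊢
  simp only [decide_eq_true_eq] at h1 ⊢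
  have h2 : r a ≠ r b := fun h => hne (hinj h)
  omega

theorem exists_min {R : Fin n → Fin n → Bool} (h : Lin R) (P : Fin n → Prop)
    (hP : ∃ w, P w) : ∃ w', P w' ∧ ∀ w, P w → w ≠ w' → R w' w = true := by
  classical
  obtain ⟨r, hinj, hr⟩ := h
  obtain ⟨w0, hw0⟩ := hP
  obtain ⟨w', hw', hmin⟩ := Finset.exists_min_image (Finset.univ.filter P) r
    ⟨w0, Finset.mem_filter.2 ⟨Finset.mem_univ _, hw0⟩⟩
  rw [Finset.mem_filter] at hw'
  refine ⟨w', hw'.2, ?_⟩
  intro w hw hne
  have h1 := hmin w (Finset.mem_filter.2 ⟨Finset.mem_univ _, hw⟩)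
  have h2 : r w ≠ r w' := fun h => hne (hinj h)
  rw [hr]
  simp only [decide_eq_true_eq]
  omega

theorem nx_unique {A B : Pref n} (hA : ∀ m, Lin (A m)) {M : Perm (Fin n)} {m w w' : Fin n}
    (h : Nx A B M m w) (h' : Nx A B M m w') : w = w' := by
  by_contra hne
  have h1 : w ≠ M m := fun h2 => irrefl (hA m) (a := M m) (by simpa [h2] using h.1)
  have h1' : w' ≠ M m := fun h2 => irrefl (hA m) (a := M m) (by simpa [h2] using h'.1)
  exact asymm (hA m) (h.2.2 w' h1' (Ne.symm hne) h'.2.1) (h'.2.2 w h1 hne h.2.1)

theorem nx_ne {A B : Pref n} (hA : ∀ m, Lin (A m)) {M : Perm (Fin n)} {m : Fin n}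
    (h : Nx A B M m (M m)) : False := irrefl (hA m) h.1

/-- some man is not `okm` -/
theorem det_bad {A B : Pref n} (hA : ∀ m, Lin (A m)) (M : Perm (Fin n)) (m : Fin n)
    (hm : ¬ okm A B M m) : (NM A B M).det = 0 := by
  refine Matrix.det_eq_zero_of_row_eq_zero m (fun m' => ?_)
  unfold NM
  by_cases h : m = m'
  · rw [if_pos h, if_neg hm]
  · rw [if_neg h, neg_eq_zero, if_neg]
    intro hN
    apply hm
    intro w hw
    by_contra hB
    have hB' : B w m (M.symm w) = true := by simpa using hB
    have h1 : w ≠ M m := fun h2 => irrefl (hA m) (a := M m) (by simpa [h2] using hw)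
    have h2 : A m w (M m') = true := trans (hA m) hw hN.1
    have h3 : w ≠ M m' := fun h4 => irrefl (hA m) (a := M m') (by simpa [h4] using h2)
    exact asymm (hA m) h2 (hN.2.2 w h1 h3 hB')

/-- `M` is not the optimal matching -/
theorem det_not_opt {A B : Pref n} (hA : ∀ m, Lin (A m)) (hB : ∀ w, Lin (B w))
    (M : Perm (Fin n)) (hok : ∀ m, okm A B M m) (hne : M ≠ opt A B) : (NM A B M).det = 0 := by
  classical
  have hst : Stab A B M := by
    rintro m w ⟨h1, h2⟩
    rw [hok m w h1] at h2
    exact absurd h2 (by simp)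
  obtain ⟨h01, h02, -⟩ := opt_spec hA hB
  set M₀ := opt A B with hM₀
  set S : Set (Fin n) := {m | M m ≠ M₀ m} with hS
  have hSne : S.Nonempty := by
    by_contra h
    rw [Set.not_nonempty_iff_eq_empty] at h
    apply hne
    ext m
    have h1 : m ∉ S := by rw [h]; exact Set.notMem_empty _
    have h2 : M m = M₀ m := by
      by_contra h3
      exact h1 h3
    rw [h2]
  -- the pointer
  have hpt : ∀ m ∈ S, ∃ w', Nx A B M m w' ∧ M.symm w' ∈ S ∧ M.symm w' ≠ m := by
    intro m hm
    have hm' : M m ≠ M₀ m := hm
    have hw1 : B (M₀ m) m (M.symm (M₀ m)) = true := by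
      rcases h02 M hst (M₀ m) with h | h
      · exfalso
        rw [Equiv.symm_apply_apply] at h
        apply hm'
        rw [← h, Equiv.apply_symm_apply, h]
      · rwa [Equiv.symm_apply_apply] at h
    have hlt : ∀ w, w ≠ M m → B w m (M.symm w) = true → A m (M m) w = true := by
      intro w hw hBw
      refine total (hA m) hw (fun h => ?_)
      rw [hok m w h] at hBw
      exact absurd hBw (by simp)
    obtain ⟨w', hw', hmin⟩ := exists_min (hA m)
      (fun w => A m (M m) w = true ∧ B w m (M.symm w) = true)
      ⟨M₀ m, hlt _ (Ne.symm hm') hw1, hw1⟩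
    have hnx : Nx A B M m w' :=
      ⟨hw'.1, hw'.2, fun w h1 h2 h3 => hmin w ⟨hlt w h1 h3, h3⟩ h2⟩
    have hne' : M.symm w' ≠ m := by
      intro h
      have h2 : w' = M m := by rw [← h, Equiv.apply_symm_apply]
      rw [h2] at hnx
      exact nx_ne hA hnx
    refine ⟨w', hnx, ?_, hne'⟩
    intro hcon
    rw [Equiv.apply_symm_apply] at hcon
    have h3 : M₀.symm w' = M.symm w' := by
      rw [Equiv.symm_apply_eq]
      exact hcon
    have h4 : M₀ m ≠ w' := by
      intro h
      apply hne'
      rw [← h3, ← h, Equiv.symm_apply_apply]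
    have h5 := hmin (M₀ m) ⟨hlt _ (Ne.symm hm') hw1, hw1⟩ h4
    refine h01 m w' ⟨h5, ?_⟩
    rw [h3]
    exact hw'.2
  choose! g hg using hpt
  obtain ⟨σ, hσ, hσ2⟩ := exists_cycle S hSne (fun m => M.symm (g m))
    (fun m hm => (hg m hm).2.1) (fun m hm => (hg m hm).2.2)
  have hrow : ∀ m, σ m ≠ m → ∀ m', NM A B M m m' = (if m = m' then 1 else 0) -
      (if σ m = m' then 1 else 0) := by
    intro m hm m'
    rcases hσ2 m with h | ⟨hmS, h⟩
    · exact absurd h hm
    · have h1 := (hg m hmS).1
      unfold NM
      by_cases hmm : m = m'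
      · rw [if_pos hmm, if_pos (hok m), if_pos hmm, if_neg (by rw [← hmm]; exact hm), sub_zero]
      · rw [if_neg hmm, if_neg hmm, zero_sub]
        congr 1
        by_cases h2 : σ m = m'
        · rw [if_pos h2, if_pos]
          rw [← h2, h]
          show Nx A B M m (M (M.symm (g m)))
          rw [Equiv.apply_symm_apply]
          exact h1
        · rw [if_neg h2, if_neg]
          intro h3
          apply h2
          have h4 := nx_unique hA h1 h3
          rw [h]
          show M.symm (g m) = m'
          rw [h4, Equiv.symm_apply_apply]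
  rw [← Matrix.exists_vecMul_eq_zero_iff]
  refine ⟨fun m => if σ m ≠ m then 1 else 0, ?_, ?_⟩
  · intro h
    apply hσ.ne_one
    ext m
    have h1 := congrFun h m
    simp only [Pi.zero_apply, ite_eq_right_iff, one_ne_zero, imp_false, not_not] at h1
    rw [h1, Equiv.Perm.one_apply]
  · funext m'
    rw [Matrix.vecMul, dotProduct, Pi.zero_apply]
    have h1 : ∀ m, (if σ m ≠ m then (1 : ℚ) else 0) * NM A B M m m' =
        (if m = m' then (if σ m ≠ m then 1 else 0) else 0) -
          (if m = σ.symm m' then (if σ m ≠ m then 1 else 0) else 0) := by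
      intro m
      by_cases hm : σ m ≠ m
      · rw [if_pos hm, one_mul, hrow m hm]
        congr 1
        by_cases h2 : σ m = m'
        · rw [if_pos h2, if_pos]
          rw [← h2, Equiv.symm_apply_apply]
        · rw [if_neg h2, if_neg]
          intro h3
          apply h2
          rw [h3, Equiv.apply_symm_apply]
      · rw [if_neg hm]
        simp
    rw [Finset.sum_congr rfl (fun m _ => h1 m), Finset.sum_sub_distrib, Finset.sum_ite_eq',
      Finset.sum_ite_eq', if_pos (Finset.mem_univ _), if_pos (Finset.mem_univ _),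
      Equiv.apply_symm_apply]
    by_cases h2 : σ m' = m'
    · have h3 : m' = σ.symm m' := by
        rw [Equiv.eq_symm_apply]
        exact h2
      rw [if_neg (not_not.2 h2), if_neg (not_not.2 h3), sub_zero]
    · have h3 : m' ≠ σ.symm m' := by
        intro h
        apply h2
        rw [Equiv.eq_symm_apply] at h
        exact h
      rw [if_pos h2, if_pos h3, sub_self]

/-- the optimal matching -/
theorem det_opt {A B : Pref n} (hA : ∀ m, Lin (A m)) (hB : ∀ w, Lin (B w)) :
    (NM A B (opt A B)).det = 1 := by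
  classical
  obtain ⟨hst, h02, -⟩ := opt_spec hA hB
  set M := opt A B with hM
  have hok : ∀ m, okm A B M m := by
    intro m w hw
    by_contra h
    exact hst m w ⟨hw, by simpa using h⟩
  rw [Matrix.det_apply', Finset.sum_eq_single 1]
  · have h1 : ∀ i, NM A B M ((1 : Perm (Fin n)) i) i = 1 := by
      intro i
      unfold NM
      rw [Equiv.Perm.one_apply, if_pos rfl, if_pos (hok _)]
    rw [Finset.prod_congr rfl (fun i _ => h1 i), Finset.prod_const_one]
    simp
  · intro σ _ hσ
    by_contra hne
    have hprod : ∏ i, NM A B M (σ i) i ≠ 0 := right_ne_zero_of_mul hne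
    rw [Finset.prod_ne_zero_iff] at hprod
    have hnx : ∀ i, σ i ≠ i → Nx A B M (σ i) (M i) := by
      intro i hi
      have h1 := hprod i (Finset.mem_univ _)
      unfold NM at h1
      rw [if_neg hi] at h1
      by_contra h2
      rw [if_neg h2] at h1
      simp at h1
    set M' : Perm (Fin n) := σ.symm.trans M with hM'
    have hM'1 : ∀ m, M' m = M (σ.symm m) := fun m => rfl
    have hM'2 : ∀ w, M'.symm w = σ (M.symm w) := fun w => rfl
    have hst' : Stab A B M' := by
      rintro m w ⟨h1, h2⟩
      have h3 : B w m (M.symm w) = true := by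
        rw [hM'2] at h2
        by_cases h4 : σ (M.symm w) = M.symm w
        · rwa [h4] at h2
        · have h5 := (hnx _ h4).2.1
          rw [Equiv.apply_symm_apply] at h5
          exact trans (hB w) h2 h5
      by_cases h4 : M' m = M m
      · rw [h4] at h1
        exact hst m w ⟨h1, h3⟩
      · have h5 : σ (σ.symm m) ≠ σ.symm m := by
          intro h
          apply h4
          rw [hM'1, ← h, Equiv.apply_symm_apply]
        have h6 := hnx _ h5
        rw [Equiv.apply_symm_apply, ← hM'1] at h6
        have h7 : w ≠ M m := by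
          intro h
          rw [h, Equiv.symm_apply_apply] at h3
          exact irrefl (hB _) h3
        have h8 : w ≠ M' m := by
          intro h
          rw [h] at h1
          exact irrefl (hA m) h1
        exact asymm (hA m) h1 (h6.2.2 w h7 h8 h3)
    apply hσ
    ext i
    rw [Equiv.Perm.one_apply]
    by_contra hi
    have hi' : σ i ≠ i := fun h => hi (by rw [h])
    have h1 := (hnx i hi').2.1
    rw [Equiv.symm_apply_apply] at h1
    rcases h02 M' hst' (M i) with h | h
    · rw [hM'2, Equiv.symm_apply_apply] at h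
      exact hi' h
    · rw [hM'2, Equiv.symm_apply_apply] at h
      exact asymm (hB _) h h1
  · intro h
    exact absurd (Finset.mem_univ _) h

end DetAux

theorem det_NM {A B : Pref n} (hA : ∀ m, Lin (A m)) (hB : ∀ w, Lin (B w))
    (M : Perm (Fin n)) : (NM A B M).det = if M = opt A B then 1 else 0 := by
  by_cases hM : M = opt A B
  · rw [if_pos hM, hM]
    exact DetAux.det_opt hA hB
  · rw [if_neg hM]
    by_cases hok : ∀ m, okm A B M m
    · exact DetAux.det_not_opt hA hB M hok hM
    · push Not at hok
      obtain ⟨m, hm⟩ := hok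
      exact DetAux.det_bad hA M m hm

end Pool.Agent.Lib.Wsm
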