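import Pool.Agent.Lib.Wsm.Det
import Pool.Agent.Lib.Wsm.Coin

/-!
# Expectation of one entry of the matrix

MODULE Wsm.Ent (1.2 h): prove `NM_eq_ent` and `ent_exp`.  Auxiliary lemmas: namespace
`Pool.Agent.Lib.Wsm.EntAux`.

`NM_eq_ent`: unfold `okm`, `Nx`, `refM`, `refW`; in `okm` the woman `w = M m` plays no role
(`bef_self`), the condition is: for all `w`, `bef A m w (V w) (M m) (V (M m)) = true → z w = false`.

`ent_exp`: the labels `V w` and the bits `z w` are independent.
Diagonal: the entry is the product over `w` of
`1 - [bef A m w (V w) (M m) (V (M m))] * [z w]` (the factor `w = M m` is `1` by `bef_self`).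
Sum first over `V (M m) = a`, then over the other `V w` and the `z w` independently
(`Finset.prod_univ_sum` backwards): the factor of `w ≠ M m` is
`∑ c, u m w c * (∑ b, xi x M w m b * (1 - [bef A m w c (M m) a] * [b])) = 1 - x w m (M.symm w) * yy A u m w (M m) a`
(use `hu`; `∑ b, xi x M w m b = 1`).
Off-diagonal, `w' = M m' ≠ M m`: the entry is minus the product of `[bef A m (M m) (V (M m)) w' (V w')]`,
`[z w']` and, over `w ≠ M m, w'`, of `1 - [z w] * [bef A m w (V w) w' (V w')]`
(`bef A m w' b w c = !bef A m w c w' b` by `bef_not`).  Sum first over `V (M m) = a`, `V w' = b`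
(giving `u m (M m) a * u m w' b`), then over `z w'` (giving `x w' m (M.symm w')`; `M m ≠ w'`), `z (M m)`
(giving `1`), and the other coordinates as before.

A convenient way: prove first a general lemma
`∑ V : Fin n → Bool, (∏ w, u w (V w)) * F V = ∑ a, u w₁ a * ...` by writing
`V ↦ (V w₁, rest)`; or expand both sides with `Fintype.piFinset`/`Finset.prod_univ_sum` after
inserting `∑ a, [V (M m) = a]` and `∑ b, [V w' = b]`, so that for fixed `a, b` the summand is a
product over `w` of a function of `(V w, z w)`.
-/

namespace Pool.Agent.Lib.Wsm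

open Finset Equiv

variable {n : ℕ}

namespace EntAux

theorem sum_prod_fun (f : Fin n → Bool → ℚ) :
    ∑ z : Fin n → Bool, ∏ w, f w (z w) = ∏ w, ∑ c : Bool, f w c := by
  rw [Finset.prod_univ_sum, Fintype.piFinset_univ]

theorem sum_sum_prod (F : Fin n → Bool → Bool → ℚ) :
    ∑ V : Fin n → Bool, ∑ z : Fin n → Bool, ∏ w, F w (V w) (z w) =
      ∏ w, ∑ v : Bool, ∑ c : Bool, F w v c := by
  rw [← sum_prod_fun (fun w v => ∑ c : Bool, F w v c)]
  exact Finset.sum_congr rfl fun V _ => sum_prod_fun (fun w c => F w (V w) c)

theorem swap3 {α β γ : Type} [Fintype α] [Fintype β] [Fintype γ] (f : α → β → γ → ℚ) :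
    ∑ a, ∑ b, ∑ c, f a b c = ∑ c, ∑ a, ∑ b, f a b c := by
  calc ∑ a, ∑ b, ∑ c, f a b c = ∑ a, ∑ c, ∑ b, f a b c :=
        Finset.sum_congr rfl fun a _ => Finset.sum_comm
    _ = ∑ c, ∑ a, ∑ b, f a b c := Finset.sum_comm

end EntAux

open EntAux

open Classical in
/-- the entry `(m, m')` as a function of the labels `V w` of `m` and the bits `z w` -/
noncomputable def ent (A : Pref n) (M : Perm (Fin n)) (m m' : Fin n) (V z : Fin n → Bool) : ℚ :=
  if m = m' then
    (if ∀ w, bef A m w (V w) (M m) (V (M m)) = true → z w = false then 1 else 0) else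
    - (if bef A m (M m) (V (M m)) (M m') (V (M m')) = true ∧ z (M m') = true ∧
        ∀ w, w ≠ M m → w ≠ M m' → z w = true →
          bef A m (M m') (V (M m')) w (V w) = true then 1 else 0)

theorem NM_eq_ent (A B : Pref n) (U : Fin n → Fin n → Bool) (π : Fin n → Perm (Fin n))
    (M : Perm (Fin n)) (m m' : Fin n) :
    NM (refM A U) (refW B π) M m m' =
      ent A M m m' (U m) (fun w => refW1 (B w) (π w) m (M.symm w)) := by
  classical
  unfold NM ent
  by_cases h : m = m'
  · rw [if_pos h, if_pos h]
    exact if_congr Iff.rfl rfl rfl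
  · rw [if_neg h, if_neg h]
    congr 1
    exact if_congr Iff.rfl rfl rfl

theorem ent_exp {A : Pref n} (hA : ∀ m, Wk (A m)) {u : Fin n → Fin n → Bool → ℚ}
    (hu : ∀ m w, u m w false + u m w true = 1) (x : Fin n → Fin n → Fin n → ℚ)
    (M : Perm (Fin n)) (m m' : Fin n) :
    ∑ V : Fin n → Bool, ∑ z : Fin n → Bool,
        (∏ w, u m w (V w)) * (∏ w, xi x M w m (z w)) * ent A M m m' V z =
      Nhat A u x M m m' := by
  classical
  by_cases h : m = m'
  · subst h
    unfold Nhat
    rw [if_pos rfl]
    have key : ∀ V z : Fin n → Bool,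
        (∏ w, u m w (V w)) * (∏ w, xi x M w m (z w)) * ent A M m m V z =
        ∑ a : Bool, ∏ w, (u m w (V w) * xi x M w m (z w) *
          (if (w = M m → V w = a) ∧ (bef A m w (V w) (M m) a = true → z w = false)
            then 1 else 0)) := by
      intro V z
      have h1 : ∀ a : Bool, ∏ w, (u m w (V w) * xi x M w m (z w) *
          (if (w = M m → V w = a) ∧ (bef A m w (V w) (M m) a = true → z w = false)
            then 1 else 0)) = (∏ w, u m w (V w)) * (∏ w, xi x M w m (z w)) *
          (if ∀ w, (w = M m → V w = a) ∧ (bef A m w (V w) (M m) a = true → z w = false)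
            then 1 else 0) := by
        intro a
        rw [Finset.prod_mul_distrib, Finset.prod_mul_distrib, Finset.prod_boole]
        simp only [Finset.mem_univ, forall_true_left]
      simp only [h1]
      rw [← Finset.mul_sum]
      congr 1
      rw [Finset.sum_eq_single (V (M m))]
      · unfold ent
        rw [if_pos rfl]
        refine if_congr ⟨fun hh w => ⟨fun hw => by rw [hw], hh w⟩, fun hh w => (hh w).2⟩ rfl rfl
      · intro a _ ha
        exact if_neg fun hh => ha ((hh (M m)).1 rfl).symm
      · intro hh
        exact absurd (Finset.mem_univ _) hh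
    simp only [key]
    rw [swap3]
    unfold DD
    refine Finset.sum_congr rfl fun a _ => ?_
    rw [sum_sum_prod (fun w v c => u m w v * xi x M w m c *
      (if (w = M m → v = a) ∧ (bef A m w v (M m) a = true → c = false) then 1 else 0))]
    rw [← Finset.mul_prod_erase univ _ (Finset.mem_univ (M m))]
    congr 1
    · simp only [Fintype.sum_bool, xi]
      cases a <;> simp
    · refine Finset.prod_congr rfl fun w hw => ?_
      have hw' : w ≠ M m := (Finset.mem_erase.1 hw).1
      have hw2 : M m ≠ w := hw'.symm
      have h3 := hu m w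
      simp only [Fintype.sum_bool, xi, yy, hw', hw2, if_false, false_implies, true_and]
      have h4 : u m w false = 1 - u m w true := by linarith
      rw [h4]
      cases bef A m w true (M m) a <;> cases bef A m w false (M m) a <;> simp <;> ring
  · have hne : M m' ≠ M m := fun hh => h (M.injective hh).symm
    unfold Nhat
    rw [if_neg h]
    have key : ∀ V z : Fin n → Bool,
        (∏ w, u m w (V w)) * (∏ w, xi x M w m (z w)) * ent A M m m' V z =
        ∑ p : Bool × Bool, - ((if bef A m (M m) p.1 (M m') p.2 = true then 1 else 0) *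
          ∏ w, (u m w (V w) * xi x M w m (z w) *
          (if (w = M m → V w = p.1) ∧ (w = M m' → V w = p.2 ∧ z w = true) ∧
            (w ≠ M m → w ≠ M m' → z w = true → bef A m (M m') p.2 w (V w) = true)
            then 1 else 0))) := by
      intro V z
      have h1 : ∀ p : Bool × Bool, ∏ w, (u m w (V w) * xi x M w m (z w) *
          (if (w = M m → V w = p.1) ∧ (w = M m' → V w = p.2 ∧ z w = true) ∧
            (w ≠ M m → w ≠ M m' → z w = true → bef A m (M m') p.2 w (V w) = true)
            then 1 else 0)) = (∏ w, u m w (V w)) * (∏ w, xi x M w m (z w)) *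
          (if ∀ w, (w = M m → V w = p.1) ∧ (w = M m' → V w = p.2 ∧ z w = true) ∧
            (w ≠ M m → w ≠ M m' → z w = true → bef A m (M m') p.2 w (V w) = true)
            then 1 else 0) := by
        intro p
        rw [Finset.prod_mul_distrib, Finset.prod_mul_distrib, Finset.prod_boole]
        simp only [Finset.mem_univ, forall_true_left]
      simp only [h1]
      rw [Finset.sum_eq_single (V (M m), V (M m'))]
      · unfold ent
        rw [if_neg h]
        have h2 : (∀ w, (w = M m → V w = V (M m)) ∧ (w = M m' → V w = V (M m') ∧ z w = true) ∧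
            (w ≠ M m → w ≠ M m' → z w = true → bef A m (M m') (V (M m')) w (V w) = true)) ↔
            z (M m') = true ∧ ∀ w, w ≠ M m → w ≠ M m' → z w = true →
              bef A m (M m') (V (M m')) w (V w) = true := by
          constructor
          · exact fun hh => ⟨((hh (M m')).2.1 rfl).2, fun w => (hh w).2.2⟩
          · rintro ⟨h3, h4⟩ w
            refine ⟨fun hw => by rw [hw], fun hw => ?_, h4 w⟩
            subst hw
            exact ⟨rfl, h3⟩
        simp only [h2]
        by_cases h5 : bef A m (M m) (V (M m)) (M m') (V (M m')) = true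
        · simp only [h5, true_and, if_true, one_mul, mul_neg]
        · rw [if_neg (fun hh => h5 hh.1), if_neg h5, zero_mul, mul_neg, mul_zero]
      · intro p _ hp
        have h9 : ¬ ∀ w, (w = M m → V w = p.1) ∧ (w = M m' → V w = p.2 ∧ z w = true) ∧
            (w ≠ M m → w ≠ M m' → z w = true → bef A m (M m') p.2 w (V w) = true) := by
          intro hh
          exact hp (Prod.ext ((hh (M m)).1 rfl).symm ((hh (M m')).2.1 rfl).1.symm)
        rw [if_neg h9, mul_zero, mul_zero, neg_zero]
      · intro hh
        exact absurd (Finset.mem_univ _) hh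
    simp only [key]
    rw [swap3]
    unfold QQ
    rw [← Fintype.sum_prod_type' (fun a b => if bef A m (M m) a (M m') b = true then
      u m (M m) a * u m (M m') b * x (M m') m (M.symm (M m')) *
        ∏ w ∈ (univ.erase (M m)).erase (M m'), (1 - x w m (M.symm w) * yy A u m w (M m') b)
      else 0), ← Finset.sum_neg_distrib]
    refine Finset.sum_congr rfl fun p _ => ?_
    obtain ⟨a, b⟩ := p
    simp only [Finset.sum_neg_distrib, ← Finset.mul_sum]
    congr 1
    by_cases h6 : bef A m (M m) a (M m') b = true
    · rw [if_pos h6, if_pos h6, one_mul]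
      rw [sum_sum_prod (fun w v c => u m w v * xi x M w m c *
          (if (w = M m → v = a) ∧ (w = M m' → v = b ∧ c = true) ∧
            (w ≠ M m → w ≠ M m' → c = true → bef A m (M m') b w v = true)
            then 1 else 0))]
      rw [← Finset.mul_prod_erase univ _ (Finset.mem_univ (M m)),
        ← Finset.mul_prod_erase (univ.erase (M m)) _
          (Finset.mem_erase.2 ⟨hne, Finset.mem_univ (M m')⟩), ← mul_assoc]
      congr 1
      · rw [mul_assoc (u m (M m) a)]
        congr 1
        · have h7 : M m ≠ M m' := hne.symm
          simp only [Fintype.sum_bool, xi, h7, if_true, false_implies, true_and, true_implies,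
            ne_eq, not_true_eq_false]
          cases a <;> simp
        · have h7 : M m ≠ M m' := hne.symm
          simp only [Fintype.sum_bool, xi, h7, hne, if_false, false_implies, true_and, true_implies,
            ne_eq, not_true_eq_false]
          cases b <;> simp
      · refine Finset.prod_congr rfl fun w hw => ?_
        have hw1 : w ≠ M m' := (Finset.mem_erase.1 hw).1
        have hw' : w ≠ M m := (Finset.mem_erase.1 (Finset.mem_erase.1 hw).2).1
        have hw2 : M m ≠ w := hw'.symm
        have h3 := hu m w
        have h4 : u m w false = 1 - u m w true := by linarith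
        have h8 : ∀ c, bef A m (M m') b w c = !bef A m w c (M m') b := fun c =>
          bef_not (hA m) hw1 c b
        simp only [Fintype.sum_bool, xi, yy, hw', hw1, hw2, if_false, false_implies, true_and,
          h8, ne_eq, not_false_eq_true, true_implies]
        rw [h4]
        cases bef A m w true (M m') b <;> cases bef A m w false (M m') b <;> simp <;> ring
    · rw [if_neg h6, if_neg h6, zero_mul]

end Pool.Agent.Lib.Wsm
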