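import Pool.Agent.Lib.Wsm.Ent

/-!
# Expectation of the determinant

MODULE Wsm.ExpDet (1 h): prove `exp_det`.  Auxiliary lemmas: namespace
`Pool.Agent.Lib.Wsm.ExpDetAux`.  Imports are black boxes.

By `NM_eq_ent` the determinant is a function `G_U (z)` of the bits
`z w m = refW1 (B w) (π w) m (M.symm w)`, so `coin_law` (for each `U`) replaces the sum over `π` by
`∑ z : Fin n → Fin n → Bool, (∏ w, ∏ m, xi x M w m (z w m)) * G_U z`.  Expand the determinant
(`Matrix.det_apply'` for the transpose, or `Matrix.det_apply` and reindexing, so that the product is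
over the rows): `G_U z = ∑ σ, sign σ * ∏ m, ent A M m (σ m) (U m) (fun w => z w m)`.  For fixed `σ`
the sum over `(U, z)` factors over `m` (`∏ w, ∏ m = ∏ m, ∏ w`, transpose `z`, and
`Fintype.piFinset`/`Finset.prod_univ_sum`): it is `∏ m, (∑ V, ∑ z', ...) = ∏ m, Nhat A u x M m (σ m)`
by `ent_exp`.
-/

namespace Pool.Agent.Lib.Wsm

open Finset Equiv

variable {n : ℕ}

namespace ExpDetAux

theorem prod_sum_univ {ι κ : Type*} [Fintype ι] [DecidableEq ι] [Fintype κ] (F : ι → κ → ℚ) :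
    ∏ i, ∑ k, F i k = ∑ p : ι → κ, ∏ i, F i (p i) := by
  classical
  rw [Finset.prod_univ_sum]
  simp

theorem det_rows (N : Matrix (Fin n) (Fin n) ℚ) :
    N.det = ∑ σ : Perm (Fin n), ((Perm.sign σ : ℤ) : ℚ) * ∏ m, N m (σ m) := by
  rw [← Matrix.det_transpose, Matrix.det_apply']
  rfl

end ExpDetAux

open ExpDetAux in
theorem exp_det {A B : Pref n} (hA : ∀ m, Wk (A m)) (hB : ∀ w, Wk (B w))
    {u : Fin n → Fin n → Bool → ℚ} (hu : ∀ m w, u m w false + u m w true = 1)
    {x : Fin n → Fin n → Fin n → ℚ} {μ : Fin n → Perm (Fin n) → ℚ}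
    (hI : ∀ w, IndepX (B w) (μ w) (x w)) (M : Perm (Fin n)) :
    ∑ U : Fin n → Fin n → Bool, ∑ π : Fin n → Perm (Fin n),
        (∏ m, ∏ w, u m w (U m w)) * (∏ w, μ w (π w)) * (NM (refM A U) (refW B π) M).det =
      (Nhat A u x M).det := by
  classical
  obtain ⟨G, hG⟩ : ∃ G : (Fin n → Fin n → Bool) → (Fin n → Fin n → Bool) → ℚ, G = fun U z =>
    (show Matrix (Fin n) (Fin n) ℚ from fun m m' => ent A M m m' (U m) (fun w => z w m)).det :=
    ⟨_, rfl⟩
  have h1 : ∀ (U : Fin n → Fin n → Bool) (π : Fin n → Perm (Fin n)),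
      (NM (refM A U) (refW B π) M).det =
        G U (fun w m => refW1 (B w) (π w) m (M.symm w)) := by
    intro U π
    rw [hG]
    simp only
    congr 1
    funext m m'
    exact NM_eq_ent A B U π M m m'
  have h2 : ∀ U : Fin n → Fin n → Bool, ∑ π : Fin n → Perm (Fin n),
      (∏ m, ∏ w, u m w (U m w)) * (∏ w, μ w (π w)) * (NM (refM A U) (refW B π) M).det =
      (∏ m, ∏ w, u m w (U m w)) *
        ∑ z : Fin n → Fin n → Bool, (∏ w, ∏ m, xi x M w m (z w m)) * G U z := by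
    intro U
    rw [← coin_law hB hI M (G U), mul_sum]
    refine sum_congr rfl fun π _ => ?_
    rw [h1, mul_assoc]
  simp_rw [h2]
  have h3 : ∀ (U z : Fin n → Fin n → Bool), G U z = ∑ σ : Perm (Fin n),
      ((Perm.sign σ : ℤ) : ℚ) * ∏ m, ent A M m (σ m) (U m) (fun w => z w m) := by
    intro U z
    rw [hG]
    exact det_rows _
  -- the sum over `z`, transposed
  have h4 : ∀ U : Fin n → Fin n → Bool,
      ∑ z : Fin n → Fin n → Bool, (∏ w, ∏ m, xi x M w m (z w m)) * G U z =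
      ∑ Z : Fin n → Fin n → Bool, (∏ m, ∏ w, xi x M w m (Z m w)) *
        ∑ σ : Perm (Fin n), ((Perm.sign σ : ℤ) : ℚ) * ∏ m, ent A M m (σ m) (U m) (Z m) := by
    intro U
    refine Fintype.sum_equiv (Equiv.piComm fun _ _ => Bool) _ _ fun z => ?_
    rw [h3, prod_comm]
    rfl
  simp_rw [h4]
  rw [det_rows]
  have h5 : ∀ σ : Perm (Fin n), ∏ m, Nhat A u x M m (σ m) =
      ∑ U : Fin n → Fin n → Bool, ∑ Z : Fin n → Fin n → Bool,
        (∏ m, ∏ w, u m w (U m w)) * (∏ m, ∏ w, xi x M w m (Z m w)) *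
          ∏ m, ent A M m (σ m) (U m) (Z m) := by
    intro σ
    have h6 : ∀ m, Nhat A u x M m (σ m) = ∑ V : Fin n → Bool, ∑ z : Fin n → Bool,
        (∏ w, u m w (V w)) * (∏ w, xi x M w m (z w)) * ent A M m (σ m) V z :=
      fun m => (ent_exp hA hu x M m (σ m)).symm
    simp_rw [h6]
    rw [prod_sum_univ]
    refine sum_congr rfl fun U _ => ?_
    rw [prod_sum_univ]
    refine sum_congr rfl fun Z _ => ?_
    rw [prod_mul_distrib, prod_mul_distrib]
  simp_rw [h5, mul_sum]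
  rw [sum_comm (s := (univ : Finset (Perm (Fin n))))]
  refine sum_congr rfl fun U _ => ?_
  rw [sum_comm (s := (univ : Finset (Perm (Fin n))))]
  refine sum_congr rfl fun Z _ => ?_
  refine sum_congr rfl fun σ _ => ?_
  ring

end Pool.Agent.Lib.Wsm
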