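import Pool.Agent.Lib.Wsm.Park

/-!
# A nonnegative combination of Parke-Taylor weights is not identically zero

MODULE Wsm.Lim (1.2 h): prove `exists_point`.  Auxiliary lemmas: namespace
`Pool.Agent.Lib.Wsm.LimAux`.  `Park` is a black box (only the definitions `chainW`, `nu` are used).

Let `c π₀ > 0` and, for an integer `N ≥ 2`, `g w j = N ^ (n - π₀ w j)` (natural subtraction, exponents
`1, ..., n`, distinct): the first man of the order `π₀ w` has the largest value.  In `chainW` each factor is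
`a / (a - b)` with `a, b` different powers of `N`: if `a > b` it lies in `[1, N / (N - 1)]`, if `a < b` its
absolute value is at most `1 / (N - 1)`.  So `nu (g w) (π₀ w) ≥ 1`, and for `ρ ≠ π₀ w` some consecutive pair
is in the wrong order, hence `|nu (g w) ρ| ≤ 2 ^ n / (N - 1)`; always `|nu (g w) ρ| ≤ 2 ^ n`.  Therefore for
`π ≠ π₀` the product over `w` is at most `2 ^ (n * n) / (N - 1)` in absolute value, and the sum is at least
`c π₀ - (∑ π, c π) * 2 ^ (n * n) / (N - 1) > 0` for large `N`.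
-/

namespace Pool.Agent.Lib.Wsm

open Finset Equiv

variable {n : ℕ}

namespace LimAux

variable {N : ℕ} {e : Fin n → ℕ}

theorem pow_ge (hN : 2 ≤ N) {a b : ℕ} (h : a < b) : (N : ℚ) * (N : ℚ) ^ a ≤ (N : ℚ) ^ b := by
  have h1 : (1 : ℚ) ≤ N := by exact_mod_cast (by omega : 1 ≤ N)
  rw [← pow_succ']
  exact pow_le_pow_right₀ h1 h

theorem fac_gt (hN : 2 ≤ N) {a b : ℕ} (h : b < a) :
    1 ≤ (N : ℚ) ^ a / ((N : ℚ) ^ a - (N : ℚ) ^ b) ∧
      (N : ℚ) ^ a / ((N : ℚ) ^ a - (N : ℚ) ^ b) ≤ 2 := by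
  have h1 := pow_ge hN h
  have hN' : (2 : ℚ) ≤ N := by exact_mod_cast hN
  have hB : (0 : ℚ) < (N : ℚ) ^ b := by positivity
  have hA : (0 : ℚ) < (N : ℚ) ^ a := by positivity
  have h2 : 2 * (N : ℚ) ^ b ≤ (N : ℚ) ^ a := by nlinarith
  have h3 : (0 : ℚ) < (N : ℚ) ^ a - (N : ℚ) ^ b := by linarith
  constructor
  · rw [le_div_iff₀ h3]; linarith
  · rw [div_le_iff₀ h3]; linarith

theorem fac_lt (hN : 2 ≤ N) {a b : ℕ} (h : a < b) :
    |(N : ℚ) ^ a / ((N : ℚ) ^ a - (N : ℚ) ^ b)| ≤ ((N : ℚ) - 1)⁻¹ := by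
  have h1 := pow_ge hN h
  have hN' : (2 : ℚ) ≤ N := by exact_mod_cast hN
  have hA : (0 : ℚ) < (N : ℚ) ^ a := by positivity
  have h2 : (N : ℚ) ^ a - (N : ℚ) ^ b < 0 := by nlinarith
  rw [abs_div, abs_of_pos hA, abs_of_neg h2, div_le_iff₀ (by linarith), inv_mul_eq_div,
    le_div_iff₀ (by linarith)]
  linarith

theorem inv_le_one (hN : 2 ≤ N) : ((N : ℚ) - 1)⁻¹ ≤ 1 := by
  have hN' : (2 : ℚ) ≤ N := by exact_mod_cast hN
  exact inv_le_one_of_one_le₀ (by linarith)

theorem inv_nonneg' (hN : 2 ≤ N) : 0 ≤ ((N : ℚ) - 1)⁻¹ := by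
  have hN' : (2 : ℚ) ≤ N := by exact_mod_cast hN
  exact inv_nonneg.2 (by linarith)

theorem fac_le (hN : 2 ≤ N) {a b : ℕ} (h : a ≠ b) :
    |(N : ℚ) ^ a / ((N : ℚ) ^ a - (N : ℚ) ^ b)| ≤ 2 := by
  rcases lt_or_gt_of_ne h with h | h
  · exact (fac_lt hN h).trans ((inv_le_one hN).trans (by norm_num))
  · obtain ⟨h1, h2⟩ := fac_gt hN h
    rw [abs_of_nonneg (by linarith)]
    exact h2

/-- The weight of a decreasing chain. -/
theorem one_le_chainW (hN : 2 ≤ N) : ∀ l : List (Fin n), l.IsChain (fun a b => e b < e a) →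
    1 ≤ chainW (fun j => (N : ℚ) ^ e j) l
  | [], _ => by simp [chainW]
  | [_], _ => by simp [chainW]
  | a :: b :: l, h => by
    rw [List.isChain_cons_cons] at h
    have h1 := one_le_chainW hN (b :: l) h.2
    obtain ⟨h2, -⟩ := fac_gt hN h.1
    rw [chainW]
    exact one_le_mul_of_one_le_of_one_le h2 h1

theorem abs_chainW_le (hN : 2 ≤ N) (he : Function.Injective e) : ∀ l : List (Fin n), l.Nodup →
    |chainW (fun j => (N : ℚ) ^ e j) l| ≤ 2 ^ l.length
  | [], _ => by simp [chainW]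
  | [_], _ => by simp [chainW]
  | a :: b :: l, h => by
    have h1 := abs_chainW_le hN he (b :: l) (List.nodup_cons.1 h).2
    have hab : a ≠ b := by
      rintro rfl
      exact (List.nodup_cons.1 h).1 (List.mem_cons_self)
    have h2 := fac_le hN (he.ne hab)
    rw [chainW, abs_mul, List.length_cons, pow_succ']
    exact mul_le_mul h2 h1 (abs_nonneg _) (by norm_num)

theorem abs_chainW_le' (hN : 2 ≤ N) (he : Function.Injective e) : ∀ l : List (Fin n), l.Nodup →
    ¬ l.IsChain (fun a b => e b < e a) →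
    |chainW (fun j => (N : ℚ) ^ e j) l| ≤ 2 ^ l.length * ((N : ℚ) - 1)⁻¹
  | [], _, h => by simp at h
  | [_], _, h => by simp at h
  | a :: b :: l, h, hc => by
    have hab : a ≠ b := by
      rintro rfl
      exact (List.nodup_cons.1 h).1 (List.mem_cons_self)
    have h0 := inv_nonneg' (N := N) hN
    rw [List.isChain_cons_cons, not_and_or] at hc
    rw [chainW, abs_mul, List.length_cons, pow_succ']
    rcases hc with hc | hc
    · have h1 := abs_chainW_le hN he (b :: l) (List.nodup_cons.1 h).2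
      have h2 := fac_lt hN (lt_of_le_of_ne (not_lt.1 hc) (he.ne hab))
      calc _ ≤ ((N : ℚ) - 1)⁻¹ * 2 ^ (b :: l).length := mul_le_mul h2 h1 (abs_nonneg _) h0
        _ ≤ _ := by
          have h3 : (0 : ℚ) ≤ 2 ^ (b :: l).length := by positivity
          nlinarith [mul_nonneg h0 h3]
    · have h1 := abs_chainW_le' hN he (b :: l) (List.nodup_cons.1 h).2 hc
      have h2 := fac_le hN (he.ne hab)
      calc _ ≤ 2 * (2 ^ (b :: l).length * ((N : ℚ) - 1)⁻¹) :=
            mul_le_mul h2 h1 (abs_nonneg _) (by norm_num)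
        _ = _ := by ring

/-- The exponents. -/
def ex (π : Perm (Fin n)) (j : Fin n) : ℕ := n - (π j : ℕ)

theorem ex_lt (π : Perm (Fin n)) (i j : Fin n) : ex π j < ex π i ↔ π i < π j := by
  unfold ex
  have h1 := (π i).2
  have h2 := (π j).2
  rw [Fin.lt_def]
  omega

theorem ex_inj (π : Perm (Fin n)) : Function.Injective (ex π) := by
  intro i j h
  by_contra hij
  have h1 : π i ≠ π j := π.injective.ne hij
  rcases lt_or_gt_of_ne h1 with h2 | h2
  · exact ((ex_lt π i j).2 h2).ne' h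
  · exact ((ex_lt π j i).2 h2).ne h

theorem isChain_iff (π ρ : Perm (Fin n)) :
    (List.ofFn fun k => ρ.symm k).IsChain (fun a b => ex π b < ex π a) ↔ ρ = π := by
  constructor
  · intro h
    have : IsTrans (Fin n) (fun a b => ex π b < ex π a) := ⟨fun a b c h1 h2 => h2.trans h1⟩
    rw [List.isChain_iff_pairwise, List.pairwise_ofFn] at h
    have h1 : StrictMono fun k => π (ρ.symm k) := by
      intro i j hij
      exact (ex_lt π _ _).1 (h hij)
    have h2 : (fun k => π (ρ.symm k)) = id := by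
      have h3 := Subsingleton.elim (h1.orderIsoOfSurjective _
        (π.surjective.comp ρ.symm.surjective)) (OrderIso.refl (Fin n))
      funext k
      exact congrArg (fun f : Fin n ≃o Fin n => f k) h3
    ext k
    have h3 := congrFun h2 (ρ k)
    simp only [Equiv.symm_apply_apply, id_eq] at h3
    rw [h3]
  · rintro rfl
    have : IsTrans (Fin n) (fun a b => ex ρ b < ex ρ a) := ⟨fun a b c h1 h2 => h2.trans h1⟩
    rw [List.isChain_iff_pairwise, List.pairwise_ofFn]
    intro i j hij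
    rw [ex_lt, Equiv.apply_symm_apply, Equiv.apply_symm_apply]
    exact hij

theorem nodup_ofFn (ρ : Perm (Fin n)) : (List.ofFn fun k => ρ.symm k).Nodup :=
  List.nodup_ofFn.2 ρ.symm.injective

end LimAux

open LimAux

theorem exists_point (c : (Fin n → Perm (Fin n)) → ℚ) (hc : ∀ π, 0 ≤ c π)
    (hne : ∃ π, c π ≠ 0) :
    ∃ g : Fin n → Fin n → ℤ, (∀ w, Function.Injective (g w)) ∧
      ∑ π, c π * ∏ w, nu (fun j => (g w j : ℚ)) (π w) ≠ 0 := by
  classical
  obtain ⟨π₀, hπ₀⟩ := hne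
  have hc0 : 0 < c π₀ := lt_of_le_of_ne (hc π₀) (Ne.symm hπ₀)
  set S : ℚ := ∑ π, c π with hS
  have hS0 : 0 ≤ S := Finset.sum_nonneg fun π _ => hc π
  set K : ℚ := (2 ^ n) ^ n with hK
  have hK0 : 0 < K := by positivity
  obtain ⟨M, hM⟩ := exists_nat_gt (S * K / c π₀)
  set N : ℕ := M + 2 with hNdef
  have hN : 2 ≤ N := by omega
  have hN1 : ((N : ℚ) - 1) = M + 1 := by rw [hNdef]; push_cast; ring
  have hinj : ∀ w, Function.Injective fun j => ((N : ℤ) ^ ex (π₀ w) j) := by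
    intro w i j hij
    have hij' : (N : ℤ) ^ ex (π₀ w) i = (N : ℤ) ^ ex (π₀ w) j := hij
    have h1 : N ^ ex (π₀ w) i = N ^ ex (π₀ w) j := by exact_mod_cast hij'
    exact ex_inj (π₀ w) (Nat.pow_right_injective hN h1)
  refine ⟨fun w j => (N : ℤ) ^ ex (π₀ w) j, hinj, ?_⟩
  have hcast : ∀ w, (fun j => (((N : ℤ) ^ ex (π₀ w) j : ℤ) : ℚ)) =
      fun j => (N : ℚ) ^ ex (π₀ w) j := by
    intro w; funext j; push_cast; rfl
  simp only [hcast]
  set P : (Fin n → Perm (Fin n)) → ℚ := fun π =>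
    ∏ w, nu (fun j => (N : ℚ) ^ ex (π₀ w) j) (π w) with hP
  have hP0 : 1 ≤ P π₀ := by
    rw [hP]
    refine Finset.prod_induction _ (fun x : ℚ => 1 ≤ x)
      (fun a b => one_le_mul_of_one_le_of_one_le) le_rfl fun w _ => ?_
    exact one_le_chainW hN _ ((isChain_iff _ _).2 rfl)
  have hP1 : ∀ π, π ≠ π₀ → |P π| ≤ K * ((N : ℚ) - 1)⁻¹ := by
    intro π hπ
    obtain ⟨w₀, hw₀⟩ := Function.ne_iff.1 hπ
    rw [hP]
    simp only [Finset.abs_prod]
    have h1 : ∀ w, |nu (fun j => (N : ℚ) ^ ex (π₀ w) j) (π w)| ≤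
        2 ^ n * (if w = w₀ then ((N : ℚ) - 1)⁻¹ else 1) := by
      intro w
      by_cases hw : w = w₀
      · subst hw
        rw [if_pos rfl]
        have := abs_chainW_le' hN (ex_inj (π₀ w)) _ (nodup_ofFn (π w))
          (fun h => hw₀ ((isChain_iff _ _).1 h))
        rwa [List.length_ofFn] at this
      · rw [if_neg hw, mul_one]
        have := abs_chainW_le hN (ex_inj (π₀ w)) _ (nodup_ofFn (π w))
        rwa [List.length_ofFn] at this
    refine (Finset.prod_le_prod (fun w _ => abs_nonneg _) fun w _ => h1 w).trans ?_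
    rw [Finset.prod_mul_distrib, Finset.prod_const, Finset.card_univ, Fintype.card_fin,
      Finset.prod_ite_eq' Finset.univ w₀, if_pos (Finset.mem_univ _)]
  have h2 : ∑ π, c π * P π = c π₀ * P π₀ + ∑ π ∈ Finset.univ.erase π₀, c π * P π :=
    (Finset.add_sum_erase _ _ (Finset.mem_univ π₀)).symm
  have h3 : |∑ π ∈ Finset.univ.erase π₀, c π * P π| ≤ S * (K * ((N : ℚ) - 1)⁻¹) := by
    refine (Finset.abs_sum_le_sum_abs _ _).trans ?_
    rw [hS, Finset.sum_mul]
    refine (Finset.sum_le_sum fun π hπ => ?_).trans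
      (Finset.sum_le_sum_of_subset_of_nonneg (Finset.erase_subset _ _) fun π _ _ => ?_)
    · rw [abs_mul, abs_of_nonneg (hc π)]
      exact mul_le_mul_of_nonneg_left (hP1 π (Finset.ne_of_mem_erase hπ)) (hc π)
    · exact mul_nonneg (hc π) (mul_nonneg hK0.le (inv_nonneg' hN))
  have h4 : S * (K * ((N : ℚ) - 1)⁻¹) < c π₀ := by
    rw [hN1, ← mul_assoc, ← div_eq_mul_inv, div_lt_iff₀ (by positivity)]
    rw [div_lt_iff₀ hc0] at hM
    nlinarith
  have h5 : c π₀ ≤ c π₀ * P π₀ := by nlinarith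
  have h6 := neg_abs_le (∑ π ∈ Finset.univ.erase π₀, c π * P π)
  have h7 : 0 < ∑ π, c π * P π := by rw [h2]; linarith
  exact h7.ne'

end Pool.Agent.Lib.Wsm
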