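import Pool.Agent.Lib.Wsm.PTab

/-!
# Polynomial time: partners, arcs, iterates, reachability

MODULE Wsm.PCycA (1.5 h).  Auxiliary lemmas: namespace `Pool.Agent.Lib.Wsm.PCycAAux`.  `PTab` is a
black box; toolkit: `Pool/Agent/Lib/P8e91ed/PolyBin.lean` (`nSum`, `n_ite`, `PolyP.*`, `PolyZ.*`, `cU`, `nU`, `nL`).

`poly_pm`, `poly_pw`: `nSum` with `n_ite (PolyP.ofB (poly_g3 ...))` (a term `g3 .. = true`), `hd.up`.
`poly_g`: `PolyZ.ofBin ⟨_, PolyC.take (PolyC.drop ..) .., fun _ _ => rfl⟩`, `bin_ofN hd.c`, `PolyZ.add`, `PolyZ.neg`.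
`poly_H`: `PolyP.eq .. |>.not`, `PolyP.ofB (poly_g3 ..)` negated, `PolyP.forall_range`, `PolyP.imp`.
`poly_vv`: `poly_iterN` with the bound `v₀ a + n * n` (`sg_le`).
`poly_rch`: the table `f a t y = rch .. t y` on `y < n + 1` by `poly_tabRec` (`k = t`, `N = n + 1`), then
`PolyB.getD`.  In the step, `rch t z` for `z < n` is read in the table (last entry of the context):
`(List.range N).map (f t)` has entry `f t z` at `z < N`.
-/

set_option autoImplicit false

namespace Pool.Agent.Lib.Wsm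

open Finset Equiv Pool.Agent.Lib.PolyTime Pool.Agent.Lib.Pa7c826 Pool.Agent.Lib.P8e91ed.PT

variable {α : Type*} {D : α → Prop} {ctx : List (α → List Bool)} {d : α → Dat}

namespace PCycAAux

theorem p_false {φ : α → Bool} (h : PolyB D ctx φ) : PolyP D ctx (fun a => φ a = false) :=
  (PolyP.ofB h).not.congr (fun a _ => by simp)

theorem getD_map_range {N i : ℕ} (hi : i < N) (f : ℕ → Bool) :
    ((List.range N).map f).getD i false = f i := by
  rw [List.getD_eq_getElem?_getD, List.getElem?_map, List.getElem?_range hi]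
  rfl

end PCycAAux

open PCycAAux

theorem poly_pm (hd : PDat D ctx d) {l m : α → ℕ} (hl : PolyN D ctx l) (hm : PolyN D ctx m) :
    PolyN D ctx (fun a => (d a).pm (l a) (m a)) :=
  nSum hd.n (n_ite (PolyP.ofB (poly_g3 (nU hd.n) (cU hd.tP) (nU hl) (nU hm) nL))
    (PolyC.mono nL (fun _ h => h.1)) (PolyN.const 0))

theorem poly_pw (hd : PDat D ctx d) {l w : α → ℕ} (hl : PolyN D ctx l) (hw : PolyN D ctx w) :
    PolyN D ctx (fun a => (d a).pw (l a) (w a)) :=
  nSum hd.n (n_ite (PolyP.ofB (poly_g3 (nU hd.n) (cU hd.tP) (nU hl) nL (nU hw)))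
    (PolyC.mono nL (fun _ h => h.1)) (PolyN.const 0))

theorem poly_sg (hd : PDat D ctx d) {l l' w : α → ℕ} (hl : PolyN D ctx l)
    (hl' : PolyN D ctx l') (hw : PolyN D ctx w) :
    PolyN D ctx (fun a => (d a).sg (l a) (l' a) (w a)) :=
  poly_pm hd hl (poly_pw hd hl' hw)

theorem poly_g (hd : PDat D ctx d) {w m : α → ℕ} (hw : PolyN D ctx w) (hm : PolyN D ctx m) :
    PolyZ D ctx (fun a => (d a).g (w a) (m a)) := by
  have h1 : PolyC D ctx (fun a =>
      (((d a).tG.drop ((w a * (d a).n + m a) * (d a).W)).take (d a).W)) :=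
    PolyC.take (PolyC.drop hd.tG (((hw.mul hd.n).add hm).mul hd.W)) hd.W
  have h2 : PolyZ D ctx (fun a => ((bval (((d a).tG.drop ((w a * (d a).n + m a) *
      (d a).W)).take (d a).W) : ℕ) : ℤ)) := PolyZ.ofBin ⟨_, h1, fun _ _ => rfl⟩
  exact (h2.add (PolyZ.ofBin (bin_ofN hd.c)).neg).congr (fun a _ => by
    unfold Dat.g
    ring)

theorem poly_H (hd : PDat D ctx d) {l w w' : α → ℕ} (hl : PolyN D ctx l)
    (hw : PolyN D ctx w) (hw' : PolyN D ctx w') :
    PolyP D ctx (fun a => (d a).H (l a) (w a) (w' a)) := by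
  have h1 : PolyP D ctx (fun a => w a ≠ w' a) := (PolyP.eq hw hw').not
  have hp : PolyN D ctx (fun a => (d a).pw (l a) (w a)) := poly_pw hd hl hw
  have hp' : PolyN D ctx (fun a => (d a).pw (l a) (w' a)) := poly_pw hd hl hw'
  refine h1.and ((p_false (poly_g3 hd.n hd.tB hw hp' hp)).and
    ((p_false (poly_g3 hd.n hd.tA hp' hw' hw)).and ?_))
  refine PolyP.forall_range (P := fun a m => m ≠ (d a).pw (l a) (w a) →
    g3 (d a).n (d a).tB (w a) m ((d a).pw (l a) (w a)) = false →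
    g3 (d a).n (d a).tB (w a) m ((d a).pw (l a) (w' a)) = true →
    g3 (d a).n (d a).tA m (w a) ((d a).pm (l a) m) = false) hd.n ?_
  have hu : PDat (Dx D (fun a => (d a).n)) (cx ctx) (fun p => d p.1) := hd.up
  refine PolyP.imp (PolyP.eq nL (nU hp)).not (PolyP.imp
    (p_false (poly_g3 hu.n hu.tB (nU hw) nL (nU hp)))
    (PolyP.imp (PolyP.ofB (poly_g3 hu.n hu.tB (nU hw) nL (nU hp')))
      (p_false (poly_g3 hu.n hu.tA nL (nU hw) (poly_pm hu (nU hl) nL)))))

theorem pm_le (d : Dat) (l m : ℕ) : d.pm l m ≤ d.n * d.n := by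
  unfold Dat.pm
  calc ∑ w ∈ range d.n, (if g3 d.n d.tP l m w = true then w else 0)
      ≤ ∑ w ∈ range d.n, d.n := by
        refine Finset.sum_le_sum fun w hw => ?_
        have := Finset.mem_range.1 hw
        split_ifs <;> omega
    _ = d.n * d.n := by simp

theorem sg_le (d : Dat) (l l' w : ℕ) : d.sg l l' w ≤ d.n * d.n := pm_le _ _ _

variable {l l' v₀ j : α → ℕ}

theorem poly_vv (hd : PDat D ctx d) (hl : PolyN D ctx l) (hl' : PolyN D ctx l')
    (hv : PolyN D ctx v₀) {i : α → ℕ} (hi : PolyN D ctx i) :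
    PolyN D ctx (fun a => Cy.vv ((d a).sg (l a)) (l' a) (v₀ a) (i a)) := by
  refine poly_iterN (k := i) (x := v₀) (B := fun a => v₀ a + (d a).n * (d a).n)
    (f := fun a => (d a).sg (l a) (l' a)) hi hv (hv.add (hd.n.mul hd.n)) ?_ ?_
  · intro a _ i _
    cases i with
    | zero => simp
    | succ i =>
      rw [Function.iterate_succ_apply']
      exact (sg_le _ _ _ _).trans (Nat.le_add_left _ _)
  · exact poly_sg hd.up (nU hl) (nU hl') nL

theorem poly_rch (hd : PDat D ctx d) (hl : PolyN D ctx l) (hl' : PolyN D ctx l')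
    (hv : PolyN D ctx v₀) (hj : PolyN D ctx j) {t y : α → ℕ} (ht : PolyN D ctx t)
    (hy : PolyN D ctx y) (hyn : ∀ a, D a → y a ≤ (d a).n) :
    PolyB D ctx (fun a => Cy.rch (d a).n ((d a).H (l a)) ((d a).sg (l a)) (l' a) (v₀ a) (j a)
      (t a) (y a)) := by
  let N : α → ℕ := fun a => (d a).n + 1
  have hN : PolyN D ctx N := hd.n.succ
  let f : α → ℕ → ℕ → Bool := fun a t y =>
    Cy.rch (d a).n ((d a).H (l a)) ((d a).sg (l a)) (l' a) (v₀ a) (j a) t y
  have h0 : PolyB (Dx D N) (cx ctx) (fun p => f p.1 0 p.2) :=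
    (PolyB.natEq nL (nU hv)).congr (fun p _ => by simp [f, Cy.rch])
  have htab : PolyC D ctx (fun a => (List.range (N a)).map (f a (t a))) := by
    refine poly_tabRec ht hN h0 ?_
    let Dk : α × ℕ → Prop := fun p => D p.1 ∧ p.2 < t p.1
    let Γ : List (α × ℕ → List Bool) := PolyTime.lift ctx ++
      [fun p => un p.2, fun p => (List.range (N p.1)).map (f p.1 p.2)]
    have hd' : PDat Dk Γ (fun p => d p.1) := hd.weak (fun p hp => hp.1) _
    have hl1 : PolyN Dk Γ (fun p => l p.1) := cWeak hl (fun p hp => hp.1) _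
    have hl1' : PolyN Dk Γ (fun p => l' p.1) := cWeak hl' (fun p hp => hp.1) _
    have hv1 : PolyN Dk Γ (fun p => v₀ p.1) := cWeak hv (fun p hp => hp.1) _
    have hj1 : PolyN Dk Γ (fun p => j p.1) := cWeak hj (fun p hp => hp.1) _
    have tab : PolyC Dk Γ (fun p => (List.range (N p.1)).map (f p.1 p.2)) :=
      PolyC.var (by simp [Γ])
    let N' : α × ℕ → ℕ := fun p => N p.1
    have hA : PolyB (Dx Dk N') (cx Γ) (fun q => f q.1.1 q.1.2 q.2) :=
      (PolyB.getD (cU tab) nL).congr (fun q hq => by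
        rw [getD_map_range hq.2])
    have hd2 : PDat (Dx Dk N') (cx Γ) (fun q => d q.1.1) := hd'.up
    have hB1 : PolyP (Dx Dk N') (cx Γ) (fun q => ∀ i ∈ range (j q.1.1 + 1), 1 ≤ i →
        Cy.vv ((d q.1.1).sg (l q.1.1)) (l' q.1.1) (v₀ q.1.1) i ≠ q.2) := by
      refine PolyP.forall_range (P := fun q i => 1 ≤ i →
        Cy.vv ((d q.1.1).sg (l q.1.1)) (l' q.1.1) (v₀ q.1.1) i ≠ q.2) (nU hj1).succ ?_
      exact PolyP.imp (PolyP.le (PolyN.const 1) nL)
        (PolyP.eq (poly_vv hd2.up (nU (nU hl1)) (nU (nU hl1')) (nU (nU hv1)) nL) (nU nL)).not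
    have hB2 : PolyP (Dx Dk N') (cx Γ) (fun q => ∃ z ∈ range (d q.1.1).n,
        (d q.1.1).H (l q.1.1) q.2 z ∧ f q.1.1 q.1.2 z = true) := by
      refine PolyP.exists_range (P := fun q z =>
        (d q.1.1).H (l q.1.1) q.2 z ∧ f q.1.1 q.1.2 z = true) hd2.n ?_
      refine PolyP.and (poly_H hd2.up (nU (nU hl1)) (nU nL) nL) (PolyP.ofB ?_)
      refine (PolyB.getD (cU (cU tab)) nL).congr (fun q hq => ?_)
      have h1 : q.2 < N q.1.1.1 := Nat.lt_succ_of_lt hq.2
      rw [getD_map_range h1]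
    have hB := @b_ofP _ _ _ _ (fun _ => Classical.propDecidable _) (hB1.and hB2)
    refine (hA.or hB).congr (fun q _ => ?_)
    simp only [f, Cy.rch]
    congr 1
    exact decide_eq_decide.2 Iff.rfl
  refine (PolyB.getD htab hy).congr (fun a ha => ?_)
  rw [getD_map_range (Nat.lt_succ_of_le (hyn a ha))]

end Pool.Agent.Lib.Wsm
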