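import Pool.Agent.Lib.Wsm.PCycA

/-!
# Polynomial time: the search for a cycle

MODULE Wsm.PCycB (1.5 h): prove `poly_C5` and `poly_cycBits`.  Auxiliary lemmas: namespace
`Pool.Agent.Lib.Wsm.PCycBAux`.  Imports are black boxes.

Prove in this order: `Orb` (for a variable `l''`), `Cond` at `x` with `x a ≤ n` (this is `C0`), `dst`
(`poly_lst`), `nxt`, `xs` (`poly_iterN` with bound `n`; `nxt y ≤ n` by `lst_le`, `xs .. x t ≤ n` if `x ≤ n`),
`Cyc`; then `C1, ..., C5` by `PolyP.exists_range`, and `cl`, `cl'`, `cv`, `cj`, `cx` by `poly_lst`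
(their values are `≤ K`, `≤ n` by `lst_le`), and `cycBits` by `poly_mk2` and `b_ofP`.
All statements in the general form: arguments `l l' v₀ j x w z : α → ℕ` with `PolyN D ctx _`, for
arbitrary `D`, `ctx`, so that they can be used below quantifiers (`hd.up`, `nU`, `nL`).
-/

set_option autoImplicit false

namespace Pool.Agent.Lib.Wsm

open Finset Equiv Pool.Agent.Lib.PolyTime Pool.Agent.Lib.Pa7c826 Pool.Agent.Lib.P8e91ed.PT

variable {α : Type*} {D : α → Prop} {ctx : List (α → List Bool)} {d : α → Dat}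

namespace PCycBAux

theorem poly_Orb (hd : PDat D ctx d) {l v l'' : α → ℕ} (hl : PolyN D ctx l)
    (hv : PolyN D ctx v) (hl'' : PolyN D ctx l'') :
    PolyP D ctx (fun a => Cy.Orb (d a).n ((d a).sg (l a)) (v a) (l'' a)) :=
  PolyP.forall_range (P := fun a w => (d a).sg (l a) (l'' a) w = w ∨
      ∃ i ∈ range (d a).n, Cy.vv ((d a).sg (l a)) (l'' a) (v a) i = w) hd.n
    (PolyP.or (PolyP.eq (poly_sg hd.up (nU hl) (nU hl'') nL) nL)
      (PolyP.exists_range (P := fun (p : α × ℕ) i =>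
          Cy.vv ((d p.1).sg (l p.1)) (l'' p.1) (v p.1) i = p.2) (nU hd.n)
        (PolyP.eq (poly_vv hd.up.up (nU (nU hl)) (nU (nU hl'')) (nU (nU hv)) nL) (nU nL))))

theorem poly_C0 (hd : PDat D ctx d) {l l' v j x : α → ℕ} (hl : PolyN D ctx l)
    (hl' : PolyN D ctx l') (hv : PolyN D ctx v) (hj : PolyN D ctx j) (hx : PolyN D ctx x)
    (hxn : ∀ a, D a → x a ≤ (d a).n) :
    PolyP D ctx (fun a => (d a).C0 (l a) (l' a) (v a) (j a) (x a)) := by
  have hj1 : PolyN D ctx (fun a => j a + 1) := hj.succ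
  have e1 : PolyP D ctx (fun a => ∀ i ∈ range (j a), (d a).H (l a)
      (Cy.vv ((d a).sg (l a)) (l' a) (v a) i) (Cy.vv ((d a).sg (l a)) (l' a) (v a) (i + 1))) :=
    PolyP.forall_range hj (poly_H hd.up (nU hl) (poly_vv hd.up (nU hl) (nU hl') (nU hv) nL)
      (poly_vv hd.up (nU hl) (nU hl') (nU hv) nL.succ))
  have e2 : PolyP D ctx (fun a => ∀ i ∈ range (j a + 1), ∀ i' ∈ range (j a + 1),
      Cy.vv ((d a).sg (l a)) (l' a) (v a) i = Cy.vv ((d a).sg (l a)) (l' a) (v a) i' →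
        i = i') :=
    PolyP.forall_range hj1 (PolyP.forall_range (P := fun (p : α × ℕ) i' =>
        Cy.vv ((d p.1).sg (l p.1)) (l' p.1) (v p.1) p.2 =
          Cy.vv ((d p.1).sg (l p.1)) (l' p.1) (v p.1) i' → p.2 = i') (nU hj1)
      (PolyP.imp (PolyP.eq
        (poly_vv hd.up.up (nU (nU hl)) (nU (nU hl')) (nU (nU hv)) (nU nL))
        (poly_vv hd.up.up (nU (nU hl)) (nU (nU hl')) (nU (nU hv)) nL))
        (PolyP.eq (nU nL) nL)))
  have e3 : PolyP D ctx (fun a => ∀ i ∈ range (j a + 1), 1 ≤ i →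
      Cy.vv ((d a).sg (l a)) (l' a) (v a) i ≠ x a) :=
    PolyP.forall_range hj1 (PolyP.imp (PolyP.le (PolyN.const 1) nL)
      (PolyP.eq (poly_vv hd.up (nU hl) (nU hl') (nU hv) nL) (nU hx)).not)
  have e4 : PolyP D ctx (fun a => (d a).H (l a) (Cy.vv ((d a).sg (l a)) (l' a) (v a) (j a))
      (x a)) := poly_H hd hl (poly_vv hd hl hl' hv hj) hx
  have e5 : PolyP D ctx (fun a => Cy.rch (d a).n ((d a).H (l a)) ((d a).sg (l a)) (l' a) (v a)
      (j a) (d a).n (x a) = true) := PolyP.ofB (poly_rch hd hl hl' hv hj hd.n hx hxn)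
  have e6 : PolyP D ctx (fun a => ∀ l'' ∈ range (d a).K,
      ¬ (Cy.Orb (d a).n ((d a).sg (l a)) (v a) l'' ∧
        (∀ i ∈ range (j a + 1), Cy.vv ((d a).sg (l a)) l'' (v a) i =
          Cy.vv ((d a).sg (l a)) (l' a) (v a) i) ∧
        Cy.vv ((d a).sg (l a)) l'' (v a) (j a + 1) = x a)) :=
    PolyP.forall_range hd.K (PolyP.not (PolyP.and (poly_Orb hd.up (nU hl) (nU hv) nL)
      (PolyP.and (PolyP.forall_range (P := fun (p : α × ℕ) i =>
          Cy.vv ((d p.1).sg (l p.1)) p.2 (v p.1) i =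
            Cy.vv ((d p.1).sg (l p.1)) (l' p.1) (v p.1) i) (nU hj1)
        (PolyP.eq (poly_vv hd.up.up (nU (nU hl)) (nU nL) (nU (nU hv)) nL)
          (poly_vv hd.up.up (nU (nU hl)) (nU (nU hl')) (nU (nU hv)) nL)))
        (PolyP.eq (poly_vv hd.up (nU hl) nL (nU hv) (nU hj1)) (nU hx)))))
  exact e1.and (e2.and (e3.and (e4.and (e5.and e6))))

theorem poly_dst (hd : PDat D ctx d) {l l' v j y : α → ℕ} (hl : PolyN D ctx l)
    (hl' : PolyN D ctx l') (hv : PolyN D ctx v) (hj : PolyN D ctx j) (hy : PolyN D ctx y)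
    (hyn : ∀ a, D a → y a ≤ (d a).n) :
    PolyN D ctx (fun a => Cy.dst (d a).n ((d a).H (l a)) ((d a).sg (l a)) (l' a) (v a) (j a)
      (y a)) :=
  poly_lst (P := fun a t => Cy.rch (d a).n ((d a).H (l a)) ((d a).sg (l a)) (l' a) (v a) (j a)
      t (y a) = true) hd.n.succ
    (PolyP.ofB (poly_rch hd.up (nU hl) (nU hl') (nU hv) (nU hj) nL (nU hy)
      (fun p hp => hyn p.1 hp.1)))

theorem poly_nxt (hd : PDat D ctx d) {l l' v j y : α → ℕ} (hl : PolyN D ctx l)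
    (hl' : PolyN D ctx l') (hv : PolyN D ctx v) (hj : PolyN D ctx j) (hy : PolyN D ctx y)
    (hyn : ∀ a, D a → y a ≤ (d a).n) :
    PolyN D ctx (fun a => Cy.nxt (d a).n ((d a).H (l a)) ((d a).sg (l a)) (l' a) (v a) (j a)
      (y a)) :=
  poly_lst (P := fun a z => (d a).H (l a) (y a) z ∧
      Cy.rch (d a).n ((d a).H (l a)) ((d a).sg (l a)) (l' a) (v a) (j a)
        (Cy.dst (d a).n ((d a).H (l a)) ((d a).sg (l a)) (l' a) (v a) (j a) (y a) - 1) z =
          true) hd.n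
    (PolyP.and (poly_H hd.up (nU hl) (nU hy) nL)
      (PolyP.ofB (poly_rch hd.up (nU hl) (nU hl') (nU hv) (nU hj)
        (PolyN.sub (nU (poly_dst hd hl hl' hv hj hy hyn)) (PolyN.const 1)) nL
        (fun _ hp => hp.2.le))))

theorem xs_le (n : ℕ) (H : ℕ → ℕ → Prop) (F : ℕ → ℕ → ℕ) (l' v j x : ℕ) (hx : x ≤ n) :
    ∀ t, Cy.xs n H F l' v j x t ≤ n
  | 0 => hx
  | t + 1 => by
    unfold Cy.xs
    rw [Function.iterate_succ_apply']
    exact lst_le _ _

theorem poly_xs (hd : PDat D ctx d) {l l' v j x t : α → ℕ} (hl : PolyN D ctx l)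
    (hl' : PolyN D ctx l') (hv : PolyN D ctx v) (hj : PolyN D ctx j) (hx : PolyN D ctx x)
    (hxn : ∀ a, D a → x a ≤ (d a).n) (ht : PolyN D ctx t) :
    PolyN D ctx (fun a => Cy.xs (d a).n ((d a).H (l a)) ((d a).sg (l a)) (l' a) (v a) (j a)
      (x a) (t a)) :=
  poly_iterN (B := fun a => (d a).n) (f := fun a => Cy.nxt (d a).n ((d a).H (l a))
      ((d a).sg (l a)) (l' a) (v a) (j a)) ht hx hd.n
    (fun a ha i _ => xs_le _ _ _ _ _ _ _ (hxn a ha) i)
    (poly_nxt hd.up (nU hl) (nU hl') (nU hv) (nU hj) nL (fun _ hp => Nat.lt_succ_iff.1 hp.2))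

theorem poly_Cyc (hd : PDat D ctx d) {l l' v j x w z : α → ℕ} (hl : PolyN D ctx l)
    (hl' : PolyN D ctx l') (hv : PolyN D ctx v) (hj : PolyN D ctx j) (hx : PolyN D ctx x)
    (hxn : ∀ a, D a → x a ≤ (d a).n) (hw : PolyN D ctx w) (hz : PolyN D ctx z) :
    PolyP D ctx (fun a => Cy.Cyc (d a).n ((d a).H (l a)) ((d a).sg (l a)) (l' a) (v a) (j a)
      (x a) (w a) (z a)) := by
  have hj1 : PolyN D ctx (fun a => j a + 1) := hj.succ
  have e1 : PolyP D ctx (fun a => ∃ i ∈ range (j a),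
      Cy.vv ((d a).sg (l a)) (l' a) (v a) i = w a ∧
        Cy.vv ((d a).sg (l a)) (l' a) (v a) (i + 1) = z a) :=
    PolyP.exists_range hj (PolyP.and
      (PolyP.eq (poly_vv hd.up (nU hl) (nU hl') (nU hv) nL) (nU hw))
      (PolyP.eq (poly_vv hd.up (nU hl) (nU hl') (nU hv) nL.succ) (nU hz)))
  have e2 : PolyP D ctx (fun a => Cy.vv ((d a).sg (l a)) (l' a) (v a) (j a) = w a ∧
      z a = x a) :=
    PolyP.and (PolyP.eq (poly_vv hd hl hl' hv hj) hw) (PolyP.eq hz hx)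
  -- the path has not reached `v` up to time `t`
  have e3 : PolyP (Dx D (fun a => (d a).n)) (cx ctx) (fun p => ∀ t' ∈ range (p.2 + 1),
      Cy.xs (d p.1).n ((d p.1).H (l p.1)) ((d p.1).sg (l p.1)) (l' p.1) (v p.1) (j p.1)
        (x p.1) t' ≠ v p.1) :=
    PolyP.forall_range (P := fun (p : α × ℕ) t' =>
      Cy.xs (d p.1).n ((d p.1).H (l p.1)) ((d p.1).sg (l p.1)) (l' p.1) (v p.1) (j p.1)
        (x p.1) t' ≠ v p.1) nL.succ
      (PolyP.eq (poly_xs hd.up.up (nU (nU hl)) (nU (nU hl')) (nU (nU hv)) (nU (nU hj))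
        (nU (nU hx)) (fun q hq => hxn q.1.1 hq.1.1) nL) (nU (nU hv))).not
  have e4 : PolyN (Dx D (fun a => (d a).n)) (cx ctx) (fun p =>
      Cy.xs (d p.1).n ((d p.1).H (l p.1)) ((d p.1).sg (l p.1)) (l' p.1) (v p.1) (j p.1)
        (x p.1) p.2) :=
    poly_xs hd.up (nU hl) (nU hl') (nU hv) (nU hj) (nU hx) (fun q hq => hxn q.1 hq.1) nL
  have e4' : PolyN (Dx D (fun a => (d a).n)) (cx ctx) (fun p =>
      Cy.xs (d p.1).n ((d p.1).H (l p.1)) ((d p.1).sg (l p.1)) (l' p.1) (v p.1) (j p.1)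
        (x p.1) (p.2 + 1)) :=
    poly_xs hd.up (nU hl) (nU hl') (nU hv) (nU hj) (nU hx) (fun q hq => hxn q.1 hq.1) nL.succ
  have e5 : PolyP D ctx (fun a => ∃ t ∈ range (d a).n, (∀ t' ∈ range (t + 1),
      Cy.xs (d a).n ((d a).H (l a)) ((d a).sg (l a)) (l' a) (v a) (j a) (x a) t' ≠ v a) ∧
      Cy.xs (d a).n ((d a).H (l a)) ((d a).sg (l a)) (l' a) (v a) (j a) (x a) t = w a ∧
      Cy.xs (d a).n ((d a).H (l a)) ((d a).sg (l a)) (l' a) (v a) (j a) (x a) (t + 1) =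
        z a) :=
    PolyP.exists_range hd.n (e3.and ((PolyP.eq e4 (nU hw)).and (PolyP.eq e4' (nU hz))))
  have e6 : PolyP D ctx (fun a => ∀ i ∈ range (j a + 1),
      Cy.vv ((d a).sg (l a)) (l' a) (v a) i ≠ w a) :=
    PolyP.forall_range hj1
      (PolyP.eq (poly_vv hd.up (nU hl) (nU hl') (nU hv) nL) (nU hw)).not
  have e7 : PolyP D ctx (fun a => ∀ t ∈ range (d a).n, (∀ t' ∈ range (t + 1),
      Cy.xs (d a).n ((d a).H (l a)) ((d a).sg (l a)) (l' a) (v a) (j a) (x a) t' ≠ v a) →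
      Cy.xs (d a).n ((d a).H (l a)) ((d a).sg (l a)) (l' a) (v a) (j a) (x a) t ≠ w a) :=
    PolyP.forall_range hd.n (e3.imp (PolyP.eq e4 (nU hw)).not)
  exact e1.or (e2.or (e5.or (e6.and (e7.and (PolyP.eq hz hw)))))

theorem poly_C1 (hd : PDat D ctx d) {l l' v j : α → ℕ} (hl : PolyN D ctx l)
    (hl' : PolyN D ctx l') (hv : PolyN D ctx v) (hj : PolyN D ctx j) :
    PolyP D ctx (fun a => (d a).C1 (l a) (l' a) (v a) (j a)) :=
  PolyP.exists_range (P := fun a x => (d a).C0 (l a) (l' a) (v a) (j a) x) hd.n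
    (poly_C0 hd.up (nU hl) (nU hl') (nU hv) (nU hj) nL (fun _ hp => hp.2.le))

theorem poly_C2 (hd : PDat D ctx d) {l l' v : α → ℕ} (hl : PolyN D ctx l)
    (hl' : PolyN D ctx l') (hv : PolyN D ctx v) :
    PolyP D ctx (fun a => (d a).C2 (l a) (l' a) (v a)) :=
  PolyP.exists_range (P := fun a j => (d a).C1 (l a) (l' a) (v a) j) hd.n
    (poly_C1 hd.up (nU hl) (nU hl') (nU hv) nL)

theorem poly_C3 (hd : PDat D ctx d) {l l' : α → ℕ} (hl : PolyN D ctx l)
    (hl' : PolyN D ctx l') :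
    PolyP D ctx (fun a => (d a).C3 (l a) (l' a)) :=
  PolyP.exists_range (P := fun a v => (d a).C2 (l a) (l' a) v) hd.n
    (poly_C2 hd.up (nU hl) (nU hl') nL)

theorem poly_C4 (hd : PDat D ctx d) {l : α → ℕ} (hl : PolyN D ctx l) :
    PolyP D ctx (fun a => (d a).C4 (l a)) :=
  PolyP.exists_range (P := fun a l' => (d a).C3 (l a) l') hd.K (poly_C3 hd.up (nU hl) nL)

theorem poly_cl (hd : PDat D ctx d) : PolyN D ctx (fun a => (d a).cl) :=
  poly_lst (P := fun a l => (d a).C4 l) hd.K (poly_C4 hd.up nL)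

theorem poly_cl' (hd : PDat D ctx d) : PolyN D ctx (fun a => (d a).cl') :=
  poly_lst (P := fun a l' => (d a).C3 (d a).cl l') hd.K (poly_C3 hd.up (nU (poly_cl hd)) nL)

theorem poly_cv (hd : PDat D ctx d) : PolyN D ctx (fun a => (d a).cv) :=
  poly_lst (P := fun a v => (d a).C2 (d a).cl (d a).cl' v) hd.n
    (poly_C2 hd.up (nU (poly_cl hd)) (nU (poly_cl' hd)) nL)

theorem poly_cj (hd : PDat D ctx d) : PolyN D ctx (fun a => (d a).cj) :=
  poly_lst (P := fun a j => (d a).C1 (d a).cl (d a).cl' (d a).cv j) hd.n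
    (poly_C1 hd.up (nU (poly_cl hd)) (nU (poly_cl' hd)) (nU (poly_cv hd)) nL)

theorem poly_cx (hd : PDat D ctx d) : PolyN D ctx (fun a => (d a).cx) :=
  poly_lst (P := fun a x => (d a).C0 (d a).cl (d a).cl' (d a).cv (d a).cj x) hd.n
    (poly_C0 hd.up (nU (poly_cl hd)) (nU (poly_cl' hd)) (nU (poly_cv hd)) (nU (poly_cj hd)) nL
      (fun _ hp => hp.2.le))

theorem cx_le (d : Dat) : d.cx ≤ d.n := lst_le _ _

end PCycBAux

open PCycBAux

theorem poly_C5 (hd : PDat D ctx d) : PolyP D ctx (fun a => (d a).C5) :=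
  PolyP.exists_range (P := fun a l => (d a).C4 l) hd.K (poly_C4 hd.up nL)

theorem poly_cycBits (hd : PDat D ctx d) : PolyC D ctx (fun a => (d a).cycBits) :=
  poly_mk2 hd.n hd.n (b_ofP (poly_Cyc hd.up.up (nU (nU (poly_cl hd))) (nU (nU (poly_cl' hd)))
    (nU (nU (poly_cv hd))) (nU (nU (poly_cj hd))) (nU (nU (poly_cx hd)))
    (fun q _ => cx_le (d q.1.1)) nL (poly_pm hd.up.up (nU (nU (poly_cl hd))) (nU nL))))

end Pool.Agent.Lib.Wsm
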