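import Pool.Agent.Lib.Wsm.ZTab

/-!
# Polynomial time: Newton's recursion

MODULE Wsm.PNewt (2 h): prove `poly_newtE`.  Auxiliary lemmas: namespace
`Pool.Agent.Lib.Wsm.PNewtAux`.  `ZTab`, `PTab` are black boxes.

(1) Powers.  Let `|N i j| < 2 ^ b` for `i, j < n` (`zbound2`).  Then `|mpow n N k i j| ≤ 2 ^ ((n + b) * k)` for
`i, j < n`.  The table `f a k y = mpow n N k (y / n) (y % n)`, `y < n * n`, is computed by `poly_ztabRec`
with `Bd = (n + b) * n + 1`, for every exponent `k a ≤ n a` (`PolyN`): the step is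
`∑ t ∈ range n, mpow k (y / n) t * N t (y % n)`, where `mpow k i t` is read at `i * n + t` with
`zget_ztab`/`poly_zget`, and `N t j` is `hN` with substituted variables (`PolyC.reindex`-type
argument; easiest: first store the matrix `N` itself as a table `ztab b (n * n)` with `poly_ztab`, and read
all entries by `poly_zget`).  `PolyN.div`, `PolyN.mod` are in `Pa7c826.Transfer` (positive divisor).  Hence
`trp n N k` for `k ≤ n` is `PolyZ`.
(2) Newton.  Let `|trp n N k| < 2 ^ c` for `k ≤ n` (`zbound1`).  With `e = n + n ^ 2 + c` one has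
`|nwT p k j| ≤ 2 ^ (e * j)` for `k ≤ n` (`k.descFactorial i ≤ n ^ n ≤ 2 ^ (n ^ 2)`, at most `n ≤ 2 ^ n` terms).
The table `f a k j = nwT (trp n N) k j`, `j < n + 1`, by `poly_ztabRec` (store first the table of the
`trp n N (i + 1)`, `i < n`); `k.descFactorial i = ∏ t ∈ range i, (k - t)`
(`Nat.descFactorial_eq_prod_range`, `binProd`, `PolyN.sub`), sign by `PolyZ.negOnePow`.
`newtE n N = nwT (trp n N) n n`.
-/

set_option autoImplicit false

namespace Pool.Agent.Lib.Wsm

open Finset Equiv Pool.Agent.Lib.PolyTime Pool.Agent.Lib.Pa7c826 Pool.Agent.Lib.P8e91ed.PT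

namespace PNewtAux

section Subst

variable {α β : Type*} {D : α → Prop} {ctx : List (α → List Bool)} {E : β → Prop}
  {ctx' : List (β → List Bool)}

theorem csub2 {n r : α → ℕ} {t : (α × ℕ) × ℕ → List Bool}
    (ht : PolyC (Dx (Dx D n) (fun p => r p.1)) (cx (cx ctx)) t) {π : β → α} {i j : β → ℕ}
    (hE : ∀ b, E b → D (π b)) (hctx : ∀ f ∈ ctx, PolyC E ctx' (fun b => f (π b)))
    (hi : PolyN E ctx' i) (hj : PolyN E ctx' j)
    (hin : ∀ b, E b → i b < n (π b)) (hjr : ∀ b, E b → j b < r (π b)) :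
    PolyC E ctx' (fun b => t ((π b, i b), j b)) := by
  have h1 := ht.reindex (D' := E) (fun b => ((π b, i b), j b))
    (fun b hb => ⟨⟨hE b hb, hin b hb⟩, hjr b hb⟩)
  refine h1.comp ?_
  intro g hg
  simp only [cx, PolyTime.lift, List.map_append, List.map_map, List.mem_append, List.mem_map,
    List.map_cons, List.map_nil, List.mem_cons, List.not_mem_nil, or_false] at hg
  rcases hg with (⟨f, hf, rfl⟩ | rfl) | rfl
  · exact hctx f hf
  · exact hi
  · exact hj

theorem csub1 {n : α → ℕ} {t : α × ℕ → List Bool}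
    (ht : PolyC (Dx D n) (cx ctx) t) {π : β → α} {i : β → ℕ}
    (hE : ∀ b, E b → D (π b)) (hctx : ∀ f ∈ ctx, PolyC E ctx' (fun b => f (π b)))
    (hi : PolyN E ctx' i) (hin : ∀ b, E b → i b < n (π b)) :
    PolyC E ctx' (fun b => t (π b, i b)) := by
  have h1 := ht.reindex (D' := E) (fun b => (π b, i b))
    (fun b hb => ⟨hE b hb, hin b hb⟩)
  refine h1.comp ?_
  intro g hg
  simp only [cx, PolyTime.lift, List.map_append, List.map_map, List.mem_append, List.mem_map,
    List.map_cons, List.map_nil, List.mem_cons, List.not_mem_nil, or_false] at hg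
  rcases hg with ⟨f, hf, rfl⟩ | rfl
  · exact hctx f hf
  · exact hi

theorem zsub2 {n r : α → ℕ} {t : (α × ℕ) × ℕ → ℤ}
    (ht : PolyZ (Dx (Dx D n) (fun p => r p.1)) (cx (cx ctx)) t) {π : β → α} {i j : β → ℕ}
    (hE : ∀ b, E b → D (π b)) (hctx : ∀ f ∈ ctx, PolyC E ctx' (fun b => f (π b)))
    (hi : PolyN E ctx' i) (hj : PolyN E ctx' j)
    (hin : ∀ b, E b → i b < n (π b)) (hjr : ∀ b, E b → j b < r (π b)) :
    PolyZ E ctx' (fun b => t ((π b, i b), j b)) := by
  obtain ⟨P, Q, ⟨u, h1, h2⟩, ⟨v, h3, h4⟩, h5⟩ := ht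
  refine ⟨fun b => P ((π b, i b), j b), fun b => Q ((π b, i b), j b),
    ⟨_, csub2 h1 hE hctx hi hj hin hjr, fun b hb => h2 _ ⟨⟨hE b hb, hin b hb⟩, hjr b hb⟩⟩,
    ⟨_, csub2 h3 hE hctx hi hj hin hjr, fun b hb => h4 _ ⟨⟨hE b hb, hin b hb⟩, hjr b hb⟩⟩,
    fun b hb => h5 _ ⟨⟨hE b hb, hin b hb⟩, hjr b hb⟩⟩

theorem zsub1 {n : α → ℕ} {t : α × ℕ → ℤ}
    (ht : PolyZ (Dx D n) (cx ctx) t) {π : β → α} {i : β → ℕ}
    (hE : ∀ b, E b → D (π b)) (hctx : ∀ f ∈ ctx, PolyC E ctx' (fun b => f (π b)))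
    (hi : PolyN E ctx' i) (hin : ∀ b, E b → i b < n (π b)) :
    PolyZ E ctx' (fun b => t (π b, i b)) := by
  obtain ⟨P, Q, ⟨u, h1, h2⟩, ⟨v, h3, h4⟩, h5⟩ := ht
  exact ⟨fun b => P (π b, i b), fun b => Q (π b, i b),
    ⟨_, csub1 h1 hE hctx hi hin, fun b hb => h2 _ ⟨hE b hb, hin b hb⟩⟩,
    ⟨_, csub1 h3 hE hctx hi hin, fun b hb => h4 _ ⟨hE b hb, hin b hb⟩⟩,
    fun b hb => h5 _ ⟨hE b hb, hin b hb⟩⟩

end Subst

variable {α : Type*} {D : α → Prop} {ctx : List (α → List Bool)}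

theorem rd {W M y : α → ℕ} {f : α → ℕ → ℤ} {t : α → List Bool} (hW : PolyN D ctx W)
    (ht : PolyC D ctx t) (he : ∀ a, D a → t a = ztab (W a) (M a) (f a))
    (hy : PolyN D ctx y) (hyN : ∀ a, D a → y a < M a)
    (hb : ∀ a, D a → |f a (y a)| < 2 ^ W a) : PolyZ D ctx (fun a => f a (y a)) :=
  (poly_zget hW ht hy).congr (fun a ha => by rw [he a ha, zget_ztab (hyN a ha) (hb a ha)])

theorem z_one : PolyZ D ctx (fun _ => 1) :=
  (PolyZ.ofBin (bin_const 1)).congr (fun _ _ => by simp)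

theorem z_zero : PolyZ D ctx (fun _ => 0) :=
  (PolyZ.ofBin (bin_const 0)).congr (fun _ _ => by simp)

theorem mpow_le {n b : ℕ} {N : ℕ → ℕ → ℤ} (hb : ∀ i < n, ∀ j < n, |N i j| < 2 ^ b) (k : ℕ) :
    ∀ i < n, ∀ j < n, |mpow n N k i j| ≤ 2 ^ ((n + b) * k) := by
  induction k with
  | zero =>
    intro i _ j _
    simp only [mpow, mul_zero, pow_zero]
    split_ifs <;> simp
  | succ k ih =>
    intro i hi j hj
    rw [mpow]
    calc |∑ t ∈ range n, mpow n N k i t * N t j|
        ≤ ∑ t ∈ range n, |mpow n N k i t * N t j| := Finset.abs_sum_le_sum_abs _ _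
      _ ≤ ∑ _t ∈ range n, (2 ^ ((n + b) * k) * 2 ^ b : ℤ) := by
          apply Finset.sum_le_sum
          intro t ht
          rw [abs_mul]
          exact mul_le_mul (ih i hi t (Finset.mem_range.1 ht)) (hb t (Finset.mem_range.1 ht) j hj).le
            (abs_nonneg _) (by positivity)
      _ = (n : ℤ) * (2 ^ ((n + b) * k) * 2 ^ b) := by
          rw [Finset.sum_const, Finset.card_range, nsmul_eq_mul]
      _ ≤ 2 ^ n * (2 ^ ((n + b) * k) * 2 ^ b) := by
          apply mul_le_mul_of_nonneg_right _ (by positivity)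
          exact_mod_cast (Nat.lt_two_pow_self (n := n)).le
      _ = 2 ^ ((n + b) * (k + 1)) := by
          rw [Nat.mul_succ, pow_add, pow_add]
          ring

theorem mpow_lt {n b : ℕ} {N : ℕ → ℕ → ℤ} (hb : ∀ i < n, ∀ j < n, |N i j| < 2 ^ b) {k : ℕ}
    (hk : k ≤ n) {i j : ℕ} (hi : i < n) (hj : j < n) :
    |mpow n N k i j| < 2 ^ ((n + b) * n + 1) := by
  refine (mpow_le hb k i hi j hj).trans_lt ?_
  have h1 : (n + b) * k ≤ (n + b) * n := Nat.mul_le_mul_left _ hk
  exact pow_lt_pow_right₀ (by norm_num) (by omega)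

theorem poly_mpowTab {n k b : α → ℕ} {N : α → ℕ → ℕ → ℤ} (hn : PolyN D ctx n)
    (hN : PolyZ (Dx (Dx D n) (fun p => n p.1)) (cx (cx ctx)) (fun q => N q.1.1 q.1.2 q.2))
    (hk : PolyN D ctx k) (hkn : ∀ a, D a → k a ≤ n a) (hb : PolyN D ctx b)
    (hbd : ∀ a, D a → ∀ i < n a, ∀ j < n a, |N a i j| < 2 ^ b a) :
    PolyC D ctx (fun a => ztab ((n a + b a) * n a + 1) (n a * n a)
      (fun y => mpow (n a) (N a) (k a) (y / n a) (y % n a))) := by
  have hpos : ∀ {a : α} {y : ℕ}, y < n a * n a → 0 < n a := by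
    intro a y hy
    rcases Nat.eq_zero_or_pos (n a) with h | h
    · rw [h] at hy
      omega
    · exact h
  have hBd : PolyN D ctx (fun a => (n a + b a) * n a + 1) := ((hn.add hb).mul hn).succ
  have hNN : PolyN D ctx (fun a => n a * n a) := hn.mul hn
  refine poly_ztabRec (k := k) (N := fun a => n a * n a)
    (Bd := fun a => (n a + b a) * n a + 1)
    (f := fun a k y => mpow (n a) (N a) k (y / n a) (y % n a)) hk hNN hBd ?_ ?_ ?_
  · intro a ha t ht y hy
    have h0 := hpos hy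
    exact mpow_lt (hbd a ha) (ht.trans (hkn a ha)) (Nat.div_lt_of_lt_mul hy)
      (Nat.mod_lt _ h0)
  · have h1 : PolyN (Dx D (fun a => n a * n a)) (cx ctx) (fun p => p.2 / n p.1) :=
      PolyN.div nL (nU hn) (fun p hp => hpos hp.2)
    have h2 : PolyN (Dx D (fun a => n a * n a)) (cx ctx) (fun p => p.2 % n p.1) :=
      PolyN.mod nL (nU hn) (fun p hp => hpos hp.2)
    exact PolyZ.ite (PolyP.eq h1 h2) z_one z_zero
  · -- the step
    obtain ⟨DS, hDS⟩ : ∃ DS : α × ℕ → Prop, DS = fun p => D p.1 ∧ p.2 < k p.1 := ⟨_, rfl⟩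
    obtain ⟨tb, htb⟩ : ∃ tb : α × ℕ → List Bool, tb = fun p =>
      ztab ((n p.1 + b p.1) * n p.1 + 1) (n p.1 * n p.1)
        (fun y => mpow (n p.1) (N p.1) p.2 (y / n p.1) (y % n p.1)) := ⟨_, rfl⟩
    rw [← hDS, ← htb]
    obtain ⟨cS, hcS⟩ : ∃ cS : List (α × ℕ → List Bool), cS =
      PolyTime.lift ctx ++ [fun p => un p.2, tb] := ⟨_, rfl⟩
    rw [← hcS]
    have bC : ∀ {g : α → List Bool}, PolyC D ctx g → PolyC DS cS (fun p => g p.1) := by
      intro g hg
      rw [hDS, hcS]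
      exact up2 hg
    have bn : PolyN DS cS (fun p => n p.1) := bC hn
    have bk : PolyN DS cS (fun p => p.2) := by
      rw [hcS]
      exact PolyC.var (by simp)
    have bt : PolyC DS cS tb := by
      rw [hcS]
      exact PolyC.var (by simp)
    have bB : PolyN DS cS (fun p => (n p.1 + b p.1) * n p.1 + 1) := bC hBd
    have hD1 : ∀ p, DS p → D p.1 ∧ p.2 < k p.1 := fun p hp => by rwa [hDS] at hp
    have key : PolyZ (Dx DS (fun p => n p.1 * n p.1)) (cx cS) (fun q =>
        ∑ t ∈ range (n q.1.1), mpow (n q.1.1) (N q.1.1) q.1.2 (q.2 / n q.1.1) t *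
          N q.1.1 t (q.2 % n q.1.1)) := by
      have e1 : PolyN (Dx DS (fun p => n p.1 * n p.1)) (cx cS) (fun q => n q.1.1) := nU bn
      have e2 : PolyN (Dx DS (fun p => n p.1 * n p.1)) (cx cS) (fun q => q.2 / n q.1.1) :=
        PolyN.div nL e1 (fun q hq => hpos hq.2)
      have e3 : PolyN (Dx DS (fun p => n p.1 * n p.1)) (cx cS) (fun q => q.2 % n q.1.1) :=
        PolyN.mod nL e1 (fun q hq => hpos hq.2)
      refine PolyZ.sum (n := fun q : (α × ℕ) × ℕ => n q.1.1)
        (f := fun q t => mpow (n q.1.1) (N q.1.1) q.1.2 (q.2 / n q.1.1) t *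
          N q.1.1 t (q.2 % n q.1.1)) e1 ?_
      refine PolyZ.mul ?_ ?_
      · have hy : PolyN (Dx (Dx DS (fun p => n p.1 * n p.1)) (fun q => n q.1.1)) (cx (cx cS))
            (fun s => (s.1.2 / n s.1.1.1) * n s.1.1.1 + s.2) :=
          ((nU e2).mul (nU e1)).add nL
        have hlt : ∀ s : ((α × ℕ) × ℕ) × ℕ,
            Dx (Dx DS (fun p => n p.1 * n p.1)) (fun q => n q.1.1) s →
            (s.1.2 / n s.1.1.1) < n s.1.1.1 ∧
            ((s.1.2 / n s.1.1.1) * n s.1.1.1 + s.2) / n s.1.1.1 = s.1.2 / n s.1.1.1 ∧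
            ((s.1.2 / n s.1.1.1) * n s.1.1.1 + s.2) % n s.1.1.1 = s.2 := by
          intro s hs
          have h0 := hpos hs.1.2
          have h1 : s.1.2 / n s.1.1.1 < n s.1.1.1 := Nat.div_lt_of_lt_mul hs.1.2
          have h2 : s.2 < n s.1.1.1 := hs.2
          refine ⟨h1, ?_, ?_⟩
          · rw [mul_comm, Nat.mul_add_div h0, Nat.div_eq_of_lt h2, add_zero]
          · rw [mul_comm, Nat.mul_add_mod, Nat.mod_eq_of_lt h2]
        refine (rd (W := fun s => (n s.1.1.1 + b s.1.1.1) * n s.1.1.1 + 1)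
          (M := fun s => n s.1.1.1 * n s.1.1.1)
          (f := fun s y => mpow (n s.1.1.1) (N s.1.1.1) s.1.1.2 (y / n s.1.1.1) (y % n s.1.1.1))
          (nU (nU bB)) (cU (cU bt)) (fun s _ => by rw [htb]) hy ?_ ?_).congr ?_
        · intro s hs
          obtain ⟨h1, _, _⟩ := hlt s hs
          have h2 : s.2 < n s.1.1.1 := hs.2
          calc (s.1.2 / n s.1.1.1) * n s.1.1.1 + s.2
              < (s.1.2 / n s.1.1.1) * n s.1.1.1 + n s.1.1.1 := by omega
            _ = (s.1.2 / n s.1.1.1 + 1) * n s.1.1.1 := by ring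
            _ ≤ n s.1.1.1 * n s.1.1.1 := Nat.mul_le_mul_right _ h1
        · intro s hs
          obtain ⟨h1, h2, h3⟩ := hlt s hs
          rw [h2, h3]
          have h4 := hD1 _ hs.1.1
          exact mpow_lt (hbd _ h4.1) (h4.2.le.trans (hkn _ h4.1)) h1 hs.2
        · intro s hs
          obtain ⟨h1, h2, h3⟩ := hlt s hs
          rw [h2, h3]
      · refine zsub2 hN (π := fun s : ((α × ℕ) × ℕ) × ℕ => s.1.1.1) (i := fun s => s.2)
          (j := fun s => s.1.2 % n s.1.1.1) ?_ ?_ nL (nU e3) ?_ ?_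
        · intro s hs
          exact (hD1 _ hs.1.1).1
        · intro f hf
          exact cU (cU (bC (PolyC.var hf)))
        · intro s hs
          exact hs.2
        · intro s hs
          exact Nat.mod_lt _ (hpos hs.1.2)
    exact key.congr (fun q _ => by rw [mpow])

theorem poly_trp {n k : α → ℕ} {N : α → ℕ → ℕ → ℤ} (hn : PolyN D ctx n)
    (hN : PolyZ (Dx (Dx D n) (fun p => n p.1)) (cx (cx ctx)) (fun q => N q.1.1 q.1.2 q.2))
    (hk : PolyN D ctx k) (hkn : ∀ a, D a → k a ≤ n a) :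
    PolyZ D ctx (fun a => trp (n a) (N a) (k a)) := by
  obtain ⟨b, hb, hbd⟩ := zbound2 hn hn hN
  have ht := poly_mpowTab hn hN hk hkn hb hbd
  have hB : PolyN D ctx (fun a => (n a + b a) * n a + 1) := ((hn.add hb).mul hn).succ
  refine PolyZ.sum (f := fun a i => mpow (n a) (N a) (k a) i i) hn ?_
  have hy : PolyN (Dx D n) (cx ctx) (fun p => p.2 * n p.1 + p.2) := (nL.mul (nU hn)).add nL
  have hlt : ∀ p : α × ℕ, Dx D n p → (p.2 * n p.1 + p.2) / n p.1 = p.2 ∧
      (p.2 * n p.1 + p.2) % n p.1 = p.2 := by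
    intro p hp
    have h2 : p.2 < n p.1 := hp.2
    have h0 : 0 < n p.1 := by omega
    refine ⟨?_, ?_⟩
    · rw [mul_comm, Nat.mul_add_div h0, Nat.div_eq_of_lt h2, add_zero]
    · rw [mul_comm, Nat.mul_add_mod, Nat.mod_eq_of_lt h2]
  refine (rd (W := fun p => (n p.1 + b p.1) * n p.1 + 1) (M := fun p => n p.1 * n p.1)
    (f := fun p y => mpow (n p.1) (N p.1) (k p.1) (y / n p.1) (y % n p.1))
    (nU hB) (cU ht) (fun _ _ => rfl) hy ?_ ?_).congr ?_
  · intro p hp
    have h2 : p.2 < n p.1 := hp.2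
    calc p.2 * n p.1 + p.2 < p.2 * n p.1 + n p.1 := by omega
      _ = (p.2 + 1) * n p.1 := by ring
      _ ≤ n p.1 * n p.1 := Nat.mul_le_mul_right _ h2
  · intro p hp
    obtain ⟨h2, h3⟩ := hlt p hp
    rw [h2, h3]
    exact mpow_lt (hbd _ hp.1) (hkn _ hp.1) hp.2 hp.2
  · intro p hp
    obtain ⟨h2, h3⟩ := hlt p hp
    rw [h2, h3]

theorem nwT_le {n c : ℕ} {p : ℕ → ℤ} (hp : ∀ k < n + 1, |p k| < 2 ^ c) (k : ℕ) (hk : k ≤ n) :
    ∀ j, |nwT p k j| ≤ 2 ^ ((n + n ^ 2 + c) * j) := by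
  induction k with
  | zero =>
    intro j
    simp only [nwT]
    split_ifs
    · simp only [abs_one]
      exact one_le_pow₀ (by norm_num)
    · simp only [abs_zero]
      positivity
  | succ k ih =>
    intro j
    rw [nwT]
    split_ifs with hj
    · subst hj
      have hterm : ∀ i ∈ range (k + 1),
          |(-1) ^ i * (k.descFactorial i : ℤ) * nwT p k (k - i) * p (i + 1)| ≤
            2 ^ (n ^ 2) * 2 ^ ((n + n ^ 2 + c) * k) * 2 ^ c := by
        intro i hi
        have hik : i ≤ k := Nat.lt_succ_iff.1 (Finset.mem_range.1 hi)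
        rw [abs_mul, abs_mul, abs_mul, abs_pow, abs_neg, abs_one, one_pow, one_mul]
        have h1 : |((k.descFactorial i : ℕ) : ℤ)| ≤ 2 ^ (n ^ 2) := by
          rw [Nat.abs_cast]
          have h2 : k.descFactorial i ≤ 2 ^ (n ^ 2) := by
            calc k.descFactorial i ≤ k ^ i := Nat.descFactorial_le_pow k i
              _ ≤ n ^ i := Nat.pow_le_pow_left (by omega) i
              _ ≤ n ^ n := Nat.pow_le_pow_right (by omega) (by omega)
              _ ≤ (2 ^ n) ^ n := Nat.pow_le_pow_left (Nat.lt_two_pow_self (n := n)).le n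
              _ = 2 ^ (n ^ 2) := by rw [← pow_mul, sq]
          exact_mod_cast h2
        have h3 : |nwT p k (k - i)| ≤ 2 ^ ((n + n ^ 2 + c) * k) := by
          refine (ih (by omega) (k - i)).trans ?_
          exact pow_le_pow_right₀ (by norm_num) (Nat.mul_le_mul_left _ (Nat.sub_le _ _))
        have h4 : |p (i + 1)| ≤ 2 ^ c := (hp (i + 1) (by omega)).le
        exact mul_le_mul (mul_le_mul h1 h3 (abs_nonneg _) (by positivity)) h4 (abs_nonneg _)
          (by positivity)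
      calc |∑ i ∈ range (k + 1), (-1) ^ i * (k.descFactorial i : ℤ) * nwT p k (k - i) * p (i + 1)|
          ≤ ∑ i ∈ range (k + 1),
              |(-1) ^ i * (k.descFactorial i : ℤ) * nwT p k (k - i) * p (i + 1)| :=
            Finset.abs_sum_le_sum_abs _ _
        _ ≤ ∑ _i ∈ range (k + 1), (2 ^ (n ^ 2) * 2 ^ ((n + n ^ 2 + c) * k) * 2 ^ c : ℤ) :=
            Finset.sum_le_sum hterm
        _ = ((k + 1 : ℕ) : ℤ) * (2 ^ (n ^ 2) * 2 ^ ((n + n ^ 2 + c) * k) * 2 ^ c) := by
            rw [Finset.sum_const, Finset.card_range, nsmul_eq_mul]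
        _ ≤ 2 ^ n * (2 ^ (n ^ 2) * 2 ^ ((n + n ^ 2 + c) * k) * 2 ^ c) := by
            apply mul_le_mul_of_nonneg_right _ (by positivity)
            have h5 : k + 1 ≤ 2 ^ n := hk.trans (Nat.lt_two_pow_self (n := n)).le
            exact_mod_cast h5
        _ = 2 ^ ((n + n ^ 2 + c) * (k + 1)) := by
            rw [Nat.mul_succ, pow_add, pow_add, pow_add]
            ring
    · exact ih (by omega) j

theorem nwT_lt {n c : ℕ} {p : ℕ → ℤ} (hp : ∀ k < n + 1, |p k| < 2 ^ c) {k j : ℕ} (hk : k ≤ n)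
    (hj : j < n + 1) : |nwT p k j| < 2 ^ ((n + n ^ 2 + c) * n + 1) := by
  refine (nwT_le hp k hk j).trans_lt ?_
  have h1 : (n + n ^ 2 + c) * j ≤ (n + n ^ 2 + c) * n := Nat.mul_le_mul_left _ (by omega)
  exact pow_lt_pow_right₀ (by norm_num) (by omega)

theorem poly_nw {n c : α → ℕ} {p : α → ℕ → ℤ} (hn : PolyN D ctx n) (hc : PolyN D ctx c)
    (hp : PolyZ (Dx D (fun a => n a + 1)) (cx ctx) (fun q => p q.1 q.2))
    (hpc : ∀ a, D a → ∀ k < n a + 1, |p a k| < 2 ^ c a) :
    PolyZ D ctx (fun a => nwT (p a) (n a) (n a)) := by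
  have hBd : PolyN D ctx (fun a => (n a + n a ^ 2 + c a) * n a + 1) :=
    (((hn.add (PolyN.pow hn 2)).add hc).mul hn).succ
  have hN1 : PolyN D ctx (fun a => n a + 1) := hn.succ
  have htab : PolyC D ctx (fun a => ztab ((n a + n a ^ 2 + c a) * n a + 1) (n a + 1)
      (nwT (p a) (n a))) := by
    refine poly_ztabRec (k := n) (N := fun a => n a + 1)
      (Bd := fun a => (n a + n a ^ 2 + c a) * n a + 1)
      (f := fun a k j => nwT (p a) k j) hn hN1 hBd ?_ ?_ ?_
    · intro a ha t ht y hy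
      exact nwT_lt (hpc a ha) ht hy
    · exact PolyZ.ite (PolyP.eq nL (PolyN.const 0)) z_one z_zero
    · obtain ⟨DS, hDS⟩ : ∃ DS : α × ℕ → Prop, DS = fun p => D p.1 ∧ p.2 < n p.1 := ⟨_, rfl⟩
      obtain ⟨tb, htb⟩ : ∃ tb : α × ℕ → List Bool, tb = fun q =>
        ztab ((n q.1 + n q.1 ^ 2 + c q.1) * n q.1 + 1) (n q.1 + 1)
          (fun y => nwT (p q.1) q.2 y) := ⟨_, rfl⟩
      have htb' : (fun q : α × ℕ => ztab ((n q.1 + n q.1 ^ 2 + c q.1) * n q.1 + 1) (n q.1 + 1)
          (nwT (p q.1) q.2)) = tb := by rw [htb]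
      rw [← hDS, htb']
      obtain ⟨cS, hcS⟩ : ∃ cS : List (α × ℕ → List Bool), cS =
        PolyTime.lift ctx ++ [fun p => un p.2, tb] := ⟨_, rfl⟩
      rw [← hcS]
      have bC : ∀ {g : α → List Bool}, PolyC D ctx g → PolyC DS cS (fun p => g p.1) := by
        intro g hg
        rw [hDS, hcS]
        exact up2 hg
      have bk : PolyN DS cS (fun p => p.2) := by
        rw [hcS]
        exact PolyC.var (by simp)
      have bt : PolyC DS cS tb := by
        rw [hcS]
        exact PolyC.var (by simp)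
      have bB : PolyN DS cS (fun p => (n p.1 + n p.1 ^ 2 + c p.1) * n p.1 + 1) := bC hBd
      have hD1 : ∀ p, DS p → D p.1 ∧ p.2 < n p.1 := fun p hp => by rwa [hDS] at hp
      have key : PolyZ (Dx DS (fun q => n q.1 + 1)) (cx cS) (fun q =>
          if q.2 = q.1.2 + 1 then ∑ i ∈ range (q.1.2 + 1), (-1) ^ i *
            (q.1.2.descFactorial i : ℤ) * nwT (p q.1.1) q.1.2 (q.1.2 - i) * p q.1.1 (i + 1)
          else nwT (p q.1.1) q.1.2 q.2) := by
        refine PolyZ.ite (PolyP.eq nL (nU bk).succ) ?_ ?_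
        · refine PolyZ.mono (D := Dx DS (fun q => n q.1 + 1)) ?_ (fun q h => h.1)
          refine PolyZ.sum (n := fun q : (α × ℕ) × ℕ => q.1.2 + 1)
            (f := fun q i => (-1) ^ i * (q.1.2.descFactorial i : ℤ) *
              nwT (p q.1.1) q.1.2 (q.1.2 - i) * p q.1.1 (i + 1)) (nU bk).succ ?_
          have gk : PolyN (Dx (Dx DS (fun q => n q.1 + 1)) (fun q => q.1.2 + 1)) (cx (cx cS))
              (fun s => s.1.1.2) := nU (nU bk)
          have gi : PolyN (Dx (Dx DS (fun q => n q.1 + 1)) (fun q => q.1.2 + 1)) (cx (cx cS))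
              (fun s => s.2) := nL
          refine PolyZ.mul (PolyZ.mul (PolyZ.mul (PolyZ.negOnePow gi) ?_) ?_) ?_
          · refine PolyZ.ofBin ?_
            refine (binProd (n := fun s : ((α × ℕ) × ℕ) × ℕ => s.2)
              (f := fun s t => s.1.1.2 - t) gi (bin_ofN (PolyN.sub (nU gk) nL))).congr ?_
            intro s _
            rw [Nat.descFactorial_eq_prod_range]
          · refine rd (W := fun s => (n s.1.1.1 + n s.1.1.1 ^ 2 + c s.1.1.1) * n s.1.1.1 + 1)
              (M := fun s => n s.1.1.1 + 1) (f := fun s y => nwT (p s.1.1.1) s.1.1.2 y)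
              (nU (nU bB)) (cU (cU bt)) (fun s _ => by rw [htb]) (PolyN.sub gk gi) ?_ ?_
            · intro s hs
              have := (hD1 _ hs.1.1).2
              omega
            · intro s hs
              have h1 := hD1 _ hs.1.1
              exact nwT_lt (hpc _ h1.1) h1.2.le (by omega)
          · refine zsub1 hp (π := fun s : ((α × ℕ) × ℕ) × ℕ => s.1.1.1)
              (i := fun s => s.2 + 1) ?_ ?_ gi.succ ?_
            · intro s hs
              exact (hD1 _ hs.1.1).1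
            · intro f hf
              exact cU (cU (bC (PolyC.var hf)))
            · intro s hs
              have h1 := (hD1 _ hs.1.1).2
              have h2 : s.2 < s.1.1.2 + 1 := hs.2
              show s.2 + 1 < n s.1.1.1 + 1
              omega
        · refine PolyZ.mono (D := Dx DS (fun q => n q.1 + 1)) ?_ (fun q h => h.1)
          refine rd (W := fun s => (n s.1.1 + n s.1.1 ^ 2 + c s.1.1) * n s.1.1 + 1)
            (M := fun s => n s.1.1 + 1) (f := fun s y => nwT (p s.1.1) s.1.2 y)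
            (nU bB) (cU bt) (fun s _ => by rw [htb]) nL ?_ ?_
          · intro s hs
            exact hs.2
          · intro s hs
            have h1 := hD1 _ hs.1
            exact nwT_lt (hpc _ h1.1) h1.2.le hs.2
      exact key.congr (fun q _ => by rw [nwT])
  exact rd (W := fun a => (n a + n a ^ 2 + c a) * n a + 1) (M := fun a => n a + 1)
    (f := fun a => nwT (p a) (n a)) hBd htab (fun _ _ => rfl) hn (fun _ _ => Nat.lt_succ_self _)
    (fun a ha => nwT_lt (hpc a ha) le_rfl (Nat.lt_succ_self _))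

end PNewtAux

variable {α : Type*} {D : α → Prop} {ctx : List (α → List Bool)}

theorem poly_newtE {n : α → ℕ} {N : α → ℕ → ℕ → ℤ} (hn : PolyN D ctx n)
    (hN : PolyZ (Dx (Dx D n) (fun p => n p.1)) (cx (cx ctx)) (fun q => N q.1.1 q.1.2 q.2)) :
    PolyZ D ctx (fun a => newtE (n a) (N a)) := by
  have hT : PolyZ (Dx D (fun a => n a + 1)) (cx ctx) (fun q => trp (n q.1) (N q.1) q.2) := by
    refine PNewtAux.poly_trp (n := fun q : α × ℕ => n q.1) (N := fun q => N q.1)
      (k := fun q => q.2) (nU hn) ?_ nL (fun q hq => Nat.lt_succ_iff.1 hq.2)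
    refine PNewtAux.zsub2 hN (π := fun s : ((α × ℕ) × ℕ) × ℕ => s.1.1.1)
      (i := fun s => s.1.2) (j := fun s => s.2) ?_ ?_ (nU nL) nL ?_ ?_
    · intro s hs
      exact hs.1.1.1
    · intro f hf
      exact cU (cU (cU (PolyC.var hf)))
    · intro s hs
      exact hs.1.2
    · intro s hs
      exact hs.2
  obtain ⟨c, hc, hcb⟩ := zbound1 (n := fun a => n a + 1) (f := fun a k => trp (n a) (N a) k)
    hn.succ hT
  exact PNewtAux.poly_nw hn hc hT hcb

end Pool.Agent.Lib.Wsm
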