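import Pool.Agent.Lib.Wsm.PRne
import Pool.Agent.Lib.Wsm.PCycB

/-!
# Polynomial time: the whole step

MODULE Wsm.PNext (1.5 h): prove `poly_next`.  Auxiliary lemmas: namespace
`Pool.Agent.Lib.Wsm.PNextAux`.  Imports are black boxes.

`labs`: `PolyC.natRec` with `F a s = (d a).labs s` (length `s`); in the step the data are `hd.weak`, the list
`labs s` is the last variable of the context, `c_ite`/`PolyC.ite` and `poly_Rne`.
`frontT`: `poly_mk3`, `poly_g3`, `b_ofP` (conjunctions of equalities).  `Tied`, `SelP`, `SelW`: `PolyP` for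
variable `w`, `j` and variable table `tb`.  `stepB`: `c_ite`, `poly_lst`.  `tbs`: `PolyC.natRec` (length at most
`|tB| + n * (n * n)`, `mk3_length`).  `CurN`, `refN`: `poly_g2`, `poly_befN`.  `rejT`: `PolyC.natRec` (length
`n * n`).  `daBits`: `poly_mk2`.  `next`: `c_ite`, `PolyC.cons`.
-/

set_option autoImplicit false

namespace Pool.Agent.Lib.Wsm

open Finset Equiv Pool.Agent.Lib.PolyTime Pool.Agent.Lib.Pa7c826 Pool.Agent.Lib.P8e91ed.PT

variable {α : Type*} {D : α → Prop} {ctx : List (α → List Bool)} {d : α → Dat}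

namespace PNextAux

theorem labs_length (d : Dat) (s : ℕ) : (d.labs s).length = s := by
  induction s with
  | zero => simp [Dat.labs]
  | succ s ih => simp [Dat.labs, ih]

theorem poly_labs (hd : PDat D ctx d) {s : α → ℕ} (hs : PolyN D ctx s) :
    PolyC D ctx (fun a => (d a).labs (s a)) := by
  obtain ⟨ps, hps⟩ := PolyC.length_le hs
  refine PolyC.natRec (fun a k => (d a).labs k) hs (PolyC.nil.congr (fun _ _ => rfl)) ?_
    ⟨ps, fun a ha k hk => ?_⟩
  · have hd' : PDat (fun p : α × ℕ => D p.1 ∧ p.2 < s p.1)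
        (PolyTime.lift ctx ++ [fun p => un p.2, fun p => (d p.1).labs p.2]) (fun p => d p.1) :=
      hd.weak (fun p hp => hp.1) _
    have hL : PolyC (fun p : α × ℕ => D p.1 ∧ p.2 < s p.1)
        (PolyTime.lift ctx ++ [fun p => un p.2, fun p => (d p.1).labs p.2])
        (fun p => (d p.1).labs p.2) := PolyC.var (by simp)
    have hR := poly_Rne hd' (hL.append (PolyC.const [false])) hd'.tB
    classical
    have h2 : PolyC (fun p : α × ℕ => D p.1 ∧ p.2 < s p.1)
        (PolyTime.lift ctx ++ [fun p => un p.2, fun p => (d p.1).labs p.2])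
        (fun p => (d p.1).labs p.2 ++
          if (d p.1).Rne ((d p.1).labs p.2 ++ [false]) (d p.1).tB then [false] else [true]) :=
      hL.append (c_ite hR (PolyC.const [false]) (PolyC.const [true]))
    refine h2.congr (fun p _ => ?_)
    simp only [Dat.labs]
    split_ifs <;> rfl
  · rw [labs_length]
    have h1 := hps a ha
    rw [un_length] at h1
    omega

variable {tb lab R : α → List Bool} {w j m : α → ℕ}

theorem poly_frontT (hd : PDat D ctx d) (htb : PolyC D ctx tb) (hw : PolyN D ctx w)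
    (hj : PolyN D ctx j) : PolyC D ctx (fun a => (d a).frontT (tb a) (w a) (j a)) := by
  unfold Dat.frontT
  refine poly_mk3 (f := fun a w' x b => g3 (d a).n (tb a) w' x b ||
    (decide (w' = w a ∧ x = j a ∧ b ≠ j a) && !g3 (d a).n (tb a) w' b x)) hd.n hd.n ?_
  have N3 : PolyN (Dx (Dx (Dx D (fun a => (d a).n)) (fun p => (d p.1).n))
      (fun q => (d q.1.1).n)) (cx (cx (cx ctx))) (fun q => (d q.1.1.1).n) := nU (nU (nU hd.n))
  have T3 : PolyC (Dx (Dx (Dx D (fun a => (d a).n)) (fun p => (d p.1).n))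
      (fun q => (d q.1.1).n)) (cx (cx (cx ctx))) (fun q => tb q.1.1.1) := cU (cU (cU htb))
  have W3 : PolyN (Dx (Dx (Dx D (fun a => (d a).n)) (fun p => (d p.1).n))
      (fun q => (d q.1.1).n)) (cx (cx (cx ctx))) (fun q => w q.1.1.1) := nU (nU (nU hw))
  have J3 : PolyN (Dx (Dx (Dx D (fun a => (d a).n)) (fun p => (d p.1).n))
      (fun q => (d q.1.1).n)) (cx (cx (cx ctx))) (fun q => j q.1.1.1) := nU (nU (nU hj))
  have I1 : PolyN (Dx (Dx (Dx D (fun a => (d a).n)) (fun p => (d p.1).n))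
      (fun q => (d q.1.1).n)) (cx (cx (cx ctx))) (fun q => q.1.1.2) := nU (nU nL)
  have I2 : PolyN (Dx (Dx (Dx D (fun a => (d a).n)) (fun p => (d p.1).n))
      (fun q => (d q.1.1).n)) (cx (cx (cx ctx))) (fun q => q.1.2) := nU nL
  have I3 : PolyN (Dx (Dx (Dx D (fun a => (d a).n)) (fun p => (d p.1).n))
      (fun q => (d q.1.1).n)) (cx (cx (cx ctx))) (fun q => q.2) := nL
  exact (poly_g3 N3 T3 I1 I2 I3).or ((b_ofP ((PolyP.eq I1 W3).and ((PolyP.eq I2 J3).and
    (PolyP.eq I3 J3).not))).and (poly_g3 N3 T3 I1 I3 I2).not)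

theorem poly_Tied (hd : PDat D ctx d) (htb : PolyC D ctx tb) (hw : PolyN D ctx w)
    (hj : PolyN D ctx j) : PolyP D ctx (fun a => (d a).Tied (tb a) (w a) (j a)) := by
  unfold Dat.Tied
  refine PolyP.exists_range (P := fun a i => i ≠ j a ∧ g3 (d a).n (tb a) (w a) i (j a) = false ∧
    g3 (d a).n (tb a) (w a) (j a) i = false) hd.n ?_
  exact (PolyP.eq nL (nU hj)).not.and
    ((p_eqB (poly_g3 (nU hd.n) (cU htb) (nU hw) nL (nU hj)) (PolyB.const false)).and
      (p_eqB (poly_g3 (nU hd.n) (cU htb) (nU hw) (nU hj) nL) (PolyB.const false)))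

theorem poly_SelP (hd : PDat D ctx d) (hlab : PolyC D ctx lab) (htb : PolyC D ctx tb)
    (hw : PolyN D ctx w) (hj : PolyN D ctx j) :
    PolyP D ctx (fun a => (d a).SelP (lab a) (tb a) (w a) (j a)) :=
  (poly_Tied hd htb hw hj).and (poly_Rne hd hlab (poly_frontT hd htb hw hj))

theorem poly_SelW (hd : PDat D ctx d) (hlab : PolyC D ctx lab) (htb : PolyC D ctx tb)
    (hw : PolyN D ctx w) : PolyP D ctx (fun a => (d a).SelW (lab a) (tb a) (w a)) :=
  PolyP.exists_range (P := fun a j => (d a).SelP (lab a) (tb a) (w a) j) hd.n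
    (poly_SelP hd.up (cU hlab) (cU htb) (nU hw) nL)

theorem poly_stepB (hd : PDat D ctx d) (hlab : PolyC D ctx lab) (htb : PolyC D ctx tb) :
    PolyC D ctx (fun a => (d a).stepB (lab a) (tb a)) := by
  have hW : PolyN D ctx (fun a => lst (d a).n (fun w => (d a).SelW (lab a) (tb a) w)) :=
    poly_lst (P := fun a w => (d a).SelW (lab a) (tb a) w) hd.n
      (poly_SelW hd.up (cU hlab) (cU htb) nL)
  have hJ : PolyN D ctx (fun a => lst (d a).n (fun j => (d a).SelP (lab a) (tb a)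
      (lst (d a).n (fun w => (d a).SelW (lab a) (tb a) w)) j)) :=
    poly_lst (P := fun a j => (d a).SelP (lab a) (tb a)
      (lst (d a).n (fun w => (d a).SelW (lab a) (tb a) w)) j) hd.n
      (poly_SelP hd.up (cU hlab) (cU htb) (nU hW) nL)
  exact c_ite (PolyP.exists_range (P := fun a w => (d a).SelW (lab a) (tb a) w) hd.n
    (poly_SelW hd.up (cU hlab) (cU htb) nL)) (poly_frontT hd htb hW hJ) htb

theorem tbs_length (d : Dat) (lab : List Bool) (r : ℕ) :
    (d.tbs lab r).length ≤ d.tB.length + d.n * (d.n * d.n) := by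
  induction r with
  | zero => simp [Dat.tbs]
  | succ r ih =>
    simp only [Dat.tbs, Dat.stepB]
    split_ifs
    · rw [Dat.frontT, mk3_length]
      omega
    · exact ih

theorem poly_tbs (hd : PDat D ctx d) (hlab : PolyC D ctx lab) {s : α → ℕ}
    (hs : PolyN D ctx s) : PolyC D ctx (fun a => (d a).tbs (lab a) (s a)) := by
  obtain ⟨pB, hpB⟩ := PolyC.length_le hd.tB
  obtain ⟨pn, hpn⟩ := PolyC.length_le hd.n
  refine PolyC.natRec (fun a k => (d a).tbs (lab a) k) hs (hd.tB.congr (fun _ _ => rfl)) ?_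
    ⟨pB + pn * (pn * pn), fun a ha k hk => ?_⟩
  · have hd' : PDat (fun p : α × ℕ => D p.1 ∧ p.2 < s p.1)
        (PolyTime.lift ctx ++ [fun p => un p.2, fun p => (d p.1).tbs (lab p.1) p.2])
        (fun p => d p.1) := hd.weak (fun p hp => hp.1) _
    have hlab' : PolyC (fun p : α × ℕ => D p.1 ∧ p.2 < s p.1)
        (PolyTime.lift ctx ++ [fun p => un p.2, fun p => (d p.1).tbs (lab p.1) p.2])
        (fun p => lab p.1) := cWeak hlab (fun p hp => hp.1) _
    have hL : PolyC (fun p : α × ℕ => D p.1 ∧ p.2 < s p.1)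
        (PolyTime.lift ctx ++ [fun p => un p.2, fun p => (d p.1).tbs (lab p.1) p.2])
        (fun p => (d p.1).tbs (lab p.1) p.2) := PolyC.var (by simp)
    exact poly_stepB hd' hlab' hL
  · have h1 := hpB a ha
    have h2 := hpn a ha
    rw [un_length] at h2
    refine (tbs_length _ _ _).trans ?_
    simp only [Polynomial.eval_mul, Polynomial.eval_add]
    exact Nat.add_le_add h1 (Nat.mul_le_mul h2 (Nat.mul_le_mul h2 h2))

theorem poly_CurN (hd : PDat D ctx d) (htb : PolyC D ctx tb) (hR : PolyC D ctx R)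
    (hw : PolyN D ctx w) (hm : PolyN D ctx m) :
    PolyP D ctx (fun a => (d a).CurN (tb a) (R a) (w a) (m a)) := by
  unfold Dat.CurN
  refine (p_eqB (poly_g2 hd.n hR hw hm) (PolyB.const false)).and
    (PolyP.forall_range (P := fun a m' => g3 (d a).n (tb a) (w a) m' (m a) = true →
      g2 (d a).n (R a) (w a) m' = true) hd.n ?_)
  exact (PolyP.ofB (poly_g3 (nU hd.n) (cU htb) (nU hw) nL (nU hm))).imp
    (PolyP.ofB (poly_g2 (nU hd.n) (cU hR) (nU hw) nL))

theorem poly_refN (hd : PDat D ctx d) (hlab : PolyC D ctx lab) (hm : PolyN D ctx m)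
    (hw : PolyN D ctx w) (hj : PolyN D ctx j) :
    PolyB D ctx (fun a => (d a).refN (lab a) (m a) (w a) (j a)) :=
  poly_befN hd hm hw (poly_g2 hd.n hlab hm hw) hj (poly_g2 hd.n hlab hm hj)

theorem rejT_length (d : Dat) (lab tb : List Bool) (t : ℕ) :
    (d.rejT lab tb t).length = d.n * d.n := by
  cases t with
  | zero => rw [Dat.rejT, mk2_length]
  | succ t => rw [Dat.rejT, mk2_length]

theorem poly_rejT (hd : PDat D ctx d) (hlab : PolyC D ctx lab) (htb : PolyC D ctx tb)
    {s : α → ℕ} (hs : PolyN D ctx s) :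
    PolyC D ctx (fun a => (d a).rejT (lab a) (tb a) (s a)) := by
  obtain ⟨pn, hpn⟩ := PolyC.length_le hd.n
  refine PolyC.natRec (fun a k => (d a).rejT (lab a) (tb a) k) hs ?_ ?_
    ⟨pn * pn, fun a ha k hk => ?_⟩
  · exact poly_mk2 (f := fun _ _ _ => false) hd.n hd.n (PolyB.const false)
  · have hE : ∀ p : α × ℕ, (D p.1 ∧ p.2 < s p.1) → D p.1 := fun p hp => hp.1
    have hd' : PDat (fun p : α × ℕ => D p.1 ∧ p.2 < s p.1)
        (PolyTime.lift ctx ++ [fun p => un p.2, fun p => (d p.1).rejT (lab p.1) (tb p.1) p.2])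
        (fun p => d p.1) := hd.weak hE _
    have hlab' : PolyC (fun p : α × ℕ => D p.1 ∧ p.2 < s p.1)
        (PolyTime.lift ctx ++ [fun p => un p.2, fun p => (d p.1).rejT (lab p.1) (tb p.1) p.2])
        (fun p => lab p.1) := cWeak hlab hE _
    have htb' : PolyC (fun p : α × ℕ => D p.1 ∧ p.2 < s p.1)
        (PolyTime.lift ctx ++ [fun p => un p.2, fun p => (d p.1).rejT (lab p.1) (tb p.1) p.2])
        (fun p => tb p.1) := cWeak htb hE _
    have hL : PolyC (fun p : α × ℕ => D p.1 ∧ p.2 < s p.1)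
        (PolyTime.lift ctx ++ [fun p => un p.2, fun p => (d p.1).rejT (lab p.1) (tb p.1) p.2])
        (fun p => (d p.1).rejT (lab p.1) (tb p.1) p.2) := PolyC.var (by simp)
    revert hd' hlab' htb' hL
    generalize (PolyTime.lift ctx ++ [fun p : α × ℕ => un p.2,
      fun p => (d p.1).rejT (lab p.1) (tb p.1) p.2]) = ctx'
    intro hd' hlab' htb' hL
    have hd2 : PDat (Dx (Dx (fun p : α × ℕ => D p.1 ∧ p.2 < s p.1) (fun p => (d p.1).n))
        (fun q => (d q.1.1).n)) (cx (cx ctx')) (fun q => d q.1.1.1) := hd'.up.up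
    have hlab2 : PolyC (Dx (Dx (fun p : α × ℕ => D p.1 ∧ p.2 < s p.1) (fun p => (d p.1).n))
        (fun q => (d q.1.1).n)) (cx (cx ctx')) (fun q => lab q.1.1.1) := cU (cU hlab')
    have htb2 : PolyC (Dx (Dx (fun p : α × ℕ => D p.1 ∧ p.2 < s p.1) (fun p => (d p.1).n))
        (fun q => (d q.1.1).n)) (cx (cx ctx')) (fun q => tb q.1.1.1) := cU (cU htb')
    have hL2 : PolyC (Dx (Dx (fun p : α × ℕ => D p.1 ∧ p.2 < s p.1) (fun p => (d p.1).n))
        (fun q => (d q.1.1).n)) (cx (cx ctx'))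
        (fun q => (d q.1.1.1).rejT (lab q.1.1.1) (tb q.1.1.1) q.1.1.2) := cU (cU hL)
    have I1 : PolyN (Dx (Dx (fun p : α × ℕ => D p.1 ∧ p.2 < s p.1) (fun p => (d p.1).n))
        (fun q => (d q.1.1).n)) (cx (cx ctx')) (fun q => q.1.2) := nU nL
    have I2 : PolyN (Dx (Dx (fun p : α × ℕ => D p.1 ∧ p.2 < s p.1) (fun p => (d p.1).n))
        (fun q => (d q.1.1).n)) (cx (cx ctx')) (fun q => q.2) := nL
    classical
    refine PolyC.congr (poly_mk2 (f := fun (p : α × ℕ) w m =>
      g2 (d p.1).n ((d p.1).rejT (lab p.1) (tb p.1) p.2) w m ||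
      decide ((d p.1).CurN (tb p.1) ((d p.1).rejT (lab p.1) (tb p.1) p.2) w m ∧
        ∃ w' ∈ range (d p.1).n, (d p.1).CurN (tb p.1) ((d p.1).rejT (lab p.1) (tb p.1) p.2)
          w' m ∧ (d p.1).refN (lab p.1) m w' w = true))
      hd'.n hd'.n ?_) (fun p _ => by rw [Dat.rejT])
    refine (poly_g2 hd2.n hL2 I1 I2).or (b_ofP ((poly_CurN hd2 htb2 hL2 I1 I2).and ?_))
    refine PolyP.exists_range (P := fun (q : ((α × ℕ) × ℕ) × ℕ) w' =>
      (d q.1.1.1).CurN (tb q.1.1.1) ((d q.1.1.1).rejT (lab q.1.1.1) (tb q.1.1.1) q.1.1.2)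
          w' q.2 ∧ (d q.1.1.1).refN (lab q.1.1.1) q.2 w' q.1.2 = true) hd2.n ?_
    exact (poly_CurN hd2.up (cU htb2) (cU hL2) nL (nU I2)).and
      (PolyP.ofB (poly_refN hd2.up (cU hlab2) (nU I2) nL (nU I1)))
  · rw [rejT_length]
    have h2 := hpn a ha
    rw [un_length] at h2
    rw [Polynomial.eval_mul]
    exact Nat.mul_le_mul h2 h2

theorem poly_daBits (hd : PDat D ctx d) : PolyC D ctx (fun a => (d a).daBits) := by
  have hnn := hd.n.mul hd.n
  have hlab : PolyC D ctx (fun a => (d a).lab) := poly_labs hd hnn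
  have htbf : PolyC D ctx (fun a => (d a).tbf) := poly_tbs hd hlab hnn
  have hrej : PolyC D ctx (fun a => (d a).rejT (d a).lab (d a).tbf ((d a).n * (d a).n)) :=
    poly_rejT hd hlab htbf hnn
  unfold Dat.daBits
  refine poly_mk2 (f := fun a m w => @decide ((d a).CurN (d a).tbf
    ((d a).rejT (d a).lab (d a).tbf ((d a).n * (d a).n)) w m) (Classical.propDecidable _))
    hd.n hd.n ?_
  exact b_ofP (poly_CurN (d := fun q : (α × ℕ) × ℕ => d q.1.1) hd.up.up (cU (cU htbf))
    (cU (cU hrej)) nL (nU nL))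

end PNextAux

open PNextAux

theorem poly_next (hd : PDat D ctx d) : PolyC D ctx (fun a => (d a).next) :=
  c_ite (poly_C5 hd) (PolyC.cons true (poly_cycBits hd))
    (c_ite (poly_Rne hd PolyC.nil hd.tB) (PolyC.cons true (poly_daBits hd)) PolyC.nil)

end Pool.Agent.Lib.Wsm
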