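import Pool.Agent.Lib.Wsm.PCycA

/-!
# Polynomial time: the entries of the integer matrix

MODULE Wsm.PNn (1.5 h).  Auxiliary lemmas: namespace `Pool.Agent.Lib.Wsm.PNnAux`.  Imports are
black boxes; toolkit: `Pool/Agent/Lib/P8e91ed/PolyBin.lean` (`PolyZ.ite`, `PolyZ.mul`, `PolyZ.prod`, ...).

All are compositions: `u2`, `y2` are `PolyN` (`n_ite`, `PolyN.add`; products of naturals in `ℤ` via
`PolyZ.ofBin (bin_ofN _)` and `push_cast`), `p1`, `s1`, `Fw`, `Da`, `Dn`, `Qab`, `Qn`, `Nn` are `PolyZ`.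
Bool arguments are functions `α → Bool` with `PolyB` (constants: `PolyB.const`); `decide (b < b')` is
`!b && b'`.
-/

set_option autoImplicit false

namespace Pool.Agent.Lib.Wsm

open Finset Equiv Pool.Agent.Lib.PolyTime Pool.Agent.Lib.Pa7c826 Pool.Agent.Lib.P8e91ed.PT

variable {α : Type*} {D : α → Prop} {ctx : List (α → List Bool)} {d : α → Dat}

namespace PNnAux

theorem zite {P : α → Prop} {_ : ∀ a, Decidable (P a)} {f g : α → ℤ} (hP : PolyP D ctx P)
    (hf : PolyZ D ctx f) (hg : PolyZ D ctx g) :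
    PolyZ D ctx (fun a => if P a then f a else g a) :=
  PolyZ.ite hP (hf.mono fun _ h => h.1) (hg.mono fun _ h => h.1)

theorem nite {P : α → Prop} {_ : ∀ a, Decidable (P a)} {f g : α → ℕ} (hP : PolyP D ctx P)
    (hf : PolyN D ctx f) (hg : PolyN D ctx g) :
    PolyN D ctx (fun a => if P a then f a else g a) :=
  n_ite hP (PolyC.mono hf fun _ h => h.1) (PolyC.mono hg fun _ h => h.1)

theorem zN {f : α → ℕ} (hf : PolyN D ctx f) : PolyZ D ctx (fun a => (f a : ℤ)) :=
  PolyZ.ofBin (bin_ofN hf)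

theorem zOne : PolyZ D ctx (fun _ => (1 : ℤ)) :=
  (zN (PolyN.const 1)).congr (fun _ _ => by simp)

theorem zZero : PolyZ D ctx (fun _ => (0 : ℤ)) :=
  (zN (PolyN.const 0)).congr (fun _ _ => by simp)

theorem zTwo : PolyZ D ctx (fun _ => (2 : ℤ)) :=
  (zN (PolyN.const 2)).congr (fun _ _ => by simp)

theorem zsub {f g : α → ℤ} (hf : PolyZ D ctx f) (hg : PolyZ D ctx g) :
    PolyZ D ctx (fun a => f a - g a) :=
  (hf.add hg.neg).congr (fun _ _ => by ring)

theorem bLt {b b' : α → Bool} (hb : PolyB D ctx b) (hb' : PolyB D ctx b') :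
    PolyB D ctx (fun a => decide (b a < b' a)) :=
  (hb.not.and hb').congr (fun a _ => by cases b a <;> cases b' a <;> rfl)

end PNnAux

open PNnAux

theorem poly_befN (hd : PDat D ctx d) {m w w' : α → ℕ} {b b' : α → Bool}
    (hm : PolyN D ctx m) (hw : PolyN D ctx w) (hb : PolyB D ctx b) (hw' : PolyN D ctx w')
    (hb' : PolyB D ctx b') :
    PolyB D ctx (fun a => (d a).befN (m a) (w a) (b a) (w' a) (b' a)) := by
  have h1 := poly_g3 hd.n hd.tA hm hw hw'
  have h2 := poly_g3 hd.n hd.tA hm hw' hw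
  have h3 := bLt hb hb'
  have h4 : PolyB D ctx (fun a => decide (b a = b' a)) := b_ofP (p_eqB hb hb')
  have h5 := PolyB.lt hw hw'
  exact h1.or (h2.not.and (h3.or (h4.and h5)))

namespace PNnAux

theorem poly_u2 (hd : PDat D ctx d) {lab : α → List Bool} (hlab : PolyC D ctx lab)
    {m w : α → ℕ} {b : α → Bool} (hm : PolyN D ctx m) (hw : PolyN D ctx w)
    (hb : PolyB D ctx b) :
    PolyN D ctx (fun a => (d a).u2 (lab a) (m a) (w a) (b a)) := by
  have h1 : PolyP D ctx (fun a => m a * (d a).n + w a < (lab a).length) :=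
    PolyP.lt ((hm.mul hd.n).add hw) (PolyN.length hlab)
  have h2 : PolyP D ctx (fun a => g2 (d a).n (lab a) (m a) (w a) = b a) :=
    p_eqB (poly_g2 hd.n hlab hm hw) hb
  exact nite h1 (nite h2 (PolyN.const 2) (PolyN.const 0)) (PolyN.const 1)

theorem poly_y2 (hd : PDat D ctx d) {lab : α → List Bool} (hlab : PolyC D ctx lab)
    {m w w' : α → ℕ} {b' : α → Bool} (hm : PolyN D ctx m) (hw : PolyN D ctx w)
    (hw' : PolyN D ctx w') (hb' : PolyB D ctx b') :
    PolyN D ctx (fun a => (d a).y2 (lab a) (m a) (w a) (w' a) (b' a)) := by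
  have h1 : ∀ c : Bool, PolyN D ctx (fun a =>
      if (d a).befN (m a) (w a) c (w' a) (b' a) = true then (d a).u2 (lab a) (m a) (w a) c
        else 0) := by
    intro c
    exact nite (PolyP.ofB (poly_befN hd hm hw (PolyB.const c) hw' hb'))
      (poly_u2 hd hlab hm hw (PolyB.const c)) (PolyN.const 0)
  exact (h1 false).add (h1 true)

theorem poly_p1 (hd : PDat D ctx d) {tb : α → List Bool} (htb : PolyC D ctx tb)
    {w j i : α → ℕ} (hw : PolyN D ctx w) (hj : PolyN D ctx j) (hi : PolyN D ctx i) :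
    PolyZ D ctx (fun a => (d a).p1 (tb a) (w a) (j a) (i a)) :=
  zite (PolyP.ofB (poly_g3 hd.n htb hw hj hi)) zOne
    (zite (PolyP.ofB (poly_g3 hd.n htb hw hi hj)) zZero (poly_g hd hw hj))

end PNnAux

theorem poly_s1 (hd : PDat D ctx d) {tb : α → List Bool} (htb : PolyC D ctx tb)
    {w j i : α → ℕ} (hw : PolyN D ctx w) (hj : PolyN D ctx j) (hi : PolyN D ctx i) :
    PolyZ D ctx (fun a => (d a).s1 (tb a) (w a) (j a) (i a)) :=
  zite ((PolyP.ofB (poly_g3 hd.n htb hw hj hi)).or (PolyP.ofB (poly_g3 hd.n htb hw hi hj)))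
    zOne (zsub (poly_g hd hw hj) (poly_g hd hw hi))

namespace PNnAux

theorem poly_Fw (hd : PDat D ctx d) {lab tb : α → List Bool} (hlab : PolyC D ctx lab)
    (htb : PolyC D ctx tb) {l m w w' : α → ℕ} {b : α → Bool} (hl : PolyN D ctx l)
    (hm : PolyN D ctx m) (hw : PolyN D ctx w) (hw' : PolyN D ctx w') (hb : PolyB D ctx b) :
    PolyZ D ctx (fun a => (d a).Fw (lab a) (tb a) (l a) (m a) (w a) (w' a) (b a)) := by
  have hp := poly_pw hd hl hw
  exact zsub (zTwo.mul (poly_s1 hd htb hw hm hp))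
    ((poly_p1 hd htb hw hm hp).mul (zN (poly_y2 hd hlab hm hw hw' hb)))

theorem poly_Da (hd : PDat D ctx d) {lab tb : α → List Bool} (hlab : PolyC D ctx lab)
    (htb : PolyC D ctx tb) {l m : α → ℕ} {b : α → Bool} (hl : PolyN D ctx l)
    (hm : PolyN D ctx m) (hb : PolyB D ctx b) :
    PolyZ D ctx (fun a => (d a).Da (lab a) (tb a) (l a) (m a) (b a)) := by
  have hp := poly_pm hd hl hm
  have h1 : PolyZ D ctx (fun a => ∏ w ∈ range (d a).n, if w = (d a).pm (l a) (m a) then (1 : ℤ)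
      else (d a).Fw (lab a) (tb a) (l a) (m a) w ((d a).pm (l a) (m a)) (b a)) := by
    refine PolyZ.prod (f := fun a w => if w = (d a).pm (l a) (m a) then (1 : ℤ)
      else (d a).Fw (lab a) (tb a) (l a) (m a) w ((d a).pm (l a) (m a)) (b a)) hd.n ?_
    exact zite (PolyP.eq nL (nU hp)) zOne
      (poly_Fw hd.up (cU hlab) (cU htb) (nU hl) (nU hm) nL (nU hp) (bU hb))
  exact (zN (poly_u2 hd hlab hm hp hb)).mul h1

theorem poly_Dn (hd : PDat D ctx d) {lab tb : α → List Bool} (hlab : PolyC D ctx lab)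
    (htb : PolyC D ctx tb) {l m : α → ℕ} (hl : PolyN D ctx l) (hm : PolyN D ctx m) :
    PolyZ D ctx (fun a => (d a).Dn (lab a) (tb a) (l a) (m a)) :=
  (poly_Da hd hlab htb hl hm (PolyB.const false)).add
    (poly_Da hd hlab htb hl hm (PolyB.const true))

theorem poly_Qab (hd : PDat D ctx d) {lab tb : α → List Bool} (hlab : PolyC D ctx lab)
    (htb : PolyC D ctx tb) {l m w' : α → ℕ} {b b' : α → Bool} (hl : PolyN D ctx l)
    (hm : PolyN D ctx m) (hw' : PolyN D ctx w') (hb : PolyB D ctx b) (hb' : PolyB D ctx b') :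
    PolyZ D ctx (fun a => (d a).Qab (lab a) (tb a) (l a) (m a) (w' a) (b a) (b' a)) := by
  have hp := poly_pm hd hl hm
  have h1 : PolyZ D ctx (fun a => ∏ w ∈ range (d a).n,
      (if w = (d a).pm (l a) (m a) ∨ w = w' a then (1 : ℤ)
        else (d a).Fw (lab a) (tb a) (l a) (m a) w (w' a) (b' a))) := by
    refine PolyZ.prod (f := fun a w => if w = (d a).pm (l a) (m a) ∨ w = w' a then (1 : ℤ)
      else (d a).Fw (lab a) (tb a) (l a) (m a) w (w' a) (b' a)) hd.n ?_
    exact zite ((PolyP.eq nL (nU hp)).or (PolyP.eq nL (nU hw'))) zOne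
      (poly_Fw hd.up (cU hlab) (cU htb) (nU hl) (nU hm) nL (nU hw') (bU hb'))
  exact zite (PolyP.ofB (poly_befN hd hm hp hb hw' hb'))
    ((((zN (poly_u2 hd hlab hm hp hb)).mul (zN (poly_u2 hd hlab hm hw' hb'))).mul
      (poly_p1 hd htb hw' hm (poly_pw hd hl hw'))).mul h1) zZero

theorem poly_Qn (hd : PDat D ctx d) {lab tb : α → List Bool} (hlab : PolyC D ctx lab)
    (htb : PolyC D ctx tb) {l m w' : α → ℕ} (hl : PolyN D ctx l)
    (hm : PolyN D ctx m) (hw' : PolyN D ctx w') :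
    PolyZ D ctx (fun a => (d a).Qn (lab a) (tb a) (l a) (m a) (w' a)) :=
  (((poly_Qab hd hlab htb hl hm hw' (PolyB.const false) (PolyB.const false)).add
    (poly_Qab hd hlab htb hl hm hw' (PolyB.const false) (PolyB.const true))).add
    (poly_Qab hd hlab htb hl hm hw' (PolyB.const true) (PolyB.const false))).add
    (poly_Qab hd hlab htb hl hm hw' (PolyB.const true) (PolyB.const true))

end PNnAux

theorem poly_Nn (hd : PDat D ctx d) {lab tb : α → List Bool} (hlab : PolyC D ctx lab)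
    (htb : PolyC D ctx tb) {l m m' : α → ℕ} (hl : PolyN D ctx l) (hm : PolyN D ctx m)
    (hm' : PolyN D ctx m') :
    PolyZ D ctx (fun a => (d a).Nn (lab a) (tb a) (l a) (m a) (m' a)) :=
  zite (PolyP.eq hm hm') (poly_Dn hd hlab htb hl hm)
    (poly_Qn hd hlab htb hl hm (poly_pm hd hl hm')).neg

end Pool.Agent.Lib.Wsm
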