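import Pool.Agent.Lib.Wsm.PNn
import Pool.Agent.Lib.Wsm.PNewt

/-!
# Polynomial time: the missing mass

Auxiliary lemmas: namespace `Pool.Agent.Lib.Wsm.PRneAux`.

`Cl`, `Val`, `Tot` are `PolyZ` (`PolyZ.prod`, `PolyZ.sum`, `PolyZ.ite`, `poly_s1`, `poly_newtE` with `poly_Nn` for the
data `hd.up`; `n! = ∏ i ∈ range n, (i + 1)` (`Finset.prod_range_add_one_eq_factorial`), `2 ^ (n * n)` by
`PolyBin.pow2`).  Equality of two `PolyZ` is `PolyP`: `P - Q = P' - Q'` iff `P + Q' = P' + Q`, two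
`PolyP.binle`.
-/

set_option autoImplicit false

namespace Pool.Agent.Lib.Wsm

open Finset Equiv Pool.Agent.Lib.PolyTime Pool.Agent.Lib.Pa7c826 Pool.Agent.Lib.P8e91ed.PT

variable {α : Type*} {D : α → Prop} {ctx : List (α → List Bool)} {d : α → Dat}

namespace PRneAux

open PNnAux

theorem p_eqZ {f g : α → ℤ} (hf : PolyZ D ctx f) (hg : PolyZ D ctx g) :
    PolyP D ctx (fun a => f a = g a) := by
  obtain ⟨P, Q, h1, h2, h3⟩ := hf
  obtain ⟨P', Q', h1', h2', h3'⟩ := hg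
  refine ((PolyP.binle (h1.add h2') (h1'.add h2)).and
    (PolyP.binle (h1'.add h2) (h1.add h2'))).congr (fun a ha => ?_)
  rw [h3 a ha, h3' a ha]
  omega

theorem poly_Cl (hd : PDat D ctx d) {tb : α → List Bool} (htb : PolyC D ctx tb)
    {l : α → ℕ} (hl : PolyN D ctx l) :
    PolyZ D ctx (fun a => (d a).Cl (tb a) (l a)) := by
  unfold Dat.Cl
  refine PolyZ.prod (f := fun a w => ∏ i ∈ range (d a).n, if i = (d a).pw (l a) w then (1 : ℤ) else
    ∏ m ∈ range (d a).n, if m = i then 1 else (d a).s1 (tb a) w m i) hd.n ?_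
  refine PolyZ.prod (n := fun p : α × ℕ => (d p.1).n)
    (f := fun (p : α × ℕ) i => if i = (d p.1).pw (l p.1) p.2 then (1 : ℤ) else
    ∏ m ∈ range (d p.1).n, if m = i then 1 else (d p.1).s1 (tb p.1) p.2 m i) (nU hd.n) ?_
  refine zite (PolyP.eq nL (nU (poly_pw hd.up (nU hl) nL))) zOne ?_
  refine PolyZ.prod (n := fun q : (α × ℕ) × ℕ => (d q.1.1).n)
    (f := fun (q : (α × ℕ) × ℕ) m => if m = q.2 then (1 : ℤ) else
      (d q.1.1).s1 (tb q.1.1) q.1.2 m q.2) (nU (nU hd.n)) ?_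
  exact zite (PolyP.eq nL (nU nL)) zOne
    (poly_s1 hd.up.up.up (cU (cU (cU htb))) (nU (nU nL)) nL (nU nL))

theorem poly_Val (hd : PDat D ctx d) {lab tb : α → List Bool} (hlab : PolyC D ctx lab)
    (htb : PolyC D ctx tb) : PolyZ D ctx (fun a => (d a).Val (lab a) (tb a)) := by
  unfold Dat.Val
  refine PolyZ.sum (f := fun a l => (d a).Cl (tb a) l * newtE (d a).n ((d a).Nn (lab a) (tb a) l))
    hd.K ?_
  refine (poly_Cl hd.up (cU htb) nL).mul ?_
  exact poly_newtE (n := fun p : α × ℕ => (d p.1).n)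
    (N := fun (p : α × ℕ) => (d p.1).Nn (lab p.1) (tb p.1) p.2) (nU hd.n)
    (poly_Nn hd.up.up.up (cU (cU (cU hlab))) (cU (cU (cU htb))) (nU (nU nL)) (nU nL) nL)

theorem poly_fact {n : α → ℕ} (hn : PolyN D ctx n) :
    PolyZ D ctx (fun a => ((n a).factorial : ℤ)) := by
  have h1 : PolyBin D ctx (fun a => ∏ i ∈ range (n a), (i + 1)) :=
    binProd (f := fun _ i => i + 1) hn (bin_ofN nL.succ)
  refine (PolyZ.ofBin h1).congr (fun a _ => ?_)
  rw [Finset.prod_range_add_one_eq_factorial]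

theorem poly_Tot (hd : PDat D ctx d) {tb : α → List Bool} (htb : PolyC D ctx tb) :
    PolyZ D ctx (fun a => (d a).Tot (tb a)) := by
  unfold Dat.Tot
  have h2 : PolyZ D ctx (fun a => ((2 : ℤ) ^ ((d a).n * (d a).n))) :=
    (PolyZ.ofBin (PolyBin.pow2 (hd.n.mul hd.n))).congr (fun a _ => by push_cast; rfl)
  refine ((poly_fact hd.n).mul h2).mul ?_
  refine PolyZ.prod (f := fun a w => ∏ i ∈ range (d a).n,
    ∏ m ∈ range (d a).n, if m = i then (1 : ℤ) else (d a).s1 (tb a) w m i) hd.n ?_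
  refine PolyZ.prod (n := fun p : α × ℕ => (d p.1).n)
    (f := fun (p : α × ℕ) i =>
    ∏ m ∈ range (d p.1).n, if m = i then (1 : ℤ) else (d p.1).s1 (tb p.1) p.2 m i) (nU hd.n) ?_
  refine PolyZ.prod (n := fun q : (α × ℕ) × ℕ => (d q.1.1).n)
    (f := fun (q : (α × ℕ) × ℕ) m => if m = q.2 then (1 : ℤ) else
      (d q.1.1).s1 (tb q.1.1) q.1.2 m q.2) (nU (nU hd.n)) ?_
  exact zite (PolyP.eq nL (nU nL)) zOne
    (poly_s1 hd.up.up.up (cU (cU (cU htb))) (nU (nU nL)) nL (nU nL))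

end PRneAux

theorem poly_Rne (hd : PDat D ctx d) {lab tb : α → List Bool} (hlab : PolyC D ctx lab)
    (htb : PolyC D ctx tb) : PolyP D ctx (fun a => (d a).Rne (lab a) (tb a)) :=
  (PRneAux.p_eqZ (PRneAux.poly_Val hd hlab htb) (PRneAux.poly_Tot hd htb)).not

end Pool.Agent.Lib.Wsm
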