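import Pool.Agent.Lib.Wsm.Cert

/-!
# The signed Parke-Taylor measure on linear orders

MODULE Wsm.Park (2 h): prove `nu_indep`.  Auxiliary lemmas: namespace `Pool.Agent.Lib.Wsm.ParkAux`.

Put `x(a, b) = g a / (g a - g b)` for `a ≠ b` (`g` injective): `x(a, b) + x(b, a) = 1` and `chainW g l` is the
product of `x` over the consecutive pairs of `l`.

(1) Insertion lemma.  Let `l` be a list of distinct elements containing `i`, and `e ∉ l`.  The sum of
`chainW g l'` over the insertions `l'` of `e` in `l` at a place before `i` is `x(e, i) * chainW g l`; over the
places after `i` it is `(1 - x(e, i)) * chainW g l = x(i, e) * chainW g l`.  Proof by induction on the list from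
the left: the insertions at the places `0, ..., p` of `l = l_0 l_1 ...` sum to `x(e, l_p) * chainW g l`; the
step is `x(a,b) * x(e,a) + x(a,e) * x(e,b) = x(a,b) * x(e,b)` (`field_simp; ring`).  At the right end
`x(e, last) + x(last, e) = 1`.
(2) Mathlib's `List.permutations'` is defined by insertion:
`permutations' (e :: V) = (permutations' V).flatMap (permutations'Aux e)`, where `permutations'Aux e l` is the list
of all insertions of `e` in `l`.  So by induction on `V` (with `i ∉ V`, nodup):
`∑ l ∈ permutations' (V ++ [i]), chainW g l * ∏ j ∈ V, h j (j is before i in l) =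
 ∏ j ∈ V, (x(j,i) * h j true + (1 - x(j,i)) * h j false)`.
(3) `π ↦ List.ofFn (fun k => π.symm k)` is a bijection from `Perm (Fin n)` to the orderings of `Fin n`
(the elements of `permutations' l` for any nodup `l` containing all elements, `List.mem_permutations'`,
`List.nodup_permutations'`), and `j` is before `i` in it iff `π j < π i`.
(4) `refW1 R π j i = (R j i || (!R i j && decide (π j < π i)))`: apply (2) with
`h j b = f j (R j i || (!R i j && b))`; if `R j i` or `R i j` then `h j true = h j false`, and `xg g R j i` is `1`
or `0` (`Wk.asymm`).
-/

namespace Pool.Agent.Lib.Wsm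

open Finset Equiv

variable {n : ℕ}

/-- weight of a chain -/
def chainW (g : Fin n → ℚ) : List (Fin n) → ℚ
  | [] => 1
  | [_] => 1
  | a :: b :: l => g a / (g a - g b) * chainW g (b :: l)

/-- the signed Parke-Taylor measure (`π m` is the position of `m`) -/
def nu (g : Fin n → ℚ) (π : Perm (Fin n)) : ℚ := chainW g (List.ofFn fun k => π.symm k)

namespace ParkAux

/-- `j` is before `i` in the list -/
def bf (i j : Fin n) : List (Fin n) → Bool
  | [] => false
  | y :: l => if y = i then false else if y = j then true else bf i j l

theorem bf_of_eq (i j : Fin n) (l : List (Fin n)) : bf i j (i :: l) = false := by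
  rw [bf, if_pos rfl]

theorem bf_true {i j : Fin n} (h : j ≠ i) (l : List (Fin n)) : bf i j (j :: l) = true := by
  rw [bf, if_neg h, if_pos rfl]

theorem bf_cons {i j y : Fin n} (h1 : y ≠ i) (h2 : y ≠ j) (l : List (Fin n)) :
    bf i j (y :: l) = bf i j l := by
  rw [bf, if_neg h1, if_neg h2]

/-- the probability of `a` before `b` -/
def xx (g : Fin n → ℚ) (a b : Fin n) : ℚ := g a / (g a - g b)

theorem chainW_cons (g : Fin n → ℚ) (a b : Fin n) (l : List (Fin n)) :
    chainW g (a :: b :: l) = xx g a b * chainW g (b :: l) := rfl

variable {g : Fin n → ℚ}

theorem ne_sub (hg : Function.Injective g) {a b : Fin n} (h : a ≠ b) : g a - g b ≠ 0 :=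
  sub_ne_zero.2 fun h' => h (hg h')

theorem xx_add (hg : Function.Injective g) {a b : Fin n} (h : a ≠ b) :
    xx g a b + xx g b a = 1 := by
  have h1 := ne_sub hg h
  have h2 := ne_sub hg h.symm
  unfold xx
  rw [div_add_div _ _ h1 h2, div_eq_one_iff_eq (mul_ne_zero h1 h2)]
  ring

theorem ident1 (hg : Function.Injective g) {y e z : Fin n} (h1 : y ≠ e) (h2 : e ≠ z)
    (h3 : y ≠ z) : xx g y e * xx g e z + xx g y z * xx g z e = xx g y e * xx g y z := by
  have a1 := ne_sub hg h1
  have a2 := ne_sub hg h2
  have a3 := ne_sub hg h3
  have a4 : xx g z e = 1 - xx g e z := by linarith [xx_add hg h2]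
  rw [a4]
  unfold xx
  field_simp
  ring

theorem ident2 (hg : Function.Injective g) {y e i : Fin n} (h1 : y ≠ e) (h2 : e ≠ i)
    (h3 : y ≠ i) : xx g y e * xx g e i = (xx g e i - xx g e y) * xx g y i := by
  have a1 := ne_sub hg h1
  have a2 := ne_sub hg h2
  have a3 := ne_sub hg h3
  have a4 : xx g e y = 1 - xx g y e := by linarith [xx_add hg h1]
  rw [a4]
  unfold xx
  field_simp
  ring

theorem after (hg : Function.Injective g) {e : Fin n} (ys : List (Fin n)) :
    ∀ y, y ≠ e → e ∉ ys → (y :: ys).Nodup →
      ((List.permutations'Aux e ys).map fun l' => chainW g (y :: l')).sum =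
        xx g y e * chainW g (y :: ys) := by
  induction ys with
  | nil =>
    intro y _ _ _
    simp [List.permutations'Aux, chainW, xx]
  | cons z zs ih =>
    intro y hy he hnd
    have hez : e ≠ z := fun h => he (h ▸ List.mem_cons_self)
    have hezs : e ∉ zs := fun h => he (List.mem_cons_of_mem _ h)
    have hyz : y ≠ z := fun h => by
      rw [h] at hnd
      simp at hnd
    have hnd' : (z :: zs).Nodup := (List.nodup_cons.1 hnd).2
    have h1 := ih z hez.symm hezs hnd'
    rw [List.permutations'Aux, List.map_cons, List.sum_cons, List.map_map]
    have h2 : ((List.permutations'Aux e zs).map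
        ((fun l' => chainW g (y :: l')) ∘ List.cons z)).sum =
        xx g y z * ((List.permutations'Aux e zs).map fun l' => chainW g (z :: l')).sum := by
      rw [← List.sum_map_mul_left]
      rfl
    rw [h2, h1, chainW_cons, chainW_cons, chainW_cons]
    linear_combination (chainW g (z :: zs)) * ident1 hg hy hez hyz

theorem middle (hg : Function.Injective g) {e i : Fin n} (hei : e ≠ i) (u : Bool → ℚ)
    (ys : List (Fin n)) :
    ∀ y, y ≠ e → y ≠ i → i ∈ ys → e ∉ ys → (y :: ys).Nodup →
      ((List.permutations'Aux e ys).map fun l' => chainW g (y :: l') * u (bf i e (y :: l'))).sum =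
        ((xx g e i - xx g e y) * u true + xx g i e * u false) * chainW g (y :: ys) := by
  induction ys with
  | nil =>
    intro y _ _ hi
    simp at hi
  | cons z zs ih =>
    intro y hy hyi hi he hnd
    have hez : e ≠ z := fun h => he (h ▸ List.mem_cons_self)
    have hezs : e ∉ zs := fun h => he (List.mem_cons_of_mem _ h)
    have hyz : y ≠ z := fun h => by
      rw [h] at hnd
      simp at hnd
    have hnd' : (z :: zs).Nodup := (List.nodup_cons.1 hnd).2
    rw [List.permutations'Aux, List.map_cons, List.sum_cons, List.map_map, bf_cons hyi hy,
      bf_true hei]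
    by_cases hzi : z = i
    · subst hzi
      have h2 : ((List.permutations'Aux e zs).map
          ((fun l' => chainW g (y :: l') * u (bf z e (y :: l'))) ∘ List.cons z)).sum =
          (xx g y z * u false) *
            ((List.permutations'Aux e zs).map fun l' => chainW g (z :: l')).sum := by
        rw [← List.sum_map_mul_left]
        congr 1
        apply List.map_congr_left
        intro l' _
        simp only [Function.comp_apply]
        rw [bf_cons hyi hy, bf_of_eq, chainW_cons]
        ring
      rw [h2, after hg zs z hez.symm hezs hnd', chainW_cons, chainW_cons, chainW_cons]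
      linear_combination (chainW g (z :: zs) * u true) * ident2 hg hy hei hyi
    · have hi' : i ∈ zs := by
        rcases List.mem_cons.1 hi with h | h
        · exact absurd h.symm hzi
        · exact h
      have h1 := ih z hez.symm hzi hi' hezs hnd'
      have h2 : ((List.permutations'Aux e zs).map
          ((fun l' => chainW g (y :: l') * u (bf i e (y :: l'))) ∘ List.cons z)).sum =
          xx g y z * ((List.permutations'Aux e zs).map
            fun l' => chainW g (z :: l') * u (bf i e (z :: l'))).sum := by
        rw [← List.sum_map_mul_left]
        congr 1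
        apply List.map_congr_left
        intro l' _
        simp only [Function.comp_apply]
        rw [bf_cons hyi hy, chainW_cons]
        ring
      rw [h2, h1, chainW_cons, chainW_cons, chainW_cons]
      linear_combination (chainW g (z :: zs) * u true) * ident2 hg hy hez hyz

theorem insertion (hg : Function.Injective g) {e i : Fin n} (hei : e ≠ i) (u : Bool → ℚ)
    {l : List (Fin n)} (hi : i ∈ l) (he : e ∉ l) (hnd : l.Nodup) :
    ((List.permutations'Aux e l).map fun l' => chainW g l' * u (bf i e l')).sum =
      (xx g e i * u true + xx g i e * u false) * chainW g l := by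
  cases l with
  | nil => simp at hi
  | cons y ys =>
    have hey : e ≠ y := fun h => he (h ▸ List.mem_cons_self)
    have heys : e ∉ ys := fun h => he (List.mem_cons_of_mem _ h)
    rw [List.permutations'Aux, List.map_cons, List.sum_cons, List.map_map, bf_true hei,
      chainW_cons]
    by_cases hyi : y = i
    · subst hyi
      have h2 : ((List.permutations'Aux e ys).map
          ((fun l' => chainW g l' * u (bf y e l')) ∘ List.cons y)).sum =
          u false * ((List.permutations'Aux e ys).map fun l' => chainW g (y :: l')).sum := by
        rw [← List.sum_map_mul_left]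
        congr 1
        apply List.map_congr_left
        intro l' _
        simp only [Function.comp_apply]
        rw [bf_of_eq]
        ring
      rw [h2, after hg ys y hey.symm heys hnd]
      ring
    · have hi' : i ∈ ys := by
        rcases List.mem_cons.1 hi with h | h
        · exact absurd h.symm hyi
        · exact h
      have h1 := middle hg hei u ys y hey.symm hyi hi' heys hnd
      have h2 : ((List.permutations'Aux e ys).map
          ((fun l' => chainW g l' * u (bf i e l')) ∘ List.cons y)).sum =
          ((List.permutations'Aux e ys).map
            fun l' => chainW g (y :: l') * u (bf i e (y :: l'))).sum := rfl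
      rw [h2, h1]
      ring

theorem bf_insert {e i j : Fin n} (hei : e ≠ i) (hej : e ≠ j) (l : List (Fin n)) :
    ∀ l' ∈ List.permutations'Aux e l, bf i j l' = bf i j l := by
  induction l with
  | nil =>
    intro l' hl'
    simp only [List.permutations'Aux, List.mem_singleton] at hl'
    rw [hl', bf_cons hei hej]
  | cons y ys ih =>
    intro l' hl'
    rw [List.permutations'Aux, List.mem_cons, List.mem_map] at hl'
    rcases hl' with rfl | ⟨l'', h1, rfl⟩
    · rw [bf_cons hei hej]
    · rw [bf, bf, ih l'' h1]

theorem sum_flatMap {α β : Type*} (L : List α) (F : α → List β) (f : β → ℚ) :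
    ((L.flatMap F).map f).sum = (L.map fun l => ((F l).map f).sum).sum := by
  induction L with
  | nil => rfl
  | cons a L ih =>
    rw [List.flatMap_cons, List.map_append, List.sum_append, ih, List.map_cons, List.sum_cons]

theorem sum_perms (hg : Function.Injective g) (i : Fin n) (h : Fin n → Bool → ℚ)
    (V : List (Fin n)) : (V ++ [i]).Nodup →
      ((List.permutations' (V ++ [i])).map fun l =>
        chainW g l * (V.map fun j => h j (bf i j l)).prod).sum =
        (V.map fun j => xx g j i * h j true + xx g i j * h j false).prod := by
  induction V with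
  | nil =>
    intro _
    simp [List.permutations', List.permutations'Aux, chainW]
  | cons e V ih =>
    intro hnd
    rw [List.cons_append] at hnd ⊢
    obtain ⟨he, hnd'⟩ := List.nodup_cons.1 hnd
    have hei : e ≠ i := fun h' => he (by rw [h']; simp)
    rw [List.permutations', sum_flatMap]
    have h1 : ((List.permutations' (V ++ [i])).map fun l =>
        ((List.permutations'Aux e l).map fun l =>
          chainW g l * ((e :: V).map fun j => h j (bf i j l)).prod).sum) =
        (List.permutations' (V ++ [i])).map fun l =>
          (xx g e i * h e true + xx g i e * h e false) *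
            (chainW g l * (V.map fun j => h j (bf i j l)).prod) := by
      apply List.map_congr_left
      intro l hl
      have hp := List.mem_permutations'.1 hl
      have hil : i ∈ l := hp.mem_iff.2 (by simp)
      have hel : e ∉ l := fun h' => he (hp.mem_iff.1 h')
      have hndl : l.Nodup := hp.nodup_iff.2 hnd'
      have h2 : ((List.permutations'Aux e l).map fun l' =>
          chainW g l' * ((e :: V).map fun j => h j (bf i j l')).prod) =
          (List.permutations'Aux e l).map fun l' =>
            (V.map fun j => h j (bf i j l)).prod * (chainW g l' * h e (bf i e l')) := by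
        apply List.map_congr_left
        intro l' hl'
        have h3 : (V.map fun j => h j (bf i j l')) = V.map fun j => h j (bf i j l) := by
          apply List.map_congr_left
          intro j hj
          have hej : e ≠ j := fun h' => he (by rw [h']; simp [hj])
          rw [bf_insert hei hej l l' hl']
        rw [List.map_cons, List.prod_cons, h3]
        ring
      rw [h2, List.sum_map_mul_left, insertion hg hei (h e) hil hel hndl]
      ring
    rw [h1, List.sum_map_mul_left, ih hnd', List.map_cons, List.prod_cons]

theorem bf_idx {i j : Fin n} (hij : j ≠ i) (l : List (Fin n)) : i ∈ l → j ∈ l →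
    bf i j l = decide (List.idxOf j l < List.idxOf i l) := by
  induction l with
  | nil =>
    intro hi
    simp at hi
  | cons y l ih =>
    intro hi hj
    by_cases h1 : y = i
    · subst h1
      rw [bf_of_eq, List.idxOf_cons_self]
      simp
    · by_cases h2 : y = j
      · subst h2
        rw [bf_true hij, List.idxOf_cons_self, List.idxOf_cons_ne _ h1]
        simp
      · rw [bf_cons h1 h2, ih, List.idxOf_cons_ne _ h1, List.idxOf_cons_ne _ h2]
        · simp
        · rcases List.mem_cons.1 hi with h | h
          · exact absurd h.symm h1
          · exact h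
        · rcases List.mem_cons.1 hj with h | h
          · exact absurd h.symm h2
          · exact h

/-- the list of a permutation -/
def plist (π : Perm (Fin n)) : List (Fin n) := List.ofFn fun k => π.symm k

theorem plist_nodup (π : Perm (Fin n)) : (plist π).Nodup :=
  List.nodup_ofFn.2 π.symm.injective

theorem plist_mem (π : Perm (Fin n)) (j : Fin n) : j ∈ plist π := by
  rw [plist, List.mem_ofFn]
  exact ⟨π j, π.symm_apply_apply j⟩

theorem plist_idx (π : Perm (Fin n)) (j : Fin n) : List.idxOf j (plist π) = (π j : ℕ) := by
  have hlen : (plist π).length = n := by simp [plist]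
  have hk : (π j : ℕ) < (plist π).length := by rw [hlen]; exact (π j).2
  have h1 : (plist π)[(π j : ℕ)] = j := by
    simp [plist]
  have h2 := (plist_nodup π).idxOf_getElem (π j : ℕ) hk
  rw [h1] at h2
  exact h2

theorem plist_inj : Function.Injective (plist : Perm (Fin n) → List (Fin n)) := by
  intro π π' h
  apply Equiv.ext
  intro j
  apply Fin.ext
  rw [← plist_idx, ← plist_idx, h]

theorem bf_plist {i j : Fin n} (hij : j ≠ i) (π : Perm (Fin n)) :
    bf i j (plist π) = decide (π j < π i) := by
  rw [bf_idx hij _ (plist_mem π i) (plist_mem π j), plist_idx, plist_idx]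
  simp only [Fin.lt_def]

theorem sum_perm {L : List (Fin n)} (hL : L.Nodup) (hmem : ∀ j, j ∈ L) (F : List (Fin n) → ℚ) :
    ∑ π : Perm (Fin n), F (plist π) = ((List.permutations' L).map F).sum := by
  classical
  have hnd : (List.permutations' L).Nodup :=
    (List.permutations_perm_permutations' L).nodup_iff.1 (List.nodup_permutations L hL)
  have hlenL : L.length = n := by
    have h1 : L.toFinset = Finset.univ := by
      ext j
      simp [hmem j]
    have h2 := List.toFinset_card_of_nodup hL
    rw [h1, Finset.card_univ, Fintype.card_fin] at h2
    exact h2.symm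
  have hlen : (List.permutations' L).length = n.factorial := by
    rw [← (List.permutations_perm_permutations' L).length_eq, List.length_permutations, hlenL]
  have himg : (Finset.univ : Finset (Perm (Fin n))).image plist =
      (List.permutations' L).toFinset := by
    apply Finset.eq_of_subset_of_card_le
    · intro l hl
      obtain ⟨π, _, rfl⟩ := Finset.mem_image.1 hl
      rw [List.mem_toFinset, List.mem_permutations']
      exact (List.perm_ext_iff_of_nodup (plist_nodup π) hL).2 fun j =>
        ⟨fun _ => hmem j, fun _ => plist_mem π j⟩
    · rw [List.toFinset_card_of_nodup hnd, hlen, Finset.card_image_of_injective _ plist_inj,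
        Finset.card_univ, Fintype.card_perm, Fintype.card_fin]
  rw [← List.sum_toFinset F hnd, ← himg, Finset.sum_image fun a _ b _ h => plist_inj h]

end ParkAux

open ParkAux in
theorem nu_indep {R : Fin n → Fin n → Bool} (hR : Wk R) (g : Fin n → ℤ)
    (hg : Function.Injective g) : IndepX R (nu fun i => (g i : ℚ)) (xg g R) := by
  classical
  intro i f
  have hg' : Function.Injective fun i => (g i : ℚ) := fun a b h => hg (Int.cast_injective h)
  obtain ⟨V, hV⟩ : ∃ V : List (Fin n), V = (Finset.univ.erase i).toList := ⟨_, rfl⟩
  have hVnd : V.Nodup := hV ▸ Finset.nodup_toList _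
  have hVmem : ∀ j, j ∈ V ↔ j ≠ i := by
    intro j
    rw [hV, Finset.mem_toList, Finset.mem_erase]
    simp
  have hLnd : (V ++ [i]).Nodup := by
    rw [List.nodup_append]
    refine ⟨hVnd, List.nodup_singleton i, ?_⟩
    intro a ha b hb
    rw [List.mem_singleton] at hb
    rw [hb]
    exact (hVmem a).1 ha
  have hLmem : ∀ j, j ∈ V ++ [i] := by
    intro j
    rw [List.mem_append, hVmem, List.mem_singleton]
    exact (em (j = i)).symm
  have hprod : ∀ u : Fin n → ℚ, ∏ j ∈ Finset.univ.erase i, u j = (V.map u).prod := by
    intro u
    rw [hV, Finset.prod_map_toList]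
  have key := sum_perms hg' i (fun j b => f j (R j i || (!R i j && b))) V hLnd
  rw [← sum_perm hLnd hLmem] at key
  have e1 : ∀ π : Perm (Fin n), nu (fun i => (g i : ℚ)) π *
      ∏ j ∈ Finset.univ.erase i, f j (refW1 R π j i) =
      chainW (fun i => (g i : ℚ)) (plist π) *
        (V.map fun j => f j (R j i || (!R i j && bf i j (plist π)))).prod := by
    intro π
    rw [hprod]
    congr 2
    apply List.map_congr_left
    intro j hj
    rw [bf_plist ((hVmem j).1 hj)]
    rfl
  rw [Finset.sum_congr rfl fun π _ => e1 π, key, hprod]
  congr 1
  apply List.map_congr_left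
  intro j hj
  have hji : j ≠ i := (hVmem j).1 hj
  have h1 : xx (fun i => (g i : ℚ)) i j = 1 - xx (fun i => (g i : ℚ)) j i := by
    linarith [xx_add hg' hji]
  rw [h1]
  unfold xg
  by_cases h2 : R j i = true
  · rw [if_pos h2]
    simp only [h2, Bool.true_or]
    ring
  · rw [if_neg h2]
    have h2' : R j i = false := by simpa using h2
    by_cases h3 : R i j = true
    · rw [if_pos h3]
      simp only [h2', h3, Bool.not_true, Bool.false_and, Bool.or_false]
      ring
    · rw [if_neg h3]
      have h3' : R i j = false := by simpa using h3
      simp only [h2', h3', Bool.not_false, Bool.true_and, Bool.false_or]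
      rfl

end Pool.Agent.Lib.Wsm
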