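import Pool.Agent.Lib.Wsm.RStep
import Pool.Agent.Lib.Wsm.Loop
import Pool.Agent.Lib.Wsm.Final

/-!
# The randomised listing machine for all instances
-/

set_option autoImplicit false

namespace Pool.Agent.Lib.Wsm

open Finset Equiv Pool.Agent.Lib.PolyTime

/-- number of weakly stable matchings -/
noncomputable def numWS (I : SMT) : ℕ := Nat.card {M : Perm (Fin I.n) // WeaklyStable I M}

namespace RFinalAux

open StepSpecAux RStepAux Classical

/-- one more matching, if the string codes one -/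
noncomputable def grow' (I : SMT) (s : List Bool) (L : List (Perm (Fin I.n))) :
    List (Perm (Fin I.n)) :=
  if h : ∃ M, M ∉ L ∧ WeaklyStable I M ∧ s = true :: encM M then
    L ++ [h.choose] else L

/-- one more matching, if the step finds one -/
noncomputable def grow (I : SMT) (r : List Bool) (L : List (Perm (Fin I.n))) :
    List (Perm (Fin I.n)) := grow' I (rstep (encI I ++ r) (encL L)) L

theorem grow'_cases (I : SMT) (s : List Bool) (L : List (Perm (Fin I.n))) (hnd : L.Nodup)
    (hst : ∀ M ∈ L, WeaklyStable I M)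
    (hs : s = [] ∨ ∃ M, M ∉ L ∧ WeaklyStable I M ∧ s = true :: encM M) :
    (s = [] ∧ grow' I s L = L) ∨
      ((grow' I s L).Nodup ∧ (∀ M ∈ grow' I s L, WeaklyStable I M) ∧
        (grow' I s L).length = L.length + 1 ∧ s ≠ [] ∧
        encL (grow' I s L) = encL L ++ s) := by
  rcases hs with h | h
  · left
    refine ⟨h, ?_⟩
    unfold grow'
    rw [dif_neg]
    rintro ⟨M, _, _, h3⟩
    rw [h] at h3
    exact absurd h3 (by simp)
  · right
    have hg : grow' I s L = L ++ [h.choose] := by unfold grow'; rw [dif_pos h]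
    obtain ⟨h1, h2, h3⟩ := h.choose_spec
    rw [hg]
    refine ⟨?_, ?_, by simp, ?_, ?_⟩
    · rw [List.nodup_append]
      refine ⟨hnd, by simp, ?_⟩
      intro a ha b hb
      rw [List.mem_singleton] at hb
      intro e
      rw [hb] at e
      rw [e] at ha
      exact h1 ha
    · intro M hM
      rw [List.mem_append, List.mem_singleton] at hM
      rcases hM with hM | hM
      · exact hst M hM
      · rw [hM]; exact h2
    · intro hc
      exact absurd (hc.symm.trans h3) (by simp)
    · have h4 : encL (L ++ [h.choose]) = encL L ++ (true :: encM h.choose) := by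
        unfold encL
        rw [List.flatMap_append]
        simp
      exact h4.trans (congrArg (encL L ++ ·) h3.symm)

/-- the lists -/
noncomputable def Ls (I : SMT) (r : List Bool) (i : ℕ) : List (Perm (Fin I.n)) :=
  (grow I r)^[i] []

theorem Ls_zero (I : SMT) (r : List Bool) : Ls I r 0 = [] := by
  unfold Ls; rw [Function.iterate_zero_apply]

theorem Ls_succ (I : SMT) (r : List Bool) (i : ℕ) : Ls I r (i + 1) = grow I r (Ls I r i) := by
  unfold Ls; rw [Function.iterate_succ_apply']

theorem grow_cases (I : SMT) (r : List Bool) (L : List (Perm (Fin I.n))) (hnd : L.Nodup)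
    (hst : ∀ M ∈ L, WeaklyStable I M) :
    (rstep (encI I ++ r) (encL L) = [] ∧ grow I r L = L) ∨
      ((grow I r L).Nodup ∧ (∀ M ∈ grow I r L, WeaklyStable I M) ∧
        (grow I r L).length = L.length + 1 ∧ rstep (encI I ++ r) (encL L) ≠ [] ∧
        encL (grow I r L) = encL L ++ rstep (encI I ++ r) (encL L)) := by
  exact grow'_cases I _ L hnd hst (rstep_sound I r L hnd)

theorem Ls_inv (I : SMT) (r : List Bool) (i : ℕ) :
    (Ls I r i).Nodup ∧ (∀ M ∈ Ls I r i, WeaklyStable I M) ∧ (Ls I r i).length ≤ i := by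
  induction i with
  | zero => rw [Ls_zero]; simp
  | succ i ih =>
    rw [Ls_succ]
    obtain ⟨a1, a2, a3⟩ := ih
    rcases grow_cases I r (Ls I r i) a1 a2 with ⟨_, h⟩ | ⟨b1, b2, b3, _⟩
    · rw [h]
      exact ⟨a1, a2, by omega⟩
    · exact ⟨b1, b2, by omega⟩

theorem length_le_numWS (I : SMT) {L : List (Perm (Fin I.n))} (hnd : L.Nodup)
    (hst : ∀ M ∈ L, WeaklyStable I M) : L.length ≤ numWS I := by
  unfold numWS
  rw [Nat.card_eq_fintype_card, Fintype.card_subtype, ← List.toFinset_card_of_nodup hnd]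
  apply card_le_card
  intro M hM
  rw [List.mem_toFinset] at hM
  simp [hst M hM]

/-- the first time when the step finds nothing -/
theorem exists_stop (I : SMT) (r : List Bool) :
    ∃ k : ℕ, (∀ i ≤ k, (Ls I r i).length = i) ∧
      (∀ i < k, rstep (encI I ++ r) (encL (Ls I r i)) ≠ [] ∧
        encL (Ls I r (i + 1)) = encL (Ls I r i) ++ rstep (encI I ++ r) (encL (Ls I r i))) ∧
      rstep (encI I ++ r) (encL (Ls I r k)) = [] := by
  have key : ∀ k : ℕ, (∀ i < k, rstep (encI I ++ r) (encL (Ls I r i)) ≠ []) →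
      (∀ i ≤ k, (Ls I r i).length = i) ∧
      (∀ i < k, rstep (encI I ++ r) (encL (Ls I r i)) ≠ [] ∧
        encL (Ls I r (i + 1)) = encL (Ls I r i) ++ rstep (encI I ++ r) (encL (Ls I r i))) := by
    intro k
    induction k with
    | zero =>
      intro _
      refine ⟨fun i hi => ?_, fun i hi => absurd hi (by omega)⟩
      have : i = 0 := by omega
      subst this
      rw [Ls_zero]; simp
    | succ k ih =>
      intro h
      obtain ⟨h1, h2⟩ := ih (fun i hi => h i (by omega))
      obtain ⟨a1, a2, _⟩ := Ls_inv I r k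
      rcases grow_cases I r (Ls I r k) a1 a2 with hc | ⟨_, _, b3, b4, b5⟩
      · exact absurd hc.1 (h k (by omega))
      · refine ⟨fun i hi => ?_, fun i hi => ?_⟩
        · rcases Nat.lt_or_ge i (k + 1) with h' | h'
          · exact h1 i (by omega)
          · have : i = k + 1 := by omega
            subst this
            rw [Ls_succ, b3, h1 k le_rfl]
        · rcases Nat.lt_or_ge i k with h' | h'
          · exact h2 i h'
          · have : i = k := by omega
            subst this
            rw [Ls_succ]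
            exact ⟨b4, b5⟩
  have hex : ∃ k, rstep (encI I ++ r) (encL (Ls I r k)) = [] := by
    by_contra hne
    push Not at hne
    have h := (key (numWS I + 1) (fun i _ => hne i)).1 (numWS I + 1) le_rfl
    obtain ⟨a1, a2, _⟩ := Ls_inv I r (numWS I + 1)
    have h3 := length_le_numWS I a1 a2
    omega
  obtain ⟨h1, h2⟩ := key (Nat.find hex) (fun i hi => Nat.find_min hex hi)
  exact ⟨Nat.find hex, h1, h2, Nat.find_spec hex⟩

/-- the output -/
noncomputable def out (I : SMT) (r : List Bool) : List (Perm (Fin I.n)) :=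
  Ls I r (exists_stop I r).choose

theorem off_mono (n : ℕ) {a b : ℕ} (h : a ≤ b) : off n a ≤ off n b := by
  unfold off
  exact sum_le_sum_of_subset (range_mono h)

theorem Ls_take (I : SMT) (r : List Bool) (i q : ℕ) (hq : off I.n i ≤ q) :
    Ls I (r.take q) i = Ls I r i := by
  induction i with
  | zero => rw [Ls_zero, Ls_zero]
  | succ i ih =>
    have ih' := ih ((off_mono I.n (Nat.le_succ i)).trans hq)
    rw [Ls_succ, Ls_succ, ih']
    have hlen := (Ls_inv I r i).2.2
    have h := rstep_take I r (Ls I r i) (q := q)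
      ((off_mono I.n (Nat.succ_le_succ hlen)).trans hq)
    unfold grow
    rw [← h]

/-- the bad events -/
def Bad (I : SMT) (i : ℕ) (p : List Bool)
    (g : Fin I.n → Fin I.n → Fin (2 ^ Wf I.n i)) : Prop :=
  ¬ OK (pr I.man) (pr I.woman) (fun w m => ((g w m : ℕ) : ℤ)) (Ls I p i).toFinset

theorem const_bound (n : ℕ) :
    2 ^ (n ^ 3) * ((n ^ 2 + 1) * 2 ^ (n ^ 2)) * (2 * n ^ 3) ≤
      2 ^ (n ^ 3 + n ^ 2 + 5 * n + 1) := by
  have h1 : n < 2 ^ n := Nat.lt_two_pow_self
  have h2 : n ^ 2 + 1 ≤ 2 ^ (2 * n) := by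
    have h3 : n + 1 ≤ 2 ^ n := h1
    calc n ^ 2 + 1 ≤ (n + 1) ^ 2 := by nlinarith
      _ ≤ (2 ^ n) ^ 2 := Nat.pow_le_pow_left h3 2
      _ = 2 ^ (2 * n) := by rw [← pow_mul]; ring_nf
  have h4 : n ^ 3 ≤ 2 ^ (3 * n) := by
    calc n ^ 3 ≤ (2 ^ n) ^ 3 := Nat.pow_le_pow_left h1.le 3
      _ = 2 ^ (3 * n) := by rw [← pow_mul]; ring_nf
  calc 2 ^ (n ^ 3) * ((n ^ 2 + 1) * 2 ^ (n ^ 2)) * (2 * n ^ 3) ≤
      2 ^ (n ^ 3) * (2 ^ (2 * n) * 2 ^ (n ^ 2)) * (2 * 2 ^ (3 * n)) := by gcongr
    _ = 2 ^ (n ^ 3 + n ^ 2 + 5 * n + 1) := by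
      rw [show (2 : ℕ) * 2 ^ (3 * n) = 2 ^ (3 * n + 1) by rw [pow_succ]; ring]
      rw [← pow_add, ← pow_add, ← pow_add]
      congr 1
      ring

theorem bad_count (I : SMT) (i : ℕ) (p : List Bool) :
    (univ.filter (Bad I i p)).card * 2 ^ (I.n + i + 1) ≤ (2 ^ Wf I.n i) ^ (I.n * I.n) := by
  have h := count_not_ok (pr_wk I.man) (pr_wk I.woman) (Ls I p i).toFinset (2 ^ Wf I.n i)
  have hW : (2 : ℕ) ^ Wf I.n i = 2 ^ (I.n ^ 3 + I.n ^ 2 + 5 * I.n + 1) * 2 ^ (I.n + i + 1) := by
    unfold Wf; rw [pow_add]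
  have e : (univ.filter (Bad I i p)).card = (univ.filter
      fun g : Fin I.n → Fin I.n → Fin (2 ^ Wf I.n i) =>
        ¬ OK (pr I.man) (pr I.woman) (fun w j => ((g w j : ℕ) : ℤ))
          (Ls I p i).toFinset).card := by
    congr 1
    ext g
    simp only [mem_filter, mem_univ, true_and]
    unfold Bad
    exact Iff.rfl
  rw [← e] at h
  have h2 := h.trans (Nat.mul_le_mul_right _ (const_bound I.n))
  generalize (univ.filter (Bad I i p)).card = c at h2 ⊢
  have h3 : 2 ^ (I.n ^ 3 + I.n ^ 2 + 5 * I.n + 1) * (c * 2 ^ (I.n + i + 1)) ≤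
      2 ^ (I.n ^ 3 + I.n ^ 2 + 5 * I.n + 1) * (2 ^ Wf I.n i) ^ (I.n * I.n) := by
    calc 2 ^ (I.n ^ 3 + I.n ^ 2 + 5 * I.n + 1) * (c * 2 ^ (I.n + i + 1)) =
        c * (2 ^ (I.n ^ 3 + I.n ^ 2 + 5 * I.n + 1) * 2 ^ (I.n + i + 1)) := by ring
      _ = c * 2 ^ Wf I.n i := by rw [← hW]
      _ ≤ _ := h2
  exact Nat.le_of_mul_le_mul_left h3 (by positivity)

/-- if the output is incomplete, a bad event has occurred -/
theorem incomplete (I : SMT) (r : List Bool) (h : ¬ ∀ M, WeaklyStable I M → M ∈ out I r) :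
    ∃ i < numWS I, Bad I i (r.take (off I.n i)) (blk I.n (Wf I.n i) (off I.n i) r) := by
  obtain ⟨h1, h2, h3⟩ := (exists_stop I r).choose_spec
  set k := (exists_stop I r).choose with hk
  have hout : out I r = Ls I r k := rfl
  rw [hout] at h
  push Not at h
  obtain ⟨M, hM, hM'⟩ := h
  obtain ⟨a1, a2, _⟩ := Ls_inv I r k
  have a3 := h1 k le_rfl
  refine ⟨k, ?_, ?_⟩
  · have hnd : (Ls I r k ++ [M]).Nodup := by
      rw [List.nodup_append]
      refine ⟨a1, by simp, ?_⟩
      intro a ha b hb e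
      rw [List.mem_singleton] at hb
      rw [hb] at e
      rw [e] at ha
      exact hM' ha
    have := length_le_numWS I hnd (by
      intro M' hM''
      rw [List.mem_append, List.mem_singleton] at hM''
      rcases hM'' with h' | h'
      · exact a2 M' h'
      · rw [h']; exact hM)
    rw [List.length_append, a3] at this
    simp at this
    omega
  · unfold Bad
    rw [Ls_take I r k _ le_rfl]
    intro hok
    refine rstep_complete I r (Ls I r k) a1 a2 ?_ ⟨M, hM, hM'⟩ h3
    rw [a3]
    exact hok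

theorem sum_geom (T : ℕ) (k : ℕ) (a : ℕ → ℕ) (h : ∀ i < k, a i * 2 ^ (i + 1) ≤ T) :
    ∑ i ∈ range k, a i ≤ T := by
  have key : ∀ j ≤ k, ((∑ i ∈ range j, a i : ℕ) : ℚ) ≤ T * (1 - 1 / 2 ^ j) := by
    intro j
    induction j with
    | zero => intro _; simp
    | succ j ih =>
      intro hj
      have h1 := ih (by omega)
      have h2 := h j (by omega)
      rw [sum_range_succ]
      push_cast
      have h3 : (a j : ℚ) ≤ T / 2 ^ (j + 1) := by
        rw [le_div_iff₀ (by positivity)]
        exact_mod_cast h2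
      have h4 : (T : ℚ) * (1 - 1 / 2 ^ (j + 1)) = T * (1 - 1 / 2 ^ j) + T / 2 ^ (j + 1) := by
        rw [pow_succ]
        field_simp
        ring
      rw [h4]
      push_cast at h1
      linarith
  have h1 := key k le_rfl
  have h2 : (T : ℚ) * (1 - 1 / 2 ^ k) ≤ T := by
    have : (0 : ℚ) ≤ T * (1 / 2 ^ k) := by positivity
    linarith
  exact_mod_cast h1.trans h2

theorem prob (I : SMT) (N : ℕ) (hN : off I.n (numWS I) ≤ N) :
    2 ^ I.n * (univ.filter fun r : Fin N → Bool =>
      ¬ ∀ M, WeaklyStable I M → M ∈ out I (List.ofFn r)).card ≤ 2 ^ N := by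
  set E : ℕ → Finset (Fin N → Bool) := fun i => univ.filter fun r : Fin N → Bool =>
    Bad I i ((List.ofFn r).take (off I.n i)) (blk I.n (Wf I.n i) (off I.n i) (List.ofFn r))
    with hE
  have h1 : (univ.filter fun r : Fin N → Bool =>
      ¬ ∀ M, WeaklyStable I M → M ∈ out I (List.ofFn r)) ⊆ (range (numWS I)).biUnion E := by
    intro r hr
    rw [mem_filter] at hr
    obtain ⟨i, hi, hb⟩ := incomplete I (List.ofFn r) hr.2
    rw [mem_biUnion]
    exact ⟨i, mem_range.2 hi, by rw [hE]; simp only [mem_filter, mem_univ, true_and]; exact hb⟩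
  have h2 : ∀ i < numWS I, (E i).card * 2 ^ (I.n + i + 1) ≤ 2 ^ N := by
    intro i hi
    have ho : off I.n i + I.n * I.n * Wf I.n i ≤ N := by
      refine le_trans (le_of_eq ?_) ((off_mono I.n (Nat.succ_le_of_lt hi)).trans hN)
      unfold off
      rw [sum_range_succ]
    exact count_bits I.n (Wf I.n i) (off I.n i) N (I.n + i + 1) ho (Bad I i) (bad_count I i)
  calc 2 ^ I.n * (univ.filter fun r : Fin N → Bool =>
      ¬ ∀ M, WeaklyStable I M → M ∈ out I (List.ofFn r)).card
      ≤ 2 ^ I.n * ∑ i ∈ range (numWS I), (E i).card :=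
        Nat.mul_le_mul_left _ ((card_le_card h1).trans card_biUnion_le)
    _ = ∑ i ∈ range (numWS I), 2 ^ I.n * (E i).card := by rw [mul_sum]
    _ ≤ 2 ^ N := by
        apply sum_geom
        intro i hi
        refine le_trans (le_of_eq ?_) (h2 i hi)
        rw [show I.n + i + 1 = I.n + (i + 1) by ring, pow_add]
        ring

theorem arith_bound (a b c k : ℕ) (hk : k ≤ b) :
    a + 1 + 2 * (a * (a * a)) + c + k * (a * a + 1) + k ≤
      3 * (a + b + c) ^ 3 + 3 * (a + b + c) + 1 + (a + b + c) ^ 3 + (a + b + c) := by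
  have ha : a ≤ a + b + c := by omega
  have hb : k ≤ a + b + c := by omega
  have e1 : a * (a * a) ≤ (a + b + c) ^ 3 := by
    calc a * (a * a) ≤ (a + b + c) * ((a + b + c) * (a + b + c)) :=
          Nat.mul_le_mul ha (Nat.mul_le_mul ha ha)
      _ = (a + b + c) ^ 3 := by ring
  have e2 : k * (a * a) ≤ (a + b + c) ^ 3 := by
    calc k * (a * a) ≤ (a + b + c) * ((a + b + c) * (a + b + c)) :=
          Nat.mul_le_mul hb (Nat.mul_le_mul ha ha)
      _ = (a + b + c) ^ 3 := by ring
  have e3 : k * (a * a + 1) = k * (a * a) + k := by ring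
  rw [e3]
  omega

theorem off_le (a b : ℕ) : off a b ≤
    (a + b) * ((a + b) * (a + b) * ((a + b) ^ 3 + (a + b) ^ 2 + 8 * (a + b) + 2)) := by
  unfold off Wf
  have h : ∀ i ∈ range b, a * a * (a ^ 3 + a ^ 2 + 5 * a + 1 + (a + i + 1)) ≤
      (a + b) * (a + b) * ((a + b) ^ 3 + (a + b) ^ 2 + 8 * (a + b) + 2) := by
    intro i hi
    have hib : i < b := mem_range.1 hi
    have h0 : a ≤ a + b := by omega
    have h3 : a ^ 3 ≤ (a + b) ^ 3 := Nat.pow_le_pow_left h0 3
    have h2 : a ^ 2 ≤ (a + b) ^ 2 := Nat.pow_le_pow_left h0 2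
    refine Nat.mul_le_mul (Nat.mul_le_mul h0 h0) ?_
    omega
  refine (sum_le_sum h).trans ?_
  rw [sum_const, card_range, smul_eq_mul]
  exact Nat.mul_le_mul_right _ (by omega)

end RFinalAux

open RFinalAux StepSpecAux

/-- **Randomised listing machine.** -/
theorem rlisting :
    ∃ (tm : Turing.FinTM2) (ein : tm.Γ tm.k₀ ≃ Bool) (eout : tm.Γ tm.k₁ ≃ Bool)
      (Q Q₀ : Polynomial ℕ), ∀ I : SMT, ∃ out : List Bool → List (Perm (Fin I.n)),
      (∀ r : List Bool, (out r).Nodup ∧ (∀ M ∈ out r, WeaklyStable I M) ∧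
        Nonempty (Turing.TM2OutputsInTime tm ((encI I ++ r).map ein.symm)
          (some ((encL (out r)).map eout.symm)) (Q.eval (I.n + numWS I + r.length)))) ∧
      ∀ N : ℕ, Q₀.eval (I.n + numWS I) ≤ N →
        2 ^ I.n * Nat.card {r : Fin N → Bool // ∃ M, WeaklyStable I M ∧ M ∉ out (List.ofFn r)} ≤
          2 ^ N := by
  classical
  have hstep : PolyC (fun _ => True) [fun p => p.1, fun p => p.2]
      (fun p : List Bool × List Bool => rstep p.1 p.2) :=
    poly_rstep (PolyC.var (by simp)) (PolyC.var (by simp))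
  obtain ⟨P, q, hP⟩ := loop_machine rstep (fun _ => True) hstep
  refine ⟨machine P, Equiv.refl Bool, Equiv.refl Bool,
    q.comp (3 * Polynomial.X ^ 3 + 3 * Polynomial.X + 1 + Polynomial.X ^ 3 + Polynomial.X) + 1,
    Polynomial.X * (Polynomial.X * Polynomial.X *
      (Polynomial.X ^ 3 + Polynomial.X ^ 2 + 8 * Polynomial.X + 2)), fun I => ?_⟩
  refine ⟨RFinalAux.out I, fun r => ?_, fun N hN => ?_⟩
  · obtain ⟨h1, h2, h3⟩ := (RFinalAux.exists_stop I r).choose_spec
    set k := (RFinalAux.exists_stop I r).choose with hk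
    have hout : RFinalAux.out I r = RFinalAux.Ls I r k := rfl
    obtain ⟨a1, a2, _⟩ := Ls_inv I r k
    have a3 := h1 k le_rfl
    rw [hout]
    refine ⟨a1, a2, ?_⟩
    obtain ⟨t, ht, hrun⟩ := hP (encI I ++ r) k (fun i => encL (RFinalAux.Ls I r i))
      (by rw [Ls_zero]; simp [encL]) (fun _ _ => trivial) h2 h3
    have hm := machine_outputs P _ _ t hrun
    have hmono := outputs_mono
      (m' := (q.comp (3 * Polynomial.X ^ 3 + 3 * Polynomial.X + 1 + Polynomial.X ^ 3 +
        Polynomial.X) + 1).eval (I.n + numWS I + r.length)) ?_ hm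
    · have hmap : ∀ l : List Bool, List.map (Equiv.refl Bool).symm l = l :=
        fun l => List.map_id l
      exact cast (congrArg₂ (fun x y => Nonempty (Turing.TM2OutputsInTime (machine P) x (some y)
        ((q.comp (3 * Polynomial.X ^ 3 + 3 * Polynomial.X + 1 + Polynomial.X ^ 3 +
          Polynomial.X) + 1).eval (I.n + numWS I + r.length)))) (hmap (encI I ++ r)).symm
          (hmap (encL (RFinalAux.Ls I r k))).symm) hmono
    · have hx : (encI I).length = I.n + 1 + 2 * (I.n * (I.n * I.n)) := by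
        unfold encI
        rw [List.length_append, List.length_cons, List.length_append, encR_length, encR_length,
          List.length_replicate]
        ring
      have hy : (encL (RFinalAux.Ls I r k)).length =
          (RFinalAux.Ls I r k).length * (I.n * I.n + 1) := encL_length _
      have hkn : k ≤ numWS I := by
        have := length_le_numWS I a1 a2
        omega
      rw [Polynomial.eval_add, Polynomial.eval_comp, Polynomial.eval_one]
      refine Nat.add_le_add_right (ht.trans (eval_mono q ?_)) 1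
      simp only [Polynomial.eval_add, Polynomial.eval_mul, Polynomial.eval_pow,
        Polynomial.eval_X, Polynomial.eval_one, Polynomial.eval_ofNat]
      rw [List.length_append, hx, hy, a3]
      exact arith_bound _ _ _ _ hkn
  · have hoff : off I.n (numWS I) ≤ N := by
      refine (off_le _ _).trans (le_trans (le_of_eq ?_) hN)
      simp only [Polynomial.eval_add, Polynomial.eval_mul, Polynomial.eval_pow,
        Polynomial.eval_X, Polynomial.eval_ofNat]
    have h := prob I N hoff
    refine le_trans (le_of_eq ?_) h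
    congr 1
    rw [Nat.card_eq_fintype_card, Fintype.card_subtype]
    congr 1
    ext r
    simp only [mem_filter, mem_univ, true_and]
    push Not
    rfl

end Pool.Agent.Lib.Wsm
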