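import Pool.Agent.Lib.Wsm.RFinal

/-!
# The randomised listing machine for all instances: random bits on demand
-/

set_option autoImplicit false

namespace Pool.Agent.Lib.Wsm

open Finset Equiv Pool.Agent.Lib.PolyTime

namespace RFinalAux

open StepSpecAux RStepAux Classical

theorem out_length (I : SMT) (r : List Bool) :
    (out I r).length = (exists_stop I r).choose :=
  (exists_stop I r).choose_spec.1 _ le_rfl

/-- if enough random bits are given for the number of matchings found, then more random bits do
not change the output -/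
theorem out_append (I : SMT) (r s : List Bool)
    (h : off I.n ((out I r).length + 1) ≤ r.length) : out I (r ++ s) = out I r := by
  rw [out_length] at h
  obtain ⟨h1, h2, h3⟩ := (exists_stop I r).choose_spec
  obtain ⟨g1, g2, g3⟩ := (exists_stop I (r ++ s)).choose_spec
  have hout : out I r = Ls I r (exists_stop I r).choose := rfl
  have hout' : out I (r ++ s) = Ls I (r ++ s) (exists_stop I (r ++ s)).choose := rfl
  rw [hout, hout']
  generalize (exists_stop I r).choose = k at *
  generalize (exists_stop I (r ++ s)).choose = k' at *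
  have ht : (r ++ s).take r.length = r := by
    rw [List.take_append_of_le_length le_rfl, List.take_length]
  have e : ∀ i ≤ k + 1, Ls I r i = Ls I (r ++ s) i := by
    intro i hi
    have := Ls_take I (r ++ s) i r.length ((off_mono I.n hi).trans h)
    rw [ht] at this
    exact this
  have e2 : ∀ i ≤ k, rstep (encI I ++ (r ++ s)) (encL (Ls I (r ++ s) i)) =
      rstep (encI I ++ r) (encL (Ls I r i)) := by
    intro i hi
    rw [← e i (by omega)]
    have hlen : (Ls I r i).length ≤ i := (Ls_inv I r i).2.2
    have := rstep_take I (r ++ s) (Ls I r i) (q := r.length)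
      ((off_mono I.n (by omega)).trans h)
    rw [ht] at this
    exact this
  have hk : k' = k := by
    rcases Nat.lt_trichotomy k' k with h' | h' | h'
    · exact absurd ((e2 k' h'.le).symm.trans g3) (h2 k' h').1
    · exact h'
    · exact absurd ((e2 k le_rfl).trans h3) (g2 k h').1
  rw [hk, e k (by omega)]

end RFinalAux

open RFinalAux StepSpecAux

/-- **Randomised listing machine, random bits on demand.** -/
theorem rlisting2 :
    ∃ (tm : Turing.FinTM2) (ein : tm.Γ tm.k₀ ≃ Bool) (eout : tm.Γ tm.k₁ ≃ Bool)
      (Q Q₀ : Polynomial ℕ), ∀ I : SMT, ∃ out : List Bool → List (Perm (Fin I.n)),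
      (∀ r : List Bool, (out r).Nodup ∧ (∀ M ∈ out r, WeaklyStable I M) ∧
        Nonempty (Turing.TM2OutputsInTime tm ((encI I ++ r).map ein.symm)
          (some ((encL (out r)).map eout.symm)) (Q.eval (I.n + (out r).length + r.length)))) ∧
      (∀ r s : List Bool, Q₀.eval (I.n + (out r).length) ≤ r.length → out (r ++ s) = out r) ∧
      ∀ N : ℕ, Q₀.eval (I.n + numWS I) ≤ N →
        2 ^ I.n * Nat.card {r : Fin N → Bool // ∃ M, WeaklyStable I M ∧ M ∉ out (List.ofFn r)} ≤
          2 ^ N := by
  classical
  have hstep : PolyC (fun _ => True) [fun p => p.1, fun p => p.2]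
      (fun p : List Bool × List Bool => rstep p.1 p.2) :=
    poly_rstep (PolyC.var (by simp)) (PolyC.var (by simp))
  obtain ⟨P, q, hP⟩ := loop_machine rstep (fun _ => True) hstep
  refine ⟨machine P, Equiv.refl Bool, Equiv.refl Bool,
    q.comp (3 * Polynomial.X ^ 3 + 3 * Polynomial.X + 1 + Polynomial.X ^ 3 + Polynomial.X) + 1,
    (Polynomial.X * (Polynomial.X * Polynomial.X *
      (Polynomial.X ^ 3 + Polynomial.X ^ 2 + 8 * Polynomial.X + 2))).comp (Polynomial.X + 1),
    fun I => ?_⟩
  have hQ : ∀ j : ℕ, off I.n (j + 1) ≤ ((Polynomial.X * (Polynomial.X * Polynomial.X *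
      (Polynomial.X ^ 3 + Polynomial.X ^ 2 + 8 * Polynomial.X + 2)) : Polynomial ℕ).comp
        (Polynomial.X + 1)).eval (I.n + j) := by
    intro j
    refine (off_le _ _).trans (le_of_eq ?_)
    simp only [Polynomial.eval_comp, Polynomial.eval_add, Polynomial.eval_mul,
      Polynomial.eval_pow, Polynomial.eval_X, Polynomial.eval_ofNat, Polynomial.eval_one]
    rfl
  refine ⟨RFinalAux.out I, fun r => ?_, fun r s h => out_append I r s ((hQ _).trans h),
    fun N hN => ?_⟩
  · obtain ⟨h1, h2, h3⟩ := (RFinalAux.exists_stop I r).choose_spec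
    set k := (RFinalAux.exists_stop I r).choose with hk
    have hout : RFinalAux.out I r = RFinalAux.Ls I r k := rfl
    obtain ⟨a1, a2, _⟩ := Ls_inv I r k
    have a3 := h1 k le_rfl
    rw [hout]
    refine ⟨a1, a2, ?_⟩
    obtain ⟨t, ht, hrun⟩ := hP (encI I ++ r) k (fun i => encL (RFinalAux.Ls I r i))
      (by rw [Ls_zero]; simp [encL]) (fun _ _ => trivial) h2 h3
    have hm := machine_outputs P _ _ t hrun
    have hmono := outputs_mono
      (m' := (q.comp (3 * Polynomial.X ^ 3 + 3 * Polynomial.X + 1 + Polynomial.X ^ 3 +
        Polynomial.X) + 1).eval (I.n + (RFinalAux.Ls I r k).length + r.length)) ?_ hm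
    · have hmap : ∀ l : List Bool, List.map (Equiv.refl Bool).symm l = l :=
        fun l => List.map_id l
      exact cast (congrArg₂ (fun x y => Nonempty (Turing.TM2OutputsInTime (machine P) x (some y)
        ((q.comp (3 * Polynomial.X ^ 3 + 3 * Polynomial.X + 1 + Polynomial.X ^ 3 +
          Polynomial.X) + 1).eval (I.n + (RFinalAux.Ls I r k).length + r.length))))
          (hmap (encI I ++ r)).symm (hmap (encL (RFinalAux.Ls I r k))).symm) hmono
    · have hx : (encI I).length = I.n + 1 + 2 * (I.n * (I.n * I.n)) := by
        unfold encI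
        rw [List.length_append, List.length_cons, List.length_append, encR_length, encR_length,
          List.length_replicate]
        ring
      have hy : (encL (RFinalAux.Ls I r k)).length =
          (RFinalAux.Ls I r k).length * (I.n * I.n + 1) := encL_length _
      rw [Polynomial.eval_add, Polynomial.eval_comp, Polynomial.eval_one]
      refine Nat.add_le_add_right (ht.trans (eval_mono q ?_)) 1
      simp only [Polynomial.eval_add, Polynomial.eval_mul, Polynomial.eval_pow,
        Polynomial.eval_X, Polynomial.eval_one, Polynomial.eval_ofNat]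
      rw [List.length_append, hx, hy, a3]
      exact arith_bound _ _ _ _ le_rfl
  · have hoff : off I.n (numWS I) ≤ N :=
      (off_mono I.n (Nat.le_succ _)).trans ((hQ _).trans hN)
    have h := prob I N hoff
    refine le_trans (le_of_eq ?_) h
    congr 1
    rw [Nat.card_eq_fintype_card, Fintype.card_subtype]
    congr 1
    ext r
    simp only [mem_filter, mem_univ, true_and]
    push Not
    rfl

end Pool.Agent.Lib.Wsm
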