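import Pool.Agent.Lib.Wsm.Zip

/-!
# Random parameters are good

MODULE Wsm.Union (1.2 h): prove `count_not_ok`.  Auxiliary lemmas: namespace
`Pool.Agent.Lib.Wsm.UnionAux`.  Imports are black boxes.

Let all `g w` be injective.  Then `OK.sep` holds, and `OK.meas` by `nu_indep`.  For `OK.good` let `Refn B' B` and
`lab` be given; only the first `n * n` entries of `lab` matter (`uL n lab = uL n (lab.take (n * n))` and
`Cons lab U ↔ Cons (lab.take (n * n)) U`, since `m * n + w < n * n`), so let `lab.length ≤ n * n`.  By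
`Rm_eq` (with `μ w = nu (g w)`, same measure for all `B'`), `Rm = ∑ π, c π * ∏ w, nu (g w) (π w)` with
`c π = ∑ U, (∏ m, ∏ w, uL n lab m w (U m w)) * [opt (refM A U) (refW B' π) ∉ L] ≥ 0`, and `c ≠ 0` if
`Miss A B' lab L` (weights of consistent labels are positive).  `count_bad` bounds the number of `g` for
which this fails.  Sum over the states `(B', lab)`: `B' : Pref n` (at most `2 ^ (n ^ 3)`) and
`lab` of length `k ≤ n * n` (at most `(n ^ 2 + 1) * 2 ^ (n ^ 2)`: pairs of `k` and a function
`Fin (n * n) → Bool`).  To cover also the non-injective `g` use for the states without a miss the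
constant `c = 1`.
-/

namespace Pool.Agent.Lib.Wsm

open Finset Equiv

variable {n : ℕ}

namespace UnionAux

theorem uL_nonneg (lab : List Bool) (m w : Fin n) (b : Bool) : 0 ≤ uL n lab m w b := by
  unfold uL
  split_ifs <;> norm_num

theorem uL_pos {lab : List Bool} {U : Fin n → Fin n → Bool} (h : Cons lab U) (m w : Fin n) :
    0 < uL n lab m w (U m w) := by
  unfold uL
  split_ifs with h1 h2
  · norm_num
  · exact absurd (h m w h1).symm h2
  · norm_num

theorem getD_take (lab : List Bool) {k i : ℕ} (h : i < k) :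
    (lab.take k).getD i false = lab.getD i false := by
  simp only [List.getD_eq_getElem?_getD, List.getElem?_take_of_lt h]

theorem lt_take (lab : List Bool) {k i : ℕ} (h : i < k) :
    i < (lab.take k).length ↔ i < lab.length := by
  rw [List.length_take]
  omega

theorem uL_take (lab : List Bool) : uL n (lab.take (n * n)) = uL n lab := by
  funext m w b
  unfold uL
  have h := CertAux.index_lt m w
  rw [getD_take lab h]
  simp only [lt_take lab h]

theorem cons_take (lab : List Bool) (U : Fin n → Fin n → Bool) :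
    Cons (lab.take (n * n)) U ↔ Cons lab U := by
  unfold Cons
  refine forall_congr' fun m => forall_congr' fun w => ?_
  have h := CertAux.index_lt m w
  rw [getD_take lab h, lt_take lab h]

theorem miss_take {A B : Pref n} {lab : List Bool} {L : Finset (Perm (Fin n))}
    (h : Miss A B lab L) : Miss A B (lab.take (n * n)) L := by
  obtain ⟨U, π, h1, h2⟩ := h
  exact ⟨U, π, (cons_take lab U).2 h1, h2⟩

open Classical in
/-- the coefficients -/
noncomputable def cU (A B : Pref n) (lab : List Bool) (L : Finset (Perm (Fin n)))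
    (π : Fin n → Perm (Fin n)) : ℚ :=
  ∑ U : Fin n → Fin n → Bool, (∏ m, ∏ w, uL n lab m w (U m w)) *
    (if opt (refM A U) (refW B π) ∈ L then 0 else 1)

theorem cU_nonneg (A B : Pref n) (lab : List Bool) (L : Finset (Perm (Fin n)))
    (π : Fin n → Perm (Fin n)) : 0 ≤ cU A B lab L π := by
  refine Finset.sum_nonneg fun U _ => mul_nonneg ?_ ?_
  · exact Finset.prod_nonneg fun m _ => Finset.prod_nonneg fun w _ => uL_nonneg lab m w _
  · split_ifs <;> norm_num

theorem cU_ne {A B : Pref n} {lab : List Bool} {L : Finset (Perm (Fin n))}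
    (h : Miss A B lab L) : ∃ π, cU A B lab L π ≠ 0 := by
  classical
  obtain ⟨U, π, h1, h2⟩ := h
  refine ⟨π, ne_of_gt ?_⟩
  unfold cU
  refine Finset.sum_pos' (fun U _ => mul_nonneg ?_ ?_) ⟨U, Finset.mem_univ _, ?_⟩
  · exact Finset.prod_nonneg fun m _ => Finset.prod_nonneg fun w _ => uL_nonneg lab m w _
  · split_ifs <;> norm_num
  · rw [if_neg h2, mul_one]
    exact Finset.prod_pos fun m _ => Finset.prod_pos fun w _ => uL_pos h1 m w

/-- the states -/
abbrev St (n : ℕ) := Pref n × Fin (n * n + 1) × (Fin (n * n) → Bool)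

/-- the labels of a state -/
def labS (σ : St n) : List Bool := (List.ofFn σ.2.2).take σ.2.1

theorem card_St : Fintype.card (St n) = 2 ^ (n ^ 3) * ((n ^ 2 + 1) * 2 ^ (n ^ 2)) := by
  simp only [St, Pref, Fintype.card_prod, Fintype.card_fin, Fintype.card_pi, Fintype.card_bool,
    Finset.prod_const, Finset.card_univ]
  rw [← pow_mul, ← pow_mul]
  rw [show n * (n * n) = n ^ 3 by ring, show n * n = n ^ 2 by ring]

open Classical in
/-- the coefficients of a state -/
noncomputable def cS (A B : Pref n) (L : Finset (Perm (Fin n))) (σ : St n)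
    (π : Fin n → Perm (Fin n)) : ℚ :=
  if Refn σ.1 B ∧ Miss A σ.1 (labS σ) L then cU A σ.1 (labS σ) L π else 1

theorem cS_nonneg (A B : Pref n) (L : Finset (Perm (Fin n))) (σ : St n)
    (π : Fin n → Perm (Fin n)) : 0 ≤ cS A B L σ π := by
  unfold cS
  split_ifs
  · exact cU_nonneg _ _ _ _ _
  · norm_num

theorem cS_ne (A B : Pref n) (L : Finset (Perm (Fin n))) (σ : St n) :
    ∃ π, cS A B L σ π ≠ 0 := by
  unfold cS
  split_ifs with h
  · exact cU_ne h.2
  · exact ⟨fun _ => 1, one_ne_zero⟩

theorem ok_of {A B : Pref n} (hA : ∀ m, Wk (A m)) (L : Finset (Perm (Fin n))) {N : ℕ}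
    (g : Fin n → Fin n → Fin N)
    (h : ∀ σ : St n, (∀ w, Function.Injective (g w)) ∧
      ∑ π, cS A B L σ π * ∏ w, nu (fun j => ((g w j : ℕ) : ℚ)) (π w) ≠ 0) :
    OK A B (fun w j => ((g w j : ℕ) : ℤ)) L := by
  classical
  have hinj : ∀ w, Function.Injective (g w) := (h ⟨fun _ _ _ => false, 0, fun _ => false⟩).1
  have hinj' : ∀ w, Function.Injective (fun j => ((g w j : ℕ) : ℤ)) := by
    intro w a b hab
    apply hinj w
    apply Fin.ext
    simpa using hab
  have hI : ∀ B', Refn B' B → ∀ w, IndepX (B' w) (nu fun j => ((g w j : ℕ) : ℚ))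
      (xg (fun j => ((g w j : ℕ) : ℤ)) (B' w)) := by
    intro B' hB' w
    have := nu_indep (hB' w).1 (fun j => ((g w j : ℕ) : ℤ)) (hinj' w)
    simpa using this
  refine ⟨?_, ?_, ?_⟩
  · intro w j i hji _ _ h3
    exact hji (hinj' w h3)
  · exact fun B' hB' w => ⟨_, hI B' hB' w⟩
  · intro B' hB' lab hm
    rw [← uL_take lab]
    have hm' := miss_take hm
    set lab' := lab.take (n * n) with hlab'
    have hlen : lab'.length ≤ n * n := by rw [hlab', List.length_take]; omega
    let σ : St n := ⟨B', ⟨lab'.length, by omega⟩, fun i => lab'.getD i false⟩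
    have hσ : labS σ = lab' := by
      apply List.ext_getElem
      · simp only [labS, List.length_take, List.length_ofFn, σ]
        omega
      · intro i h1 h2
        simp only [labS, List.getElem_take, List.getElem_ofFn, σ]
        rw [List.getD_eq_getElem _ _ h2]
    rw [Rm_eq hA (fun w => (hB' w).1) (uL_sum lab') (hI B' hB') L, Finset.sum_comm]
    have h1 := (h σ).2
    have h2 : ∀ π, cS A B L σ π = cU A B' lab' L π := by
      intro π
      unfold cS
      rw [hσ, if_pos ⟨hB', hm'⟩]
    simp only [h2] at h1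
    convert h1 using 2 with π
    unfold cU
    rw [Finset.sum_mul]
    refine Finset.sum_congr rfl fun U _ => ?_
    ring

end UnionAux

open Classical in
theorem count_not_ok {A B : Pref n} (hA : ∀ m, Wk (A m)) (hB : ∀ w, Wk (B w))
    (L : Finset (Perm (Fin n))) (N : ℕ) :
    (univ.filter fun g : Fin n → Fin n → Fin N =>
      ¬ OK A B (fun w j => ((g w j : ℕ) : ℤ)) L).card * N ≤
      2 ^ (n ^ 3) * ((n ^ 2 + 1) * 2 ^ (n ^ 2)) * (2 * n ^ 3) * N ^ (n * n) := by
  have hbad : ∀ σ : UnionAux.St n, (univ.filter fun g : Fin n → Fin n → Fin N =>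
      ¬ ((∀ w, Function.Injective (g w)) ∧
        ∑ π, UnionAux.cS A B L σ π * ∏ w, nu (fun j => ((g w j : ℕ) : ℚ)) (π w) ≠ 0)).card * N ≤
      2 * n ^ 3 * N ^ (n * n) :=
    fun σ => count_bad N _ (UnionAux.cS_nonneg A B L σ) (UnionAux.cS_ne A B L σ)
  have hsub : (univ.filter fun g : Fin n → Fin n → Fin N =>
      ¬ OK A B (fun w j => ((g w j : ℕ) : ℤ)) L) ⊆
      (univ : Finset (UnionAux.St n)).biUnion (fun σ => univ.filter fun g : Fin n → Fin n → Fin N =>
      ¬ ((∀ w, Function.Injective (g w)) ∧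
        ∑ π, UnionAux.cS A B L σ π * ∏ w, nu (fun j => ((g w j : ℕ) : ℚ)) (π w) ≠ 0)) := by
    intro g hg
    rw [Finset.mem_filter] at hg
    by_contra hcon
    apply hg.2
    apply UnionAux.ok_of hA
    intro σ
    by_contra hneg
    exact hcon (Finset.mem_biUnion.2 ⟨σ, Finset.mem_univ _,
      Finset.mem_filter.2 ⟨Finset.mem_univ _, hneg⟩⟩)
  calc _ ≤ (∑ σ : UnionAux.St n, (univ.filter fun g : Fin n → Fin n → Fin N =>
      ¬ ((∀ w, Function.Injective (g w)) ∧
        ∑ π, UnionAux.cS A B L σ π * ∏ w, nu (fun j => ((g w j : ℕ) : ℚ)) (π w) ≠ 0)).card) * N :=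
        Nat.mul_le_mul_right N ((Finset.card_le_card hsub).trans Finset.card_biUnion_le)
    _ = ∑ σ : UnionAux.St n, (univ.filter fun g : Fin n → Fin n → Fin N =>
      ¬ ((∀ w, Function.Injective (g w)) ∧
        ∑ π, UnionAux.cS A B L σ π * ∏ w, nu (fun j => ((g w j : ℕ) : ℚ)) (π w) ≠ 0)).card * N := by
        rw [Finset.sum_mul]
    _ ≤ ∑ _σ : UnionAux.St n, 2 * n ^ 3 * N ^ (n * n) := Finset.sum_le_sum fun σ _ => hbad σ
    _ = _ := by
        rw [Finset.sum_const, Finset.card_univ, UnionAux.card_St, smul_eq_mul]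
        ring

end Pool.Agent.Lib.Wsm
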