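import Pool.Agent.Lib.Wsm.StepSpec
import Pool.Agent.Lib.Wsm.Chk
import Pool.Agent.Lib.Wsm.Union
import Pool.Agent.Lib.Wsm.Bits

/-!
# The randomised step
-/

set_option autoImplicit false

namespace Pool.Agent.Lib.Wsm

open Finset Equiv Pool.Agent.Lib.PolyTime Pool.Agent.Lib.Pa7c826 Pool.Agent.Lib.P8e91ed.PT

/-- number of random bits per parameter -/
def Wf (n K : ℕ) : ℕ := n ^ 3 + n ^ 2 + 5 * n + 1 + (n + K + 1)

/-- number of random bits used in the first `K` steps -/
def off (n K : ℕ) : ℕ := ∑ i ∈ range K, n * n * Wf n i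

/-- the random bits -/
def rOf (x : List Bool) : List Bool :=
  (PolyTime.afterTrue x).drop (nOf x * (nOf x * nOf x) + nOf x * (nOf x * nOf x))

/-- the block of random bits of the step with `K` known matchings -/
def rblk (n K : ℕ) (r : List Bool) : List Bool := (r.drop (off n K)).take (n * n * Wf n K)

/-- data with random parameters -/
def dat3 (x y : List Bool) : Dat :=
  { n := nOf x, K := kOf (nOf x) y, tA := t1Of x, tB := t2Of x,
    tP := tpOf (nOf x) (kOf (nOf x) y) y, W := Wf (nOf x) (kOf (nOf x) y),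
    tG := rblk (nOf x) (kOf (nOf x) y) (rOf x), c := 0 }

open Classical in
/-- the randomised step -/
noncomputable def rstep (x y : List Bool) : List Bool :=
  if (dat3 x y).next ≠ [] ∧ Chk (dat3 x y) (dat3 x y).next.tail then
    true :: mk2 (nOf x) (nOf x) (fun i j => g2 (nOf x) (dat3 x y).next.tail i j) else []

/-! ### Polynomial time -/

section poly

variable {α : Type*} {D : α → Prop} {ctx : List (α → List Bool)} {x y : α → List Bool}

theorem poly_Wf {n K : α → ℕ} (hn : PolyN D ctx n) (hK : PolyN D ctx K) :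
    PolyN D ctx (fun a => Wf (n a) (K a)) :=
  ((((Pa7c826.PolyN.pow hn 3).add (Pa7c826.PolyN.pow hn 2)).add ((PolyN.const 5).mul hn)).add (PolyN.const 1)).add
    ((hn.add hK).add (PolyN.const 1))

theorem poly_off {n K : α → ℕ} (hn : PolyN D ctx n) (hK : PolyN D ctx K) :
    PolyN D ctx (fun a => off (n a) (K a)) :=
  nSum (f := fun a i => n a * n a * Wf (n a) i) hK
    (((nU hn).mul (nU hn)).mul (poly_Wf (nU hn) nL))

theorem poly_rblk {n K : α → ℕ} {r : α → List Bool} (hn : PolyN D ctx n)
    (hK : PolyN D ctx K) (hr : PolyC D ctx r) :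
    PolyC D ctx (fun a => rblk (n a) (K a) (r a)) :=
  PolyC.take (PolyC.drop hr (poly_off hn hK)) ((hn.mul hn).mul (poly_Wf hn hK))

theorem poly_rOf (hx : PolyC D ctx x) : PolyC D ctx (fun a => rOf (x a)) := by
  have hn := poly_nOf hx
  exact PolyC.drop (PolyC.afterTrue hx) ((hn.mul (hn.mul hn)).add (hn.mul (hn.mul hn)))

theorem poly_dat3 (hx : PolyC D ctx x) (hy : PolyC D ctx y) :
    PDat D ctx (fun a => dat3 (x a) (y a)) where
  n := poly_nOf hx
  K := poly_kOf (poly_nOf hx) hy
  tA := poly_t1Of hx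
  tB := poly_t2Of hx
  tP := poly_tpOf (poly_nOf hx) (poly_kOf (poly_nOf hx) hy) hy
  W := poly_Wf (poly_nOf hx) (poly_kOf (poly_nOf hx) hy)
  tG := poly_rblk (poly_nOf hx) (poly_kOf (poly_nOf hx) hy) (poly_rOf hx)
  c := PolyN.const 0

theorem poly_rstep (hx : PolyC D ctx x) (hy : PolyC D ctx y) :
    PolyC D ctx (fun a => rstep (x a) (y a)) := by
  unfold rstep
  have hd := poly_dat3 hx hy
  have h2 := poly_next hd
  have hn := poly_nOf hx
  refine c_ite ((p_nil h2).not.and (poly_chk hd (PolyC.tail h2))) (PolyC.cons true ?_) PolyC.nil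
  exact poly_mk2 (f := fun a i j => g2 (nOf (x a)) (dat3 (x a) (y a)).next.tail i j) hn hn
    (poly_g2 (nU (nU hn)) (cU (cU (PolyC.tail h2))) (nU nL) nL)

end poly

/-! ### Correctness -/

namespace RStepAux

open StepSpecAux

variable {n : ℕ}

theorem nOf_enc (I : SMT) (r : List Bool) : nOf (encI I ++ r) = I.n := by
  unfold nOf encI
  have := takeWhile_un I.n (encR I.man ++ encR I.woman ++ r)
  unfold un at this
  rw [List.append_assoc, List.cons_append, this]
  simp

theorem after_enc (I : SMT) (r : List Bool) :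
    PolyTime.afterTrue (encI I ++ r) = encR I.man ++ (encR I.woman ++ r) := by
  have := afterTrue_un I.n (encR I.man ++ encR I.woman ++ r)
  unfold un at this
  unfold encI
  rw [List.append_assoc, List.cons_append, this, List.append_assoc]

theorem t1_enc (I : SMT) (r : List Bool) : t1Of (encI I ++ r) = encR I.man := by
  unfold t1Of
  rw [nOf_enc, after_enc, ← encR_length I.man, List.take_left]

theorem t2_enc (I : SMT) (r : List Bool) : t2Of (encI I ++ r) = encR I.woman := by
  unfold t2Of
  rw [nOf_enc, after_enc]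
  have h1 := encR_length I.man
  have h2 := encR_length I.woman
  rw [← h1, List.drop_left, h1, ← h2, List.take_left]

theorem r_enc (I : SMT) (r : List Bool) : rOf (encI I ++ r) = r := by
  unfold rOf
  rw [nOf_enc, after_enc]
  have h1 := encR_length I.man
  have h2 := encR_length I.woman
  rw [← List.drop_drop]
  conv_lhs => rw [← h1]
  rw [List.drop_left, h1, ← h2, List.drop_left]

/-- data -/
def mk3Dat (I : SMT) (L : List (Perm (Fin I.n))) (r : List Bool) : Dat :=
  { n := I.n, K := L.length, tA := encR I.man, tB := encR I.woman, tP := L.flatMap permBits,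
    W := Wf I.n L.length, tG := rblk I.n L.length r, c := 0 }

theorem dat3_eq (I : SMT) (L : List (Perm (Fin I.n))) (r : List Bool) :
    dat3 (encI I ++ r) (encL L) = mk3Dat I L r := by
  unfold dat3 mk3Dat
  rw [nOf_enc, t1_enc, t2_enc, r_enc, kOf_encL, tpOf_encL]

theorem rep3 (I : SMT) (L : List (Perm (Fin I.n))) (hL : L.Nodup) (r : List Bool) :
    Rep (mk3Dat I L r) (pr I.man) (pr I.woman)
      (fun w m : Fin I.n => ((blk I.n (Wf I.n L.length) (off I.n L.length) r w m : ℕ) : ℤ)) L where
  hK := rfl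
  nodup := hL
  hA := fun m w w' => encR_g3 I.man m w w'
  hB := fun m w w' => encR_g3 I.woman m w w'
  hP := fun l hl m w => g3_perms L l hl m w
  hg := by
    change ∀ w m : Fin I.n, ((bval (((rblk I.n L.length r).drop
      (((w : ℕ) * I.n + m) * Wf I.n L.length)).take (Wf I.n L.length)) : ℤ) - ((0 : ℕ) : ℤ)) =
      ((blk I.n (Wf I.n L.length) (off I.n L.length) r w m : ℕ) : ℤ)
    intro w m
    have hle : ((w : ℕ) * I.n + m) * Wf I.n L.length + Wf I.n L.length ≤
        I.n * I.n * Wf I.n L.length := by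
      have h1 := w.2
      have h2 := m.2
      have h3 : (w : ℕ) * I.n + m + 1 ≤ I.n * I.n := by nlinarith
      calc ((w : ℕ) * I.n + m) * Wf I.n L.length + Wf I.n L.length =
          ((w : ℕ) * I.n + m + 1) * Wf I.n L.length := by ring
        _ ≤ _ := Nat.mul_le_mul_right _ h3
    unfold rblk blk
    rw [List.drop_take, List.take_take, min_eq_left (by omega)]
    simp

theorem rstep_sound (I : SMT) (r : List Bool) (L : List (Perm (Fin I.n))) (hL : L.Nodup) :
    rstep (encI I ++ r) (encL L) = [] ∨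
      ∃ M, M ∉ L ∧ WeaklyStable I M ∧ rstep (encI I ++ r) (encL L) = true :: encM M := by
  classical
  unfold rstep
  rw [dat3_eq, nOf_enc]
  by_cases h : (mk3Dat I L r).next ≠ [] ∧ Chk (mk3Dat I L r) (mk3Dat I L r).next.tail
  · right
    rw [if_pos h]
    obtain ⟨M, h1, h2, h3⟩ := (chk_spec (rep3 I L hL r) _).1 h.2
    refine ⟨M, h3, (stab_iff I M).1 h2, ?_⟩
    rw [encM_eq]
    congr 1
    exact mk2_eq_permBits (fun m w => h1 m w)
  · left
    rw [if_neg h]

theorem rstep_complete (I : SMT) (r : List Bool) (L : List (Perm (Fin I.n))) (hL : L.Nodup)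
    (hst : ∀ M ∈ L, WeaklyStable I M)
    (hok : OK (pr I.man) (pr I.woman)
      (fun w m : Fin I.n => ((blk I.n (Wf I.n L.length) (off I.n L.length) r w m : ℕ) : ℤ))
      L.toFinset)
    (hne : ∃ M, WeaklyStable I M ∧ M ∉ L) : rstep (encI I ++ r) (encL L) ≠ [] := by
  classical
  rcases next_spec (rep3 I L hL r) (pr_wk I.man) (pr_wk I.woman) hok
    (fun M hM => (stab_iff I M).2 (hst M hM)) with ⟨_, h⟩ | ⟨M, h1, h2, h3⟩
  · obtain ⟨M, hM, hM'⟩ := hne
    exact absurd (h M ((stab_iff I M).2 hM)) hM'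
  · unfold rstep
    rw [dat3_eq, nOf_enc]
    have hc : (mk3Dat I L r).next ≠ [] ∧ Chk (mk3Dat I L r) (mk3Dat I L r).next.tail := by
      refine ⟨by rw [h3]; simp, ?_⟩
      rw [h3, List.tail_cons]
      exact (chk_spec (rep3 I L hL r) _).2 ⟨M, fun m w => g2_permBits M m w, h2, h1⟩
    rw [if_pos hc]
    simp

/-- the step reads only one block of the random bits -/
theorem rstep_take (I : SMT) (r : List Bool) (L : List (Perm (Fin I.n))) {q : ℕ}
    (hq : off I.n (L.length + 1) ≤ q) :
    rstep (encI I ++ r) (encL L) = rstep (encI I ++ r.take q) (encL L) := by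
  have h : mk3Dat I L r = mk3Dat I L (r.take q) := by
    have hle : off I.n L.length + I.n * I.n * Wf I.n L.length ≤ q := by
      unfold off at hq ⊢
      rw [sum_range_succ] at hq
      exact hq
    unfold mk3Dat rblk
    congr 1
    rw [List.drop_take, List.take_take, min_eq_left (by omega)]
  unfold rstep
  rw [dat3_eq, dat3_eq, nOf_enc, nOf_enc, h]

end RStepAux

end Pool.Agent.Lib.Wsm
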