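import Mathlib

/-!
# The stable marriage problem with ties: instances, matchings, encodings
-/

namespace Pool.Agent.Lib.Wsm

open Equiv

/-- An instance of the stable marriage problem with ties of size `n`, given by ranks:
`man m w` is the rank of the woman `w` in the list of the man `m`; a smaller rank is better and
equal ranks mean a tie.  `woman w m` likewise. -/
structure SMT where
  n : ℕ
  man : Fin n → Fin n → Fin n
  woman : Fin n → Fin n → Fin n

/-- A matching is a bijection `M` from the men to the women.  It is weakly stable if no pair
blocks it. -/
def WeaklyStable (I : SMT) (M : Perm (Fin I.n)) : Prop :=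
  ∀ m w, ¬ (I.man m w < I.man m (M m) ∧ I.woman w m < I.woman w (M.symm w))

/-- Every tie of the list with the ranks `r` has length at most two. -/
def ShortTies {n : ℕ} (r : Fin n → Fin n) : Prop :=
  ∀ a b c, a ≠ b → b ≠ c → a ≠ c → ¬ (r a = r b ∧ r b = r c)

/-- On one of the two sides every tie has length at most two. -/
def ShortSide (I : SMT) : Prop :=
  (∀ m, ShortTies (I.man m)) ∨ (∀ w, ShortTies (I.woman w))

/-- Code of the lists of one side: for all `p, a, b` a bit telling whether `p` strictly prefers
`a` to `b`. -/
def encR {n : ℕ} (r : Fin n → Fin n → Fin n) : List Bool :=
  (List.finRange n).flatMap fun p => (List.finRange n).flatMap fun a =>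
    (List.finRange n).map fun b => decide (r p a < r p b)

/-- Code of an instance: `n` in unary, then the lists of the men and of the women. -/
def encI (I : SMT) : List Bool :=
  List.replicate I.n true ++ false :: (encR I.man ++ encR I.woman)

/-- Code of a matching: its permutation matrix. -/
def encM {n : ℕ} (M : Perm (Fin n)) : List Bool :=
  (List.finRange n).flatMap fun m => (List.finRange n).map fun w => decide (M m = w)

/-- Code of a list of matchings. -/
def encL {n : ℕ} (L : List (Perm (Fin n))) : List Bool := L.flatMap fun M => true :: encM M

end Pool.Agent.Lib.Wsm
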