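import Pool.Agent.Lib.Wsm.PNext
import Pool.Agent.Lib.Wsm.Smt

/-!
# The step as a function of the codes of the instance and of the list
-/

set_option autoImplicit false

namespace Pool.Agent.Lib.Wsm

open Finset Equiv Pool.Agent.Lib.PolyTime Pool.Agent.Lib.Pa7c826 Pool.Agent.Lib.P8e91ed.PT

/-- size -/
def nOf (x : List Bool) : ℕ := (x.takeWhile id).length

/-- number of matchings in the list -/
def kOf (n : ℕ) (y : List Bool) : ℕ :=
  ((range y.length).filter fun l => l * (n * n + 1) < y.length).card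

/-- the tables of the matchings -/
def tpOf (n k : ℕ) (y : List Bool) : List Bool :=
  (List.range k).flatMap fun l => (y.drop (l * (n * n + 1) + 1)).take (n * n)

/-- first table of preferences -/
def t1Of (x : List Bool) : List Bool :=
  (PolyTime.afterTrue x).take (nOf x * (nOf x * nOf x))

/-- second table of preferences -/
def t2Of (x : List Bool) : List Bool :=
  ((PolyTime.afterTrue x).drop (nOf x * (nOf x * nOf x))).take (nOf x * (nOf x * nOf x))

/-- the tie of `j` contains a smaller index -/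
def Tsm (n : ℕ) (tb : List Bool) (w j : ℕ) : Prop :=
  ∃ i ∈ range j, g3 n tb w i j = false ∧ g3 n tb w j i = false

open Classical in
/-- parameters for ties of length two -/
noncomputable def tgOf (n : ℕ) (tb : List Bool) : List Bool :=
  (List.range n).flatMap fun w => (List.range n).flatMap fun j =>
    [false, decide (Tsm n tb w j)]

/-- transposed table -/
def trn (n : ℕ) (t : List Bool) : List Bool := mk2 n n (fun i j => g2 n t j i)

/-- data with the ties of the women short -/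
noncomputable def dat1 (x y : List Bool) : Dat :=
  { n := nOf x, K := kOf (nOf x) y, tA := t1Of x, tB := t2Of x,
    tP := tpOf (nOf x) (kOf (nOf x) y) y, W := 2, tG := tgOf (nOf x) (t2Of x), c := 1 }

/-- data with the ties of the men short: the sides are exchanged -/
noncomputable def dat2 (x y : List Bool) : Dat :=
  { n := nOf x, K := kOf (nOf x) y, tA := t2Of x, tB := t1Of x,
    tP := mk3 (kOf (nOf x) y) (nOf x)
      (fun l w m => g3 (nOf x) (tpOf (nOf x) (kOf (nOf x) y) y) l m w),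
    W := 2, tG := tgOf (nOf x) (t1Of x), c := 1 }

/-- no three persons are tied in a list of the table -/
def ShortT (n : ℕ) (tb : List Bool) : Prop :=
  ∀ w ∈ range n, ∀ a ∈ range n, ∀ b ∈ range n, ∀ c ∈ range n, a ≠ b → b ≠ c → a ≠ c →
    ¬ (g3 n tb w a b = false ∧ g3 n tb w b a = false ∧
      g3 n tb w b c = false ∧ g3 n tb w c b = false)

open Classical in
/-- the step -/
noncomputable def step (x y : List Bool) : List Bool :=
  if ShortT (nOf x) (t2Of x) then (dat1 x y).next else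
    (if (dat2 x y).next = [] then [] else true :: trn (nOf x) (dat2 x y).next.tail)

/-! ### Polynomial time -/

section poly

variable {α : Type*} {D : α → Prop} {ctx : List (α → List Bool)} {x y : α → List Bool}

theorem poly_nOf (hx : PolyC D ctx x) : PolyN D ctx (fun a => nOf (x a)) :=
  PolyN.length (PolyC.takeTrue hx)

theorem poly_kOf {n : α → ℕ} (hn : PolyN D ctx n) (hy : PolyC D ctx y) :
    PolyN D ctx (fun a => kOf (n a) (y a)) := by
  unfold kOf
  refine n_card (P := fun a l => l * (n a * n a + 1) < (y a).length) (PolyN.length hy) ?_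
  exact PolyP.lt (nL.mul (((nU hn).mul (nU hn)).add (PolyN.const 1))) (PolyN.length (cU hy))

theorem poly_tpOf {n k : α → ℕ} (hn : PolyN D ctx n) (hk : PolyN D ctx k)
    (hy : PolyC D ctx y) : PolyC D ctx (fun a => tpOf (n a) (k a) (y a)) := by
  unfold tpOf
  refine PolyC.flatMap_range
    (t := fun p : α × ℕ => ((y p.1).drop (p.2 * (n p.1 * n p.1 + 1) + 1)).take (n p.1 * n p.1))
    hk ?_
  exact PolyC.take (PolyC.drop (cU hy)
    ((nL.mul (((nU hn).mul (nU hn)).add (PolyN.const 1))).add (PolyN.const 1)))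
    ((nU hn).mul (nU hn))

theorem poly_t1Of (hx : PolyC D ctx x) : PolyC D ctx (fun a => t1Of (x a)) :=
  PolyC.take (PolyC.afterTrue hx)
    ((poly_nOf hx).mul ((poly_nOf hx).mul (poly_nOf hx)))

theorem poly_t2Of (hx : PolyC D ctx x) : PolyC D ctx (fun a => t2Of (x a)) :=
  PolyC.take (PolyC.drop (PolyC.afterTrue hx)
    ((poly_nOf hx).mul ((poly_nOf hx).mul (poly_nOf hx))))
    ((poly_nOf hx).mul ((poly_nOf hx).mul (poly_nOf hx)))

theorem poly_Tsm {n w j : α → ℕ} {tb : α → List Bool} (hn : PolyN D ctx n)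
    (htb : PolyC D ctx tb) (hw : PolyN D ctx w) (hj : PolyN D ctx j) :
    PolyP D ctx (fun a => Tsm (n a) (tb a) (w a) (j a)) := by
  unfold Tsm
  refine PolyP.exists_range (P := fun a i => g3 (n a) (tb a) (w a) i (j a) = false ∧
    g3 (n a) (tb a) (w a) (j a) i = false) hj ?_
  exact (p_eqB (poly_g3 (nU hn) (cU htb) (nU hw) nL (nU hj)) (PolyB.const false)).and
    (p_eqB (poly_g3 (nU hn) (cU htb) (nU hw) (nU hj) nL) (PolyB.const false))

open Classical in
theorem poly_tgOf {n : α → ℕ} {tb : α → List Bool} (hn : PolyN D ctx n)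
    (htb : PolyC D ctx tb) : PolyC D ctx (fun a => tgOf (n a) (tb a)) := by
  unfold tgOf
  refine PolyC.flatMap_range
    (t := fun p : α × ℕ => (List.range (n p.1)).flatMap fun j =>
      [false, decide (Tsm (n p.1) (tb p.1) p.2 j)]) hn ?_
  refine PolyC.flatMap_range (n := fun p : α × ℕ => n p.1)
    (t := fun q : (α × ℕ) × ℕ => [false, decide (Tsm (n q.1.1) (tb q.1.1) q.1.2 q.2)])
    (nU hn) ?_
  have N := nU (n := fun p : α × ℕ => n p.1) (nU (n := n) hn)
  have T := cU (n := fun p : α × ℕ => n p.1) (cU (n := n) htb)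
  have va := nU (n := fun p : α × ℕ => n p.1) (nL (D := D) (ctx := ctx) (n := n))
  have vb := nL (D := Dx D n) (ctx := cx ctx) (n := fun p : α × ℕ => n p.1)
  exact PolyC.cons false (b_ofP (poly_Tsm N T va vb))

theorem poly_trn {n : α → ℕ} {t : α → List Bool} (hn : PolyN D ctx n)
    (ht : PolyC D ctx t) : PolyC D ctx (fun a => trn (n a) (t a)) := by
  unfold trn
  exact poly_mk2 (f := fun a i j => g2 (n a) (t a) j i) hn hn
    (poly_g2 (nU (nU hn)) (cU (cU ht)) nL (nU nL))

theorem poly_dat1 (hx : PolyC D ctx x) (hy : PolyC D ctx y) :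
    PDat D ctx (fun a => dat1 (x a) (y a)) where
  n := poly_nOf hx
  K := poly_kOf (poly_nOf hx) hy
  tA := poly_t1Of hx
  tB := poly_t2Of hx
  tP := poly_tpOf (poly_nOf hx) (poly_kOf (poly_nOf hx) hy) hy
  W := PolyN.const 2
  tG := poly_tgOf (poly_nOf hx) (poly_t2Of hx)
  c := PolyN.const 1

theorem poly_dat2 (hx : PolyC D ctx x) (hy : PolyC D ctx y) :
    PDat D ctx (fun a => dat2 (x a) (y a)) where
  n := poly_nOf hx
  K := poly_kOf (poly_nOf hx) hy
  tA := poly_t2Of hx
  tB := poly_t1Of hx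
  tP := by
    have hn := poly_nOf hx
    have hk := poly_kOf hn hy
    refine poly_mk3 (f := fun a l w m => g3 (nOf (x a)) (tpOf (nOf (x a))
      (kOf (nOf (x a)) (y a)) (y a)) l m w) hk hn ?_
    exact poly_g3 (nU (nU (nU hn))) (cU (cU (cU (poly_tpOf hn hk hy)))) (nU (nU nL)) nL (nU nL)
  W := PolyN.const 2
  tG := poly_tgOf (poly_nOf hx) (poly_t1Of hx)
  c := PolyN.const 1

theorem poly_ShortT {n : α → ℕ} {tb : α → List Bool} (hn : PolyN D ctx n)
    (htb : PolyC D ctx tb) : PolyP D ctx (fun a => ShortT (n a) (tb a)) := by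
  unfold ShortT
  refine PolyP.forall_range (P := fun a w => ∀ x ∈ range (n a), ∀ b ∈ range (n a),
    ∀ c ∈ range (n a), x ≠ b → b ≠ c → x ≠ c →
    ¬ (g3 (n a) (tb a) w x b = false ∧ g3 (n a) (tb a) w b x = false ∧
      g3 (n a) (tb a) w b c = false ∧ g3 (n a) (tb a) w c b = false)) hn ?_
  refine PolyP.forall_range (n := fun p : α × ℕ => n p.1)
    (P := fun (p : α × ℕ) x => ∀ b ∈ range (n p.1),
    ∀ c ∈ range (n p.1), x ≠ b → b ≠ c → x ≠ c →
    ¬ (g3 (n p.1) (tb p.1) p.2 x b = false ∧ g3 (n p.1) (tb p.1) p.2 b x = false ∧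
      g3 (n p.1) (tb p.1) p.2 b c = false ∧ g3 (n p.1) (tb p.1) p.2 c b = false)) (nU hn) ?_
  refine PolyP.forall_range (n := fun p : (α × ℕ) × ℕ => n p.1.1)
    (P := fun (p : (α × ℕ) × ℕ) b =>
    ∀ c ∈ range (n p.1.1), p.2 ≠ b → b ≠ c → p.2 ≠ c →
    ¬ (g3 (n p.1.1) (tb p.1.1) p.1.2 p.2 b = false ∧ g3 (n p.1.1) (tb p.1.1) p.1.2 b p.2 = false ∧
      g3 (n p.1.1) (tb p.1.1) p.1.2 b c = false ∧ g3 (n p.1.1) (tb p.1.1) p.1.2 c b = false))
    (nU (nU hn)) ?_
  refine PolyP.forall_range (n := fun p : ((α × ℕ) × ℕ) × ℕ => n p.1.1.1)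
    (P := fun (p : ((α × ℕ) × ℕ) × ℕ) c => p.1.2 ≠ p.2 → p.2 ≠ c → p.1.2 ≠ c →
    ¬ (g3 (n p.1.1.1) (tb p.1.1.1) p.1.1.2 p.1.2 p.2 = false ∧
      g3 (n p.1.1.1) (tb p.1.1.1) p.1.1.2 p.2 p.1.2 = false ∧
      g3 (n p.1.1.1) (tb p.1.1.1) p.1.1.2 p.2 c = false ∧
      g3 (n p.1.1.1) (tb p.1.1.1) p.1.1.2 c p.2 = false))
    (nU (nU (nU hn))) ?_
  have N := nU (n := fun p : ((α × ℕ) × ℕ) × ℕ => n p.1.1.1)
    (nU (n := fun p : (α × ℕ) × ℕ => n p.1.1) (nU (n := fun p : α × ℕ => n p.1)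
      (nU (n := n) hn)))
  have T := cU (n := fun p : ((α × ℕ) × ℕ) × ℕ => n p.1.1.1)
    (cU (n := fun p : (α × ℕ) × ℕ => n p.1.1) (cU (n := fun p : α × ℕ => n p.1)
      (cU (n := n) htb)))
  have va := nU (n := fun p : ((α × ℕ) × ℕ) × ℕ => n p.1.1.1)
    (nU (n := fun p : (α × ℕ) × ℕ => n p.1.1) (nU (n := fun p : α × ℕ => n p.1)
      (nL (D := D) (ctx := ctx) (n := n))))
  have vb := nU (n := fun p : ((α × ℕ) × ℕ) × ℕ => n p.1.1.1)
    (nU (n := fun p : (α × ℕ) × ℕ => n p.1.1) (nL (D := Dx D n) (ctx := cx ctx)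
      (n := fun p : α × ℕ => n p.1)))
  have vc := nU (n := fun p : ((α × ℕ) × ℕ) × ℕ => n p.1.1.1)
    (nL (D := Dx (Dx D n) (fun p : α × ℕ => n p.1)) (ctx := cx (cx ctx))
      (n := fun p : (α × ℕ) × ℕ => n p.1.1))
  have vd := nL (D := Dx (Dx (Dx D n) (fun p : α × ℕ => n p.1))
      (fun p : (α × ℕ) × ℕ => n p.1.1)) (ctx := cx (cx (cx ctx)))
      (n := fun p : ((α × ℕ) × ℕ) × ℕ => n p.1.1.1)
  refine (PolyP.eq vb vc).not.imp ((PolyP.eq vc vd).not.imp ((PolyP.eq vb vd).not.imp ?_))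
  refine PolyP.not ?_
  exact (p_eqB (poly_g3 N T va vb vc) (PolyB.const false)).and
    ((p_eqB (poly_g3 N T va vc vb) (PolyB.const false)).and
      ((p_eqB (poly_g3 N T va vc vd) (PolyB.const false)).and
        (p_eqB (poly_g3 N T va vd vc) (PolyB.const false))))

theorem p_nil {t : α → List Bool} (ht : PolyC D ctx t) : PolyP D ctx (fun a => t a = []) :=
  (PolyP.eq (PolyN.length ht) (PolyN.const 0)).congr (fun a _ => List.length_eq_zero_iff)

theorem poly_step (hx : PolyC D ctx x) (hy : PolyC D ctx y) :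
    PolyC D ctx (fun a => step (x a) (y a)) := by
  unfold step
  have h2 := poly_next (poly_dat2 hx hy)
  exact c_ite (poly_ShortT (poly_nOf hx) (poly_t2Of hx)) (poly_next (poly_dat1 hx hy))
    (c_ite (p_nil h2) PolyC.nil (PolyC.cons true (poly_trn (poly_nOf hx) (PolyC.tail h2))))

end poly

end Pool.Agent.Lib.Wsm
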