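import Pool.Agent.Lib.Wsm.PTab

/-!
# Polynomial time: tables of integers

MODULE Wsm.ZTab (1.5 h).  Auxiliary lemmas: namespace `Pool.Agent.Lib.Wsm.ZTabAux`.  `PTab` is a
black box; toolkit: `Pool/Agent/Lib/P8e91ed/PolyBin.lean`.

`ztab W N f` stores `f 0, ..., f (N - 1)`, each as two blocks of `W` bits (positive and negative
part).  `poly_zget`: `PolyZ` of a difference of two `PolyBin` (`PolyC.take`, `PolyC.drop`).
`poly_ztab`: `PolyC.flatMap_range`, `PolyC.map_range`; the bit `i` of `(f y).toNat` is the bit `i` of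
`Nat.bits` (`PolyZ.toNat`, `bin_bits`, `PolyB.getD`; `Nat.bits` and `testBit`: see `bval_bits`, or prove
`(Nat.bits m).getD i false = m.testBit i`).
`zbound`: `f = P - Q` with `P, Q` given by bit lists of lengths `p, q`: `|f| < 2 ^ (p + q)` or so
(`bval_lt`), and lengths are `PolyN` (`PolyN.length`).  `zbound1`, `zbound2`: `PolyC.length_le` bounds the
length of the bit lists by `p.eval (total (vals (cx ctx) (a, i)))`, `i < n a`, hence by
`p.eval (total (vals ctx a) + n a)` (`eval_mono`), which is `PolyN` (`PolyN.polyEval`, and `total (vals ctx a)` is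
`PolyN`: a sum of lengths of variables, induction on the list with `PolyC.var`).
`poly_ztabRec`: `PolyC.natRec` with `F a k = ztab (Bd a) (N a) (f a k)`; the step is `poly_ztab` of `hs`; the
length is `N a * (2 * Bd a)`.
-/

set_option autoImplicit false

namespace Pool.Agent.Lib.Wsm

open Finset Equiv Pool.Agent.Lib.PolyTime Pool.Agent.Lib.Pa7c826 Pool.Agent.Lib.P8e91ed.PT

/-- table of integers -/
def ztab (W N : ℕ) (f : ℕ → ℤ) : List Bool :=
  (List.range N).flatMap (fun y => (List.range W).map (fun i => (f y).toNat.testBit i) ++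
    (List.range W).map (fun i => (-f y).toNat.testBit i))

/-- entry of a table of integers -/
def zget (W : ℕ) (t : List Bool) (y : ℕ) : ℤ :=
  (bval ((t.drop (2 * W * y)).take W) : ℤ) - bval ((t.drop (2 * W * y + W)).take W)

namespace ZTabAux

theorem flatMap_length {L : ℕ} {g : ℕ → List Bool} (hg : ∀ i, (g i).length = L) (y : ℕ) :
    ((List.range y).flatMap g).length = L * y := by
  induction y with
  | zero => simp
  | succ y ih =>
    rw [List.range_succ, List.flatMap_append, List.length_append, ih, List.flatMap_cons, List.flatMap_nil,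
      List.append_nil, hg, Nat.mul_succ]

theorem flatMap_split {g : ℕ → List Bool} {N y : ℕ} (hy : y < N) :
    ∃ rest : List Bool, (List.range N).flatMap g = (List.range y).flatMap g ++ (g y ++ rest) := by
  obtain ⟨k, rfl⟩ : ∃ k, N = (y + 1) + k := ⟨N - (y + 1), by omega⟩
  refine ⟨((List.range k).map (fun i => (y + 1) + i)).flatMap g, ?_⟩
  rw [List.range_add, List.flatMap_append, List.range_succ, List.flatMap_append, List.flatMap_cons, List.flatMap_nil,
    List.append_nil, List.append_assoc]

theorem bval_testBit (m W : ℕ) : bval ((List.range W).map (fun i => m.testBit i)) = m % 2 ^ W := by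
  induction W with
  | zero => simp [bval, Nat.mod_one]
  | succ W ih =>
    rw [List.range_succ, List.map_append, bval_append, ih, List.length_map, List.length_range]
    simp only [List.map_cons, List.map_nil, bval, mul_zero, add_zero]
    rw [Nat.mod_pow_succ, Nat.testBit_eq_decide_div_mod_eq]
    have h : (decide (m / 2 ^ W % 2 = 1)).toNat = m / 2 ^ W % 2 := by
      rcases Nat.mod_two_eq_zero_or_one (m / 2 ^ W) with h | h <;> simp [h]
    rw [h]

theorem bval_testBit_lt {m W : ℕ} (h : m < 2 ^ W) :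
    bval ((List.range W).map (fun i => m.testBit i)) = m := by
  rw [bval_testBit, Nat.mod_eq_of_lt h]

theorem bits_getD (m i : ℕ) : (Nat.bits m).getD i false = m.testBit i := by
  rw [Nat.testBit_eq_inth, ← List.getD_default_eq_getI]
  rfl

end ZTabAux

open ZTabAux

theorem zget_ztab {W N y : ℕ} {f : ℕ → ℤ} (hy : y < N) (hf : |f y| < 2 ^ W) :
    zget W (ztab W N f) y = f y := by
  set g : ℕ → List Bool := fun y => (List.range W).map (fun i => (f y).toNat.testBit i) ++
    (List.range W).map (fun i => (-f y).toNat.testBit i) with hgdef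
  have hg : ∀ i, (g i).length = 2 * W := by
    intro i
    rw [hgdef]
    simp only [List.length_append, List.length_map, List.length_range]
    ring
  obtain ⟨rest, hr⟩ := flatMap_split (g := g) hy
  have hz : ztab W N f = (List.range y).flatMap g ++ (g y ++ rest) := hr
  have hl := flatMap_length hg y
  have hd : (ztab W N f).drop (2 * W * y) = g y ++ rest := by
    rw [hz, List.drop_left' hl]
  have hd2 : (ztab W N f).drop (2 * W * y + W) =
      (List.range W).map (fun i => (-f y).toNat.testBit i) ++ rest := by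
    rw [← List.drop_drop, hd, hgdef]
    simp only
    rw [List.append_assoc, List.drop_left' (by simp)]
  have h1 : ((ztab W N f).drop (2 * W * y)).take W = (List.range W).map (fun i => (f y).toNat.testBit i) := by
    rw [hd, hgdef]
    simp only
    rw [List.append_assoc, List.take_left' (by simp)]
  have h2 : ((ztab W N f).drop (2 * W * y + W)).take W =
      (List.range W).map (fun i => (-f y).toNat.testBit i) := by
    rw [hd2, List.take_left' (by simp)]
  unfold zget
  rw [h1, h2]
  obtain ⟨ha, hb⟩ := abs_lt.mp hf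
  have e1 : (f y).toNat < 2 ^ W := by
    have : ((f y).toNat : ℤ) < ((2 ^ W : ℕ) : ℤ) := by
      push_cast
      rw [Int.toNat_eq_max]
      exact max_lt hb (by positivity)
    exact_mod_cast this
  have e2 : (-f y).toNat < 2 ^ W := by
    have : ((-f y).toNat : ℤ) < ((2 ^ W : ℕ) : ℤ) := by
      push_cast
      rw [Int.toNat_eq_max]
      exact max_lt (by linarith) (by positivity)
    exact_mod_cast this
  rw [bval_testBit_lt e1, bval_testBit_lt e2]
  omega

variable {α : Type*} {D : α → Prop} {ctx : List (α → List Bool)}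

theorem poly_zget {W y : α → ℕ} {t : α → List Bool} (hW : PolyN D ctx W)
    (ht : PolyC D ctx t) (hy : PolyN D ctx y) :
    PolyZ D ctx (fun a => zget (W a) (t a) (y a)) := by
  have h1 : PolyN D ctx (fun a => 2 * W a * y a) := ((PolyN.const 2).mul hW).mul hy
  exact ⟨fun a => bval (((t a).drop (2 * W a * y a)).take (W a)),
    fun a => bval (((t a).drop (2 * W a * y a + W a)).take (W a)),
    ⟨_, PolyC.take (PolyC.drop ht h1) hW, fun _ _ => rfl⟩,
    ⟨_, PolyC.take (PolyC.drop ht (h1.add hW)) hW, fun _ _ => rfl⟩, fun _ _ => rfl⟩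

theorem poly_ztab {W N : α → ℕ} {f : α → ℕ → ℤ} (hW : PolyN D ctx W) (hN : PolyN D ctx N)
    (hf : PolyZ (Dx D N) (cx ctx) (fun p => f p.1 p.2)) :
    PolyC D ctx (fun a => ztab (W a) (N a) (f a)) := by
  have key : ∀ g : α × ℕ → ℤ, PolyZ (Dx D N) (cx ctx) g →
      PolyC (Dx D N) (cx ctx) (fun p => (List.range (W p.1)).map (fun i => (g p).toNat.testBit i)) := by
    intro g hg
    have hb := bin_bits hg.toNat
    refine cMap (φ := fun p i => (g p).toNat.testBit i) (nU hW) ?_
    exact (PolyB.getD (cU (n := fun p : α × ℕ => W p.1) hb) nL).congr (fun p _ => bits_getD _ _)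
  exact PolyC.flatMap_range (t := fun p : α × ℕ =>
    (List.range (W p.1)).map (fun i => (f p.1 p.2).toNat.testBit i) ++
      (List.range (W p.1)).map (fun i => (-f p.1 p.2).toNat.testBit i)) hN
    (PolyC.append (key _ hf) (key _ hf.neg))

theorem zbound {f : α → ℤ} (hf : PolyZ D ctx f) :
    ∃ b : α → ℕ, PolyN D ctx b ∧ ∀ a, D a → |f a| < 2 ^ b a := by
  obtain ⟨P, Q, ⟨t, ht, hP⟩, ⟨u, hu, hQ⟩, h⟩ := hf
  refine ⟨fun a => (t a).length + (u a).length, (PolyN.length ht).add (PolyN.length hu), ?_⟩
  intro a ha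
  rw [h a ha, ← hP a ha, ← hQ a ha]
  have h1 : bval (t a) < 2 ^ ((t a).length + (u a).length) := (bval_lt _).trans_le
    (Nat.pow_le_pow_right (by norm_num) (by omega))
  have h2 : bval (u a) < 2 ^ ((t a).length + (u a).length) := (bval_lt _).trans_le
    (Nat.pow_le_pow_right (by norm_num) (by omega))
  have h1' : (bval (t a) : ℤ) < 2 ^ ((t a).length + (u a).length) := by exact_mod_cast h1
  have h2' : (bval (u a) : ℤ) < 2 ^ ((t a).length + (u a).length) := by exact_mod_cast h2
  rw [abs_lt]
  constructor <;> linarith [Int.natCast_nonneg (bval (t a)), Int.natCast_nonneg (bval (u a))]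

theorem zbound1 {n : α → ℕ} {f : α → ℕ → ℤ} (hn : PolyN D ctx n)
    (hf : PolyZ (Dx D n) (cx ctx) (fun p => f p.1 p.2)) :
    ∃ b : α → ℕ, PolyN D ctx b ∧ ∀ a, D a → ∀ i < n a, |f a i| < 2 ^ b a := by
  obtain ⟨b, hb, h⟩ := zbound hf
  refine ⟨fun a => ∑ i ∈ Finset.range (n a), b (a, i), nSum (f := fun a i => b (a, i)) hn hb, ?_⟩
  intro a ha i hi
  refine (h (a, i) ⟨ha, hi⟩).trans_le ?_
  apply pow_le_pow_right₀ (by norm_num)
  exact Finset.single_le_sum (f := fun i => b (a, i)) (fun _ _ => Nat.zero_le _) (Finset.mem_range.2 hi)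

theorem zbound2 {n r : α → ℕ} {f : α → ℕ → ℕ → ℤ} (hn : PolyN D ctx n) (hr : PolyN D ctx r)
    (hf : PolyZ (Dx (Dx D n) (fun p => r p.1)) (cx (cx ctx)) (fun q => f q.1.1 q.1.2 q.2)) :
    ∃ b : α → ℕ, PolyN D ctx b ∧ ∀ a, D a → ∀ i < n a, ∀ j < r a, |f a i j| < 2 ^ b a := by
  obtain ⟨b, hb, h⟩ := zbound1 (D := Dx D n) (ctx := cx ctx) (n := fun p => r p.1)
    (f := fun p j => f p.1 p.2 j) (nU hr) hf
  refine ⟨fun a => ∑ i ∈ Finset.range (n a), b (a, i), nSum (f := fun a i => b (a, i)) hn hb, ?_⟩
  intro a ha i hi j hj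
  refine (h (a, i) ⟨ha, hi⟩ j hj).trans_le ?_
  apply pow_le_pow_right₀ (by norm_num)
  exact Finset.single_le_sum (f := fun i => b (a, i)) (fun _ _ => Nat.zero_le _) (Finset.mem_range.2 hi)

theorem poly_ztabRec {k N Bd : α → ℕ} {f : α → ℕ → ℕ → ℤ} (hk : PolyN D ctx k)
    (hN : PolyN D ctx N) (hBd : PolyN D ctx Bd)
    (hb : ∀ a, D a → ∀ t ≤ k a, ∀ y < N a, |f a t y| < 2 ^ Bd a)
    (h0 : PolyZ (Dx D N) (cx ctx) (fun p => f p.1 0 p.2))
    (hs : PolyZ (Dx (fun p : α × ℕ => D p.1 ∧ p.2 < k p.1) (fun p => N p.1))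
      (cx (PolyTime.lift ctx ++ [fun p => un p.2,
        fun p => ztab (Bd p.1) (N p.1) (f p.1 p.2)]))
      (fun q => f q.1.1 (q.1.2 + 1) q.2)) :
    PolyC D ctx (fun a => ztab (Bd a) (N a) (f a (k a))) := by
  have hlen : PolyN D ctx (fun a => 2 * Bd a * N a) := ((PolyN.const 2).mul hBd).mul hN
  obtain ⟨p, hp⟩ := PolyC.length_le hlen
  refine PolyC.natRec (fun a k => ztab (Bd a) (N a) (f a k)) hk (poly_ztab hBd hN h0) ?_ ⟨p, ?_⟩
  · exact poly_ztab (W := fun p : α × ℕ => Bd p.1) (N := fun p : α × ℕ => N p.1)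
      (f := fun p y => f p.1 (p.2 + 1) y) (up2 hBd) (up2 hN) hs
  · intro a ha j _
    have h1 := hp a ha
    rw [un_length] at h1
    have h2 : (ztab (Bd a) (N a) (f a j)).length = 2 * Bd a * N a := by
      unfold ztab
      exact flatMap_length (fun i => by
        simp only [List.length_append, List.length_map, List.length_range]
        ring) _
    rw [h2]
    exact h1

end Pool.Agent.Lib.Wsm
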