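import Pool.Agent.Lib.Wsm.Lim

/-!
# Schwartz-Zippel for combinations of Parke-Taylor weights

MODULE Wsm.Zip (1.5 h): prove `count_bad`.  Auxiliary lemmas: namespace
`Pool.Agent.Lib.Wsm.ZipAux`.  `Park`, `Lim` are black boxes.

Variables `X (w, j)`, `MvPolynomial (Fin n × Fin n) ℚ`.  For a permutation `ρ` the function
`nu g ρ * ∏ (i, j), i ≠ j, (g i - g j)` is (for injective `g`) a polynomial in the `g j`: with `s = ρ.symm`,
`∏ k < n - 1, g (s k)` times the product of `g i - g j` over the ordered pairs `i ≠ j` which are not a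
consecutive pair `(s k, s (k+1))`; its total degree is at most `n * n` (`n * (n - 1)` in fact).  Hence
`P = (∑ π, C (c π) * ∏ w, P_{π w}(X (w, ·))) * ∏ w, ∏ (i, j), i ≠ j, (X (w, i) - X (w, j))` has total degree
at most `2 * n ^ 3`, vanishes at `g` if some `g w` is not injective, and for injective `g w` vanishes iff
`∑ π, c π * ∏ w, nu (g w) (π w) = 0`.  By `exists_point` `P` is not zero.  Schwartz-Zippel in Mathlib:
`MvPolynomial.schwartz_zippel_totalDegree` (for `Fin n` variables and a set `S` of values; rename the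
variables with `Fin n × Fin n ≃ Fin (n * n)`), with `S = {0, ..., N - 1}`.
-/

namespace Pool.Agent.Lib.Wsm

open Finset Equiv

variable {n : ℕ}

namespace ZipAux

/-- consecutive pairs of a list -/
def cs (l : List (Fin n)) : Finset (Fin n × Fin n) := (l.zip l.tail).toFinset

theorem zip_nodup (l : List (Fin n)) (hl : l.Nodup) : (l.zip l.tail).Nodup := by
  induction l with
  | nil => simp
  | cons a l ih =>
    cases l with
    | nil => simp
    | cons b l =>
      rw [List.tail_cons, List.zip_cons_cons, List.nodup_cons]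
      rw [List.nodup_cons] at hl
      refine ⟨fun h => hl.1 (List.of_mem_zip h).1, ih hl.2⟩

theorem chainW_eq (g : Fin n → ℚ) (l : List (Fin n)) :
    chainW g l = ((l.zip l.tail).map fun p => g p.1 / (g p.1 - g p.2)).prod := by
  induction l with
  | nil => simp [chainW]
  | cons a l ih =>
    cases l with
    | nil => simp [chainW]
    | cons b l =>
      rw [chainW, ih]
      simp only [List.tail_cons, List.zip_cons_cons, List.map_cons, List.prod_cons]

theorem ne_of_mem (l : List (Fin n)) (hl : l.Nodup) {p : Fin n × Fin n}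
    (hp : p ∈ l.zip l.tail) : p.1 ≠ p.2 := by
  induction l with
  | nil => simp at hp
  | cons a l ih =>
    cases l with
    | nil => simp at hp
    | cons b l =>
      rw [List.tail_cons, List.zip_cons_cons, List.mem_cons] at hp
      rw [List.nodup_cons] at hl
      rcases hp with rfl | hp
      · intro h
        exact hl.1 (by simp only at h; rw [h]; exact List.mem_cons_self)
      · exact ih hl.2 hp

/-- the order of a permutation -/
def ls (ρ : Perm (Fin n)) : List (Fin n) := List.ofFn fun k => ρ.symm k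

theorem ls_nodup (ρ : Perm (Fin n)) : (ls ρ).Nodup :=
  List.nodup_ofFn.2 ρ.symm.injective

/-- the factors of the polynomial -/
theorem nu_mul (g : Fin n → ℚ) (hg : Function.Injective g) (ρ : Perm (Fin n)) :
    ∏ p ∈ (univ : Finset (Fin n)).offDiag, (if p ∈ cs (ls ρ) then g p.1 else g p.1 - g p.2) =
      nu g ρ * ∏ p ∈ (univ : Finset (Fin n)).offDiag, (g p.1 - g p.2) := by
  have h1 : nu g ρ = ∏ p ∈ (univ : Finset (Fin n)).offDiag,
      (if p ∈ cs (ls ρ) then g p.1 / (g p.1 - g p.2) else 1) := by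
    rw [prod_ite_mem, inter_eq_right.2]
    · rw [nu, chainW_eq]
      exact (List.prod_toFinset _ (zip_nodup _ (ls_nodup ρ))).symm
    · intro p hp
      rw [mem_offDiag]
      exact ⟨mem_univ _, mem_univ _, ne_of_mem _ (ls_nodup ρ) (List.mem_toFinset.1 hp)⟩
  rw [h1, ← prod_mul_distrib]
  refine prod_congr rfl fun p hp => ?_
  have h2 : g p.1 - g p.2 ≠ 0 := by
    rw [sub_ne_zero]
    exact fun h => (mem_offDiag.1 hp).2.2 (hg h)
  split_ifs
  · field_simp
  · rw [one_mul]

open MvPolynomial

/-- the discriminant -/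
noncomputable def Dp (w : Fin n) : MvPolynomial (Fin n × Fin n) ℚ :=
  ∏ p ∈ (univ : Finset (Fin n)).offDiag, (X (w, p.1) - X (w, p.2))

/-- the numerator -/
noncomputable def Qp (w : Fin n) (ρ : Perm (Fin n)) : MvPolynomial (Fin n × Fin n) ℚ :=
  ∏ p ∈ (univ : Finset (Fin n)).offDiag,
    (if p ∈ cs (ls ρ) then X (w, p.1) else X (w, p.1) - X (w, p.2))

/-- the polynomial -/
noncomputable def PP (c : (Fin n → Perm (Fin n)) → ℚ) : MvPolynomial (Fin n × Fin n) ℚ :=
  (∑ π, C (c π) * ∏ w, Qp w (π w)) * ∏ w, Dp w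

theorem eval_Dp (w : Fin n) (x : Fin n × Fin n → ℚ) :
    eval x (Dp w) = ∏ p ∈ (univ : Finset (Fin n)).offDiag, (x (w, p.1) - x (w, p.2)) := by
  rw [Dp, map_prod]
  simp

theorem eval_Qp (w : Fin n) (ρ : Perm (Fin n)) (x : Fin n × Fin n → ℚ) :
    eval x (Qp w ρ) = ∏ p ∈ (univ : Finset (Fin n)).offDiag,
      (if p ∈ cs (ls ρ) then x (w, p.1) else x (w, p.1) - x (w, p.2)) := by
  rw [Qp, map_prod]
  refine prod_congr rfl fun p _ => ?_
  split_ifs <;> simp

theorem eval_Dp_ne (w : Fin n) (x : Fin n × Fin n → ℚ)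
    (hx : Function.Injective fun j => x (w, j)) : eval x (Dp w) ≠ 0 := by
  rw [eval_Dp, prod_ne_zero_iff]
  intro p hp
  rw [sub_ne_zero]
  exact fun h => (mem_offDiag.1 hp).2.2 (hx h)

theorem eval_Dp_zero (w : Fin n) (x : Fin n × Fin n → ℚ)
    (hx : ¬ Function.Injective fun j => x (w, j)) : eval x (Dp w) = 0 := by
  rw [eval_Dp]
  simp only [Function.Injective, not_forall] at hx
  obtain ⟨i, j, hij, hne⟩ := hx
  exact prod_eq_zero (i := (i, j)) (mem_offDiag.2 ⟨mem_univ _, mem_univ _, hne⟩)
    (sub_eq_zero.2 hij)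

theorem eval_sum (c : (Fin n → Perm (Fin n)) → ℚ) (x : Fin n × Fin n → ℚ)
    (hx : ∀ w, Function.Injective fun j => x (w, j)) :
    eval x (∑ π, C (c π) * ∏ w, Qp w (π w)) =
      (∑ π, c π * ∏ w, nu (fun j => x (w, j)) (π w)) * ∏ w, eval x (Dp w) := by
  rw [map_sum, sum_mul]
  refine sum_congr rfl fun π _ => ?_
  rw [map_mul, eval_C, map_prod, mul_assoc, ← prod_mul_distrib]
  congr 1
  refine prod_congr rfl fun w _ => ?_
  rw [eval_Qp, eval_Dp, nu_mul (fun j => x (w, j)) (hx w)]

theorem deg_X_sub (a b : Fin n × Fin n) :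
    (X a - X b : MvPolynomial (Fin n × Fin n) ℚ).totalDegree ≤ 1 :=
  (totalDegree_sub _ _).trans (by rw [totalDegree_X, totalDegree_X]; simp)

theorem deg_Dp (w : Fin n) : (Dp w).totalDegree ≤ n * n := by
  refine (totalDegree_finsetProd _ _).trans ?_
  refine (sum_le_card_nsmul _ _ 1 fun p _ => deg_X_sub _ _).trans ?_
  rw [offDiag_card, card_univ, Fintype.card_fin, smul_eq_mul, mul_one]
  exact Nat.sub_le _ _

theorem deg_Qp (w : Fin n) (ρ : Perm (Fin n)) : (Qp w ρ).totalDegree ≤ n * n := by
  refine (totalDegree_finsetProd _ _).trans ?_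
  refine (sum_le_card_nsmul _ _ 1 fun p _ => ?_).trans ?_
  · split_ifs
    · rw [totalDegree_X]
    · exact deg_X_sub _ _
  · rw [offDiag_card, card_univ, Fintype.card_fin, smul_eq_mul, mul_one]
    exact Nat.sub_le _ _

theorem deg_prod {F : Fin n → MvPolynomial (Fin n × Fin n) ℚ}
    (hF : ∀ w, (F w).totalDegree ≤ n * n) : (∏ w, F w).totalDegree ≤ n ^ 3 := by
  refine (totalDegree_finsetProd _ _).trans ?_
  refine (sum_le_card_nsmul _ _ (n * n) fun w _ => hF w).trans ?_
  rw [card_univ, Fintype.card_fin, smul_eq_mul]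
  exact le_of_eq (by ring)

theorem deg_PP (c : (Fin n → Perm (Fin n)) → ℚ) : (PP c).totalDegree ≤ 2 * n ^ 3 := by
  refine (totalDegree_mul _ _).trans ?_
  have h1 : (∑ π, C (c π) * ∏ w, Qp w (π w)).totalDegree ≤ n ^ 3 := by
    apply totalDegree_finsetSum_le
    intro π _
    refine (totalDegree_mul _ _).trans ?_
    rw [totalDegree_C, zero_add]
    exact deg_prod fun w => deg_Qp w _
  have h2 : (∏ w : Fin n, Dp w).totalDegree ≤ n ^ 3 := deg_prod deg_Dp
  omega

end ZipAux

open ZipAux MvPolynomial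

open Classical in
theorem count_bad (N : ℕ) (c : (Fin n → Perm (Fin n)) → ℚ) (hc : ∀ π, 0 ≤ c π)
    (hne : ∃ π, c π ≠ 0) :
    (univ.filter fun g : Fin n → Fin n → Fin N =>
      ¬ ((∀ w, Function.Injective (g w)) ∧
        ∑ π, c π * ∏ w, nu (fun j => ((g w j : ℕ) : ℚ)) (π w) ≠ 0)).card * N ≤
      2 * n ^ 3 * N ^ (n * n) := by
  rcases Nat.eq_zero_or_pos N with hN | hN
  · rw [hN, mul_zero]
    exact Nat.zero_le _
  -- the polynomial does not vanish
  have hP : PP c ≠ 0 := by
    obtain ⟨g, hg1, hg2⟩ := exists_point c hc hne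
    intro h0
    have h1 : eval (fun v : Fin n × Fin n => (g v.1 v.2 : ℚ)) (PP c) = 0 := by rw [h0, map_zero]
    have hinj : ∀ w, Function.Injective fun j => (g w j : ℚ) := fun w =>
      Int.cast_injective.comp (hg1 w)
    rw [PP, map_mul, eval_sum c _ hinj, map_prod] at h1
    have h2 : ∏ w, eval (fun v : Fin n × Fin n => (g v.1 v.2 : ℚ)) (Dp w) ≠ 0 :=
      prod_ne_zero_iff.2 fun w _ => eval_Dp_ne w _ (hinj w)
    exact (mul_ne_zero (mul_ne_zero hg2 h2) h2) h1
  let e : Fin n × Fin n ≃ Fin (n * n) := finProdFinEquiv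
  let p : MvPolynomial (Fin (n * n)) ℚ := rename e (PP c)
  have hp : p ≠ 0 := by
    intro h0
    apply hP
    apply rename_injective e e.injective
    rw [map_zero]
    exact h0
  have hdeg : p.totalDegree ≤ 2 * n ^ 3 := (totalDegree_rename_le _ _).trans (deg_PP c)
  let S : Finset ℚ := (range N).image fun k : ℕ => (k : ℚ)
  have hS : S.card = N := by
    rw [card_image_of_injective _ Nat.cast_injective, card_range]
  have hSZ := schwartz_zippel_totalDegree hp S
  rw [hS] at hSZ
  have hcard : (univ.filter fun g : Fin n → Fin n → Fin N =>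
      ¬ ((∀ w, Function.Injective (g w)) ∧
        ∑ π, c π * ∏ w, nu (fun j => ((g w j : ℕ) : ℚ)) (π w) ≠ 0)).card ≤
      ((Fintype.piFinset fun _ : Fin (n * n) => S).filter fun f => eval f p = 0).card := by
    apply card_le_card_of_injOn (fun g k => (((g (e.symm k).1 (e.symm k).2 : Fin N) : ℕ) : ℚ))
    · intro g hg
      rw [mem_coe, mem_filter] at hg
      rw [mem_coe, mem_filter]
      refine ⟨?_, ?_⟩
      · rw [Fintype.mem_piFinset]
        intro k
        exact mem_image_of_mem (fun k : ℕ => (k : ℚ)) (mem_range.2 (Fin.is_lt _))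
      · have h1 : eval (fun k => (((g (e.symm k).1 (e.symm k).2 : Fin N) : ℕ) : ℚ)) p =
            eval (fun v : Fin n × Fin n => ((g v.1 v.2 : ℕ) : ℚ)) (PP c) := by
          rw [eval_rename]
          congr 2
          funext v
          simp
        rw [h1]
        by_cases hinj : ∀ w, Function.Injective (g w)
        · have hinj' : ∀ w, Function.Injective fun j => ((g w j : ℕ) : ℚ) := fun w a b h =>
            hinj w (Fin.val_injective (Nat.cast_injective h))
          have h2 : ∑ π, c π * ∏ w, nu (fun j => ((g w j : ℕ) : ℚ)) (π w) = 0 := by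
            by_contra h3
            exact hg.2 ⟨hinj, h3⟩
          rw [PP, map_mul, eval_sum c _ hinj', h2, zero_mul, zero_mul]
        · rw [not_forall] at hinj
          obtain ⟨w, hw⟩ := hinj
          rw [PP, map_mul, map_prod, prod_eq_zero (mem_univ w), mul_zero]
          apply eval_Dp_zero
          intro h2
          apply hw
          intro a b hab
          apply h2
          simp only [hab]
    · intro g _ g' _ h
      funext i j
      have h1 := congrFun h (e (i, j))
      simp only [Equiv.symm_apply_apply] at h1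
      exact Fin.val_injective (Nat.cast_injective h1)
  have hN' : (0 : ℚ≥0) < N := by exact_mod_cast hN
  rw [div_le_div_iff₀ (by positivity) hN'] at hSZ
  have h2 : ((Fintype.piFinset fun _ : Fin (n * n) => S).filter fun f => eval f p = 0).card * N ≤
      p.totalDegree * N ^ (n * n) := by exact_mod_cast hSZ
  calc _ ≤ ((Fintype.piFinset fun _ : Fin (n * n) => S).filter fun f => eval f p = 0).card * N :=
        Nat.mul_le_mul_right _ hcard
    _ ≤ p.totalDegree * N ^ (n * n) := h2
    _ ≤ 2 * n ^ 3 * N ^ (n * n) := Nat.mul_le_mul_right _ hdeg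

end Pool.Agent.Lib.Wsm
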